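import Mathlib

set_option autoImplicit false

/-!
# A Folner type lemma for finitely generated groups of real numbers
-/

namespace Pool.Agent.TH932.Fol

open Finset Filter
open scoped Pointwise

/-- integer combinations of a finite set with coefficients bounded by `B` -/
noncomputable def Lam (T : Finset ℝ) (B : ℕ) : Finset ℝ := by
  classical
  exact (Fintype.piFinset (fun _ : T => Finset.Icc (-(B : ℤ)) B)).image
    (fun m => ∑ t : T, (m t : ℝ) * t)

lemma mem_Lam {T : Finset ℝ} {B : ℕ} {x : ℝ} :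
    x ∈ Lam T B ↔ ∃ m : T → ℤ, (∀ t, |m t| ≤ B) ∧ x = ∑ t : T, (m t : ℝ) * t := by
  unfold Lam
  simp only [Finset.mem_image, Fintype.mem_piFinset, Finset.mem_Icc]
  constructor
  · rintro ⟨m, hm, rfl⟩
    exact ⟨m, fun t => abs_le.2 (hm t), rfl⟩
  · rintro ⟨m, hm, rfl⟩
    exact ⟨m, fun t => abs_le.1 (hm t), rfl⟩

lemma card_Lam (T : Finset ℝ) (B : ℕ) : (Lam T B).card ≤ (2 * B + 1) ^ T.card := by
  classical
  unfold Lam
  refine Finset.card_image_le.trans ?_
  rw [Fintype.card_piFinset]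
  simp only [Int.card_Icc, Finset.prod_const, Finset.card_univ, Fintype.card_coe]
  apply le_of_eq
  congr 1
  omega

lemma Lam_mono {T : Finset ℝ} {B B' : ℕ} (h : B ≤ B') : Lam T B ⊆ Lam T B' := by
  intro x hx
  rw [mem_Lam] at hx ⊢
  obtain ⟨m, hm, rfl⟩ := hx
  exact ⟨m, fun t => (hm t).trans (by exact_mod_cast h), rfl⟩

lemma Lam_add {T : Finset ℝ} {B B' : ℕ} {x y : ℝ} (hx : x ∈ Lam T B) (hy : y ∈ Lam T B') :
    x + y ∈ Lam T (B + B') := by
  rw [mem_Lam] at hx hy ⊢
  obtain ⟨m, hm, rfl⟩ := hx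
  obtain ⟨m', hm', rfl⟩ := hy
  refine ⟨fun t => m t + m' t, fun t => ?_, ?_⟩
  · refine (abs_add_le _ _).trans ?_
    push_cast
    exact add_le_add (hm t) (hm' t)
  · rw [← Finset.sum_add_distrib]
    apply Finset.sum_congr rfl
    intro t _
    push_cast; ring

lemma Lam_mul {T : Finset ℝ} {B : ℕ} {x : ℝ} (hx : x ∈ Lam T B) (j : ℤ) :
    (j : ℝ) * x ∈ Lam T (j.natAbs * B) := by
  rw [mem_Lam] at hx ⊢
  obtain ⟨m, hm, rfl⟩ := hx
  refine ⟨fun t => j * m t, fun t => ?_, ?_⟩
  · rw [abs_mul]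
    push_cast
    exact mul_le_mul_of_nonneg_left (hm t) (abs_nonneg _)
  · rw [Finset.mul_sum]
    apply Finset.sum_congr rfl
    intro t _
    push_cast; ring

lemma mem_Lam_one {T : Finset ℝ} {t : ℝ} (ht : t ∈ T) : t ∈ Lam T 1 := by
  classical
  rw [mem_Lam]
  refine ⟨fun s => if s = ⟨t, ht⟩ then 1 else 0, fun s => ?_, ?_⟩
  · dsimp only
    split_ifs <;> simp
  · rw [Finset.sum_eq_single ⟨t, ht⟩]
    · simp
    · intro b _ hb; simp [hb]
    · simp

lemma zero_mem_Lam (T : Finset ℝ) (B : ℕ) : (0 : ℝ) ∈ Lam T B := by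
  rw [mem_Lam]
  exact ⟨fun _ => 0, fun t => by simp, by simp⟩

lemma int_mem_Lam {T : Finset ℝ} (h1 : (1 : ℝ) ∈ T) (j : ℤ) : (j : ℝ) ∈ Lam T j.natAbs := by
  have := Lam_mul (mem_Lam_one h1) j
  simpa using this

/-- the part in the unit interval -/
noncomputable def slab (T : Finset ℝ) (B : ℕ) : Finset ℝ := (Lam T B).filter fun x => 0 ≤ x ∧ x < 1

lemma slab_pos (T : Finset ℝ) (B : ℕ) : 1 ≤ (slab T B).card := by
  rw [Nat.one_le_iff_ne_zero, Finset.card_ne_zero]
  exact ⟨0, by simp [slab, zero_mem_Lam]⟩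

lemma exists_scale (T : Finset ℝ) (R P Q : ℕ) (h : Q < P) :
    ∃ B : ℕ, Q * (slab T (B + R)).card < P * (slab T B).card := by
  by_contra hcon
  push Not at hcon
  have h1 : ∀ k : ℕ, P ^ k ≤ Q ^ k * (slab T (k * R)).card := by
    intro k
    induction k with
    | zero => simpa using slab_pos T 0
    | succ k ih =>
      have h2 := hcon (k * R)
      calc P ^ (k + 1) = P * P ^ k := by ring
        _ ≤ P * (Q ^ k * (slab T (k * R)).card) := by gcongr
        _ = Q ^ k * (P * (slab T (k * R)).card) := by ring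
        _ ≤ Q ^ k * (Q * (slab T (k * R + R)).card) := by gcongr
        _ = Q ^ (k + 1) * (slab T ((k + 1) * R)).card := by
          rw [show (k + 1) * R = k * R + R by ring]; ring
  rcases Nat.eq_zero_or_pos Q with h0 | h0
  · subst h0
    have := h1 1
    simp at this
    omega
  · have hQ : (0 : ℝ) < Q := by exact_mod_cast h0
    have hρ : (1 : ℝ) < (P : ℝ) / Q := by
      rw [one_lt_div hQ]; exact_mod_cast h
    set g := T.card with hg
    have h3 : ∀ k : ℕ, 1 ≤ k → ((P : ℝ) / Q) ^ k ≤ (2 * R + 1) ^ g * (k : ℝ) ^ g := by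
      intro k hk
      have h4 := h1 k
      have h5 : (slab T (k * R)).card ≤ (2 * (k * R) + 1) ^ g :=
        (Finset.card_filter_le _ _).trans (card_Lam T (k * R))
      have h6 : ((P : ℝ)) ^ k ≤ (Q : ℝ) ^ k * (2 * (k * R) + 1) ^ g := by
        have : P ^ k ≤ Q ^ k * (2 * (k * R) + 1) ^ g := h4.trans (by gcongr)
        exact_mod_cast this
      rw [div_pow, div_le_iff₀ (by positivity)]
      refine h6.trans ?_
      rw [mul_comm]
      have h7 : (2 * (k * R) + 1 : ℝ) ≤ (2 * R + 1) * k := by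
        have : (1 : ℝ) ≤ k := by exact_mod_cast hk
        nlinarith
      have h8 : ((2 * (k * R) + 1 : ℝ)) ^ g ≤ (2 * R + 1) ^ g * (k : ℝ) ^ g := by
        rw [← mul_pow]
        gcongr
      gcongr
    have h9 := tendsto_pow_const_div_const_pow_of_one_lt g hρ
    have hc : (0 : ℝ) < 1 / (2 * R + 1) ^ g := by positivity
    obtain ⟨k, hk1, hk2⟩ := ((h9.eventually (gt_mem_nhds hc)).and (eventually_ge_atTop 1)).exists
    have h10 := h3 k hk2
    have h11 : (0 : ℝ) < ((P : ℝ) / Q) ^ k := by positivity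
    rw [div_lt_div_iff₀ h11 (by positivity)] at hk1
    linarith

theorem folner (T : Finset ℝ) (b E D u v : ℕ) (hT : ∀ t ∈ T, -(b : ℝ) ≤ t)
    (h : v * (E + b) < u * D) : ∃ Om : Finset ℝ, (∀ x ∈ Om, 0 ≤ x ∧ x < D) ∧
      v * ((Om + T).filter (fun x : ℝ => x < (E : ℝ))).card < u * Om.card := by
  classical
  set T' : Finset ℝ := insert 1 T with hT'
  have h1 : (1 : ℝ) ∈ T' := Finset.mem_insert_self _ _
  set R : ℕ := D + 1 + E + b with hR
  obtain ⟨B, hB⟩ := exists_scale T' R (u * D) (v * (E + b)) h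
  set Om : Finset ℝ := (Lam T' (B + D)).filter fun x => 0 ≤ x ∧ x < D with hOm
  refine ⟨Om, fun x hx => (Finset.mem_filter.1 hx).2, ?_⟩
  have hlow : D * (slab T' B).card ≤ Om.card := by
    rw [← Finset.card_range D, ← Finset.card_product]
    apply Finset.card_le_card_of_injOn (fun x : ℕ × ℝ => (x.1 : ℝ) + x.2)
    · rintro ⟨j, x⟩ hx
      simp only [coe_product, Set.mem_prod, mem_coe, Finset.mem_range, slab,
        Finset.mem_filter] at hx
      obtain ⟨hj, hx1, hx2, hx3⟩ := hx
      simp only [hOm, coe_filter, Set.mem_ofPred_eq]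
      refine ⟨?_, by positivity, ?_⟩
      · have h2 := int_mem_Lam h1 (j : ℤ)
        have h3 := Lam_add h2 hx1
        rw [Int.cast_natCast, Int.natAbs_natCast] at h3
        exact Lam_mono (by omega) h3
      · have : (j : ℝ) + 1 ≤ D := by exact_mod_cast hj
        linarith
    · rintro ⟨j, x⟩ hx ⟨j', x'⟩ hx' heq
      simp only [coe_product, Set.mem_prod, mem_coe, Finset.mem_range, slab,
        Finset.mem_filter] at hx hx'
      simp only at heq
      have h4 : j = j' := by
        have e1 : (j : ℝ) < j' + 1 := by linarith [hx.2.2.1, hx'.2.2.2]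
        have e2 : (j' : ℝ) < j + 1 := by linarith [hx'.2.2.1, hx.2.2.2]
        have e1' : j < j' + 1 := by exact_mod_cast e1
        have e2' : j' < j + 1 := by exact_mod_cast e2
        omega
      subst h4
      have : x = x' := by linarith
      rw [this]
  have hup : ((Om + T).filter (fun x : ℝ => x < (E : ℝ))).card ≤ (E + b) * (slab T' (B + R)).card := by
    rw [← Finset.card_range (E + b), ← Finset.card_product]
    apply Finset.card_le_card_of_injOn (fun x : ℝ => ((⌊x⌋ + b).toNat, x - ⌊x⌋))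
    · intro x hx
      simp only [coe_filter, Set.mem_ofPred_eq] at hx
      obtain ⟨hx1, hx2⟩ := hx
      obtain ⟨y, hy, t, ht, rfl⟩ := Finset.mem_add.1 hx1
      have hy' := Finset.mem_filter.1 hy
      have hfl1 : -(b : ℤ) ≤ ⌊y + t⌋ := by
        apply Int.le_floor.2
        push_cast
        linarith [hT t ht, hy'.2.1]
      have hfl2 : ⌊y + t⌋ < E := by
        apply Int.floor_lt.2
        simpa using hx2
      simp only [coe_product, Set.mem_prod, mem_coe, Finset.mem_range, slab,
        Finset.mem_filter]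
      refine ⟨?_, ?_, ?_, ?_⟩
      · omega
      · have h2 := Lam_add hy'.1 (mem_Lam_one (show t ∈ T' from Finset.mem_insert_of_mem ht))
        have h3 := Lam_add h2 (int_mem_Lam h1 (-⌊y + t⌋))
        have h5 : y + t + ((-⌊y + t⌋ : ℤ) : ℝ) = y + t - ⌊y + t⌋ := by push_cast; ring
        rw [h5] at h3
        refine Lam_mono ?_ h3
        omega
      · linarith [Int.floor_le (y + t)]
      · linarith [Int.lt_floor_add_one (y + t)]
    · intro x hx x' hx' heq
      simp only [coe_filter, Set.mem_ofPred_eq] at hx hx'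
      simp only [Prod.mk.injEq] at heq
      obtain ⟨e1, e2⟩ := heq
      have hb : ∀ x ∈ Om + T, -(b : ℤ) ≤ ⌊x⌋ := by
        intro x hx
        obtain ⟨y, hy, t, ht, rfl⟩ := Finset.mem_add.1 hx
        have hy' := Finset.mem_filter.1 hy
        apply Int.le_floor.2
        push_cast
        linarith [hT t ht, hy'.2.1]
      have := hb x hx.1
      have := hb x' hx'.1
      have e3 : ⌊x⌋ = ⌊x'⌋ := by omega
      rw [e3] at e2
      linarith
  calc v * ((Om + T).filter (fun x : ℝ => x < (E : ℝ))).card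
      ≤ v * ((E + b) * (slab T' (B + R)).card) := by gcongr
    _ = v * (E + b) * (slab T' (B + R)).card := by ring
    _ < u * D * (slab T' B).card := hB
    _ = u * (D * (slab T' B).card) := by ring
    _ ≤ u * Om.card := by gcongr

end Pool.Agent.TH932.Fol
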