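import Mathlib

set_option autoImplicit false

/-!
# Standard monomials of ideals in polynomial rings over a domain
-/

namespace Pool.Agent.TH932.Std

open MvPolynomial

variable {r : ℕ} {R : Type*} [CommRing R]

/-- the degree-lexicographic order -/
noncomputable abbrev mo (r : ℕ) : MonomialOrder (Fin r) := MonomialOrder.degLex

/-- leading exponents of the nonzero elements of an ideal -/
def lead (J : Ideal (MvPolynomial (Fin r) R)) : Set (Fin r →₀ ℕ) :=
  {μ | ∃ f ∈ J, f ≠ 0 ∧ (mo r).degree f = μ}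

/-- standard exponents of degree at most `m` -/
def std (J : Ideal (MvPolynomial (Fin r) R)) (m : ℕ) : Set (Fin r →₀ ℕ) :=
  {μ | μ ∉ lead J ∧ μ.degree ≤ m}

lemma deg_le_finite (m : ℕ) : {μ : Fin r →₀ ℕ | μ.degree ≤ m}.Finite := by
  refine (Set.finite_Iic (Finsupp.equivFunOnFinite.symm (fun _ : Fin r => m))).subset ?_
  intro μ hμ
  rw [Set.mem_ofPred_eq] at hμ
  intro i
  simp only [Finsupp.equivFunOnFinite_symm_apply_apply]
  exact (Finsupp.le_degree i μ).trans hμ

lemma std_finite (J : Ideal (MvPolynomial (Fin r) R)) (m : ℕ) : (std J m).Finite :=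
  (deg_le_finite m).subset fun _ h => h.2

/-- the Hilbert function -/
noncomputable def hil (J : Ideal (MvPolynomial (Fin r) R)) (m : ℕ) : ℕ := (std J m).ncard

lemma degree_mono {μ ν : Fin r →₀ ℕ} (h : (mo r).toSyn μ ≤ (mo r).toSyn ν) :
    μ.degree ≤ ν.degree := Finsupp.DegLex.monotone_degree h

/-- some nonzero multiple of `g` is congruent modulo `M` to a combination of exponents in `S` -/
def RedG (M : Ideal (MvPolynomial (Fin r) R)) (S : Set (Fin r →₀ ℕ))
    (g : MvPolynomial (Fin r) R) : Prop :=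
  ∃ c : R, c ≠ 0 ∧ ∃ N : MvPolynomial (Fin r) R, (∀ ν ∈ N.support, ν ∈ S) ∧ C c * g - N ∈ M

/-- `g` reduces to a combination of standard monomials of degree at most `m` -/
def Red (J : Ideal (MvPolynomial (Fin r) R)) (m : ℕ) (g : MvPolynomial (Fin r) R) : Prop :=
  RedG J (std J m) g

variable {J M : Ideal (MvPolynomial (Fin r) R)} {m : ℕ} {S : Set (Fin r →₀ ℕ)}

lemma supp_add {N N' : MvPolynomial (Fin r) R} {S : Set (Fin r →₀ ℕ)}
    (h : ∀ ν ∈ N.support, ν ∈ S) (h' : ∀ ν ∈ N'.support, ν ∈ S) :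
    ∀ ν ∈ (N + N').support, ν ∈ S := by
  intro ν hν
  rcases Finset.mem_union.1 (MvPolynomial.support_add hν) with h1 | h1
  · exact h ν h1
  · exact h' ν h1

lemma supp_C_mul {N : MvPolynomial (Fin r) R} {S : Set (Fin r →₀ ℕ)} (c : R)
    (h : ∀ ν ∈ N.support, ν ∈ S) : ∀ ν ∈ (C c * N).support, ν ∈ S := by
  intro ν hν
  apply h
  rw [mem_support_iff] at hν ⊢
  rw [coeff_C_mul] at hν
  exact right_ne_zero_of_mul hν

lemma supp_sum {ι : Type*} (s : Finset ι) (N : ι → MvPolynomial (Fin r) R)
    (h : ∀ i ∈ s, ∀ ν ∈ (N i).support, ν ∈ S) : ∀ ν ∈ (∑ i ∈ s, N i).support, ν ∈ S :=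
  Finset.sum_induction N (fun g => ∀ ν ∈ g.support, ν ∈ S) (fun _ _ => supp_add) (by simp) h

variable [IsDomain R]

lemma RedG.zero : RedG M S 0 :=
  ⟨1, one_ne_zero, 0, by simp, by simp⟩

lemma RedG.add {g h : MvPolynomial (Fin r) R} (hg : RedG M S g) (hh : RedG M S h) :
    RedG M S (g + h) := by
  obtain ⟨c, hc, N, hN, h1⟩ := hg
  obtain ⟨c', hc', N', hN', h1'⟩ := hh
  refine ⟨c' * c, mul_ne_zero hc' hc, C c' * N + C c * N', ?_, ?_⟩
  · exact supp_add (supp_C_mul _ hN) (supp_C_mul _ hN')
  · have := M.add_mem (M.mul_mem_left (C c') h1) (M.mul_mem_left (C c) h1')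
    convert this using 1
    rw [C_mul]; ring

omit [IsDomain R] in
lemma RedG.C_mul {g : MvPolynomial (Fin r) R} (a : R) (hg : RedG M S g) :
    RedG M S (C a * g) := by
  obtain ⟨c, hc, N, hN, h1⟩ := hg
  refine ⟨c, hc, C a * N, supp_C_mul _ hN, ?_⟩
  convert M.mul_mem_left (C a) h1 using 1
  ring

lemma RedG.of_C_mul {g : MvPolynomial (Fin r) R} {a : R} (ha : a ≠ 0) (hg : RedG M S (C a * g)) :
    RedG M S g := by
  obtain ⟨c, hc, N, hN, h1⟩ := hg
  refine ⟨c * a, mul_ne_zero hc ha, N, hN, ?_⟩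
  rw [MvPolynomial.C_mul, mul_assoc]; exact h1

lemma RedG.sum {ι : Type*} (s : Finset ι) (g : ι → MvPolynomial (Fin r) R)
    (h : ∀ i ∈ s, RedG M S (g i)) : RedG M S (∑ i ∈ s, g i) :=
  Finset.sum_induction g (RedG M S) (fun _ _ => RedG.add) RedG.zero h

lemma RedG.of_monomials {g : MvPolynomial (Fin r) R}
    (hg : ∀ ν ∈ g.support, RedG M S (MvPolynomial.monomial ν 1)) : RedG M S g := by
  rw [← MvPolynomial.support_sum_monomial_coeff g]
  apply RedG.sum
  intro ν hν
  have h5 : MvPolynomial.monomial ν (g.coeff ν)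
      = C (g.coeff ν) * MvPolynomial.monomial ν (1 : R) := by
    rw [C_mul_monomial, mul_one]
  rw [h5]
  exact (hg ν hν).C_mul _

/-- a common multiplier for a finite family -/
lemma RedG.common {ι : Type*} [Finite ι] {g : ι → MvPolynomial (Fin r) R}
    (h : ∀ i, RedG M S (g i)) :
    ∃ c : R, c ≠ 0 ∧ ∃ N : ι → MvPolynomial (Fin r) R,
      (∀ i, ∀ ν ∈ (N i).support, ν ∈ S) ∧ ∀ i, C c * g i - N i ∈ M := by
  classical
  cases nonempty_fintype ι
  choose c hc N hN h1 using h
  refine ⟨∏ i, c i, Finset.prod_ne_zero_iff.2 fun i _ => hc i,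
    fun i => C (∏ j ∈ Finset.univ.erase i, c j) * N i, fun i => supp_C_mul _ (hN i), fun i => ?_⟩
  rw [← Finset.mul_prod_erase Finset.univ c (Finset.mem_univ i), MvPolynomial.C_mul]
  convert M.mul_mem_left (C (∏ j ∈ Finset.univ.erase i, c j)) (h1 i) using 1
  ring

/-- every monomial of degree at most `m` reduces -/
lemma Red.monomial (μ : Fin r →₀ ℕ) (hμ : μ.degree ≤ m) :
    Red J m (MvPolynomial.monomial μ (1 : R)) := by
  classical
  have key : ∀ s : (mo r).syn, ∀ μ : Fin r →₀ ℕ, (mo r).toSyn μ = s → μ.degree ≤ m →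
      Red J m (MvPolynomial.monomial μ (1 : R)) := by
    intro s
    induction s using WellFoundedLT.induction with
    | ind s ih =>
      intro μ hs hm
      by_cases hl : μ ∈ lead J
      · obtain ⟨f, hf, hf0, hd⟩ := hl
        have h0 : RedG J (std J m) f := ⟨1, one_ne_zero, 0, by simp, by simpa using hf⟩
        have h1 : f = MvPolynomial.monomial μ (f.coeff μ)
            + ∑ ν ∈ f.support.erase μ, MvPolynomial.monomial ν (f.coeff ν) := by
          have hmem : μ ∈ f.support := by
            rw [← hd]; exact (mo r).degree_mem_support hf0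
          rw [Finset.add_sum_erase _ (fun ν => MvPolynomial.monomial ν (f.coeff ν)) hmem]
          exact (MvPolynomial.support_sum_monomial_coeff f).symm
        have h2 : RedG J (std J m) (∑ ν ∈ f.support.erase μ, MvPolynomial.monomial ν (f.coeff ν)) := by
          apply RedG.sum
          intro ν hν
          have hν1 := (Finset.mem_erase.1 hν).1
          have hν2 := (Finset.mem_erase.1 hν).2
          have h3 : (mo r).toSyn ν < (mo r).toSyn μ := by
            refine lt_of_le_of_ne ?_ ?_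
            · rw [← hd]; exact (mo r).le_degree hν2
            · intro h; exact hν1 ((mo r).toSyn.injective h)
          have h4 := ih _ (hs ▸ h3) ν rfl ((degree_mono h3.le).trans hm)
          have h5 : MvPolynomial.monomial ν (f.coeff ν)
              = C (f.coeff ν) * MvPolynomial.monomial ν (1 : R) := by
            rw [C_mul_monomial, mul_one]
          rw [h5]; exact h4.C_mul _
        have h3 : RedG J (std J m) (MvPolynomial.monomial μ (f.coeff μ)) := by
          have h4 : MvPolynomial.monomial μ (f.coeff μ) = f + C (-1 : R) *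
              ∑ ν ∈ f.support.erase μ, MvPolynomial.monomial ν (f.coeff ν) := by
            rw [C_neg, C_1]
            nth_rewrite 2 [h1]
            ring
          rw [h4]; exact h0.add (h2.C_mul _)
        have h5 : MvPolynomial.monomial μ (f.coeff μ)
            = C (f.coeff μ) * MvPolynomial.monomial μ (1 : R) := by
          rw [C_mul_monomial, mul_one]
        rw [h5] at h3
        refine h3.of_C_mul ?_
        rw [← hd]
        exact (mo r).leadingCoeff_ne_zero_iff.2 hf0
      · refine ⟨1, one_ne_zero, MvPolynomial.monomial μ 1, ?_, by simp⟩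
        intro ν hν
        have := MvPolynomial.support_monomial_subset hν
        rw [Finset.mem_singleton] at this
        rw [this]; exact ⟨hl, hm⟩
  exact key _ μ rfl hμ

lemma Red.of_degree {g : MvPolynomial (Fin r) R}
    (hg : ∀ ν ∈ g.support, ν.degree ≤ m) : Red J m g :=
  RedG.of_monomials fun ν hν => Red.monomial ν (hg ν hν)

omit [IsDomain R] in
/-- standard combinations are not in the ideal -/
lemma eq_zero_of_mem {N : MvPolynomial (Fin r) R} (hN : ∀ ν ∈ N.support, ν ∈ std J m)
    (h : N ∈ J) : N = 0 := by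
  by_contra h0
  exact (hN _ ((mo r).degree_mem_support h0)).1 ⟨N, h, h0, rfl⟩

lemma lead_add {μ : Fin r →₀ ℕ} (ν : Fin r →₀ ℕ) (h : μ ∈ lead J) : μ + ν ∈ lead J := by
  obtain ⟨f, hf, hf0, hd⟩ := h
  have h1 : (MvPolynomial.monomial ν (1 : R)) ≠ 0 := by
    rw [Ne, MvPolynomial.monomial_eq_zero]; exact one_ne_zero
  refine ⟨f * MvPolynomial.monomial ν 1, J.mul_mem_right _ hf, mul_ne_zero hf0 h1, ?_⟩
  rw [(mo r).degree_mul hf0 h1, hd]
  classical
  rw [(mo r).degree_monomial, if_neg one_ne_zero]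

/-- more combinations than exponents are dependent -/
lemma dependent {ι : Type*} [Fintype ι] {S : Set (Fin r →₀ ℕ)} (hS : S.Finite)
    (N : ι → MvPolynomial (Fin r) R) (hN : ∀ i, ∀ ν ∈ (N i).support, ν ∈ S)
    (hc : S.ncard < Fintype.card ι) :
    ∃ a : ι → R, (∃ i, a i ≠ 0) ∧ ∑ i, C (a i) * N i = 0 := by
  classical
  have := hS.fintype
  let v : ι → (S → R) := fun i ν => (N i).coeff ν
  have h1 : ¬ LinearIndependent R v := by
    intro h
    have h2 := h.fintype_card_le_finrank
    rw [Module.finrank_fintype_fun_eq_card] at h2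
    rw [← Nat.card_coe_set_eq, Nat.card_eq_fintype_card] at hc
    omega
  rw [Fintype.not_linearIndependent_iff] at h1
  obtain ⟨a, ha, i, hi⟩ := h1
  refine ⟨a, ⟨i, hi⟩, ?_⟩
  ext ν
  rw [MvPolynomial.coeff_sum, coeff_zero]
  simp only [coeff_C_mul]
  by_cases hν : ν ∈ S
  · have := congrFun ha ⟨ν, hν⟩
    simpa [v] using this
  · apply Finset.sum_eq_zero
    intro i _
    have : (N i).coeff ν = 0 := by
      by_contra h
      exact hν (hN i ν (mem_support_iff.2 h))
    rw [this, mul_zero]

end Pool.Agent.TH932.Std
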