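import Mathlib
import Pool.Agent.TH932.Std

set_option autoImplicit false

/-!
# The number of exponents outside an up-set is eventually a polynomial with rational coefficients
-/

namespace Pool.Agent.TH932.Cnt

open Filter Finset

/-- eventually equal to a polynomial with rational coefficients -/
def EvPoly (f : ℕ → ℚ) : Prop := ∃ P : Polynomial ℚ, ∀ᶠ n in atTop, f n = P.eval (n : ℚ)

lemma EvPoly.add {f g : ℕ → ℚ} (hf : EvPoly f) (hg : EvPoly g) : EvPoly (fun n => f n + g n) := by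
  obtain ⟨P, hP⟩ := hf
  obtain ⟨Q, hQ⟩ := hg
  refine ⟨P + Q, ?_⟩
  filter_upwards [hP, hQ] with n h1 h2
  rw [h1, h2, Polynomial.eval_add]

lemma EvPoly.const (c : ℚ) : EvPoly (fun _ => c) := ⟨Polynomial.C c, by simp⟩

lemma EvPoly.congr {f g : ℕ → ℚ} (hf : EvPoly f) (h : ∀ᶠ n in atTop, g n = f n) : EvPoly g := by
  obtain ⟨P, hP⟩ := hf
  refine ⟨P, ?_⟩
  filter_upwards [hP, h] with n h1 h2
  rw [h2, h1]

lemma EvPoly.sum {ι : Type*} (s : Finset ι) (f : ι → ℕ → ℚ) (h : ∀ i ∈ s, EvPoly (f i)) :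
    EvPoly (fun n => ∑ i ∈ s, f i n) := by
  classical
  induction s using Finset.induction_on with
  | empty => simpa using EvPoly.const 0
  | insert a s ha ih =>
    simp only [Finset.sum_insert ha]
    exact (h a (Finset.mem_insert_self a s)).add
      (ih fun i hi => h i (Finset.mem_insert_of_mem hi))

lemma EvPoly.shift {f : ℕ → ℚ} (hf : EvPoly f) (j : ℕ) : EvPoly (fun n => f (n - j)) := by
  obtain ⟨P, hP⟩ := hf
  refine ⟨P.comp (Polynomial.X - Polynomial.C (j : ℚ)), ?_⟩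
  have h1 : ∀ᶠ n in atTop, f (n - j) = P.eval ((n - j : ℕ) : ℚ) :=
    (tendsto_sub_atTop_nat j).eventually hP
  filter_upwards [h1, eventually_ge_atTop j] with n h1 h2
  rw [h1, Polynomial.eval_comp]
  simp [Nat.cast_sub h2]

lemma EvPoly.succ {f : ℕ → ℚ} (hf : EvPoly f) : EvPoly (fun n => f (n + 1)) := by
  obtain ⟨P, hP⟩ := hf
  refine ⟨P.comp (Polynomial.X + Polynomial.C (1 : ℚ)), ?_⟩
  have h1 : ∀ᶠ n in atTop, f (n + 1) = P.eval ((n + 1 : ℕ) : ℚ) :=
    (tendsto_add_atTop_nat 1).eventually hP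
  filter_upwards [h1] with n h1
  rw [h1, Polynomial.eval_comp]
  simp

/-- polynomials have polynomial partial sums -/
lemma exists_sum_range (P : Polynomial ℚ) :
    ∃ Q : Polynomial ℚ, ∀ n : ℕ, ∑ i ∈ range n, P.eval (i : ℚ) = Q.eval (n : ℚ) := by
  induction P using Polynomial.induction_on' with
  | add p q hp hq =>
    obtain ⟨P, hP⟩ := hp
    obtain ⟨Q, hQ⟩ := hq
    refine ⟨P + Q, fun n => ?_⟩
    simp only [Polynomial.eval_add, Finset.sum_add_distrib, hP, hQ]
  | monomial p a =>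
    refine ⟨Polynomial.C a * ∑ i ∈ range (p + 1), Polynomial.C (bernoulli i * ((p + 1).choose i) / (p + 1))
      * Polynomial.X ^ (p + 1 - i), fun n => ?_⟩
    simp only [Polynomial.eval_monomial, ← Finset.mul_sum, sum_range_pow, Polynomial.eval_mul,
      Polynomial.eval_C, Polynomial.eval_finsetSum, Polynomial.eval_pow, Polynomial.eval_X]
    congr 1
    apply Finset.sum_congr rfl
    intro i _
    ring

lemma EvPoly.sum_range {f : ℕ → ℚ} (hf : EvPoly f) : EvPoly (fun n => ∑ i ∈ range n, f i) := by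
  obtain ⟨P, hP⟩ := hf
  obtain ⟨N, hN⟩ := eventually_atTop.1 hP
  obtain ⟨Q, hQ⟩ := exists_sum_range P
  refine ⟨Polynomial.C (∑ i ∈ range N, (f i - P.eval (i : ℚ))) + Q, ?_⟩
  filter_upwards [eventually_ge_atTop N] with n hn
  rw [Polynomial.eval_add, Polynomial.eval_C, ← hQ, Finset.sum_sub_distrib]
  obtain ⟨k, rfl⟩ := Nat.exists_eq_add_of_le hn
  rw [Finset.sum_range_add f, Finset.sum_range_add (fun i : ℕ => P.eval (i : ℚ))]
  have : ∑ x ∈ range k, f (N + x) = ∑ x ∈ range k, P.eval (((N + x : ℕ)) : ℚ) :=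
    Finset.sum_congr rfl fun x _ => hN _ (Nat.le_add_right _ _)
  rw [this]
  ring

/-- the number of exponents outside `U` of degree at most `m` -/
noncomputable def cnt {r : ℕ} (U : Set (Fin r →₀ ℕ)) (m : ℕ) : ℕ :=
  {μ : Fin r →₀ ℕ | μ ∉ U ∧ μ.degree ≤ m}.ncard

/-- slices -/
def slice {r : ℕ} (U : Set (Fin (r + 1) →₀ ℕ)) (j : ℕ) : Set (Fin r →₀ ℕ) :=
  {μ | Finsupp.cons j μ ∈ U}

lemma fin_aux {r : ℕ} (U : Set (Fin r →₀ ℕ)) (m : ℕ) :
    {μ : Fin r →₀ ℕ | μ ∉ U ∧ μ.degree ≤ m}.Finite :=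
  (Std.deg_le_finite m).subset fun _ h => h.2

lemma degree_cons {r : ℕ} (j : ℕ) (μ : Fin r →₀ ℕ) :
    (Finsupp.cons j μ).degree = j + μ.degree := by
  rw [Finsupp.degree_eq_sum, Finsupp.degree_eq_sum, Fin.sum_univ_succ]
  simp

lemma cnt_succ {r : ℕ} (U : Set (Fin (r + 1) →₀ ℕ)) (m : ℕ) :
    cnt U m = ∑ j ∈ range (m + 1), cnt (slice U j) (m - j) := by
  classical
  unfold cnt
  rw [Set.ncard_eq_toFinset_card _ (fin_aux U m)]
  rw [Finset.card_eq_sum_card_fiberwise (f := fun μ : Fin (r + 1) →₀ ℕ => μ 0)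
    (t := range (m + 1))]
  · apply Finset.sum_congr rfl
    intro j hj
    have hj' : j ≤ m := Nat.lt_succ_iff.1 (Finset.mem_range.1 hj)
    rw [← Set.ncard_image_of_injective _ (Finsupp.cons_right_injective (y := j)),
      ← Set.ncard_coe_finset]
    congr 1
    ext μ
    simp only [coe_filter, Set.Finite.mem_toFinset, Set.mem_ofPred_eq, slice, Set.mem_image]
    constructor
    · rintro ⟨⟨h1, h2⟩, h3⟩
      refine ⟨Finsupp.tail μ, ⟨?_, ?_⟩, ?_⟩
      · rw [← h3, Finsupp.cons_tail]; exact h1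
      · have := degree_cons j (Finsupp.tail μ)
        rw [← h3, Finsupp.cons_tail] at this
        omega
      · rw [← h3, Finsupp.cons_tail]
    · rintro ⟨ν, ⟨h1, h2⟩, rfl⟩
      refine ⟨⟨h1, ?_⟩, by simp⟩
      rw [degree_cons]; omega
  · intro μ hμ
    simp only [coe_range, Set.mem_Iio, Set.Finite.coe_toFinset, Set.mem_ofPred_eq] at hμ ⊢
    have := Finsupp.le_degree 0 μ
    omega

/-- an increasing sequence of up-sets is eventually constant -/
lemma stabilise {r : ℕ} (U : ℕ → Set (Fin r →₀ ℕ)) (hmono : ∀ i j, i ≤ j → U i ⊆ U j)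
    (hup : ∀ j, ∀ μ ∈ U j, ∀ ν, μ + ν ∈ U j) : ∃ j0, ∀ j, j0 ≤ j → U j = U j0 := by
  by_contra hcon
  push Not at hcon
  choose g hg1 hg2 using hcon
  have h1 : ∀ j, ∃ μ, μ ∈ U (g j) ∧ μ ∉ U j := by
    intro j
    by_contra h
    push Not at h
    exact hg2 j (Set.Subset.antisymm (fun μ hμ => h μ hμ) (hmono _ _ (hg1 j)))
  choose μ hμ1 hμ2 using h1
  have hlt : ∀ j, j < g j := by
    intro j
    refine lt_of_le_of_ne (hg1 j) fun h => ?_
    exact hg2 j (by rw [← h])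
  obtain ⟨m, n, hmn, hle⟩ := wellQuasiOrdered_le (fun k => μ (g^[k] 0))
  have h2 : μ (g^[m] 0) ∈ U (g^[n] 0) := by
    have h3 : g (g^[m] 0) ≤ g^[n] 0 := by
      rw [← Function.iterate_succ_apply' g m 0]
      have hmon : Monotone (fun k => g^[k] 0) :=
        monotone_nat_of_le_succ fun k => by
          simp only [Function.iterate_succ_apply']
          exact hg1 _
      exact hmon hmn
    exact hmono _ _ h3 (hμ1 _)
  obtain ⟨ν, hν⟩ := exists_add_of_le hle
  exact hμ2 (g^[n] 0) (by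
    have h5 := hup _ _ h2 ν
    rw [← hν] at h5
    exact h5)

lemma slice_up {r : ℕ} {U : Set (Fin (r + 1) →₀ ℕ)} (hup : ∀ μ ∈ U, ∀ ν, μ + ν ∈ U) (j : ℕ) :
    ∀ μ ∈ slice U j, ∀ ν, μ + ν ∈ slice U j := by
  intro μ hμ ν
  have := hup _ hμ (Finsupp.cons 0 ν)
  have h : Finsupp.cons j μ + Finsupp.cons 0 ν = Finsupp.cons j (μ + ν) := by
    ext i
    refine Fin.cases ?_ (fun i => ?_) i <;> simp
  rw [h] at this
  exact this

lemma slice_mono {r : ℕ} {U : Set (Fin (r + 1) →₀ ℕ)} (hup : ∀ μ ∈ U, ∀ ν, μ + ν ∈ U)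
    (i j : ℕ) (hij : i ≤ j) : slice U i ⊆ slice U j := by
  intro μ hμ
  have := hup _ hμ (Finsupp.cons (j - i) 0)
  have h : Finsupp.cons i μ + Finsupp.cons (j - i) 0 = Finsupp.cons j μ := by
    ext k
    refine Fin.cases ?_ (fun i => ?_) k
    · simp; omega
    · simp
  rw [h] at this
  exact this

theorem cnt_evPoly : ∀ {r : ℕ} (U : Set (Fin r →₀ ℕ)), (∀ μ ∈ U, ∀ ν, μ + ν ∈ U) →
    EvPoly (fun m => (cnt U m : ℚ)) := by
  intro r
  induction r with
  | zero =>
    intro U _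
    refine (EvPoly.const (cnt U 0 : ℚ)).congr (Eventually.of_forall fun m => ?_)
    have h : ∀ μ : Fin 0 →₀ ℕ, μ.degree = 0 := fun μ => by
      rw [Finsupp.degree_eq_sum]; simp
    simp [cnt, h]
  | succ r ih =>
    intro U hup
    obtain ⟨j0, hj0⟩ := stabilise (slice U) (slice_mono hup) (slice_up hup)
    have h1 : EvPoly (fun m => ∑ j ∈ range j0, (cnt (slice U j) (m - j) : ℚ)) :=
      EvPoly.sum _ (fun j m => (cnt (slice U j) (m - j) : ℚ))
        fun j _ => EvPoly.shift (f := fun m => (cnt (slice U j) m : ℚ)) (ih _ (slice_up hup j)) j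
    have h2 : EvPoly (fun m => ∑ i ∈ range (m + 1 - j0), (cnt (slice U j0) i : ℚ)) :=
      EvPoly.succ (f := fun m => ∑ i ∈ range (m - j0), (cnt (slice U j0) i : ℚ))
        (EvPoly.shift (f := fun m => ∑ i ∈ range m, (cnt (slice U j0) i : ℚ))
          (EvPoly.sum_range (ih _ (slice_up hup j0))) j0)
    refine (h1.add h2).congr ?_
    filter_upwards [eventually_ge_atTop j0] with m hm
    rw [cnt_succ]
    push_cast
    obtain ⟨k, rfl⟩ := Nat.exists_eq_add_of_le hm
    rw [show j0 + k + 1 = j0 + (k + 1) by ring, Finset.sum_range_add, show j0 + (k + 1) - j0 = k + 1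
      by omega]
    congr 1
    rw [← Finset.sum_range_reflect]
    apply Finset.sum_congr rfl
    intro i hi
    have := Finset.mem_range.1 hi
    rw [hj0 _ (Nat.le_add_right _ _)]
    congr 2
    omega

end Pool.Agent.TH932.Cnt
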