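import Mathlib
import Pool.Agent.TH932.Std
import Pool.Agent.TH932.Cnt

set_option autoImplicit false

/-!
# The abstract argument: evaluation at a small element, ideals of small elements at one place
-/

namespace Pool.Agent.TH932.Abs

open MvPolynomial Pool.Agent.TH932.Std
open scoped Polynomial PowerSeries

variable {K G : Type*} [Field K] [Field G] [Algebra K G] {r : ℕ}

/-- a decreasing real filtration of a field, by order of smallness -/
structure Filt (K : Type*) {G : Type*} [Field K] [Field G] [Algebra K G] (S : ℝ → Set G) :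
    Prop where
  zero_mem : ∀ t, (0 : G) ∈ S t
  add_mem : ∀ {t : ℝ} {a b : G}, a ∈ S t → b ∈ S t → a + b ∈ S t
  mul_mem : ∀ {s t : ℝ} {a b : G}, a ∈ S s → b ∈ S t → a * b ∈ S (s + t)
  alg_mem : ∀ c : K, algebraMap K G c ∈ S 0
  anti : ∀ {s t : ℝ} {a : G}, s ≤ t → a ∈ S t → a ∈ S s

lemma Filt.pow_mem {S : ℝ → Set G} (hS : Filt K S) {a : G} {w : ℝ} (ha : a ∈ S w) (n : ℕ) :
    a ^ n ∈ S (w * n) := by
  induction n with
  | zero => simpa using hS.alg_mem 1
  | succ n ih =>
    rw [pow_succ]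
    have := hS.mul_mem ih ha
    convert this using 2
    push_cast; ring

variable (α : G) (z : Fin r → G)

/-- evaluation -/
noncomputable def ev (K : Type*) {G : Type*} [Field K] [Field G] [Algebra K G] {r : ℕ}
    (α : G) (z : Fin r → G) : MvPolynomial (Fin r) K[X] →+* G :=
  eval₂Hom ((Polynomial.aeval α : K[X] →ₐ[K] G) : K[X] →+* G) z

@[simp] lemma ev_C (p : K[X]) : ev K α z (C p) = Polynomial.aeval α p := by
  simp [ev]

@[simp] lemma ev_X (i : Fin r) : ev K α z (X i) = z i := by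
  simp [ev]

/-- the inclusion of polynomials in power series -/
noncomputable def io (K : Type*) [Field K] (r : ℕ) :
    MvPolynomial (Fin r) K[X] →+* MvPolynomial (Fin r) K⟦X⟧ :=
  MvPolynomial.map (Polynomial.coeToPowerSeries.ringHom : K[X] →+* K⟦X⟧)

@[simp] lemma io_C (p : K[X]) : io K r (C p) = C (p : K⟦X⟧) := by
  simp [io]

@[simp] lemma io_X (i : Fin r) : io K r (X i) = X i := by
  simp [io]

lemma io_injective : Function.Injective (io K r) :=
  MvPolynomial.map_injective _ (Polynomial.coe_injective K)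

/-- truncation -/
lemma exists_trunc (Q : MvPolynomial (Fin r) K⟦X⟧) (E : ℕ) :
    ∃ (P : MvPolynomial (Fin r) K[X]) (H : MvPolynomial (Fin r) K⟦X⟧),
      Q = io K r P + C (PowerSeries.X ^ E) * H := by
  induction Q using MvPolynomial.induction_on with
  | C f =>
    have h : PowerSeries.X ^ E ∣ f - (PowerSeries.trunc E f : K⟦X⟧) := by
      rw [PowerSeries.X_pow_dvd_iff]
      intro m hm
      rw [map_sub, Polynomial.coeff_coe, PowerSeries.coeff_trunc, if_pos hm, sub_self]
    obtain ⟨g, hg⟩ := h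
    refine ⟨C (PowerSeries.trunc E f), C g, ?_⟩
    rw [io_C, ← C_mul, ← hg, ← C_add]
    congr 1; ring
  | add p q hp hq =>
    obtain ⟨P, H, h⟩ := hp
    obtain ⟨P', H', h'⟩ := hq
    refine ⟨P + P', H + H', ?_⟩
    rw [h, h', map_add]; ring
  | mul_X p i hp =>
    obtain ⟨P, H, h⟩ := hp
    refine ⟨P * X i, H * X i, ?_⟩
    rw [h, map_mul, io_X]; ring

lemma exists_of_io_eq {P : MvPolynomial (Fin r) K[X]} {H : MvPolynomial (Fin r) K⟦X⟧} {E : ℕ}
    (h : io K r P = C (PowerSeries.X ^ E) * H) :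
    ∃ P' : MvPolynomial (Fin r) K[X], P = C (Polynomial.X ^ E) * P' := by
  have h1 : C (Polynomial.X ^ E) ∣ P := by
    rw [C_dvd_iff_dvd_coeff]
    intro i
    rw [Polynomial.X_pow_dvd_iff]
    intro d hd
    have h2 : PowerSeries.X ^ E ∣ ((MvPolynomial.coeff i P : K[X]) : K⟦X⟧) := by
      refine ⟨coeff i H, ?_⟩
      have := congrArg (coeff i) h
      rw [io, coeff_map, coeff_C_mul] at this
      exact this
    have := PowerSeries.X_pow_dvd_iff.1 h2 d hd
    rwa [Polynomial.coeff_coe] at this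
  exact h1

variable {α z} {S : ℝ → Set G} {w : ℝ}

lemma ev_mem (hS : Filt K S) (hw : 0 ≤ w) (hα : α ∈ S w) (hz : ∀ i, z i ∈ S 0)
    (P : MvPolynomial (Fin r) K[X]) : ev K α z P ∈ S 0 := by
  induction P using MvPolynomial.induction_on with
  | C f =>
    rw [ev_C, Polynomial.aeval_eq_sum_range]
    refine Finset.sum_induction _ (fun g => g ∈ S 0) (fun _ _ => hS.add_mem) (hS.zero_mem 0) ?_
    intro i _
    rw [Algebra.smul_def]
    have := hS.mul_mem (hS.alg_mem (f.coeff i)) (hS.pow_mem hα i)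
    refine hS.anti ?_ this
    positivity
  | add p q hp hq =>
    rw [map_add]; exact hS.add_mem hp hq
  | mul_X p i hp =>
    rw [map_mul, ev_X]
    simpa using hS.mul_mem hp (hz i)

lemma ev_X_pow (E : ℕ) (P : MvPolynomial (Fin r) K[X]) :
    ev K α z (C (Polynomial.X ^ E) * P) = α ^ E * ev K α z P := by
  rw [map_mul, ev_C, map_pow, Polynomial.aeval_X]

lemma ev_small (hS : Filt K S) (hw : 0 ≤ w) (hα : α ∈ S w) (hz : ∀ i, z i ∈ S 0)
    {P : MvPolynomial (Fin r) K[X]} {H : MvPolynomial (Fin r) K⟦X⟧} {E : ℕ}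
    (h : io K r P = C (PowerSeries.X ^ E) * H) : ev K α z P ∈ S (w * E) := by
  obtain ⟨P', rfl⟩ := exists_of_io_eq h
  rw [ev_X_pow]
  simpa using hS.mul_mem (hS.pow_mem hα E) (ev_mem hS hw hα hz P')

/-- the ideal of power series elements all of whose truncations are small -/
noncomputable def JJ (hS : Filt K S) (hw : 0 ≤ w) (hα : α ∈ S w) (hz : ∀ i, z i ∈ S 0) :
    Ideal (MvPolynomial (Fin r) K⟦X⟧) where
  carrier := {Q | ∀ E : ℕ, ∃ (P : MvPolynomial (Fin r) K[X]) (H : MvPolynomial (Fin r) K⟦X⟧),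
    Q = io K r P + C (PowerSeries.X ^ E) * H ∧ ev K α z P ∈ S (w * E)}
  zero_mem' := fun E => ⟨0, 0, by simp, by simpa using hS.zero_mem _⟩
  add_mem' := by
    intro a b ha hb E
    obtain ⟨P, H, h, h1⟩ := ha E
    obtain ⟨P', H', h', h1'⟩ := hb E
    refine ⟨P + P', H + H', ?_, ?_⟩
    · rw [h, h', map_add]; ring
    · rw [map_add]; exact hS.add_mem h1 h1'
  smul_mem' := by
    intro c Q hQ E
    obtain ⟨P, H, h, h1⟩ := hQ E
    obtain ⟨P', H', h'⟩ := exists_trunc c E
    refine ⟨P' * P, H' * Q + io K r P' * H, ?_, ?_⟩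
    · rw [smul_eq_mul, map_mul]
      linear_combination Q * h' + io K r P' * h
    · rw [map_mul]
      simpa using hS.mul_mem (ev_mem hS hw hα hz P') h1

variable (hS : Filt K S) (hw : 0 ≤ w) (hα : α ∈ S w) (hz : ∀ i, z i ∈ S 0)

include hS hw hα hz in
lemma mem_JJ_ev {Q : MvPolynomial (Fin r) K⟦X⟧} (hQ : Q ∈ JJ hS hw hα hz)
    {P : MvPolynomial (Fin r) K[X]} {H : MvPolynomial (Fin r) K⟦X⟧} {E : ℕ}
    (h : io K r P = Q + C (PowerSeries.X ^ E) * H) : ev K α z P ∈ S (w * E) := by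
  obtain ⟨P', H', h', h1⟩ := hQ E
  have h2 : io K r (P - P') = C (PowerSeries.X ^ E) * (H + H') := by
    rw [map_sub, h, h']; ring
  have h3 := ev_small hS hw hα hz h2
  have h4 := hS.add_mem h3 h1
  rw [← map_add, sub_add_cancel] at h4
  exact h4

lemma io_mem_JJ {P : MvPolynomial (Fin r) K[X]} (hP : ev K α z P = 0) :
    io K r P ∈ JJ hS hw hα hz :=
  fun E => ⟨P, 0, by simp, by rw [hP]; exact hS.zero_mem _⟩

/-- a linear form that is not small can be cancelled -/
lemma JJ_cancel (hinv : ∀ (t : ℝ) (a : G), a ∉ S t → a⁻¹ ∈ S (-t))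
    {l Q : MvPolynomial (Fin r) K⟦X⟧} (hl : l ∉ JJ hS hw hα hz) (hQ : l * Q ∈ JJ hS hw hα hz) :
    Q ∈ JJ hS hw hα hz := by
  have h1 : ∃ E1 : ℕ, ∀ (P : MvPolynomial (Fin r) K[X]) (H : MvPolynomial (Fin r) K⟦X⟧),
      l = io K r P + C (PowerSeries.X ^ E1) * H → ev K α z P ∉ S (w * E1) := by
    by_contra hcon
    push Not at hcon
    exact hl hcon
  obtain ⟨E1, hE1⟩ := h1
  intro E
  obtain ⟨P, H, h⟩ := exists_trunc l (E + E1)
  obtain ⟨P', H', h'⟩ := exists_trunc Q (E + E1)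
  refine ⟨P', C (PowerSeries.X ^ E1) * H', ?_, ?_⟩
  · rw [← mul_assoc, ← C_mul, ← pow_add]; exact h'
  · have h2 : ev K α z P ∉ S (w * E1) := by
      refine hE1 P (C (PowerSeries.X ^ E) * H) ?_
      rw [← mul_assoc, ← C_mul, ← pow_add, add_comm E1]; exact h
    have h3 := hinv _ _ h2
    have h0 : ev K α z P ≠ 0 := fun h0 => h2 (by rw [h0]; exact hS.zero_mem _)
    have h4 : io K r (P * P') = l * Q + C (PowerSeries.X ^ (E + E1)) *
        (-(io K r P * H') - H * Q) := by
      rw [map_mul]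
      linear_combination (-Q) * h - io K r P * h'
    have h5 := mem_JJ_ev hS hw hα hz hQ h4
    have h6 := hS.mul_mem h3 h5
    rw [map_mul, inv_mul_cancel_left₀ h0] at h6
    refine hS.anti (le_of_eq ?_) h6
    push_cast; ring

end Pool.Agent.TH932.Abs
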