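import Mathlib
import Pool.Agent.TH932.Abs

set_option autoImplicit false

/-!
# Auxiliary polynomials at one place
-/

namespace Pool.Agent.TH932.Abs

open MvPolynomial Pool.Agent.TH932.Std
open scoped Polynomial PowerSeries

variable {K G : Type*} [Field K] [Field G] [Algebra K G] {r : ℕ}
variable {α : G} {z : Fin r → G} {S : ℝ → Set G} {w : ℝ}

/-- the Liouville inequality at the place `S` with slope `Λ` -/
def Liou (K : Type*) {G : Type*} [Field K] [Field G] [Algebra K G] {r : ℕ}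
    (α : G) (z : Fin r → G) (S : ℝ → Set G) (Λ : ℝ) : Prop :=
  ∀ m : ℕ, ∃ C : ℝ, ∀ (D : ℕ) (P : MvPolynomial (Fin r) K[X]),
    (∀ ν ∈ P.support, ν.degree ≤ m) → (∀ ν, (coeff ν P).natDegree ≤ D) →
    ev K α z P ≠ 0 → ∀ t : ℝ, ev K α z P ∈ S t → t ≤ Λ * D + C

lemma exists_kernel {m n : Type*} [Fintype m] [Fintype n] (M : Matrix m n K)
    (h : Fintype.card m < Fintype.card n) : ∃ p : n → K, p ≠ 0 ∧ M.mulVec p = 0 := by
  classical
  have h1 : LinearMap.ker M.mulVecLin ≠ ⊥ := by
    apply LinearMap.ker_ne_bot_of_finrank_lt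
    simpa using h
  obtain ⟨p, hp, hp0⟩ := Submodule.exists_mem_ne_zero_of_ne_bot h1
  exact ⟨p, hp0, by simpa using hp⟩

theorem fact (hS : Filt K S) (hw : 0 ≤ w) (hα : α ∈ S w) (hz : ∀ i, z i ∈ S 0)
    (hα' : α⁻¹ ∈ S (-w)) (hα0 : α ≠ 0) {Λ : ℝ} (hΛ : 0 ≤ Λ) (hL : Liou K α z S Λ) (m : ℕ) :
    w * hil (RingHom.ker (ev K α z)) m ≤ Λ * hil (JJ hS hw hα hz) m := by
  classical
  by_contra hcon
  push Not at hcon
  set I := RingHom.ker (ev K α z) with hI
  set J := JJ hS hw hα hz with hJ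
  set U := std I m with hU
  set V := std J m with hV
  have := (std_finite I m).fintype
  have := (std_finite J m).fintype
  have hcU : Fintype.card U = hil I m := by
    unfold hil; rw [← Nat.card_coe_set_eq, Nat.card_eq_fintype_card]
  have hcV : Fintype.card V = hil J m := by
    unfold hil; rw [← Nat.card_coe_set_eq, Nat.card_eq_fintype_card]
  -- reductions
  obtain ⟨c, hc, N, hN, hcN⟩ := RedG.common (M := J) (S := V)
    (g := fun μ : U => (MvPolynomial.monomial μ.1 (1 : K⟦X⟧)))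
    (fun μ => Red.monomial μ.1 μ.2.2)
  obtain ⟨a, u, hcu⟩ := IsDiscreteValuationRing.eq_unit_mul_pow_irreducible hc
    PowerSeries.X_irreducible
  set N' : U → MvPolynomial (Fin r) K⟦X⟧ := fun μ => C (↑u⁻¹ : K⟦X⟧) * N μ with hN'
  have hN's : ∀ μ, ∀ ν ∈ (N' μ).support, ν ∈ V := fun μ => supp_C_mul _ (hN μ)
  have hN'J : ∀ μ, C (PowerSeries.X ^ a) * MvPolynomial.monomial μ.1 (1 : K⟦X⟧) - N' μ ∈ J := by
    intro μ
    have h1 := J.mul_mem_left (C (↑u⁻¹ : K⟦X⟧)) (hcN μ)
    convert h1 using 1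
    rw [mul_sub, ← mul_assoc, ← C_mul, hcu, ← mul_assoc, Units.inv_mul, one_mul]
  have hUpos : 0 < Fintype.card U := by
    by_contra h0
    have h0' : hil I m = 0 := by omega
    rw [h0'] at hcon
    have : 0 ≤ Λ * (hil J m : ℝ) := by positivity
    simp at hcon
    linarith
  obtain ⟨CC, hCC⟩ := hL m
  obtain ⟨k, hk⟩ := exists_nat_gt ((w * a + CC) / (w * hil I m - Λ * hil J m))
  have hpos : 0 < w * hil I m - Λ * hil J m := by linarith
  rw [div_lt_iff₀ hpos] at hk
  -- linear algebra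
  let M : Matrix (V × Fin (k * Fintype.card U)) (U × Fin (k * Fintype.card V + 1)) K :=
    fun x y => PowerSeries.coeff (x.2 : ℕ) (PowerSeries.X ^ (y.2 : ℕ) * coeff x.1.1 (N' y.1))
  obtain ⟨p, hp0, hp⟩ := exists_kernel M (by
    simp only [Fintype.card_prod, Fintype.card_fin]
    nlinarith)
  set q : U → K[X] := fun μ => ∑ i : Fin (k * Fintype.card V + 1),
    Polynomial.C (p (μ, i)) * Polynomial.X ^ (i : ℕ) with hq
  set P : MvPolynomial (Fin r) K[X] := ∑ μ : U, MvPolynomial.monomial μ.1 (q μ) with hP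
  have hcoeffP : ∀ μ : U, coeff μ.1 P = q μ := by
    intro μ
    rw [hP, coeff_sum, Finset.sum_eq_single μ]
    · rw [coeff_monomial, if_pos rfl]
    · intro b _ hb
      rw [coeff_monomial, if_neg]
      intro h; exact hb (Subtype.ext h)
    · simp
  have hcoeffP0 : ∀ ν, ν ∉ U → coeff ν P = 0 := by
    intro ν hν
    rw [hP, coeff_sum]
    apply Finset.sum_eq_zero
    intro b _
    rw [coeff_monomial, if_neg]
    intro h; exact hν (h ▸ b.2)
  have hsupp : ∀ ν ∈ P.support, ν ∈ U := by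
    intro ν hν
    by_contra h
    exact (mem_support_iff.1 hν) (hcoeffP0 ν h)
  have hqcoeff : ∀ (μ : U) (i : Fin (k * Fintype.card V + 1)), (q μ).coeff i = p (μ, i) := by
    intro μ i
    rw [hq]
    simp only [Polynomial.finsetSum_coeff, Polynomial.coeff_C_mul, Polynomial.coeff_X_pow]
    rw [Finset.sum_eq_single i]
    · simp
    · intro b _ hb
      rw [if_neg, mul_zero]
      intro h; exact hb (Fin.ext h.symm)
    · simp
  have hPne : P ≠ 0 := by
    intro h0
    apply hp0
    funext x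
    obtain ⟨μ, i⟩ := x
    rw [← hqcoeff, ← hcoeffP, h0]
    simp
  have hevP : ev K α z P ≠ 0 := by
    intro h0
    exact hPne (eq_zero_of_mem (J := I) (m := m) hsupp (by rw [hI, RingHom.mem_ker]; exact h0))
  have hdeg : ∀ ν, (coeff ν P).natDegree ≤ k * Fintype.card V := by
    intro ν
    by_cases hν : ν ∈ U
    · have := hcoeffP ⟨ν, hν⟩
      simp only at this
      rw [this, hq]
      apply Polynomial.natDegree_sum_le_of_forall_le
      intro i _
      refine (Polynomial.natDegree_C_mul_X_pow_le _ _).trans ?_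
      have := i.2; omega
    · rw [hcoeffP0 ν hν]; simp
  -- divisibility
  have hdvd : (C (PowerSeries.X ^ (k * Fintype.card U)) : MvPolynomial (Fin r) K⟦X⟧) ∣
      ∑ μ : U, C (q μ : K⟦X⟧) * N' μ := by
    rw [C_dvd_iff_dvd_coeff]
    intro ν
    rw [coeff_sum]
    simp only [coeff_C_mul]
    by_cases hν : ν ∈ V
    · rw [PowerSeries.X_pow_dvd_iff]
      intro j hj
      have h1 := congrFun hp (⟨ν, hν⟩, ⟨j, hj⟩)
      simp only [Matrix.mulVec, dotProduct, M, Pi.zero_apply] at h1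
      rw [Fintype.sum_prod_type] at h1
      rw [← h1, map_sum]
      apply Finset.sum_congr rfl
      intro μ _
      have h2 : (q μ : K⟦X⟧) = ∑ i : Fin (k * Fintype.card V + 1),
          PowerSeries.C (p (μ, i)) * PowerSeries.X ^ (i : ℕ) := by
        rw [hq]
        rw [← Polynomial.coeToPowerSeries.ringHom_apply, map_sum]
        simp
      rw [h2, Finset.sum_mul, map_sum]
      apply Finset.sum_congr rfl
      intro i _
      rw [mul_assoc, PowerSeries.coeff_C_mul, mul_comm]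
    · have : ∑ μ : U, (q μ : K⟦X⟧) * coeff ν (N' μ) = 0 := by
        apply Finset.sum_eq_zero
        intro μ _
        have : coeff ν (N' μ) = 0 := by
          by_contra h
          exact hν (hN's μ ν (mem_support_iff.2 h))
        rw [this, mul_zero]
      rw [this]; exact dvd_zero _
  obtain ⟨H, hH⟩ := hdvd
  have hQ : ∑ μ : U, C (q μ : K⟦X⟧) *
      (C (PowerSeries.X ^ a) * MvPolynomial.monomial μ.1 (1 : K⟦X⟧) - N' μ) ∈ J :=
    J.sum_mem fun μ _ => J.mul_mem_left _ (hN'J μ)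
  have hio : io K r (C (Polynomial.X ^ a) * P) = ∑ μ : U, C (q μ : K⟦X⟧) *
      (C (PowerSeries.X ^ a) * MvPolynomial.monomial μ.1 (1 : K⟦X⟧) - N' μ) +
      C (PowerSeries.X ^ (k * Fintype.card U)) * H := by
    rw [← hH, ← Finset.sum_add_distrib, map_mul, io_C, hP, map_sum, Finset.mul_sum]
    apply Finset.sum_congr rfl
    intro μ _
    have h3 : io K r (MvPolynomial.monomial μ.1 (q μ))
        = C (q μ : K⟦X⟧) * MvPolynomial.monomial μ.1 (1 : K⟦X⟧) := by
      rw [io, map_monomial, C_mul_monomial, mul_one]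
      rfl
    rw [h3]
    simp only [Polynomial.coe_pow, Polynomial.coe_X]
    ring
  have h5 := mem_JJ_ev hS hw hα hz hQ hio
  rw [ev_X_pow] at h5
  have h6 := hS.mul_mem (hS.pow_mem hα' a) h5
  rw [← mul_assoc, ← mul_pow, inv_mul_cancel₀ hα0, one_pow, one_mul] at h6
  have h7 := hCC (k * Fintype.card V) P (fun ν hν => (hsupp ν hν).2) hdeg hevP _ h6
  rw [hcU, hcV] at h7
  push_cast at h7
  nlinarith

end Pool.Agent.TH932.Abs
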