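import Mathlib
import Pool.Agent.TH932.Fact

set_option autoImplicit false

/-!
# Two places: the ratio of the weights is rational
-/

namespace Pool.Agent.TH932.Abs

open MvPolynomial Pool.Agent.TH932.Std
open scoped Polynomial PowerSeries

variable {K G : Type*} [Field K] [Field G] [Algebra K G] {r : ℕ}
variable {α : G} {z : Fin r → G}

/-- the sum rule for Hilbert functions -/
theorem sum_rule {I : Ideal (MvPolynomial (Fin r) K[X])}
    {Jp Ji : Ideal (MvPolynomial (Fin r) K⟦X⟧)} {l : MvPolynomial (Fin r) K⟦X⟧}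
    (hIp : ∀ f ∈ I, io K r f ∈ Jp) (hIi : ∀ f ∈ I, io K r f ∈ Ji)
    (hl : l ∈ Jp) (hli : ∀ Q, l * Q ∈ Ji → Q ∈ Ji) (hdeg : ∀ ν ∈ l.support, ν.degree ≤ 1)
    (m : ℕ) : hil Jp (m + 1) + hil Ji m ≤ hil I (m + 1) := by
  classical
  by_contra hcon
  push Not at hcon
  have := (std_finite Jp (m + 1)).fintype
  have := (std_finite Ji m).fintype
  have hcp : Fintype.card (std Jp (m + 1)) = hil Jp (m + 1) := by
    unfold hil; rw [← Nat.card_coe_set_eq, Nat.card_eq_fintype_card]
  have hci : Fintype.card (std Ji m) = hil Ji m := by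
    unfold hil; rw [← Nat.card_coe_set_eq, Nat.card_eq_fintype_card]
  set M := Jp ⊓ Ji with hM
  set U := std I (m + 1) with hU
  have hmono : ∀ μ : Fin r →₀ ℕ, μ.degree ≤ m + 1 →
      RedG M U (MvPolynomial.monomial μ (1 : K⟦X⟧)) := by
    intro μ hμ
    obtain ⟨c, hc, N, hN, h⟩ := Red.monomial (J := I) μ hμ
    refine ⟨(c : K⟦X⟧), ?_, io K r N, ?_, ?_⟩
    · intro h0
      apply hc
      exact Polynomial.coe_injective K (by rw [h0]; simp)
    · intro ν hν
      apply hN
      exact MvPolynomial.support_map_subset _ _ hν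
    · have h1 : C (c : K⟦X⟧) * MvPolynomial.monomial μ (1 : K⟦X⟧) - io K r N
          = io K r (C c * MvPolynomial.monomial μ 1 - N) := by
        rw [map_sub, map_mul, io_C]
        congr 2
        rw [io, map_monomial]
        congr 1
        exact (map_one (Polynomial.coeToPowerSeries.ringHom : K[X] →+* K⟦X⟧)).symm
      rw [h1]
      exact ⟨hIp _ h, hIi _ h⟩
  let g : (std Jp (m + 1)) ⊕ (std Ji m) → MvPolynomial (Fin r) K⟦X⟧ :=
    Sum.elim (fun μ => MvPolynomial.monomial μ.1 1) (fun ν => l * MvPolynomial.monomial ν.1 1)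
  have hg : ∀ e, RedG M U (g e) := by
    intro e
    rcases e with μ | ν
    · exact hmono μ.1 μ.2.2
    · apply RedG.of_monomials
      intro ξ hξ
      apply hmono
      have h1 := MvPolynomial.support_mul _ _ hξ
      obtain ⟨a, ha, b, hb, hab⟩ := Finset.mem_add.1 h1
      have hb' := MvPolynomial.support_monomial_subset hb
      rw [Finset.mem_singleton] at hb'
      rw [← hab, map_add, hb']
      have := hdeg a ha
      have := ν.2.2
      omega
  obtain ⟨c, hc, N, hN, hcN⟩ := RedG.common hg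
  obtain ⟨a, ⟨e0, he0⟩, ha⟩ := dependent (std_finite I (m + 1)) N hN (by
    rw [Fintype.card_sum, hcp, hci]; exact hcon)
  have h1 : ∑ e, C (a e) * (C c * g e) ∈ M := by
    have h2 : ∑ e, C (a e) * (C c * g e - N e) ∈ M := M.sum_mem fun e _ => M.mul_mem_left _ (hcN e)
    have h3 : ∑ e, C (a e) * (C c * g e - N e) = ∑ e, C (a e) * (C c * g e) := by
      simp only [mul_sub, Finset.sum_sub_distrib, ha, sub_zero]
    rwa [h3] at h2
  set A : MvPolynomial (Fin r) K⟦X⟧ := ∑ μ : std Jp (m + 1),
    C (a (Sum.inl μ) * c) * MvPolynomial.monomial μ.1 1 with hA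
  set B : MvPolynomial (Fin r) K⟦X⟧ := ∑ ν : std Ji m,
    C (a (Sum.inr ν) * c) * MvPolynomial.monomial ν.1 1 with hB
  have h4 : ∑ e, C (a e) * (C c * g e) = A + l * B := by
    rw [Fintype.sum_sum_type, hA, hB, Finset.mul_sum]
    congr 1
    · apply Finset.sum_congr rfl
      intro μ _
      simp only [g, Sum.elim_inl, C_mul]
      ring
    · apply Finset.sum_congr rfl
      intro μ _
      simp only [g, Sum.elim_inr, C_mul]
      ring
  rw [h4] at h1
  have hsA : ∀ ξ ∈ A.support, ξ ∈ std Jp (m + 1) := by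
    apply supp_sum
    intro μ _
    apply supp_C_mul
    intro ξ hξ
    have hb' := MvPolynomial.support_monomial_subset hξ
    rw [Finset.mem_singleton] at hb'
    rw [hb']; exact μ.2
  have hsB : ∀ ξ ∈ B.support, ξ ∈ std Ji m := by
    apply supp_sum
    intro μ _
    apply supp_C_mul
    intro ξ hξ
    have hb' := MvPolynomial.support_monomial_subset hξ
    rw [Finset.mem_singleton] at hb'
    rw [hb']; exact μ.2
  have hA0 : A = 0 := by
    apply eq_zero_of_mem hsA
    have h5 : A = (A + l * B) - l * B := by ring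
    rw [h5]
    exact Jp.sub_mem h1.1 (Jp.mul_mem_right _ hl)
  have hB0 : B = 0 := by
    apply eq_zero_of_mem hsB
    apply hli
    have := h1.2
    rwa [hA0, zero_add] at this
  have hcA : ∀ μ : std Jp (m + 1), coeff μ.1 A = a (Sum.inl μ) * c := by
    intro μ
    rw [hA, coeff_sum, Finset.sum_eq_single μ]
    · rw [coeff_C_mul, coeff_monomial, if_pos rfl, mul_one]
    · intro b _ hb
      rw [coeff_C_mul, coeff_monomial, if_neg, mul_zero]
      intro h; exact hb (Subtype.ext h)
    · simp
  have hcB : ∀ μ : std Ji m, coeff μ.1 B = a (Sum.inr μ) * c := by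
    intro μ
    rw [hB, coeff_sum, Finset.sum_eq_single μ]
    · rw [coeff_C_mul, coeff_monomial, if_pos rfl, mul_one]
    · intro b _ hb
      rw [coeff_C_mul, coeff_monomial, if_neg, mul_zero]
      intro h; exact hb (Subtype.ext h)
    · simp
  rcases e0 with μ | ν
  · have := hcA μ
    rw [hA0, coeff_zero] at this
    rcases mul_eq_zero.1 this.symm with h | h
    · exact he0 h
    · exact hc h
  · have := hcB ν
    rw [hB0, coeff_zero] at this
    rcases mul_eq_zero.1 this.symm with h | h
    · exact he0 h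
    · exact hc h

open Filter Topology

/-- two sequences which are eventually rational polynomials and have asymptotic ratio `κ` -/
lemma rational_of_squeeze {f g : ℕ → ℕ} (hf : Cnt.EvPoly fun m => (f m : ℚ))
    (hg : Cnt.EvPoly fun m => (g m : ℚ)) {κ : ℝ} (hκ : 0 < κ)
    (hf1 : ∀ m, 1 ≤ f m) (h1 : ∀ m, κ * f m ≤ g m)
    (h2 : ∀ m, (g (m + 1) : ℝ) + (1 - κ) * f m ≤ f (m + 1)) : ∃ q : ℚ, κ = q := by
  obtain ⟨P, hP⟩ := hf
  obtain ⟨Q, hQ⟩ := hg
  set i : ℚ →+* ℝ := algebraMap ℚ ℝ
  have hPr : ∀ᶠ m : ℕ in atTop, (f m : ℝ) = (P.map i).eval (m : ℝ) := by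
    filter_upwards [hP] with m hm
    have : (m : ℝ) = i (m : ℚ) := by simp [i]
    rw [this, Polynomial.eval_map_apply, ← hm]
    simp [i]
  have hQr : ∀ᶠ m : ℕ in atTop, (g m : ℝ) = (Q.map i).eval (m : ℝ) := by
    filter_upwards [hQ] with m hm
    have : (m : ℝ) = i (m : ℚ) := by simp [i]
    rw [this, Polynomial.eval_map_apply, ← hm]
    simp [i]
  have hP0 : P.map i ≠ 0 := by
    intro h0
    obtain ⟨m, hm⟩ := hPr.exists
    rw [h0, Polynomial.eval_zero] at hm
    have := hf1 m
    have : f m = 0 := by exact_mod_cast hm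
    omega
  -- ratio of consecutive values
  have hr1 : Tendsto (fun x : ℝ => ((P.map i).comp (Polynomial.X - Polynomial.C 1)).eval x /
      (P.map i).eval x) atTop (𝓝 1) := by
    have hlc : ((P.map i).comp (Polynomial.X - Polynomial.C 1)).leadingCoeff
        = (P.map i).leadingCoeff := by
      rw [Polynomial.leadingCoeff_comp (by rw [Polynomial.natDegree_X_sub_C]; exact one_ne_zero),
        Polynomial.leadingCoeff_X_sub_C, one_pow, mul_one]
    have hne : (P.map i).comp (Polynomial.X - Polynomial.C 1) ≠ 0 := by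
      intro h0
      rw [h0, Polynomial.leadingCoeff_zero] at hlc
      exact hP0 (Polynomial.leadingCoeff_eq_zero.1 hlc.symm)
    have hd : ((P.map i).comp (Polynomial.X - Polynomial.C 1)).degree = (P.map i).degree := by
      rw [Polynomial.degree_eq_natDegree hne, Polynomial.degree_eq_natDegree hP0,
        Polynomial.natDegree_comp, Polynomial.natDegree_X_sub_C, mul_one]
    have := Polynomial.div_tendsto_atTop_leadingCoeff_div_of_degree_eq _ _ hd
    rwa [hlc, div_self (Polynomial.leadingCoeff_ne_zero.2 hP0)] at this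
  have hr1' : Tendsto (fun m : ℕ => (f (m - 1) : ℝ) / f m) atTop (𝓝 1) := by
    have h3 := hr1.comp tendsto_natCast_atTop_atTop
    refine h3.congr' ?_
    have h4 : ∀ᶠ m : ℕ in atTop, (f (m - 1) : ℝ) = (P.map i).eval ((m - 1 : ℕ) : ℝ) :=
      (tendsto_sub_atTop_nat 1).eventually hPr
    filter_upwards [hPr, h4, eventually_ge_atTop 1] with m hm1 hm2 hm3
    simp only [Function.comp]
    rw [hm1, hm2, Polynomial.eval_comp]
    simp [Nat.cast_sub hm3]
  have hlim : Tendsto (fun m : ℕ => (g m : ℝ) / f m) atTop (𝓝 κ) := by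
    have hup : Tendsto (fun m : ℕ => 1 - (1 - κ) * ((f (m - 1) : ℝ) / f m)) atTop (𝓝 κ) := by
      have := (hr1'.const_mul (1 - κ)).const_sub 1
      convert this using 2
      ring
    refine tendsto_of_tendsto_of_tendsto_of_le_of_le' tendsto_const_nhds hup ?_ ?_
    · refine Eventually.of_forall fun m => ?_
      have hfm : (0 : ℝ) < f m := by exact_mod_cast hf1 m
      rw [le_div_iff₀ hfm]; exact h1 m
    · filter_upwards [eventually_ge_atTop 1] with m hm
      have hfm : (0 : ℝ) < f m := by exact_mod_cast hf1 m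
      rw [div_le_iff₀ hfm]
      have := h2 (m - 1)
      rw [Nat.sub_add_cancel hm] at this
      have h5 : (1 - (1 - κ) * ((f (m - 1) : ℝ) / f m)) * f m = f m - (1 - κ) * f (m - 1) := by
        field_simp
      rw [h5]; linarith
  have hlim2 : Tendsto (fun m : ℕ => (f m : ℝ) / g m) atTop (𝓝 κ⁻¹) := by
    have := hlim.inv₀ hκ.ne'
    simpa using this
  have hκ' : κ⁻¹ ≠ 0 := inv_ne_zero hκ.ne'
  have hev : ∀ᶠ m : ℕ in atTop, (f m : ℝ) / g m = (P.map i).eval (m : ℝ) / (Q.map i).eval (m : ℝ) := by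
    filter_upwards [hPr, hQr] with m h3 h4
    rw [h3, h4]
  rcases lt_trichotomy (Q.map i).degree (P.map i).degree with h | h | h
  · -- g / f → 0
    exfalso
    have h3 := (Polynomial.div_tendsto_atTop_zero_of_degree_lt _ _ h).comp
      (tendsto_natCast_atTop_atTop (R := ℝ))
    have h4 : Tendsto (fun m : ℕ => (g m : ℝ) / f m) atTop (𝓝 0) := by
      refine h3.congr' ?_
      filter_upwards [hPr, hQr] with m h5 h6
      simp only [Function.comp]
      rw [h5, h6]
    exact hκ.ne' (tendsto_nhds_unique hlim h4)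
  · have h3 := (Polynomial.div_tendsto_atTop_leadingCoeff_div_of_degree_eq _ _ h).comp
      (tendsto_natCast_atTop_atTop (R := ℝ))
    have h4 : Tendsto (fun m : ℕ => (g m : ℝ) / f m) atTop
        (𝓝 ((Q.map i).leadingCoeff / (P.map i).leadingCoeff)) := by
      refine h3.congr' ?_
      filter_upwards [hPr, hQr] with m h5 h6
      simp only [Function.comp]
      rw [h5, h6]
    have h5 := tendsto_nhds_unique hlim h4
    refine ⟨Q.leadingCoeff / P.leadingCoeff, ?_⟩
    rw [h5, Polynomial.leadingCoeff_map, Polynomial.leadingCoeff_map]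
    simp [i]
  · exfalso
    have h3 := (Polynomial.div_tendsto_atTop_zero_of_degree_lt _ _ h).comp
      (tendsto_natCast_atTop_atTop (R := ℝ))
    have h4 : Tendsto (fun m : ℕ => (f m : ℝ) / g m) atTop (𝓝 0) := by
      refine h3.congr' ?_
      filter_upwards [hPr, hQr] with m h5 h6
      simp only [Function.comp]
      rw [h5, h6]
    exact hκ' (tendsto_nhds_unique hlim2 h4)

lemma one_notMem {S : ℝ → Set G} {w Λ : ℝ} (hS : Filt K S) (hw : 0 < w)
    (hL : Liou K α z S Λ) : (1 : G) ∉ S w := by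
  intro h1
  obtain ⟨C, hC⟩ := hL 0
  obtain ⟨n, hn⟩ := exists_nat_gt (C / w)
  rw [div_lt_iff₀ hw] at hn
  have h2 := hS.pow_mem h1 n
  rw [one_pow] at h2
  have h3 := hC 0 1 (by
    intro ν hν
    have : (1 : MvPolynomial (Fin r) K[X]) = MvPolynomial.monomial 0 1 := rfl
    rw [this] at hν
    have := MvPolynomial.support_monomial_subset hν
    rw [Finset.mem_singleton] at this
    simp [this]) (by
    classical
    intro ν
    rw [coeff_one]
    split_ifs <;> simp) (by simp) (w * n) (by simpa using h2)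
  simp at h3
  linarith

lemma aeval_ne_zero {S : ℝ → Set G} {w Λ : ℝ} (hS : Filt K S) (hw : 0 < w) (hα : α ∈ S w)
    (hz : ∀ i, z i ∈ S 0) (hα0 : α ≠ 0)
    (hL : Liou K α z S Λ) (c : K[X]) (hc : c ≠ 0) : Polynomial.aeval α c ≠ 0 := by
  have key : ∀ n : ℕ, ∀ c : K[X], c.natDegree ≤ n → c ≠ 0 → Polynomial.aeval α c ≠ 0 := by
    intro n
    induction n with
    | zero =>
      intro c hn hc h0
      rw [Polynomial.eq_C_of_natDegree_le_zero hn] at h0 hc
      rw [Polynomial.aeval_C] at h0
      exact hc (by rw [(map_eq_zero _).1 h0, Polynomial.C_0])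
    | succ n ih =>
      intro c hn hc h0
      by_cases h1 : c.coeff 0 = 0
      · have h2 : c = c.divX * Polynomial.X := by
          have := Polynomial.divX_mul_X_add c
          rw [h1, Polynomial.C_0, add_zero] at this
          exact this.symm
        have h3 : c.divX ≠ 0 := fun h => hc (by rw [h2, h, zero_mul])
        have h4 : c.divX.natDegree ≤ n := by
          rw [Polynomial.natDegree_divX_eq_natDegree_tsub_one]; omega
        rw [h2, map_mul, Polynomial.aeval_X] at h0
        rcases mul_eq_zero.1 h0 with h | h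
        · exact ih _ h4 h3 h
        · exact hα0 h
      · have h2 := Polynomial.divX_mul_X_add c
        have h3 : algebraMap K G (c.coeff 0) = -(Polynomial.aeval α c.divX) * α := by
          have := congrArg (Polynomial.aeval α) h2
          rw [h0, map_add, map_mul, Polynomial.aeval_X, Polynomial.aeval_C] at this
          linear_combination this
        have h4 : algebraMap K G (c.coeff 0) ∈ S w := by
          rw [h3]
          have h5 := ev_mem hS hw.le hα hz (C (-c.divX))
          rw [ev_C, map_neg] at h5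
          simpa using hS.mul_mem h5 hα
        have h6 := hS.mul_mem (hS.alg_mem (c.coeff 0)⁻¹) h4
        rw [← map_mul, inv_mul_cancel₀ h1, map_one, zero_add] at h6
        exact one_notMem hS hw hL h6
  exact key _ c le_rfl hc

/-- **Abstract theorem.**  If a linear form is small at one place and not at the other place, and
the Liouville inequality holds at both places with slope the sum of the weights, then the ratio
of the weights is rational. -/
theorem rational_ratio {Sp Si : ℝ → Set G} {wp wi : ℝ} (hSp : Filt K Sp) (hSi : Filt K Si)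
    (hwp : 0 < wp) (hwi : 0 < wi) (hαp : α ∈ Sp wp) (hαi : α ∈ Si wi)
    (hαp' : α⁻¹ ∈ Sp (-wp)) (hαi' : α⁻¹ ∈ Si (-wi)) (hα0 : α ≠ 0)
    (hzp : ∀ i, z i ∈ Sp 0) (hzi : ∀ i, z i ∈ Si 0)
    (hinv : ∀ (t : ℝ) (a : G), a ∉ Si t → a⁻¹ ∈ Si (-t))
    (hLp : Liou K α z Sp (wp + wi)) (hLi : Liou K α z Si (wp + wi))
    {l : MvPolynomial (Fin r) K⟦X⟧} (hlp : l ∈ JJ hSp hwp.le hαp hzp)
    (hli : l ∉ JJ hSi hwi.le hαi hzi) (hdeg : ∀ ν ∈ l.support, ν.degree ≤ 1) :
    ∃ q : ℚ, wp / (wp + wi) = q := by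
  have hΛ : 0 < wp + wi := by linarith
  have hfp := fact hSp hwp.le hαp hzp hαp' hα0 hΛ.le hLp
  have hfi := fact hSi hwi.le hαi hzi hαi' hα0 hΛ.le hLi
  have hsum := sum_rule (I := RingHom.ker (ev K α z)) (l := l)
    (fun f hf => io_mem_JJ hSp hwp.le hαp hzp hf) (fun f hf => io_mem_JJ hSi hwi.le hαi hzi hf)
    hlp (fun Q hQ => JJ_cancel hSi hwi.le hαi hzi hinv hli hQ) hdeg
  refine rational_of_squeeze (f := hil (RingHom.ker (ev K α z)))
    (g := hil (JJ hSp hwp.le hαp hzp)) ?_ ?_ (div_pos hwp hΛ) ?_ ?_ ?_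
  · exact Cnt.cnt_evPoly (lead (RingHom.ker (ev K α z))) fun μ hμ ν => lead_add ν hμ
  · exact Cnt.cnt_evPoly (lead (JJ hSp hwp.le hαp hzp)) fun μ hμ ν => lead_add ν hμ
  · intro m
    rw [Nat.one_le_iff_ne_zero, Ne, hil, Set.ncard_eq_zero (std_finite _ _)]
    intro h0
    have : (0 : Fin r →₀ ℕ) ∈ std (RingHom.ker (ev K α z)) m := by
      refine ⟨?_, by simp⟩
      rintro ⟨f, hf, hf0, hd⟩
      obtain ⟨c, rfl⟩ : ∃ c : K[X], f = C c := ⟨_, (mo r).eq_C_of_degree_eq_zero hd⟩
      -- a nonzero polynomial in `X` vanishes at `α`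
      rw [RingHom.mem_ker, ev_C] at hf
      exact aeval_ne_zero hSp hwp hαp hzp hα0 hLp c (fun h => hf0 (by rw [h, C_0])) hf
    rw [h0] at this
    exact this
  · intro m
    have := hfp m
    rw [div_mul_eq_mul_div, div_le_iff₀ hΛ]
    linarith
  · intro m
    have h1 := hsum m
    have h2 := hfi m
    have h1' : (hil (JJ hSp hwp.le hαp hzp) (m + 1) : ℝ) + hil (JJ hSi hwi.le hαi hzi) m
        ≤ hil (RingHom.ker (ev K α z)) (m + 1) := by exact_mod_cast h1
    have h3 : (1 - wp / (wp + wi)) * hil (RingHom.ker (ev K α z)) m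
        ≤ hil (JJ hSi hwi.le hαi hzi) m := by
      have : 1 - wp / (wp + wi) = wi / (wp + wi) := by field_simp; ring
      rw [this, div_mul_eq_mul_div, div_le_iff₀ hΛ]
      linarith
    linarith

end Pool.Agent.TH932.Abs
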