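import Mathlib
import Pool.Agent.TH932.Two

set_option autoImplicit false

/-!
# Generalised power series with real exponents and locally finite support
-/

namespace Pool.Agent.TH932.LF

open AddMonoidAlgebra

/-- series with real exponents whose support is locally finite -/
def LFs (K : Type*) [Field K] : Subring (HahnSeries ℝ K) where
  carrier := {f | ∀ t : ℝ, (f.support ∩ Set.Iio t).Finite}
  zero_mem' := by intro t; simp
  one_mem' := by
    intro t
    rw [HahnSeries.support_one]
    exact (Set.finite_singleton _).inter_of_left _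
  add_mem' := by
    intro f g hf hg t
    refine ((hf t).union (hg t)).subset ?_
    rintro x ⟨hx, hxt⟩
    rcases HahnSeries.support_add_subset _ _ hx with h | h
    · exact Or.inl ⟨h, hxt⟩
    · exact Or.inr ⟨h, hxt⟩
  neg_mem' := by
    intro f hf t
    simpa using hf t
  mul_mem' := by
    intro f g hf hg t
    obtain ⟨a, ha⟩ := (hf 0).bddBelow
    obtain ⟨b, hb⟩ := (hg 0).bddBelow
    have ha' : ∀ x ∈ f.support, min a 0 ≤ x := by
      intro x hx
      rcases lt_or_ge x 0 with h | h
      · exact (min_le_left _ _).trans (ha ⟨hx, h⟩)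
      · exact (min_le_right _ _).trans h
    have hb' : ∀ x ∈ g.support, min b 0 ≤ x := by
      intro x hx
      rcases lt_or_ge x 0 with h | h
      · exact (min_le_left _ _).trans (hb ⟨hx, h⟩)
      · exact (min_le_right _ _).trans h
    refine ((hf (t - min b 0)).add (hg (t - min a 0))).subset ?_
    rintro x ⟨hx, hxt⟩
    obtain ⟨y, hy, z, hz, rfl⟩ := HahnSeries.support_mul_subset hx
    have h1 := ha' y hy
    have h2 := hb' z hz
    simp only [Set.mem_Iio] at hxt
    refine ⟨y, ⟨hy, ?_⟩, z, ⟨hz, ?_⟩, rfl⟩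
    · simp only [Set.mem_Iio]; linarith
    · simp only [Set.mem_Iio]; linarith

variable {K : Type*} [Field K]

lemma coe_sub' (f g : LFs K) : ((f - g : LFs K) : HahnSeries ℝ K) = f - g := rfl

/-- lower bound for the exponents of a series -/
def Lo (t : ℝ) (f : LFs K) : Prop := ∀ g : ℝ, (f : HahnSeries ℝ K).coeff g ≠ 0 → t ≤ g

lemma Lo.add {t : ℝ} {f g : LFs K} (hf : Lo t f) (hg : Lo t g) : Lo t (f + g) := by
  intro x hx
  by_contra h
  push Not at h
  have h1 : (f : HahnSeries ℝ K).coeff x = 0 := by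
    by_contra h1; exact absurd (hf x h1) (not_le.2 h)
  have h2 : (g : HahnSeries ℝ K).coeff x = 0 := by
    by_contra h1; exact absurd (hg x h1) (not_le.2 h)
  apply hx
  rw [Subring.coe_add, HahnSeries.coeff_add, h1, h2, add_zero]

lemma Lo.neg {t : ℝ} {f : LFs K} (hf : Lo t f) : Lo t (-f) := by
  intro x hx
  apply hf x
  rw [Subring.coe_neg, HahnSeries.coeff_neg] at hx
  exact fun h => hx (by rw [h, neg_zero])

lemma Lo.sub {t : ℝ} {f g : LFs K} (hf : Lo t f) (hg : Lo t g) : Lo t (f - g) := by
  rw [sub_eq_add_neg]; exact hf.add hg.neg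

lemma Lo.mul {s t : ℝ} {f g : LFs K} (hf : Lo s f) (hg : Lo t g) : Lo (s + t) (f * g) := by
  intro x hx
  rw [Subring.coe_mul] at hx
  obtain ⟨y, hy, z, hz, rfl⟩ := HahnSeries.support_mul_subset (HahnSeries.mem_support _ _ |>.2 hx)
  exact add_le_add (hf y hy) (hg z hz)

lemma Lo.anti {s t : ℝ} {f : LFs K} (hst : s ≤ t) (hf : Lo t f) : Lo s f :=
  fun x hx => hst.trans (hf x hx)

lemma Lo.zero (t : ℝ) : Lo t (0 : LFs K) := by
  intro x hx
  simp at hx

lemma Lo.one : Lo 0 (1 : LFs K) := by
  intro x hx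
  rw [Subring.coe_one, HahnSeries.coeff_one] at hx
  by_contra h
  apply hx
  rw [if_neg]
  intro h0; rw [h0] at h; exact h le_rfl

lemma Lo.sum {ι : Type*} (s : Finset ι) (f : ι → LFs K) {t : ℝ} (h : ∀ i ∈ s, Lo t (f i)) :
    Lo t (∑ i ∈ s, f i) :=
  Finset.sum_induction f (Lo t) (fun _ _ => Lo.add) (Lo.zero t) h

lemma Lo.pow {t : ℝ} {f : LFs K} (hf : Lo t f) (n : ℕ) : Lo (t * n) (f ^ n) := by
  induction n with
  | zero => simpa using Lo.one
  | succ n ih =>
    rw [pow_succ]
    refine (ih.mul hf).anti (le_of_eq ?_)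
    push_cast; ring

lemma exists_Lo (f : LFs K) : ∃ a : ℝ, a ≤ 0 ∧ Lo a f := by
  obtain ⟨a, ha⟩ := (f.2 0).bddBelow
  refine ⟨min a 0, min_le_right _ _, ?_⟩
  intro x hx
  rcases lt_or_ge x 0 with h | h
  · exact (min_le_left _ _).trans (ha ⟨hx, h⟩)
  · exact (min_le_right _ _).trans h

/-- monomials -/
noncomputable def mon (g : ℝ) (a : K) : LFs K :=
  ⟨HahnSeries.single g a, fun t => by
    refine (Set.finite_singleton g).subset ?_
    rintro x ⟨hx, _⟩
    exact HahnSeries.support_single_subset hx⟩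

lemma Lo_mon (g : ℝ) (a : K) : Lo g (mon g a) := by
  intro x hx
  have h1 : x ∈ (HahnSeries.single g a).support := hx
  have := HahnSeries.support_single_subset h1
  rw [Set.mem_singleton_iff] at this
  exact this.ge

lemma mon_mul (g h : ℝ) (a b : K) : mon g a * mon h b = mon (g + h) (a * b) := by
  apply Subtype.ext
  rw [Subring.coe_mul]
  exact HahnSeries.single_mul_single

lemma mon_zero_one : mon (0 : ℝ) (1 : K) = 1 := Subtype.ext HahnSeries.single_zero_one

/-- approximate inverses -/
lemma exists_inv {c : LFs K} (hc : c ≠ 0) : ∃ a : ℝ, ∀ E : ℝ, ∃ c' : LFs K, Lo a c' ∧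
    Lo E (c' * c - 1) := by
  have hc0 : (c : HahnSeries ℝ K) ≠ 0 := fun h => hc (Subtype.ext h)
  set a : ℝ := (c : HahnSeries ℝ K).order with ha
  set k : K := (c : HahnSeries ℝ K).coeff a with hk
  have hk0 : k ≠ 0 := fun h => hc0 (HahnSeries.coeff_order_eq_zero.1 h)
  set f : LFs K := 1 - mon (-a) k⁻¹ * c with hf
  -- `f` has strictly positive exponents
  have hf0 : ∀ x, (f : HahnSeries ℝ K).coeff x ≠ 0 → 0 < x := by
    intro x hx
    have h1 : (f : HahnSeries ℝ K).coeff x = (1 : HahnSeries ℝ K).coeff x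
        - k⁻¹ * (c : HahnSeries ℝ K).coeff (x + a) := by
      rw [hf, coe_sub', HahnSeries.coeff_sub, Subring.coe_one, Subring.coe_mul]
      congr 1
      have : x = (x + a) + (-a) := by ring
      conv_lhs => rw [this]
      exact HahnSeries.coeff_single_mul_add
    by_contra hle
    push Not at hle
    apply hx
    rw [h1, HahnSeries.coeff_one]
    rcases hle.lt_or_eq with h | h
    · rw [if_neg h.ne, HahnSeries.coeff_eq_zero_of_lt_order (by rw [← ha]; linarith), mul_zero,
        sub_zero]
    · rw [if_pos h, h, zero_add, ← hk, inv_mul_cancel₀ hk0, sub_self]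
  have hfδ : ∃ δ : ℝ, 0 < δ ∧ Lo δ f := by
    have hfin := f.2 1
    by_cases hne : ((f : HahnSeries ℝ K).support ∩ Set.Iio 1).Nonempty
    · obtain ⟨x, hx, hmin⟩ := Set.exists_min_image _ id hfin hne
      refine ⟨x, hf0 x hx.1, ?_⟩
      intro y hy
      rcases lt_or_ge y 1 with h | h
      · exact hmin y ⟨hy, h⟩
      · exact (le_of_lt hx.2).trans h
    · refine ⟨1, one_pos, ?_⟩
      intro y hy
      by_contra h
      push Not at h
      exact hne ⟨y, hy, h⟩
  obtain ⟨δ, hδ, hfL⟩ := hfδ
  refine ⟨-a, fun E => ?_⟩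
  obtain ⟨N, hN⟩ := exists_nat_ge (E / δ)
  rw [div_le_iff₀ hδ] at hN
  refine ⟨mon (-a) k⁻¹ * ∑ n ∈ Finset.range N, f ^ n, ?_, ?_⟩
  · refine ((Lo_mon (-a) k⁻¹).mul (Lo.sum (t := 0) _ _ ?_)).anti (by linarith)
    intro n _
    exact (hfL.pow n).anti (by positivity)
  · have h1 : mon (-a) k⁻¹ * (∑ n ∈ Finset.range N, f ^ n) * c - 1 = - f ^ N := by
      have h2 : mon (-a) k⁻¹ * c = 1 - f := by rw [hf]; ring
      have h3 := geom_sum_mul_neg f N
      calc mon (-a) k⁻¹ * (∑ n ∈ Finset.range N, f ^ n) * c - 1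
          = (∑ n ∈ Finset.range N, f ^ n) * (mon (-a) k⁻¹ * c) - 1 := by ring
        _ = (∑ n ∈ Finset.range N, f ^ n) * (1 - f) - 1 := by rw [h2]
        _ = (1 - f ^ N) - 1 := by rw [h3]
        _ = - f ^ N := by ring
    rw [h1]
    refine ((hfL.pow N).neg).anti ?_
    linarith

/-- the inclusion of finite series -/
noncomputable def toH : AddMonoidAlgebra K ℝ →+* HahnSeries ℝ K :=
  AddMonoidAlgebra.liftNCRingHom (HahnSeries.C : K →+* HahnSeries ℝ K)
    { toFun := fun g => HahnSeries.single (Multiplicative.toAdd g) (1 : K)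
      map_one' := HahnSeries.single_zero_one
      map_mul' := fun a b => by
        rw [HahnSeries.single_mul_single, one_mul]; rfl } (fun _ _ => mul_comm _ _)

lemma toH_single (g : ℝ) (a : K) : toH (AddMonoidAlgebra.single g a) = HahnSeries.single g a := by
  unfold toH
  change AddMonoidAlgebra.liftNC _ _ _ = _
  rw [AddMonoidAlgebra.liftNC_single]
  change HahnSeries.C a * HahnSeries.single g (1 : K) = _
  rw [HahnSeries.C_apply, HahnSeries.single_mul_single, zero_add, mul_one]

lemma toH_coeff (f : AddMonoidAlgebra K ℝ) (g : ℝ) : (toH f).coeff g = f.coeff g := by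
  classical
  induction f using AddMonoidAlgebra.induction_linear with
  | zero => simp
  | add x y hx hy => simp [hx, hy]
  | single m r =>
    rw [toH_single, HahnSeries.coeff_single]
    rw [AddMonoidAlgebra.coeff_single, Finsupp.single_apply]
    simp only [eq_comm]

/-- the inclusion of finite series -/
noncomputable def toL : AddMonoidAlgebra K ℝ →+* LFs K :=
  RingHom.codRestrict toH (LFs K) fun f t => by
    refine (f.coeff.support.finite_toSet).subset ?_
    rintro x ⟨hx, _⟩
    rw [HahnSeries.mem_support, toH_coeff] at hx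
    exact Finsupp.mem_support_iff.2 hx

lemma toL_coeff (f : AddMonoidAlgebra K ℝ) (g : ℝ) :
    ((toL f : LFs K) : HahnSeries ℝ K).coeff g = f.coeff g := toH_coeff f g

lemma toL_injective : Function.Injective (toL (K := K)) := by
  intro f g h
  have : f.coeff = g.coeff := by
    ext x
    rw [← toL_coeff, ← toL_coeff, h]
  cases f; cases g
  simp only at this
  rw [this]

/-- truncation -/
lemma exists_trunc0 (f : LFs K) (E : ℝ) : ∃ P : AddMonoidAlgebra K ℝ, Lo E (f - toL P) := by
  classical
  set s : Finset ℝ := (f.2 E).toFinset with hs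
  refine ⟨AddMonoidAlgebra.ofCoeff (Finsupp.onFinset s
    (fun g => if g < E then (f : HahnSeries ℝ K).coeff g else 0) ?_), ?_⟩
  · intro g hg
    rw [hs, Set.Finite.mem_toFinset]
    by_cases h : g < E
    · rw [if_pos h] at hg; exact ⟨hg, h⟩
    · rw [if_neg h] at hg; exact absurd rfl hg
  · intro x hx
    by_contra h
    push Not at h
    apply hx
    rw [coe_sub', HahnSeries.coeff_sub, toL_coeff, AddMonoidAlgebra.coeff_ofCoeff,
      Finsupp.onFinset_apply, if_pos h, sub_self]

/-- limits of finite series -/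
lemma exists_lim (f : ℕ → AddMonoidAlgebra K ℝ) (g : ℕ → ℝ) (hg : Monotone g)
    (hgt : Filter.Tendsto g Filter.atTop Filter.atTop)
    (h : ∀ e, Lo (g e) (toL (f (e + 1)) - toL (f e))) :
    ∃ F : LFs K, ∀ e, Lo (g e) (F - toL (f e)) := by
  classical
  have h' : ∀ e k, Lo (g e) (toL (f (e + k)) - toL (f e)) := by
    intro e k
    induction k with
    | zero => rw [add_zero, sub_self]; exact Lo.zero _
    | succ k ih =>
      have h1 := (h (e + k)).anti (hg (Nat.le_add_right e k))
      have h2 : toL (f (e + (k + 1))) - toL (f e)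
          = (toL (f (e + k + 1)) - toL (f (e + k))) + (toL (f (e + k)) - toL (f e)) := by
        rw [← add_assoc]; ring
      rw [h2]; exact h1.add ih
  have hcoef : ∀ e e' x, x < g e → e ≤ e' → (f e').coeff x = (f e).coeff x := by
    intro e e' x hx hee
    obtain ⟨k, rfl⟩ := Nat.exists_eq_add_of_le hee
    by_contra hne
    have := h' e k x (by
      rw [coe_sub', HahnSeries.coeff_sub, toL_coeff, toL_coeff, sub_ne_zero]
      exact hne)
    linarith
  have hex : ∀ x : ℝ, ∃ e, x < g e := fun x => ((hgt.eventually_gt_atTop x).exists)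
  set c : ℝ → K := fun x => (f (hex x).choose).coeff x with hc
  have hc' : ∀ e x, x < g e → c x = (f e).coeff x := by
    intro e x hx
    rw [hc]
    rcases le_total (hex x).choose e with h1 | h1
    · exact (hcoef _ _ x (hex x).choose_spec h1).symm
    · exact hcoef _ _ x hx h1
  have hfin : ∀ t : ℝ, (Function.support c ∩ Set.Iio t).Finite := by
    intro t
    obtain ⟨e, he⟩ := hex t
    refine ((f e).coeff.support.finite_toSet).subset ?_
    rintro x ⟨hx, hxt⟩
    rw [Function.mem_support, hc' e x (lt_trans hxt he)] at hx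
    exact Finsupp.mem_support_iff.2 hx
  have hwf : (Function.support c).IsPWO := by
    apply Set.IsWF.isPWO
    rw [Set.isWF_iff_no_descending_seq]
    intro s hs hmem
    have h1 : (Set.range s) ⊆ Function.support c ∩ Set.Iio (s 0 + 1) := by
      rintro _ ⟨n, rfl⟩
      refine ⟨hmem n, ?_⟩
      have : s n ≤ s 0 := hs.antitone (Nat.zero_le n)
      simp only [Set.mem_Iio]; linarith
    exact Set.infinite_range_of_injective hs.injective ((hfin _).subset h1)
  refine ⟨⟨⟨c, hwf⟩, fun t => hfin t⟩, fun e x hx => ?_⟩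
  by_contra hlt
  push Not at hlt
  apply hx
  rw [coe_sub', HahnSeries.coeff_sub, toL_coeff]
  change c x - _ = 0
  rw [hc' e x hlt, sub_self]

end Pool.Agent.TH932.LF
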