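import Mathlib
import Pool.Agent.TH932.LF
import Pool.Agent.TH932.Fol

set_option autoImplicit false

/-!
# The abstract argument with real exponents
-/

namespace Pool.Agent.TH932.Gen

open MvPolynomial Pool.Agent.TH932.Std Pool.Agent.TH932.LF
open Pool.Agent.TH932.Abs (Filt exists_kernel rational_of_squeeze)

variable {K G : Type*} [Field K] [Field G] [Algebra K G] {r : ℕ}

/-- finite series with real exponents -/
abbrev A0 (K : Type*) [Field K] := AddMonoidAlgebra K ℝ

/-- evaluation of finite series -/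
noncomputable def ev0 (K : Type*) {G : Type*} [Field K] [Field G] [Algebra K G]
    (χ : Multiplicative ℝ →* G) : A0 K →+* G :=
  AddMonoidAlgebra.liftNCRingHom (algebraMap K G) χ (fun _ _ => mul_comm _ _)

variable (χ : Multiplicative ℝ →* G) (z : Fin r → G)

/-- the value at an exponent -/
abbrev ch {G : Type*} [Field G] (χ : Multiplicative ℝ →* G) (t : ℝ) : G := χ (Multiplicative.ofAdd t)

lemma ch_add (s t : ℝ) : ch χ (s + t) = ch χ s * ch χ t := by
  unfold ch; rw [ofAdd_add, map_mul]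

lemma ch_zero : ch χ 0 = 1 := by unfold ch; rw [ofAdd_zero, map_one]

lemma ch_ne (t : ℝ) : ch χ t ≠ 0 := by
  intro h
  have := ch_add χ t (-t)
  rw [add_neg_cancel, ch_zero, h, zero_mul] at this
  exact one_ne_zero this

lemma ch_neg (t : ℝ) : ch χ (-t) = (ch χ t)⁻¹ := by
  have := ch_add χ t (-t)
  rw [add_neg_cancel, ch_zero] at this
  exact (eq_inv_of_mul_eq_one_right this.symm)

@[simp] lemma ev0_single (g : ℝ) (a : K) :
    ev0 K χ (AddMonoidAlgebra.single g a) = algebraMap K G a * ch χ g := by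
  unfold ev0
  change AddMonoidAlgebra.liftNC _ _ _ = _
  rw [AddMonoidAlgebra.liftNC_single]
  rfl

lemma sum_single (f : A0 K) : f = ∑ g ∈ f.coeff.support, AddMonoidAlgebra.single g (f.coeff g) := by
  apply AddMonoidAlgebra.coeff_injective
  ext x
  have h : (∑ g ∈ f.coeff.support, AddMonoidAlgebra.single g (f.coeff g)).coeff x
      = ∑ g ∈ f.coeff.support, (AddMonoidAlgebra.single g (f.coeff g)).coeff x := by
    classical
    induction f.coeff.support using Finset.induction_on with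
    | empty => simp
    | insert a s ha ih => rw [Finset.sum_insert ha, Finset.sum_insert ha,
        AddMonoidAlgebra.coeff_add, Finsupp.add_apply, ih]
  rw [h]
  by_cases hx : x ∈ f.coeff.support
  · rw [Finset.sum_eq_single x]
    · rw [AddMonoidAlgebra.coeff_single, Finsupp.single_eq_same]
    · intro b _ hb
      rw [AddMonoidAlgebra.coeff_single, Finsupp.single_eq_of_ne (Ne.symm hb)]
    · intro h; exact absurd hx h
  · rw [Finset.sum_eq_zero]
    · exact Finsupp.notMem_support_iff.1 hx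
    · intro b hb
      rw [AddMonoidAlgebra.coeff_single, Finsupp.single_eq_of_ne]
      rintro rfl; exact hx hb

/-- evaluation -/
noncomputable def ev (K : Type*) {G : Type*} [Field K] [Field G] [Algebra K G] {r : ℕ}
    (χ : Multiplicative ℝ →* G) (z : Fin r → G) : MvPolynomial (Fin r) (A0 K) →+* G :=
  eval₂Hom (ev0 K χ) z

@[simp] lemma ev_C (p : A0 K) : ev K χ z (C p) = ev0 K χ p := by
  simp [ev]

@[simp] lemma ev_X (i : Fin r) : ev K χ z (X i) = z i := by
  simp [ev]

/-- the inclusion of polynomials -/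
noncomputable def io (K : Type*) [Field K] (r : ℕ) :
    MvPolynomial (Fin r) (A0 K) →+* MvPolynomial (Fin r) (LFs K) :=
  MvPolynomial.map toL

@[simp] lemma io_C (p : A0 K) : io K r (C p) = C (toL p) := by
  simp [io]

@[simp] lemma io_X (i : Fin r) : io K r (X i) = X i := by
  simp [io]

/-- all exponents are at least `t` -/
def LoB (t : ℝ) (H : MvPolynomial (Fin r) (LFs K)) : Prop := ∀ ν, Lo t (coeff ν H)

/-- all exponents are at least `t` -/
def LoA (t : ℝ) (P : MvPolynomial (Fin r) (A0 K)) : Prop :=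
  ∀ ν g, (coeff ν P).coeff g ≠ 0 → t ≤ g

lemma LoB_io {t : ℝ} {P : MvPolynomial (Fin r) (A0 K)} : LoB t (io K r P) ↔ LoA t P := by
  unfold LoB LoA Lo io
  simp only [coeff_map, toL_coeff]

lemma LoB.add {t : ℝ} {H H' : MvPolynomial (Fin r) (LFs K)} (h : LoB t H) (h' : LoB t H') :
    LoB t (H + H') := fun ν => by rw [coeff_add]; exact (h ν).add (h' ν)

lemma LoB.neg {t : ℝ} {H : MvPolynomial (Fin r) (LFs K)} (h : LoB t H) : LoB t (-H) :=
  fun ν => by rw [coeff_neg]; exact (h ν).neg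

lemma LoB.sub {t : ℝ} {H H' : MvPolynomial (Fin r) (LFs K)} (h : LoB t H) (h' : LoB t H') :
    LoB t (H - H') := by rw [sub_eq_add_neg]; exact h.add h'.neg

lemma LoB.mul {s t : ℝ} {H H' : MvPolynomial (Fin r) (LFs K)} (h : LoB s H) (h' : LoB t H') :
    LoB (s + t) (H * H') := fun ν => by
  classical
  rw [coeff_mul]
  exact Lo.sum _ _ fun x _ => (h _).mul (h' _)

lemma LoB.anti {s t : ℝ} {H : MvPolynomial (Fin r) (LFs K)} (hst : s ≤ t) (h : LoB t H) :
    LoB s H := fun ν => (h ν).anti hst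

lemma LoB.zero (t : ℝ) : LoB t (0 : MvPolynomial (Fin r) (LFs K)) := fun ν => by
  rw [coeff_zero]; exact Lo.zero t

lemma LoB.sum {ι : Type*} (s : Finset ι) (f : ι → MvPolynomial (Fin r) (LFs K)) {t : ℝ}
    (h : ∀ i ∈ s, LoB t (f i)) : LoB t (∑ i ∈ s, f i) :=
  Finset.sum_induction f (LoB t) (fun _ _ => LoB.add) (LoB.zero t) h

lemma LoB_C {t : ℝ} {f : LFs K} (h : Lo t f) : LoB t (C f : MvPolynomial (Fin r) (LFs K)) := by
  classical
  intro ν
  rw [coeff_C]
  split_ifs
  · exact h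
  · exact Lo.zero t

lemma LoB_monomial (μ : Fin r →₀ ℕ) :
    LoB 0 (MvPolynomial.monomial μ (1 : LFs K)) := by
  classical
  intro ν
  rw [coeff_monomial]
  split_ifs
  · exact Lo.one
  · exact Lo.zero 0

lemma exists_LoB (H : MvPolynomial (Fin r) (LFs K)) : ∃ a : ℝ, a ≤ 0 ∧ LoB a H := by
  classical
  choose b hb0 hb using fun ν => exists_Lo (coeff ν H)
  refine ⟨∑ ν ∈ H.support, b ν, Finset.sum_nonpos fun ν _ => hb0 ν, fun ν => ?_⟩
  by_cases hν : ν ∈ H.support
  · refine (hb ν).anti ?_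
    rw [← Finset.add_sum_erase _ _ hν]
    have : ∑ x ∈ H.support.erase ν, b x ≤ 0 := Finset.sum_nonpos fun ν _ => hb0 ν
    linarith
  · rw [notMem_support_iff.1 hν]; exact Lo.zero _

/-- truncation -/
lemma exists_trunc (Q : MvPolynomial (Fin r) (LFs K)) (E : ℝ) :
    ∃ (P : MvPolynomial (Fin r) (A0 K)) (H : MvPolynomial (Fin r) (LFs K)),
      Q = io K r P + H ∧ LoB E H := by
  induction Q using MvPolynomial.induction_on with
  | C f =>
    obtain ⟨P, hP⟩ := exists_trunc0 f E
    refine ⟨C P, C (f - toL P), ?_, LoB_C hP⟩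
    rw [io_C, ← C_add]
    congr 1; ring
  | add p q hp hq =>
    obtain ⟨P, H, h, h1⟩ := hp
    obtain ⟨P', H', h', h1'⟩ := hq
    refine ⟨P + P', H + H', ?_, h1.add h1'⟩
    rw [h, h', map_add]; ring
  | mul_X p i hp =>
    obtain ⟨P, H, h, h1⟩ := hp
    refine ⟨P * X i, H * X i, ?_, ?_⟩
    · rw [h, map_mul, io_X]; ring
    · have := h1.mul (LoB_monomial (K := K) (Finsupp.single i 1))
      rw [add_zero] at this
      exact this

variable {χ z} {S : ℝ → Set G} {w : ℝ}

lemma ev0_mem (hS : Filt K S) (hw : 0 ≤ w) (hχ : ∀ g : ℝ, ch χ g ∈ S (w * g)) {t : ℝ}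
    {f : A0 K} (hf : ∀ g, f.coeff g ≠ 0 → t ≤ g) : ev0 K χ f ∈ S (w * t) := by
  rw [sum_single f, map_sum]
  refine Finset.sum_induction _ (fun g => g ∈ S (w * t)) (fun _ _ => hS.add_mem)
    (hS.zero_mem _) ?_
  intro g hg
  rw [ev0_single]
  have h1 := hf g (Finsupp.mem_support_iff.1 hg)
  have h2 := hS.mul_mem (hS.alg_mem (f.coeff g)) (hχ g)
  rw [zero_add] at h2
  exact hS.anti (by gcongr) h2

lemma prod_mem (hS : Filt K S) {c : ℝ} (hz : ∀ i, z i ∈ S c) (ν : Fin r →₀ ℕ) :
    ∏ i, z i ^ ν i ∈ S (c * ν.degree) := by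
  have hprod : ∀ (s : Finset (Fin r)),
      ∏ i ∈ s, z i ^ ν i ∈ S (c * (∑ i ∈ s, ν i : ℕ)) := by
    classical
    intro s
    induction s using Finset.induction_on with
    | empty => simpa using hS.alg_mem 1
    | insert a s ha ih =>
      rw [Finset.prod_insert ha, Finset.sum_insert ha]
      have := hS.mul_mem (hS.pow_mem (hz a) (ν a)) ih
      refine hS.anti (le_of_eq ?_) this
      push_cast; ring
  have := hprod Finset.univ
  rwa [← Finsupp.degree_eq_sum] at this

lemma ev_monomial (ν : Fin r →₀ ℕ) (f : A0 K) :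
    ev K χ z (MvPolynomial.monomial ν f) = ev0 K χ f * ∏ i, z i ^ ν i := by
  rw [ev, eval₂Hom_monomial, Finsupp.prod_fintype _ _ (by simp)]

lemma ev_ge (hS : Filt K S) (hw : 0 ≤ w) (hχ : ∀ g : ℝ, ch χ g ∈ S (w * g))
    (hz : ∀ i, z i ∈ S 0) {t : ℝ} {P : MvPolynomial (Fin r) (A0 K)} (hP : LoA t P) :
    ev K χ z P ∈ S (w * t) := by
  rw [← MvPolynomial.support_sum_monomial_coeff P, map_sum]
  refine Finset.sum_induction _ (fun g => g ∈ S (w * t)) (fun _ _ => hS.add_mem)
      (hS.zero_mem _) ?_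
  intro ν _
  rw [ev_monomial]
  have h2 := hS.mul_mem (ev0_mem hS hw hχ (hP ν)) (prod_mem hS hz ν)
  simpa using h2

/-- the ideal of series elements all of whose truncations are small -/
noncomputable def JJ (hS : Filt K S) (hw : 0 ≤ w) (hχ : ∀ g : ℝ, ch χ g ∈ S (w * g))
    (hz : ∀ i, z i ∈ S 0) : Ideal (MvPolynomial (Fin r) (LFs K)) where
  carrier := {Q | ∀ E : ℝ, ∃ (P : MvPolynomial (Fin r) (A0 K))
    (H : MvPolynomial (Fin r) (LFs K)), Q = io K r P + H ∧ LoB E H ∧ ev K χ z P ∈ S (w * E)}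
  zero_mem' := fun E => ⟨0, 0, by simp, LoB.zero E, by simpa using hS.zero_mem _⟩
  add_mem' := by
    intro a b ha hb E
    obtain ⟨P, H, h, h0, h1⟩ := ha E
    obtain ⟨P', H', h', h0', h1'⟩ := hb E
    refine ⟨P + P', H + H', ?_, h0.add h0', ?_⟩
    · rw [h, h', map_add]; ring
    · rw [map_add]; exact hS.add_mem h1 h1'
  smul_mem' := by
    intro c Q hQ E
    obtain ⟨a, ha0, ha⟩ := exists_LoB c
    obtain ⟨b, hb0, hb⟩ := exists_LoB Q
    obtain ⟨P, H, h, h0, h1⟩ := hQ (E - a)
    obtain ⟨P', H', h', h0'⟩ := exists_trunc c (max (E - b) a)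
    have hP' : LoB a (io K r P') := by
      have : io K r P' = c - H' := by rw [h']; ring
      rw [this]; exact ha.sub (h0'.anti (le_max_right _ _))
    refine ⟨P' * P, H' * Q + io K r P' * H, ?_, ?_, ?_⟩
    · rw [smul_eq_mul, map_mul]
      linear_combination Q * h' + io K r P' * h
    · apply LoB.add
      · refine ((h0'.anti (le_max_left _ _)).mul hb).anti (le_of_eq ?_); ring
      · refine (hP'.mul h0).anti (le_of_eq ?_); ring
    · rw [map_mul]
      have := hS.mul_mem (ev_ge hS hw hχ hz (LoB_io.1 hP')) h1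
      refine hS.anti (le_of_eq ?_) this; ring

variable (hS : Filt K S) (hw : 0 ≤ w) (hχ : ∀ g : ℝ, ch χ g ∈ S (w * g)) (hz : ∀ i, z i ∈ S 0)

include hS hw hχ hz in
lemma mem_JJ_ev {Q : MvPolynomial (Fin r) (LFs K)} (hQ : Q ∈ JJ hS hw hχ hz)
    {P : MvPolynomial (Fin r) (A0 K)} {H : MvPolynomial (Fin r) (LFs K)} {E : ℝ}
    (h : io K r P = Q + H) (hH : LoB E H) : ev K χ z P ∈ S (w * E) := by
  obtain ⟨P', H', h', h0, h1⟩ := hQ E
  have h2 : LoB E (io K r (P - P')) := by
    have : io K r (P - P') = H + H' := by rw [map_sub, h, h']; ring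
    rw [this]; exact hH.add h0
  have h3 := ev_ge hS hw hχ hz (LoB_io.1 h2)
  have h4 := hS.add_mem h3 h1
  rw [← map_add, sub_add_cancel] at h4
  exact h4

lemma io_mem_JJ {P : MvPolynomial (Fin r) (A0 K)} (hP : ev K χ z P = 0) :
    io K r P ∈ JJ hS hw hχ hz :=
  fun E => ⟨P, 0, by simp, LoB.zero E, by rw [hP]; exact hS.zero_mem _⟩

/-- an element that is not small can be cancelled -/
lemma JJ_cancel (hinv : ∀ (t : ℝ) (a : G), a ∉ S t → a⁻¹ ∈ S (-t))
    {l Q : MvPolynomial (Fin r) (LFs K)} (hl : l ∉ JJ hS hw hχ hz) (hQ : l * Q ∈ JJ hS hw hχ hz) :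
    Q ∈ JJ hS hw hχ hz := by
  have h1 : ∃ E1 : ℝ, ∀ (P : MvPolynomial (Fin r) (A0 K)) (H : MvPolynomial (Fin r) (LFs K)),
      l = io K r P + H → LoB E1 H → ev K χ z P ∉ S (w * E1) := by
    by_contra hcon
    push Not at hcon
    exact hl hcon
  obtain ⟨E1, hE1⟩ := h1
  obtain ⟨a, ha0, ha⟩ := exists_LoB l
  obtain ⟨b, hb0, hb⟩ := exists_LoB Q
  intro E
  set M : ℝ := max (max E1 (E + E1)) (max E 0) - a - b with hM
  have hM1 : E1 ≤ M := by
    have := (le_max_left E1 (E + E1)).trans (le_max_left _ (max E 0)); linarith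
  have hM2 : E + E1 ≤ M + a + b := by
    have := (le_max_right E1 (E + E1)).trans (le_max_left _ (max E 0)); linarith
  have hM3 : E ≤ M := by
    have := (le_max_left E 0).trans (le_max_right (max E1 (E + E1)) _); linarith
  have hM4 : 0 ≤ M := by
    have := (le_max_right E 0).trans (le_max_right (max E1 (E + E1)) _); linarith
  obtain ⟨P, H, h, hH⟩ := exists_trunc l M
  obtain ⟨P', H', h', hH'⟩ := exists_trunc Q M
  refine ⟨P', H', h', hH'.anti hM3, ?_⟩
  have h2 : ev K χ z P ∉ S (w * E1) := hE1 P H h (hH.anti hM1)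
  have h3 := hinv _ _ h2
  have h0 : ev K χ z P ≠ 0 := fun h0 => h2 (by rw [h0]; exact hS.zero_mem _)
  have hP : LoB a (io K r P) := by
    have : io K r P = l - H := by rw [h]; ring
    rw [this]; exact ha.sub (hH.anti (by linarith))
  have h4 : io K r (P * P') = l * Q + (-(io K r P * H') - H * Q) := by
    rw [map_mul]
    linear_combination (-Q) * h - io K r P * h'
  have h5 := mem_JJ_ev hS hw hχ hz hQ h4 (E := M + a + b) (by
    apply LoB.sub
    · exact ((hP.mul hH').neg).anti (by linarith)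
    · exact (hH.mul hb).anti (by linarith))
  have h6 := hS.mul_mem h3 h5
  rw [map_mul, inv_mul_cancel_left₀ h0] at h6
  refine hS.anti ?_ h6
  have : w * (E + E1) ≤ w * (M + a + b) := by gcongr
  linarith

end Pool.Agent.TH932.Gen
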