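import Mathlib
import Pool.Agent.TH932.Gen

set_option autoImplicit false

/-!
# Auxiliary polynomials and the rationality of the ratio of weights, real exponents
-/

namespace Pool.Agent.TH932.Gen

open MvPolynomial Pool.Agent.TH932.Std Pool.Agent.TH932.LF
open Pool.Agent.TH932.Abs (Filt exists_kernel rational_of_squeeze)
open scoped Pointwise

variable {K G : Type*} [Field K] [Field G] [Algebra K G] {r : ℕ}
variable {χ : Multiplicative ℝ →* G} {z : Fin r → G} {S : ℝ → Set G} {w : ℝ}

/-- the Liouville inequality at the place `S` with slope `Λ` -/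
def Liou (K : Type*) {G : Type*} [Field K] [Field G] [Algebra K G] {r : ℕ}
    (χ : Multiplicative ℝ →* G) (z : Fin r → G) (S : ℝ → Set G) (Λ : ℝ) : Prop :=
  ∀ m : ℕ, ∃ C : ℝ, ∀ (D : ℝ) (P : MvPolynomial (Fin r) (A0 K)),
    (∀ ν ∈ P.support, ν.degree ≤ m) → (∀ ν g, (coeff ν P).coeff g ≠ 0 → 0 ≤ g ∧ g ≤ D) →
    ev K χ z P ≠ 0 → ∀ t : ℝ, ev K χ z P ∈ S t → t ≤ Λ * D + C

lemma toL_single (g : ℝ) (a : K) : toL (AddMonoidAlgebra.single g a) = mon g a := by
  apply Subtype.ext
  exact toH_single g a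

lemma coeff_mon_mul (g : ℝ) (a : K) (f : LFs K) (x : ℝ) :
    ((mon g a * f : LFs K) : HahnSeries ℝ K).coeff x = a * (f : HahnSeries ℝ K).coeff (x - g) := by
  have : x = (x - g) + g := by ring
  conv_lhs => rw [this]
  exact HahnSeries.coeff_single_mul_add

lemma coe_sum' {ι : Type*} (s : Finset ι) (f : ι → LFs K) :
    ((∑ i ∈ s, f i : LFs K) : HahnSeries ℝ K) = ∑ i ∈ s, (f i : HahnSeries ℝ K) :=
  map_sum (LFs K).subtype f s

lemma hcoeff_sum {ι : Type*} (s : Finset ι) (f : ι → HahnSeries ℝ K) (x : ℝ) :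
    (∑ i ∈ s, f i).coeff x = ∑ i ∈ s, (f i).coeff x := by
  classical
  induction s using Finset.induction_on with
  | empty => simp
  | insert a s ha ih => rw [Finset.sum_insert ha, Finset.sum_insert ha, HahnSeries.coeff_add, ih]

lemma acoeff_sum {ι : Type*} (s : Finset ι) (f : ι → A0 K) (x : ℝ) :
    (∑ i ∈ s, f i).coeff x = ∑ i ∈ s, (f i).coeff x := by
  classical
  induction s using Finset.induction_on with
  | empty => simp
  | insert a s ha ih =>
    rw [Finset.sum_insert ha, Finset.sum_insert ha, AddMonoidAlgebra.coeff_add,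
      Finsupp.add_apply, ih]

theorem fact (hS : Filt K S) (hw : 0 ≤ w) (hχ : ∀ g : ℝ, ch χ g ∈ S (w * g))
    (hz : ∀ i, z i ∈ S 0) {Λ : ℝ} (hΛ : 0 ≤ Λ) (hL : Liou K χ z S Λ) (m : ℕ) :
    w * hil (RingHom.ker (ev K χ z)) m ≤ Λ * hil (JJ hS hw hχ hz) m := by
  classical
  by_contra hcon
  push Not at hcon
  set I := RingHom.ker (ev K χ z) with hI
  set J := JJ hS hw hχ hz with hJ
  set U := std I m with hU
  set V := std J m with hV
  have := (std_finite I m).fintype
  have := (std_finite J m).fintype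
  have hcU : Fintype.card U = hil I m := by
    unfold hil; rw [← Nat.card_coe_set_eq, Nat.card_eq_fintype_card]
  have hcV : Fintype.card V = hil J m := by
    unfold hil; rw [← Nat.card_coe_set_eq, Nat.card_eq_fintype_card]
  -- reductions
  obtain ⟨c, hc, N, hN, hcN⟩ := RedG.common (M := J) (S := V)
    (g := fun μ : U => (MvPolynomial.monomial μ.1 (1 : LFs K)))
    (fun μ => Red.monomial μ.1 μ.2.2)
  obtain ⟨a, ha⟩ := exists_inv hc
  choose b1 hb10 hb1 using fun μ : U => exists_LoB (N μ)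
  have hb1' : ∀ μ, LoB (∑ μ, b1 μ) (N μ) := by
    intro μ
    refine (hb1 μ).anti ?_
    rw [← Finset.add_sum_erase Finset.univ b1 (Finset.mem_univ μ)]
    have : ∑ x ∈ Finset.univ.erase μ, b1 x ≤ 0 := Finset.sum_nonpos fun ν _ => hb10 ν
    linarith
  obtain ⟨b, hb⟩ := exists_nat_ge (-(a + ∑ μ, b1 μ))
  have hUpos : 0 < Fintype.card U := by
    by_contra h0
    have h0' : hil I m = 0 := by omega
    rw [h0'] at hcon
    have : 0 ≤ Λ * (hil J m : ℝ) := by positivity
    simp at hcon
    linarith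
  obtain ⟨CC, hCC⟩ := hL m
  set u := Fintype.card U with hu
  set v := Fintype.card V with hv
  have hpos : 0 < w * hil I m - Λ * hil J m := by linarith
  obtain ⟨k, hk⟩ := exists_nat_gt ((Λ * (v * b + 1) + CC) / (w * hil I m - Λ * hil J m))
  rw [div_lt_iff₀ hpos] at hk
  set E : ℕ := k * u with hE
  set D : ℕ := k * v + v * b + 1 with hD
  obtain ⟨c', hc'1, hc'2⟩ := ha E
  set N' : U → MvPolynomial (Fin r) (LFs K) := fun μ => C c' * N μ with hN'
  have hN's : ∀ μ, ∀ ν ∈ (N' μ).support, ν ∈ V := fun μ => supp_C_mul _ (hN μ)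
  have hN'J : ∀ μ, C (c' * c) * MvPolynomial.monomial μ.1 (1 : LFs K) - N' μ ∈ J := by
    intro μ
    have h1 := J.mul_mem_left (C c') (hcN μ)
    convert h1 using 1
    rw [C_mul]; ring
  have hN'b : ∀ μ, LoB (-(b : ℝ)) (N' μ) := fun μ =>
    ((LoB_C hc'1).mul (hb1' μ)).anti (by linarith)
  -- supports
  set T : Finset ℝ := Finset.univ.biUnion fun x : U × V =>
    ((coeff x.2.1 (N' x.1)).2 E).toFinset with hT
  have hTb : ∀ t ∈ T, -(b : ℝ) ≤ t := by
    intro t ht
    rw [hT, Finset.mem_biUnion] at ht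
    obtain ⟨⟨μ, ν⟩, _, hx⟩ := ht
    rw [Set.Finite.mem_toFinset] at hx
    exact hN'b μ ν.1 t hx.1
  obtain ⟨Om, hOm1, hOm2⟩ := Fol.folner T b E D u v hTb (by
    rw [hE, hD]
    nlinarith [Nat.zero_le (u * v * b), Nat.zero_le (v * b)])
  set Ph : Finset ℝ := (Om + T).filter (fun x : ℝ => x < (E : ℝ)) with hPh
  -- linear algebra
  let M : Matrix (V × Ph) (U × Om) K :=
    fun x y => ((coeff x.1.1 (N' y.1) : LFs K) : HahnSeries ℝ K).coeff (x.2.1 - y.2.1)
  obtain ⟨p, hp0, hp⟩ := exists_kernel M (by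
    simp only [Fintype.card_prod, Fintype.card_coe]
    exact hOm2)
  set q : U → A0 K := fun μ => ∑ i : Om, AddMonoidAlgebra.single i.1 (p (μ, i)) with hq
  set P : MvPolynomial (Fin r) (A0 K) := ∑ μ : U, MvPolynomial.monomial μ.1 (q μ) with hP
  have hcoeffP : ∀ μ : U, coeff μ.1 P = q μ := by
    intro μ
    rw [hP, coeff_sum, Finset.sum_eq_single μ]
    · rw [coeff_monomial, if_pos rfl]
    · intro b _ hb
      rw [coeff_monomial, if_neg]
      intro h; exact hb (Subtype.ext h)
    · simp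
  have hcoeffP0 : ∀ ν, ν ∉ U → coeff ν P = 0 := by
    intro ν hν
    rw [hP, coeff_sum]
    apply Finset.sum_eq_zero
    intro b _
    rw [coeff_monomial, if_neg]
    intro h; exact hν (h ▸ b.2)
  have hsupp : ∀ ν ∈ P.support, ν ∈ U := by
    intro ν hν
    by_contra h
    exact (mem_support_iff.1 hν) (hcoeffP0 ν h)
  have hqcoeff : ∀ (μ : U) (i : Om), (q μ).coeff i.1 = p (μ, i) := by
    intro μ i
    rw [hq]
    dsimp only
    rw [acoeff_sum, Finset.sum_eq_single i]
    · rw [AddMonoidAlgebra.coeff_single, Finsupp.single_eq_same]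
    · intro b _ hb
      rw [AddMonoidAlgebra.coeff_single, Finsupp.single_eq_of_ne]
      intro h; exact hb (Subtype.ext h.symm)
    · simp
  have hqcoeff0 : ∀ (μ : U) (g : ℝ), (q μ).coeff g ≠ 0 → g ∈ Om := by
    intro μ g hg
    by_contra h
    apply hg
    rw [hq]
    dsimp only
    rw [acoeff_sum]
    apply Finset.sum_eq_zero
    intro i _
    rw [AddMonoidAlgebra.coeff_single, Finsupp.single_eq_of_ne]
    rintro rfl; exact h i.2
  have hPne : P ≠ 0 := by
    intro h0
    apply hp0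
    funext x
    obtain ⟨μ, i⟩ := x
    rw [← hqcoeff, ← hcoeffP, h0]
    simp
  have hevP : ev K χ z P ≠ 0 := by
    intro h0
    exact hPne (eq_zero_of_mem (J := I) (m := m) hsupp (by rw [hI, RingHom.mem_ker]; exact h0))
  have hexp : ∀ ν g, (coeff ν P).coeff g ≠ 0 → 0 ≤ g ∧ g ≤ (D : ℝ) := by
    intro ν g hg
    by_cases hν : ν ∈ U
    · have h1 := hcoeffP ⟨ν, hν⟩
      simp only at h1
      rw [h1] at hg
      have := hOm1 g (hqcoeff0 _ g hg)
      exact ⟨this.1, this.2.le⟩
    · rw [hcoeffP0 ν hν] at hg; simp at hg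
  have hqL : ∀ μ, Lo 0 (toL (q μ)) := by
    intro μ g hg
    rw [toL_coeff] at hg
    exact (hOm1 g (hqcoeff0 μ g hg)).1
  -- divisibility
  have hdvd : LoB E (∑ μ : U, C (toL (q μ)) * N' μ) := by
    intro ν x hx
    by_contra hlt
    push Not at hlt
    apply hx
    rw [coeff_sum]
    simp only [coeff_C_mul]
    rw [coe_sum', hcoeff_sum]
    have hterm : ∀ μ : U, ((toL (q μ) * coeff ν (N' μ) : LFs K) : HahnSeries ℝ K).coeff x
        = ∑ i : Om, p (μ, i) * ((coeff ν (N' μ) : LFs K) : HahnSeries ℝ K).coeff (x - i.1) := by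
      intro μ
      have h1 : toL (q μ) * coeff ν (N' μ) = ∑ i : Om, mon i.1 (p (μ, i)) * coeff ν (N' μ) := by
        rw [hq]
        dsimp only
        rw [map_sum, Finset.sum_mul]
        simp only [toL_single]
      rw [h1, coe_sum', hcoeff_sum]
      simp only [coeff_mon_mul]
    simp only [hterm]
    by_cases hν : ν ∈ V
    · by_cases hxP : x ∈ Ph
      · have h1 := congrFun hp (⟨ν, hν⟩, ⟨x, hxP⟩)
        simp only [Matrix.mulVec, dotProduct, M, Pi.zero_apply] at h1
        rw [Fintype.sum_prod_type] at h1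
        rw [← h1]
        apply Finset.sum_congr rfl
        intro μ _
        apply Finset.sum_congr rfl
        intro i _
        ring
      · apply Finset.sum_eq_zero
        intro μ _
        apply Finset.sum_eq_zero
        intro i _
        have : ((coeff ν (N' μ) : LFs K) : HahnSeries ℝ K).coeff (x - i.1) = 0 := by
          by_contra h
          apply hxP
          rw [hPh, Finset.mem_filter]
          refine ⟨?_, hlt⟩
          have h2 : x - i.1 ∈ T := by
            rw [hT, Finset.mem_biUnion]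
            refine ⟨(μ, ⟨ν, hν⟩), Finset.mem_univ _, ?_⟩
            rw [Set.Finite.mem_toFinset]
            refine ⟨h, ?_⟩
            have := (hOm1 i.1 i.2).1
            simp only [Set.mem_Iio]; linarith
          have h3 : x = i.1 + (x - i.1) := by ring
          rw [h3]
          exact Finset.add_mem_add i.2 h2
        rw [this, mul_zero]
    · apply Finset.sum_eq_zero
      intro μ _
      have : coeff ν (N' μ) = 0 := by
        by_contra h
        exact hν (hN's μ ν (mem_support_iff.2 h))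
      rw [this]
      simp
  have hQ : ∑ μ : U, C (toL (q μ)) *
      (C (c' * c) * MvPolynomial.monomial μ.1 (1 : LFs K) - N' μ) ∈ J :=
    J.sum_mem fun μ _ => J.mul_mem_left _ (hN'J μ)
  have hio : io K r P = ∑ μ : U, C (toL (q μ)) *
      (C (c' * c) * MvPolynomial.monomial μ.1 (1 : LFs K) - N' μ) +
      (∑ μ : U, C (toL (q μ)) * N' μ - ∑ μ : U, C (toL (q μ)) *
        (C (c' * c - 1) * MvPolynomial.monomial μ.1 (1 : LFs K))) := by
    rw [← Finset.sum_sub_distrib, ← Finset.sum_add_distrib, hP, map_sum]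
    apply Finset.sum_congr rfl
    intro μ _
    have h3 : io K r (MvPolynomial.monomial μ.1 (q μ))
        = C (toL (q μ)) * MvPolynomial.monomial μ.1 (1 : LFs K) := by
      rw [io, map_monomial, C_mul_monomial, mul_one]
    rw [h3]
    simp only [C_sub, C_1]
    ring
  have h5 := mem_JJ_ev hS hw hχ hz hQ hio (E := E) (by
    apply hdvd.sub
    apply LoB.sum
    intro μ _
    have := (LoB_C (hqL μ) : LoB (r := r) 0 _).mul ((LoB_C hc'2).mul (LoB_monomial μ.1))
    exact this.anti (by simp))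
  have h7 := hCC D P (fun ν hν => (hsupp ν hν).2) hexp hevP _ h5
  rw [hD, hE] at h7
  push_cast at h7
  rw [← hcU, ← hcV] at hk
  nlinarith

/-- the sum rule for Hilbert functions -/
theorem sum_rule {R0 R : Type*} [CommRing R0] [IsDomain R0] [CommRing R] [IsDomain R]
    (φ : R0 →+* R) (hφ : Function.Injective φ) {I : Ideal (MvPolynomial (Fin r) R0)}
    {Jp Ji : Ideal (MvPolynomial (Fin r) R)} {l : MvPolynomial (Fin r) R}
    (hIp : ∀ f ∈ I, MvPolynomial.map φ f ∈ Jp) (hIi : ∀ f ∈ I, MvPolynomial.map φ f ∈ Ji)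
    (hl : l ∈ Jp) (hli : ∀ Q, l * Q ∈ Ji → Q ∈ Ji) (hdeg : ∀ ν ∈ l.support, ν.degree ≤ 1)
    (m : ℕ) : hil Jp (m + 1) + hil Ji m ≤ hil I (m + 1) := by
  classical
  by_contra hcon
  push Not at hcon
  have := (std_finite Jp (m + 1)).fintype
  have := (std_finite Ji m).fintype
  have hcp : Fintype.card (std Jp (m + 1)) = hil Jp (m + 1) := by
    unfold hil; rw [← Nat.card_coe_set_eq, Nat.card_eq_fintype_card]
  have hci : Fintype.card (std Ji m) = hil Ji m := by
    unfold hil; rw [← Nat.card_coe_set_eq, Nat.card_eq_fintype_card]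
  set M := Jp ⊓ Ji with hM
  set U := std I (m + 1) with hU
  have hmono : ∀ μ : Fin r →₀ ℕ, μ.degree ≤ m + 1 →
      RedG M U (MvPolynomial.monomial μ (1 : R)) := by
    intro μ hμ
    obtain ⟨c, hc, N, hN, h⟩ := Red.monomial (J := I) μ hμ
    refine ⟨φ c, ?_, MvPolynomial.map φ N, ?_, ?_⟩
    · intro h0
      apply hc
      exact hφ (by rw [h0, map_zero])
    · intro ν hν
      apply hN
      exact MvPolynomial.support_map_subset _ _ hν
    · have h1 : C (φ c) * MvPolynomial.monomial μ (1 : R) - MvPolynomial.map φ N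
          = MvPolynomial.map φ (C c * MvPolynomial.monomial μ 1 - N) := by
        rw [map_sub, map_mul, map_C, map_monomial, map_one φ]
      rw [h1]
      exact ⟨hIp _ h, hIi _ h⟩
  let g : (std Jp (m + 1)) ⊕ (std Ji m) → MvPolynomial (Fin r) R :=
    Sum.elim (fun μ => MvPolynomial.monomial μ.1 1) (fun ν => l * MvPolynomial.monomial ν.1 1)
  have hg : ∀ e, RedG M U (g e) := by
    intro e
    rcases e with μ | ν
    · exact hmono μ.1 μ.2.2
    · apply RedG.of_monomials
      intro ξ hξ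
      apply hmono
      have h1 := MvPolynomial.support_mul _ _ hξ
      obtain ⟨a, ha, b, hb, hab⟩ := Finset.mem_add.1 h1
      have hb' := MvPolynomial.support_monomial_subset hb
      rw [Finset.mem_singleton] at hb'
      rw [← hab, map_add, hb']
      have := hdeg a ha
      have := ν.2.2
      omega
  obtain ⟨c, hc, N, hN, hcN⟩ := RedG.common hg
  obtain ⟨a, ⟨e0, he0⟩, ha⟩ := dependent (std_finite I (m + 1)) N hN (by
    rw [Fintype.card_sum, hcp, hci]; exact hcon)
  have h1 : ∑ e, C (a e) * (C c * g e) ∈ M := by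
    have h2 : ∑ e, C (a e) * (C c * g e - N e) ∈ M := M.sum_mem fun e _ => M.mul_mem_left _ (hcN e)
    have h3 : ∑ e, C (a e) * (C c * g e - N e) = ∑ e, C (a e) * (C c * g e) := by
      simp only [mul_sub, Finset.sum_sub_distrib, ha, sub_zero]
    rwa [h3] at h2
  set A : MvPolynomial (Fin r) R := ∑ μ : std Jp (m + 1),
    C (a (Sum.inl μ) * c) * MvPolynomial.monomial μ.1 1 with hA
  set B : MvPolynomial (Fin r) R := ∑ ν : std Ji m,
    C (a (Sum.inr ν) * c) * MvPolynomial.monomial ν.1 1 with hB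
  have h4 : ∑ e, C (a e) * (C c * g e) = A + l * B := by
    rw [Fintype.sum_sum_type, hA, hB, Finset.mul_sum]
    congr 1
    · apply Finset.sum_congr rfl
      intro μ _
      simp only [g, Sum.elim_inl, C_mul]
      ring
    · apply Finset.sum_congr rfl
      intro μ _
      simp only [g, Sum.elim_inr, C_mul]
      ring
  rw [h4] at h1
  have hsA : ∀ ξ ∈ A.support, ξ ∈ std Jp (m + 1) := by
    apply supp_sum
    intro μ _
    apply supp_C_mul
    intro ξ hξ
    have hb' := MvPolynomial.support_monomial_subset hξ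
    rw [Finset.mem_singleton] at hb'
    rw [hb']; exact μ.2
  have hsB : ∀ ξ ∈ B.support, ξ ∈ std Ji m := by
    apply supp_sum
    intro μ _
    apply supp_C_mul
    intro ξ hξ
    have hb' := MvPolynomial.support_monomial_subset hξ
    rw [Finset.mem_singleton] at hb'
    rw [hb']; exact μ.2
  have hA0 : A = 0 := by
    apply eq_zero_of_mem hsA
    have h5 : A = (A + l * B) - l * B := by ring
    rw [h5]
    exact Jp.sub_mem h1.1 (Jp.mul_mem_right _ hl)
  have hB0 : B = 0 := by
    apply eq_zero_of_mem hsB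
    apply hli
    have := h1.2
    rwa [hA0, zero_add] at this
  have hcA : ∀ μ : std Jp (m + 1), coeff μ.1 A = a (Sum.inl μ) * c := by
    intro μ
    rw [hA, coeff_sum, Finset.sum_eq_single μ]
    · rw [coeff_C_mul, coeff_monomial, if_pos rfl, mul_one]
    · intro b _ hb
      rw [coeff_C_mul, coeff_monomial, if_neg, mul_zero]
      intro h; exact hb (Subtype.ext h)
    · simp
  have hcB : ∀ μ : std Ji m, coeff μ.1 B = a (Sum.inr μ) * c := by
    intro μ
    rw [hB, coeff_sum, Finset.sum_eq_single μ]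
    · rw [coeff_C_mul, coeff_monomial, if_pos rfl, mul_one]
    · intro b _ hb
      rw [coeff_C_mul, coeff_monomial, if_neg, mul_zero]
      intro h; exact hb (Subtype.ext h)
    · simp
  rcases e0 with μ | ν
  · have := hcA μ
    rw [hA0, coeff_zero] at this
    rcases mul_eq_zero.1 this.symm with h | h
    · exact he0 h
    · exact hc h
  · have := hcB ν
    rw [hB0, coeff_zero] at this
    rcases mul_eq_zero.1 this.symm with h | h
    · exact he0 h
    · exact hc h

lemma one_notMem {w Λ : ℝ} (hS : Filt K S) (hw : 0 < w)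
    (hL : Liou K χ z S Λ) : (1 : G) ∉ S w := by
  intro h1
  obtain ⟨C, hC⟩ := hL 0
  obtain ⟨n, hn⟩ := exists_nat_gt (C / w)
  rw [div_lt_iff₀ hw] at hn
  have h2 := hS.pow_mem h1 n
  rw [one_pow] at h2
  have h3 := hC 0 1 (by
    intro ν hν
    have : (1 : MvPolynomial (Fin r) (A0 K)) = MvPolynomial.monomial 0 1 := rfl
    rw [this] at hν
    have := MvPolynomial.support_monomial_subset hν
    rw [Finset.mem_singleton] at this
    simp [this]) (by
    classical
    intro ν g hg
    rw [coeff_one] at hg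
    split_ifs at hg with h
    · have h4 : (1 : A0 K) = AddMonoidAlgebra.single 0 1 := AddMonoidAlgebra.one_def
      rw [h4, AddMonoidAlgebra.coeff_single] at hg
      have : g = 0 := by
        by_contra h5
        exact hg (Finsupp.single_eq_of_ne h5)
      rw [this]; simp
    · simp at hg) (by simp) (w * n) (by simpa using h2)
  simp at h3
  linarith

lemma ev0_ne_zero {Λ : ℝ} (hS : Filt K S) (hw : 0 < w) (hχ : ∀ g : ℝ, ch χ g ∈ S (w * g))
    (hL : Liou K χ z S Λ) (f : A0 K) (hf : f ≠ 0) : ev0 K χ f ≠ 0 := by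
  classical
  intro h0
  have hne : f.coeff.support.Nonempty := by
    rw [Finset.nonempty_iff_ne_empty]
    intro h
    apply hf
    apply AddMonoidAlgebra.coeff_injective
    rw [Finsupp.support_eq_empty.1 h]
    rfl
  set g0 := f.coeff.support.min' hne with hg0
  have hg0m : g0 ∈ f.coeff.support := Finset.min'_mem _ _
  have hk0 : f.coeff g0 ≠ 0 := Finsupp.mem_support_iff.1 hg0m
  set s := f.coeff.support.erase g0 with hs
  obtain ⟨δ, hδ, hδs⟩ : ∃ δ : ℝ, 0 < δ ∧ ∀ g ∈ s, g0 + δ ≤ g := by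
    by_cases hse : s.Nonempty
    · refine ⟨s.min' hse - g0, ?_, fun g hg => ?_⟩
      · have h1 := Finset.min'_mem s hse
        have h2 := Finset.mem_erase.1 h1
        have h3 := Finset.min'_le _ _ h2.2
        have := lt_of_le_of_ne h3 (Ne.symm h2.1)
        linarith
      · have := Finset.min'_le s g hg
        linarith
    · exact ⟨1, one_pos, fun g hg => absurd ⟨g, hg⟩ hse⟩
  have h1 : ev0 K χ f = algebraMap K G (f.coeff g0) * ch χ g0
      + ∑ g ∈ s, algebraMap K G (f.coeff g) * ch χ g := by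
    conv_lhs => rw [sum_single f]
    rw [map_sum, ← Finset.add_sum_erase _ _ hg0m]
    simp only [ev0_single, hs]
  have h2 : ∑ g ∈ s, algebraMap K G (f.coeff g) * ch χ g ∈ S (w * (g0 + δ)) := by
    refine Finset.sum_induction _ (fun g => g ∈ S (w * (g0 + δ))) (fun _ _ => hS.add_mem)
      (hS.zero_mem _) ?_
    intro g hg
    have h3 := hS.mul_mem (hS.alg_mem (f.coeff g)) (hχ g)
    rw [zero_add] at h3
    refine hS.anti ?_ h3
    have := hδs g hg
    gcongr
  have h3 : (1 : G) = -(algebraMap K G (f.coeff g0)⁻¹ * (ch χ (-g0) *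
      ∑ g ∈ s, algebraMap K G (f.coeff g) * ch χ g)) := by
    rw [h0] at h1
    have h4 := ch_ne χ g0
    have h5 : algebraMap K G (f.coeff g0) ≠ 0 := by
      intro h; exact hk0 ((map_eq_zero _).1 h)
    rw [ch_neg, map_inv₀]
    field_simp
    linear_combination -h1
  have h4 : (1 : G) ∈ S (w * δ) := by
    rw [h3]
    have h5 := hS.mul_mem (hS.alg_mem (f.coeff g0)⁻¹) (hS.mul_mem (hχ (-g0)) h2)
    have h6 := hS.mul_mem (hS.alg_mem (-1)) h5
    rw [map_neg, map_one, neg_one_mul] at h6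
    refine hS.anti (le_of_eq ?_) h6
    ring
  exact one_notMem hS (mul_pos hw hδ) hL h4

/-- **Abstract theorem.** -/
theorem rational_ratio {Sp Si : ℝ → Set G} {wp wi : ℝ} (hSp : Filt K Sp) (hSi : Filt K Si)
    (hwp : 0 < wp) (hwi : 0 < wi) (hχp : ∀ g : ℝ, ch χ g ∈ Sp (wp * g))
    (hχi : ∀ g : ℝ, ch χ g ∈ Si (wi * g))
    (hzp : ∀ i, z i ∈ Sp 0) (hzi : ∀ i, z i ∈ Si 0)
    (hinv : ∀ (t : ℝ) (a : G), a ∉ Si t → a⁻¹ ∈ Si (-t))
    (hLp : Liou K χ z Sp (wp + wi)) (hLi : Liou K χ z Si (wp + wi))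
    {l : MvPolynomial (Fin r) (LFs K)} (hlp : l ∈ JJ hSp hwp.le hχp hzp)
    (hli : l ∉ JJ hSi hwi.le hχi hzi) (hdeg : ∀ ν ∈ l.support, ν.degree ≤ 1) :
    ∃ q : ℚ, wp / (wp + wi) = q := by
  have hΛ : 0 < wp + wi := by linarith
  have hfp := fact hSp hwp.le hχp hzp hΛ.le hLp
  have hfi := fact hSi hwi.le hχi hzi hΛ.le hLi
  have hsum := sum_rule toL toL_injective (I := RingHom.ker (ev K χ z)) (l := l)
    (fun f hf => io_mem_JJ hSp hwp.le hχp hzp hf) (fun f hf => io_mem_JJ hSi hwi.le hχi hzi hf)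
    hlp (fun Q hQ => JJ_cancel hSi hwi.le hχi hzi hinv hli hQ) hdeg
  refine rational_of_squeeze (f := hil (RingHom.ker (ev K χ z)))
    (g := hil (JJ hSp hwp.le hχp hzp)) ?_ ?_ (div_pos hwp hΛ) ?_ ?_ ?_
  · exact Cnt.cnt_evPoly (lead (RingHom.ker (ev K χ z))) fun μ hμ ν => lead_add ν hμ
  · exact Cnt.cnt_evPoly (lead (JJ hSp hwp.le hχp hzp)) fun μ hμ ν => lead_add ν hμ
  · intro m
    rw [Nat.one_le_iff_ne_zero, Ne, hil, Set.ncard_eq_zero (std_finite _ _)]
    intro h0
    have : (0 : Fin r →₀ ℕ) ∈ std (RingHom.ker (ev K χ z)) m := by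
      refine ⟨?_, by simp⟩
      rintro ⟨f, hf, hf0, hd⟩
      obtain ⟨c, rfl⟩ : ∃ c : A0 K, f = C c := ⟨_, (mo r).eq_C_of_degree_eq_zero hd⟩
      rw [RingHom.mem_ker, ev_C] at hf
      exact ev0_ne_zero hSp hwp hχp hLp c (fun h => hf0 (by rw [h, C_0])) hf
    rw [h0] at this
    exact this
  · intro m
    have := hfp m
    rw [div_mul_eq_mul_div, div_le_iff₀ hΛ]
    linarith
  · intro m
    have h1 := hsum m
    have h2 := hfi m
    have h1' : (hil (JJ hSp hwp.le hχp hzp) (m + 1) : ℝ) + hil (JJ hSi hwi.le hχi hzi) m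
        ≤ hil (RingHom.ker (ev K χ z)) (m + 1) := by exact_mod_cast h1
    have h3 : (1 - wp / (wp + wi)) * hil (RingHom.ker (ev K χ z)) m
        ≤ hil (JJ hSi hwi.le hχi hzi) m := by
      have : 1 - wp / (wp + wi) = wi / (wp + wi) := by field_simp; ring
      rw [this, div_mul_eq_mul_div, div_le_iff₀ hΛ]
      linarith
    linarith

end Pool.Agent.TH932.Gen
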