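import Mathlib
import Pool.Agent.TH932.GenFact

set_option autoImplicit false

/-!
# Chains of affine relations in a field with two places
-/

namespace Pool.Agent.TH932.Gen

open MvPolynomial Pool.Agent.TH932.Std Pool.Agent.TH932.LF
open Pool.Agent.TH932.Abs (Filt)

variable {K G : Type*} [Field K] [Field G] [Algebra K G] {r : ℕ}

lemma exists_limB (P : ℕ → MvPolynomial (Fin r) (A0 K)) (g : ℕ → ℝ) (hg : Monotone g)
    (hgt : Filter.Tendsto g Filter.atTop Filter.atTop)
    (hdeg : ∀ e, ∀ ν ∈ (P e).support, ν.degree ≤ 1)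
    (h : ∀ e, LoB (g e) (io K r (P (e + 1)) - io K r (P e))) :
    ∃ l : MvPolynomial (Fin r) (LFs K), (∀ ν ∈ l.support, ν.degree ≤ 1) ∧
      ∀ e, LoB (g e) (l - io K r (P e)) := by
  classical
  have h1 : ∀ ν : Fin r →₀ ℕ, ∃ F : LFs K, ∀ e, Lo (g e) (F - toL (coeff ν (P e))) := by
    intro ν
    apply exists_lim (fun e => coeff ν (P e)) g hg hgt
    intro e
    have := h e ν
    rw [coeff_sub, io, coeff_map, coeff_map] at this
    exact this
  choose F hF using h1
  set s := (deg_le_finite (r := r) 1).toFinset with hs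
  refine ⟨∑ ν ∈ s, MvPolynomial.monomial ν (F ν), ?_, ?_⟩
  · apply supp_sum (S := {ν | ν.degree ≤ 1})
    intro μ hμ ν hν
    have := MvPolynomial.support_monomial_subset hν
    rw [Finset.mem_singleton] at this
    rw [this]
    rw [hs, Set.Finite.mem_toFinset] at hμ
    exact hμ
  · intro e ν
    rw [coeff_sub, io, coeff_map, coeff_sum]
    simp only [coeff_monomial]
    by_cases hν : ν ∈ s
    · rw [Finset.sum_eq_single ν]
      · rw [if_pos rfl]; exact hF ν e
      · intro b _ hb; rw [if_neg hb]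
      · intro h; exact absurd hν h
    · rw [Finset.sum_eq_zero]
      · have : coeff ν (P e) = 0 := by
          by_contra h0
          apply hν
          rw [hs, Set.Finite.mem_toFinset]
          exact hdeg e ν (mem_support_iff.2 h0)
        rw [this, map_zero, sub_zero]
        exact Lo.zero _
      · intro b hb
        rw [if_neg]
        rintro rfl; exact hν hb

/-- **Chains.** -/
theorem chain {Sp Si : ℝ → Set G} {wp wi : ℝ} (hSp : Filt K Sp) (hSi : Filt K Si)
    (hwp : 0 < wp) (hwi : 0 < wi) {χ : Multiplicative ℝ →* G} {z : Fin r → G}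
    (hχp : ∀ g : ℝ, ch χ g ∈ Sp (wp * g)) (hχi : ∀ g : ℝ, ch χ g ∈ Si (wi * g))
    (hzp : ∀ i, z i ∈ Sp 0) (hzi : ∀ i, z i ∈ Si 0)
    (hinv : ∀ (t : ℝ) (a : G), a ∉ Si t → a⁻¹ ∈ Si (-t))
    (hLp : Liou K χ z Sp (wp + wi)) (hLi : Liou K χ z Si (wp + wi))
    (hirr : Irrational (wp / (wp + wi)))
    (Y : ℕ → G) (κ : ℕ → K) (t : ℕ → ℝ) (Λ : ℕ → MvPolynomial (Fin r) (A0 K)) (i0 : Fin r)
    {c : ℝ} (hc : 0 ≤ c) (hκ : ∀ e, κ e ≠ 0) (ht : ∀ e, 0 ≤ t e)
    (htt : Filter.Tendsto (fun e => ∑ i ∈ Finset.range e, t i) Filter.atTop Filter.atTop)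
    (hΛ : ∀ e, LoA 0 (Λ e)) (hΛd : ∀ e, ∀ ν ∈ (Λ e).support, ν.degree ≤ 1)
    (hY0 : z i0 = ch χ c * Y 0) (hYp : ∀ e, Y e ∈ Sp 0)
    (hrec : ∀ e, algebraMap K G (κ e) * ch χ (t e) * (ch χ c * Y (e + 1))
      = ch χ c * Y e + ev K χ z (Λ e)) :
    ∀ e, Y e ∈ Si (-(wi * c)) := by
  classical
  set g : ℕ → ℝ := fun e => ∑ i ∈ Finset.range e, t i with hg
  set M : ℕ → K := fun e => ∏ i ∈ Finset.range e, κ i with hM
  have hMne : ∀ e, algebraMap K G (M e) ≠ 0 := by
    intro e h
    have := (map_eq_zero _).1 h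
    exact (Finset.prod_ne_zero_iff.2 fun i _ => hκ i) this
  have hgm : Monotone g := monotone_nat_of_le_succ fun e => by
    simp only [hg, Finset.sum_range_succ]; linarith [ht e]
  have hg0 : ∀ e, 0 ≤ g e := fun e => Finset.sum_nonneg fun i _ => ht i
  set P : ℕ → MvPolynomial (Fin r) (A0 K) := fun e =>
    X i0 + ∑ i ∈ Finset.range e, C (AddMonoidAlgebra.single (g i) (M i)) * Λ i with hP
  have hPs : ∀ e, P (e + 1) = P e + C (AddMonoidAlgebra.single (g e) (M e)) * Λ e := by
    intro e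
    simp only [hP, Finset.sum_range_succ]
    ring
  have hevP : ∀ e, ev K χ z (P e) = algebraMap K G (M e) * ch χ (g e) * (ch χ c * Y e) := by
    intro e
    induction e with
    | zero => simp [hP, hM, hg, hY0, ch_zero]
    | succ e ih =>
      rw [hPs, map_add, ih, map_mul, ev_C, ev0_single]
      have h1 : M (e + 1) = M e * κ e := by simp only [hM, Finset.prod_range_succ]
      have h2 : g (e + 1) = g e + t e := by simp only [hg, Finset.sum_range_succ]
      rw [h1, h2, map_mul, ch_add]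
      linear_combination (-(algebraMap K G (M e) * ch χ (g e))) * hrec e
  have hdegP : ∀ e, ∀ ν ∈ (P e).support, ν.degree ≤ 1 := by
    intro e
    apply supp_add (S := {ν | ν.degree ≤ 1})
    · intro ν hν
      rw [MvPolynomial.support_X, Finset.mem_singleton] at hν
      rw [hν]; simp
    · apply supp_sum
      intro i _
      exact supp_C_mul _ (hΛd i)
  have hstep : ∀ e, LoB (g e) (io K r (P (e + 1)) - io K r (P e)) := by
    intro e
    rw [hPs, map_add, add_sub_cancel_left, map_mul, io_C, toL_single]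
    have := (LoB_C (Lo_mon (g e) (M e))).mul (LoB_io.2 (hΛ e))
    rw [add_zero] at this
    exact this
  obtain ⟨l, hld, hl⟩ := exists_limB P g hgm htt hdegP hstep
  have hlp : l ∈ JJ hSp hwp.le hχp hzp := by
    intro E
    obtain ⟨e, he⟩ := (htt.eventually_ge_atTop E).exists
    refine ⟨P e, l - io K r (P e), by ring, (hl e).anti he, ?_⟩
    rw [hevP]
    have h1 := hSp.mul_mem (hSp.mul_mem (hSp.alg_mem (M e)) (hχp (g e)))
      (hSp.mul_mem (hχp c) (hYp e))
    refine hSp.anti ?_ h1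
    have h2 : wp * E ≤ wp * g e := by gcongr
    have h3 : 0 ≤ wp * c := by positivity
    linarith
  have hli : l ∈ JJ hSi hwi.le hχi hzi := by
    by_contra hli
    obtain ⟨x, hx⟩ := rational_ratio hSp hSi hwp hwi hχp hχi hzp hzi hinv hLp hLi hlp hli hld
    exact hirr ⟨x, hx.symm⟩
  intro e
  have h3 : ev K χ z (P e) ∈ Si (wi * g e) := by
    refine mem_JJ_ev hSi hwi.le hχi hzi hli (H := -(l - io K r (P e))) (by ring) (hl e).neg
  have h4 : Y e = ch χ (-c) * (ch χ (-(g e)) * (algebraMap K G (M e)⁻¹ * ev K χ z (P e))) := by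
    rw [hevP, ch_neg, ch_neg, map_inv₀]
    have e1 := ch_ne χ c
    have e2 := ch_ne χ (g e)
    have e3 := hMne e
    field_simp
  rw [h4]
  have h5 := hSi.mul_mem (hχi (-c)) (hSi.mul_mem (hχi (-(g e))) (hSi.mul_mem
    (hSi.alg_mem (M e)⁻¹) h3))
  refine hSi.anti (le_of_eq ?_) h5
  ring

end Pool.Agent.TH932.Gen
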