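import Mathlib
import Pool.Agent.TH932.Two

set_option autoImplicit false

/-!
# Germs of rational sequences and their places
-/

namespace Pool.Agent.TH932.Germs

open Filter Pool.Agent.TH932.Abs

/-- the ultrafilter -/
noncomputable abbrev UU : Ultrafilter ℕ := hyperfilter ℕ

/-- germs of rational sequences -/
abbrev GG := Germ (UU : Filter ℕ) ℚ

/-- the germ of a sequence -/
noncomputable def gm (a : ℕ → ℚ) : GG := (a : Germ (UU : Filter ℕ) ℚ)

lemma gm_eq {a b : ℕ → ℚ} : gm a = gm b ↔ ∀ᶠ n in (UU : Filter ℕ), a n = b n := Germ.coe_eq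

lemma gm_add (a b : ℕ → ℚ) : gm a + gm b = gm (fun n => a n + b n) := rfl
lemma gm_sub (a b : ℕ → ℚ) : gm a - gm b = gm (fun n => a n - b n) := rfl
lemma gm_mul (a b : ℕ → ℚ) : gm a * gm b = gm (fun n => a n * b n) := rfl
lemma gm_div (a b : ℕ → ℚ) : gm a / gm b = gm (fun n => a n / b n) := rfl
lemma gm_inv (a : ℕ → ℚ) : (gm a)⁻¹ = gm (fun n => (a n)⁻¹) := rfl
lemma gm_pow (a : ℕ → ℚ) (k : ℕ) : (gm a) ^ k = gm (fun n => a n ^ k) := rfl
lemma gm_zero : gm (fun _ => 0) = 0 := rfl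
lemma gm_one : gm (fun _ => 1) = 1 := rfl
lemma gm_neg (a : ℕ → ℚ) : - gm a = gm (fun n => - a n) := rfl

lemma gm_surj (g : GG) : ∃ a, gm a = g := by
  induction g using Germ.inductionOn with
  | _ f => exact ⟨f, rfl⟩

lemma gm_ne_zero {a : ℕ → ℚ} : gm a ≠ 0 ↔ ∀ᶠ n in (UU : Filter ℕ), a n ≠ 0 := by
  rw [← gm_zero, Ne, gm_eq]
  exact Ultrafilter.eventually_not.symm

lemma ev_of_atTop {p : ℕ → Prop} (h : ∀ᶠ n in atTop, p n) : ∀ᶠ n in (UU : Filter ℕ), p n :=
  Nat.hyperfilter_le_atTop h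

/-! ## negligible integers and the constant field -/

variable {L : ℕ → ℝ}

/-- negligible integer sequences -/
def Negl (L : ℕ → ℝ) (m : ℕ → ℤ) : Prop :=
  ∀ ε : ℝ, 0 < ε → ∀ᶠ n in (UU : Filter ℕ), |(m n : ℝ)| ≤ Real.exp (ε * L n)

lemma Negl.mul {m m' : ℕ → ℤ} (h : Negl L m) (h' : Negl L m') :
    Negl L (fun n => m n * m' n) := by
  intro ε hε
  filter_upwards [h (ε / 2) (by positivity), h' (ε / 2) (by positivity)] with n h1 h2
  push_cast
  rw [abs_mul]
  calc |(m n : ℝ)| * |(m' n : ℝ)| ≤ Real.exp (ε / 2 * L n) * Real.exp (ε / 2 * L n) := by gcongr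
    _ = Real.exp (ε * L n) := by rw [← Real.exp_add]; ring_nf

lemma two_le_exp (hL : Tendsto L atTop atTop) {ε : ℝ} (hε : 0 < ε) :
    ∀ᶠ n in (UU : Filter ℕ), 2 ≤ Real.exp (ε * L n) := by
  apply ev_of_atTop
  filter_upwards [hL.eventually_ge_atTop (1 / ε)] with n hn
  have : 1 ≤ ε * L n := by
    rw [div_le_iff₀ hε] at hn; linarith
  calc (2 : ℝ) ≤ 1 + 1 := by norm_num
    _ ≤ 1 + ε * L n := by linarith
    _ ≤ Real.exp (ε * L n) := by linarith [Real.add_one_le_exp (ε * L n)]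

lemma L_nonneg (hL : Tendsto L atTop atTop) : ∀ᶠ n in (UU : Filter ℕ), 0 ≤ L n :=
  ev_of_atTop (hL.eventually_ge_atTop 0)

lemma Negl.add (hL : Tendsto L atTop atTop) {m m' : ℕ → ℤ} (h : Negl L m) (h' : Negl L m') :
    Negl L (fun n => m n + m' n) := by
  intro ε hε
  filter_upwards [h (ε / 2) (by positivity), h' (ε / 2) (by positivity),
    two_le_exp hL (show 0 < ε / 2 by positivity)] with n h1 h2 h3
  push_cast
  calc |(m n : ℝ) + (m' n : ℝ)| ≤ |(m n : ℝ)| + |(m' n : ℝ)| := abs_add_le _ _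
    _ ≤ Real.exp (ε / 2 * L n) + Real.exp (ε / 2 * L n) := by gcongr
    _ = 2 * Real.exp (ε / 2 * L n) := by ring
    _ ≤ Real.exp (ε / 2 * L n) * Real.exp (ε / 2 * L n) := by gcongr
    _ = Real.exp (ε * L n) := by rw [← Real.exp_add]; ring_nf

lemma Negl.one (hL : Tendsto L atTop atTop) : Negl L (fun _ => 1) := by
  intro ε hε
  filter_upwards [two_le_exp hL hε] with n h
  rw [Int.cast_one, abs_one]; linarith

lemma Negl.zero : Negl L (fun _ => 0) := by
  intro ε _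
  exact Eventually.of_forall fun n => by simpa using (Real.exp_pos _).le

lemma Negl.neg {m : ℕ → ℤ} (h : Negl L m) : Negl L (fun n => - m n) := by
  intro ε hε
  filter_upwards [h ε hε] with n h1
  push_cast
  rwa [abs_neg]

/-- the field of germs of rational numbers of negligible height -/
noncomputable def KK (L : ℕ → ℝ) (hL : Tendsto L atTop atTop) : Subfield GG where
  carrier := {g | ∃ m d : ℕ → ℤ, Negl L m ∧ Negl L d ∧ (∀ᶠ n in (UU : Filter ℕ), d n ≠ 0) ∧
    g = gm fun n => (m n : ℚ) / d n}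
  mul_mem' := by
    rintro a b ⟨m, d, hm, hd, hd0, rfl⟩ ⟨m', d', hm', hd', hd0', rfl⟩
    refine ⟨fun n => m n * m' n, fun n => d n * d' n, hm.mul hm', hd.mul hd', ?_, ?_⟩
    · filter_upwards [hd0, hd0'] with n h1 h2 using mul_ne_zero h1 h2
    · rw [gm_mul]
      congr 1
      funext n
      push_cast
      rw [div_mul_div_comm]
  one_mem' := ⟨fun _ => 1, fun _ => 1, Negl.one hL, Negl.one hL, by simp, by
    rw [← gm_one]; congr 1; funext n; simp⟩
  add_mem' := by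
    rintro a b ⟨m, d, hm, hd, hd0, rfl⟩ ⟨m', d', hm', hd', hd0', rfl⟩
    refine ⟨fun n => m n * d' n + d n * m' n, fun n => d n * d' n,
      (hm.mul hd').add hL (hd.mul hm'), hd.mul hd', ?_, ?_⟩
    · filter_upwards [hd0, hd0'] with n h1 h2 using mul_ne_zero h1 h2
    · rw [gm_add, gm_eq]
      filter_upwards [hd0, hd0'] with n h1 h2
      have h1' : (d n : ℚ) ≠ 0 := by exact_mod_cast h1
      have h2' : (d' n : ℚ) ≠ 0 := by exact_mod_cast h2
      push_cast
      rw [div_add_div _ _ h1' h2']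
  zero_mem' := ⟨fun _ => 0, fun _ => 1, Negl.zero, Negl.one hL, by simp, by
    rw [← gm_zero]; congr 1; funext n; simp⟩
  neg_mem' := by
    rintro a ⟨m, d, hm, hd, hd0, rfl⟩
    refine ⟨fun n => - m n, d, hm.neg, hd, hd0, ?_⟩
    rw [gm_neg]
    congr 1
    funext n
    push_cast
    ring
  inv_mem' := by
    rintro a ⟨m, d, hm, hd, hd0, rfl⟩
    by_cases h0 : gm (fun n => (m n : ℚ) / d n) = 0
    · rw [h0, inv_zero]
      exact ⟨fun _ => 0, fun _ => 1, Negl.zero, Negl.one hL, by simp, by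
        rw [← gm_zero]; congr 1; funext n; simp⟩
    · refine ⟨d, m, hd, hm, ?_, ?_⟩
      · have := gm_ne_zero.1 h0
        filter_upwards [this] with n hn h1
        apply hn
        rw [h1]; simp
      · rw [gm_inv]
        congr 1
        funext n
        rw [inv_div]

/-! ## places -/

/-- elements satisfying an estimate with parameter `t` up to arbitrarily small errors -/
def SS (L : ℕ → ℝ) (R : ℝ → ℝ → ℝ → ℚ → Prop) (t : ℝ) : Set GG :=
  {g | ∃ a : ℕ → ℚ, g = gm a ∧ ∀ ε : ℝ, 0 < ε → ∀ᶠ n in (UU : Filter ℕ), R (L n) ε t (a n)}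

lemma mem_SS {R : ℝ → ℝ → ℝ → ℚ → Prop} {t : ℝ} {a : ℕ → ℚ} :
    gm a ∈ SS L R t ↔ ∀ ε : ℝ, 0 < ε → ∀ᶠ n in (UU : Filter ℕ), R (L n) ε t (a n) := by
  constructor
  · rintro ⟨b, hb, h⟩ ε hε
    filter_upwards [gm_eq.1 hb, h ε hε] with n h1 h2
    rw [h1]; exact h2
  · intro h; exact ⟨a, rfl, h⟩

/-- conditions for `SS L R` to be a filtration -/
structure Pre (R : ℝ → ℝ → ℝ → ℚ → Prop) : Prop where
  zero : ∀ ε > 0, ∀ t, ∃ L0 : ℝ, ∀ L ≥ L0, R L ε t 0
  add : ∀ ε > 0, ∃ L0 : ℝ, ∀ L ≥ L0, ∀ t a b, R L (ε / 2) t a → R L (ε / 2) t b → R L ε t (a + b)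
  mul : ∀ ε > 0, ∃ L0 : ℝ, ∀ L ≥ L0, ∀ s t a b,
    R L (ε / 2) s a → R L (ε / 2) t b → R L ε (s + t) (a * b)
  anti : ∀ ε > 0, ∃ L0 : ℝ, ∀ L ≥ L0, ∀ s t a, s ≤ t → R L ε t a → R L ε s a
  alg : ∀ ε > 0, ∃ L0 : ℝ, ∀ L ≥ L0, ∀ m d : ℤ, d ≠ 0 → |(m : ℝ)| ≤ Real.exp (ε * L) →
    |(d : ℝ)| ≤ Real.exp (ε * L) → R L ε 0 (m / d)

lemma Pre.filt {R : ℝ → ℝ → ℝ → ℚ → Prop} (h : Pre R) (hL : Tendsto L atTop atTop) :
    Filt (KK L hL) (SS L R) where
  zero_mem := by
    intro t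
    rw [← gm_zero, mem_SS]
    intro ε hε
    obtain ⟨L0, hL0⟩ := h.zero ε hε t
    filter_upwards [ev_of_atTop (hL.eventually_ge_atTop L0)] with n hn using hL0 _ hn
  add_mem := by
    intro t a b ha hb
    obtain ⟨a, rfl⟩ := gm_surj a
    obtain ⟨b, rfl⟩ := gm_surj b
    rw [mem_SS] at ha hb
    rw [gm_add, mem_SS]
    intro ε hε
    obtain ⟨L0, hL0⟩ := h.add ε hε
    filter_upwards [ev_of_atTop (hL.eventually_ge_atTop L0), ha (ε / 2) (by positivity),
      hb (ε / 2) (by positivity)] with n hn h1 h2 using hL0 _ hn _ _ _ h1 h2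
  mul_mem := by
    intro s t a b ha hb
    obtain ⟨a, rfl⟩ := gm_surj a
    obtain ⟨b, rfl⟩ := gm_surj b
    rw [mem_SS] at ha hb
    rw [gm_mul, mem_SS]
    intro ε hε
    obtain ⟨L0, hL0⟩ := h.mul ε hε
    filter_upwards [ev_of_atTop (hL.eventually_ge_atTop L0), ha (ε / 2) (by positivity),
      hb (ε / 2) (by positivity)] with n hn h1 h2 using hL0 _ hn _ _ _ _ h1 h2
  alg_mem := by
    rintro ⟨_, m, d, hm, hd, hd0, rfl⟩
    change gm _ ∈ _
    rw [mem_SS]
    intro ε hε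
    obtain ⟨L0, hL0⟩ := h.alg ε hε
    filter_upwards [ev_of_atTop (hL.eventually_ge_atTop L0), hm ε hε, hd ε hε, hd0]
      with n hn h1 h2 h3 using hL0 _ hn _ _ h3 h1 h2
  anti := by
    intro s t a hst ha
    obtain ⟨a, rfl⟩ := gm_surj a
    rw [mem_SS] at ha ⊢
    intro ε hε
    obtain ⟨L0, hL0⟩ := h.anti ε hε
    filter_upwards [ev_of_atTop (hL.eventually_ge_atTop L0), ha ε hε] with n hn h1
      using hL0 _ hn _ _ _ hst h1

/-- the integers coprime to `p` -/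
def cop (p : ℕ) : Submonoid ℤ where
  carrier := {e | IsCoprime e (p : ℤ)}
  one_mem' := isCoprime_one_left
  mul_mem' := fun ha hb => IsCoprime.mul_left ha hb

/-- the real place -/
def Rinf (L ε t : ℝ) (a : ℚ) : Prop := |(a : ℝ)| ≤ Real.exp (-(t - ε) * L)

/-- the place of a base `b`, where denominators from a monoid `M` are free -/
def Rb (b : ℕ) (M : Submonoid ℤ) (L ε t : ℝ) (a : ℚ) : Prop :=
  ∃ d e m k : ℤ, d ≠ 0 ∧ |(d : ℝ)| ≤ Real.exp (ε * L) ∧ e ∈ M ∧
    (d : ℚ) * e * a = (b : ℚ) ^ k * m ∧ (t - ε) * L ≤ k * Real.log b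

lemma pre_inf : Pre Rinf where
  zero := fun ε _ t => ⟨0, fun L _ => by simpa [Rinf] using (Real.exp_pos _).le⟩
  add := by
    intro ε hε
    refine ⟨2 / ε, fun L hL t a b ha hb => ?_⟩
    have h2 : (2 : ℝ) ≤ Real.exp (ε / 2 * L) := by
      have : 1 ≤ ε / 2 * L := by
        rw [ge_iff_le, div_le_iff₀ hε] at hL; linarith
      linarith [Real.add_one_le_exp (ε / 2 * L)]
    unfold Rinf at *
    push_cast
    calc |(a : ℝ) + b| ≤ |(a : ℝ)| + |(b : ℝ)| := abs_add_le _ _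
      _ ≤ Real.exp (-(t - ε / 2) * L) + Real.exp (-(t - ε / 2) * L) := by gcongr
      _ = 2 * Real.exp (-(t - ε / 2) * L) := by ring
      _ ≤ Real.exp (ε / 2 * L) * Real.exp (-(t - ε / 2) * L) := by gcongr
      _ = Real.exp (-(t - ε) * L) := by rw [← Real.exp_add]; ring_nf
  mul := by
    intro ε hε
    refine ⟨0, fun L hL s t a b ha hb => ?_⟩
    unfold Rinf at *
    push_cast
    rw [abs_mul]
    calc |(a : ℝ)| * |(b : ℝ)| ≤ Real.exp (-(s - ε / 2) * L) * Real.exp (-(t - ε / 2) * L) := by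
          gcongr
      _ = Real.exp (-(s + t - ε) * L) := by rw [← Real.exp_add]; ring_nf
  anti := by
    intro ε hε
    refine ⟨0, fun L hL s t a hst ha => ?_⟩
    unfold Rinf at *
    refine ha.trans (Real.exp_le_exp.2 ?_)
    nlinarith
  alg := by
    intro ε hε
    refine ⟨0, fun L hL m d hd hm _ => ?_⟩
    unfold Rinf
    push_cast
    rw [abs_div]
    have h1 : (1 : ℝ) ≤ |(d : ℝ)| := by
      exact_mod_cast Int.one_le_abs hd
    calc |(m : ℝ)| / |(d : ℝ)| ≤ |(m : ℝ)| := div_le_self (abs_nonneg _) h1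
      _ ≤ Real.exp (ε * L) := hm
      _ = Real.exp (-(0 - ε) * L) := by ring_nf

lemma pre_b {b : ℕ} (hb : 2 ≤ b) (M : Submonoid ℤ) : Pre (Rb b M) where
  zero := by
    intro ε hε t
    refine ⟨0, fun L hL => ?_⟩
    have hlb : 0 < Real.log b := Real.log_pos (by exact_mod_cast hb)
    obtain ⟨k, hk⟩ := exists_nat_ge ((t - ε) * L / Real.log b)
    refine ⟨1, 1, 0, k, one_ne_zero, ?_, M.one_mem, by simp, ?_⟩
    · simp only [Int.cast_one, abs_one]
      exact Real.one_le_exp (by positivity)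
    · rw [div_le_iff₀ hlb] at hk
      exact_mod_cast hk
  add := by
    intro ε hε
    refine ⟨0, fun L hL t a c ha hc => ?_⟩
    obtain ⟨d, e, m, k, hd, hd1, he, h, h1⟩ := ha
    obtain ⟨d', e', m', k', hd', hd1', he', h', h1'⟩ := hc
    have hb0 : (b : ℚ) ≠ 0 := by
      have : b ≠ 0 := by omega
      exact_mod_cast this
    refine ⟨d * d', e * e', d' * e' * (b : ℤ) ^ (k - min k k').toNat * m
      + d * e * (b : ℤ) ^ (k' - min k k').toNat * m', min k k', mul_ne_zero hd hd', ?_,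
      M.mul_mem he he', ?_, ?_⟩
    · push_cast
      rw [abs_mul]
      calc |(d : ℝ)| * |(d' : ℝ)| ≤ Real.exp (ε / 2 * L) * Real.exp (ε / 2 * L) := by gcongr
        _ = Real.exp (ε * L) := by rw [← Real.exp_add]; ring_nf
    · have e1 : (b : ℚ) ^ (min k k') * (b : ℚ) ^ (k - min k k').toNat = (b : ℚ) ^ k := by
        rw [← zpow_natCast, ← zpow_add₀ hb0]
        congr 1
        have := min_le_left k k'
        omega
      have e2 : (b : ℚ) ^ (min k k') * (b : ℚ) ^ (k' - min k k').toNat = (b : ℚ) ^ k' := by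
        rw [← zpow_natCast, ← zpow_add₀ hb0]
        congr 1
        have := min_le_right k k'
        omega
      push_cast
      linear_combination (d' * e' : ℚ) * h + (d * e : ℚ) * h' - (d' * e' * m : ℚ) * e1
        - (d * e * m' : ℚ) * e2
    · have h2 : (t - ε) * L ≤ (t - ε / 2) * L := by nlinarith
      rcases min_choice k k' with h3 | h3
      · rw [h3]; linarith
      · rw [h3]; linarith
  mul := by
    intro ε hε
    refine ⟨0, fun L hL s t a c ha hc => ?_⟩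
    obtain ⟨d, e, m, k, hd, hd1, he, h, h1⟩ := ha
    obtain ⟨d', e', m', k', hd', hd1', he', h', h1'⟩ := hc
    have hb0 : (b : ℚ) ≠ 0 := by
      have : b ≠ 0 := by omega
      exact_mod_cast this
    refine ⟨d * d', e * e', m * m', k + k', mul_ne_zero hd hd', ?_, M.mul_mem he he', ?_, ?_⟩
    · push_cast
      rw [abs_mul]
      calc |(d : ℝ)| * |(d' : ℝ)| ≤ Real.exp (ε / 2 * L) * Real.exp (ε / 2 * L) := by gcongr
        _ = Real.exp (ε * L) := by rw [← Real.exp_add]; ring_nf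
    · push_cast
      rw [zpow_add₀ hb0, show (b : ℚ) ^ k * (b : ℚ) ^ k' * (m * m')
        = ((b : ℚ) ^ k * m) * ((b : ℚ) ^ k' * m') by ring, ← h, ← h']
      ring
    · push_cast
      nlinarith
  anti := by
    intro ε hε
    refine ⟨0, fun L hL s t a hst ha => ?_⟩
    obtain ⟨d, e, m, k, hd, hd1, he, h, h1⟩ := ha
    refine ⟨d, e, m, k, hd, hd1, he, h, ?_⟩
    nlinarith
  alg := by
    intro ε hε
    refine ⟨0, fun L hL m d hd hm hd1 => ?_⟩
    refine ⟨d, 1, m, 0, hd, hd1, M.one_mem, ?_, ?_⟩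
    · have : (d : ℚ) ≠ 0 := by exact_mod_cast hd
      simp only [Int.cast_one, mul_one, zpow_zero, one_mul]
      field_simp
    · simp only [Int.cast_zero, zero_mul]
      nlinarith

/-- inverses of elements which are not small -/
lemma inv_inf (hL : Tendsto L atTop atTop) (t : ℝ) (a : GG) (ha : a ∉ SS L Rinf t) :
    a⁻¹ ∈ SS L Rinf (-t) := by
  obtain ⟨a, rfl⟩ := gm_surj a
  rw [mem_SS] at ha
  push Not at ha
  obtain ⟨ε, hε, h⟩ := ha
  rw [gm_inv, mem_SS]
  intro ε' hε'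
  filter_upwards [h, L_nonneg hL] with n h1 h2
  unfold Rinf at *
  push Not at h1
  push_cast
  rw [abs_inv]
  calc |(a n : ℝ)|⁻¹ ≤ (Real.exp (-(t - ε) * L n))⁻¹ := by
        apply inv_anti₀ (Real.exp_pos _) h1.le
    _ = Real.exp ((t - ε) * L n) := by rw [← Real.exp_neg]; ring_nf
    _ ≤ Real.exp (-(-t - ε') * L n) := by
        apply Real.exp_le_exp.2
        nlinarith

lemma pf_aux {p q : ℕ} (hp : 2 ≤ p) (hq : 2 ≤ q) {a : ℚ} (ha : a ≠ 0) {h t t' ε L : ℝ}
    (hh : 0 ≤ h) (hε : 0 < ε) (hL : 1 ≤ L) (h1 : Rb q ⊥ L ε (-h) a)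
    (h2 : Rb p (cop p) L ε t a) (h3 : Rinf L ε t' a) : t + t' ≤ h + 5 * ε := by
  obtain ⟨d, e, m, k, hd, hd1, he, hk, hk1⟩ := h1
  obtain ⟨d', e', m', k', hd', hd1', he', hk', hk1'⟩ := h2
  rw [Submonoid.mem_bot] at he
  subst he
  have hq0 : (q : ℚ) ≠ 0 := by
    have : q ≠ 0 := by omega
    exact_mod_cast this
  have hp0 : (p : ℚ) ≠ 0 := by
    have : p ≠ 0 := by omega
    exact_mod_cast this
  have hlq : 0 < Real.log q := Real.log_pos (by exact_mod_cast hq)
  have hlp : 0 < Real.log p := Real.log_pos (by exact_mod_cast hp)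
  have hL0 : 0 < L := by linarith
  set κ : ℕ := (-k).toNat with hκ
  have hκ1 : (κ : ℝ) * Real.log q ≤ (h + ε) * L := by
    rcases le_or_gt k 0 with h0 | h0
    · have : ((κ : ℤ) : ℝ) = -(k : ℝ) := by
        rw [hκ, Int.toNat_of_nonneg (by omega)]; push_cast; ring
      rw [Int.cast_natCast] at this
      rw [this]
      linarith
    · have : κ = 0 := by omega
      rw [this]
      simp only [Nat.cast_zero, zero_mul]
      positivity
  set N : ℤ := (q : ℤ) ^ (k + κ).toNat * m with hN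
  have hNa : (N : ℚ) = d * (q : ℚ) ^ κ * a := by
    have e1 : (q : ℚ) ^ (k + κ).toNat = (q : ℚ) ^ k * (q : ℚ) ^ κ := by
      rw [← zpow_natCast, ← zpow_natCast, ← zpow_add₀ hq0]
      congr 1
      omega
    rw [hN]
    push_cast
    rw [e1]
    push_cast at hk
    linear_combination -(q : ℚ) ^ κ * hk
  have hN0 : N ≠ 0 := by
    intro h0
    rw [h0, Int.cast_zero] at hNa
    have : (d : ℚ) ≠ 0 := by exact_mod_cast hd
    have h5 : (d : ℚ) * (q : ℚ) ^ κ * a ≠ 0 := mul_ne_zero (mul_ne_zero this (pow_ne_zero _ hq0)) ha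
    exact h5 hNa.symm
  have hdvd : (p : ℤ) ^ k'.toNat ∣ d' * N := by
    rcases le_or_gt 0 k' with h0 | h0
    · have e1 : (p : ℚ) ^ k' = (p : ℚ) ^ k'.toNat := by
        rw [← zpow_natCast, Int.toNat_of_nonneg h0]
      have e2 : ((d' * N * e' : ℤ) : ℚ) = (((p : ℤ) ^ k'.toNat * (d * (q : ℤ) ^ κ * m') : ℤ) : ℚ) := by
        push_cast
        rw [hNa, ← e1]
        linear_combination (d : ℚ) * (q : ℚ) ^ κ * hk'
      have e3 : d' * N * e' = (p : ℤ) ^ k'.toNat * (d * (q : ℤ) ^ κ * m') := by exact_mod_cast e2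
      have e4 : (p : ℤ) ^ k'.toNat ∣ d' * N * e' := ⟨_, e3⟩
      have hcop : IsCoprime ((p : ℤ) ^ k'.toNat) e' := (IsCoprime.pow_right (by exact he')).symm
      exact hcop.dvd_of_dvd_mul_right e4
    · have : k'.toNat = 0 := by omega
      rw [this, pow_zero]; exact one_dvd _
  have hge : ((p : ℝ)) ^ k'.toNat ≤ |(d' : ℝ) * N| := by
    have h5 := Int.le_of_dvd (abs_pos.2 (mul_ne_zero hd' hN0)) ((dvd_abs _ _).2 hdvd)
    have h6 : (((p : ℤ) ^ k'.toNat : ℤ) : ℝ) ≤ ((|d' * N| : ℤ) : ℝ) := by exact_mod_cast h5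
    push_cast at h6
    exact h6
  have hlow : Real.exp ((t - ε) * L) ≤ |(d' : ℝ) * N| := by
    refine le_trans ?_ hge
    have hppos : (0 : ℝ) < p := by
      have : 0 < p := by omega
      exact_mod_cast this
    rw [← Real.rpow_natCast, Real.rpow_def_of_pos hppos]
    apply Real.exp_le_exp.2
    refine hk1'.trans ?_
    have h7 : (k' : ℝ) ≤ ((k'.toNat : ℕ) : ℝ) := by
      have : k' ≤ (k'.toNat : ℤ) := Int.self_le_toNat k'
      exact_mod_cast this
    nlinarith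
  have hNr : (N : ℝ) = d * (q : ℝ) ^ κ * a := by
    have := congrArg (fun x : ℚ => (x : ℝ)) hNa
    push_cast at this
    exact this
  have hup : |(d' : ℝ) * N| ≤ Real.exp ((4 * ε + h - t') * L) := by
    rw [hNr, abs_mul, abs_mul, abs_mul, abs_pow]
    have h8 : |(q : ℝ)| ^ κ ≤ Real.exp ((h + ε) * L) := by
      have hqpos : (0 : ℝ) < q := by
        have : 0 < q := by omega
        exact_mod_cast this
      rw [abs_of_pos hqpos, ← Real.rpow_natCast, Real.rpow_def_of_pos hqpos]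
      apply Real.exp_le_exp.2
      rw [mul_comm]; exact hκ1
    unfold Rinf at h3
    calc |(d' : ℝ)| * (|(d : ℝ)| * |(q : ℝ)| ^ κ * |(a : ℝ)|)
        ≤ Real.exp (ε * L) * (Real.exp (ε * L) * Real.exp ((h + ε) * L)
          * Real.exp (-(t' - ε) * L)) := by gcongr
      _ = Real.exp ((4 * ε + h - t') * L) := by
        rw [← Real.exp_add, ← Real.exp_add, ← Real.exp_add]; ring_nf
  have h9 := Real.exp_le_exp.1 (hlow.trans hup)
  have h10 : t - ε ≤ 4 * ε + h - t' := le_of_mul_le_mul_right h9 hL0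
  linarith

/-- the product formula -/
theorem product_formula (hL : Tendsto L atTop atTop) {p q : ℕ} (hp : 2 ≤ p) (hq : 2 ≤ q)
    {g : GG} (hg : g ≠ 0) {h t t' : ℝ} (hh : 0 ≤ h)
    (h1 : g ∈ SS L (Rb q ⊥) (-h)) (h2 : g ∈ SS L (Rb p (cop p)) t) (h3 : g ∈ SS L Rinf t') :
    t + t' ≤ h := by
  obtain ⟨a, rfl⟩ := gm_surj g
  rw [mem_SS] at h1 h2 h3
  rw [gm_ne_zero] at hg
  apply le_of_forall_pos_le_add
  intro δ hδ
  set ε : ℝ := δ / 5 with hε
  have hε0 : 0 < ε := by positivity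
  obtain ⟨n, hn0, hn1, hn2, hn3, hnL⟩ := (hg.and ((h1 ε hε0).and ((h2 ε hε0).and
    ((h3 ε hε0).and (ev_of_atTop (hL.eventually_ge_atTop 1)))))).exists
  exact le_of_eq_of_le rfl (by
    have := pf_aux hp hq hn0 hh hε0 hnL hn1 hn2 hn3
    linarith)

end Pool.Agent.TH932.Germs
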