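import Mathlib
import Pool.Agent.TH932.Germs
import Pool.Agent.TH932.Chain

set_option autoImplicit false

/-!
# The exponential map from the reals to germs
-/

namespace Pool.Agent.TH932.Chi

open Filter Pool.Agent.TH932.Abs Pool.Agent.TH932.Germs
open Pool.Agent.TH932.Gen (ch)

variable {L : ℕ → ℝ}

/-- a divisible sequence of small size -/
lemma exists_div (hL : Tendsto L atTop atTop) : ∃ D : ℕ → ℕ, (∀ n, 0 < D n) ∧
    (∀ k : ℕ, 0 < k → ∀ᶠ n in atTop, k ∣ D n) ∧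
    (∀ ε : ℝ, 0 < ε → ∀ᶠ n in atTop, (D n : ℝ) ≤ ε * L n) := by
  classical
  set m : ℕ → ℕ := fun n => Nat.findGreatest (fun m => ((m.factorial : ℝ)) ^ 2 ≤ L n) n with hm
  refine ⟨fun n => (m n).factorial, fun n => Nat.factorial_pos _, fun k hk => ?_, fun ε hε => ?_⟩
  · filter_upwards [eventually_ge_atTop k, hL.eventually_ge_atTop ((k.factorial : ℝ) ^ 2)]
      with n h1 h2
    have h3 : k ≤ m n := Nat.le_findGreatest h1 h2
    exact (Nat.dvd_factorial hk h3)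
  · filter_upwards [hL.eventually_ge_atTop 1, hL.eventually_ge_atTop (1 / ε ^ 2)] with n h1 h2
    have h3 : (((m n).factorial : ℝ)) ^ 2 ≤ L n := by
      have : (fun m => ((m.factorial : ℝ)) ^ 2 ≤ L n) (m n) := by
        apply Nat.findGreatest_spec (P := fun m => ((m.factorial : ℝ)) ^ 2 ≤ L n) (Nat.zero_le n)
        simpa using h1
      exact this
    have h4 : 1 ≤ ε ^ 2 * L n := by
      rw [div_le_iff₀ (by positivity)] at h2; linarith
    have h5 : (((m n).factorial : ℝ)) ^ 2 ≤ (ε * L n) ^ 2 := by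
      have h6 : L n ≤ ε ^ 2 * L n * L n := by nlinarith
      calc (((m n).factorial : ℝ)) ^ 2 ≤ L n := h3
        _ ≤ ε ^ 2 * L n * L n := h6
        _ = (ε * L n) ^ 2 := by ring
    exact le_of_sq_le_sq h5 (by positivity)
where
  le_of_sq_le_sq {a b : ℝ} (h : a ^ 2 ≤ b ^ 2) (hb : 0 ≤ b) : a ≤ b := by
    by_contra hcon
    push Not at hcon
    nlinarith

/-- the divisible sequence -/
noncomputable def DD (hL : Tendsto L atTop atTop) : ℕ → ℕ := (exists_div hL).choose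

lemma DD_pos (hL : Tendsto L atTop atTop) (n : ℕ) : 0 < DD hL n := (exists_div hL).choose_spec.1 n
lemma DD_dvd (hL : Tendsto L atTop atTop) {k : ℕ} (hk : 0 < k) : ∀ᶠ n in atTop, k ∣ DD hL n :=
  (exists_div hL).choose_spec.2.1 k hk
lemma DD_small (hL : Tendsto L atTop atTop) {ε : ℝ} (hε : 0 < ε) :
    ∀ᶠ n in atTop, (DD hL n : ℝ) ≤ ε * L n := (exists_div hL).choose_spec.2.2 ε hε

/-- a rational basis of the reals -/
noncomputable def bas : Module.Basis (Module.Basis.ofVectorSpaceIndex ℚ ℝ) ℚ ℝ :=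
  Module.Basis.ofVectorSpace ℚ ℝ

/-- approximations of multiples of basis elements -/
noncomputable def be (hL : Tendsto L atTop atTop) (i : Module.Basis.ofVectorSpaceIndex ℚ ℝ)
    (n : ℕ) : ℤ := DD hL n * ⌊bas i * L n / DD hL n⌋

lemma be_near (hL : Tendsto L atTop atTop) (i : Module.Basis.ofVectorSpaceIndex ℚ ℝ) (n : ℕ) :
    |(be hL i n : ℝ) - bas i * L n| ≤ DD hL n := by
  have hD : (0 : ℝ) < DD hL n := by exact_mod_cast DD_pos hL n
  unfold be
  push_cast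
  have h1 := Int.floor_le (bas i * L n / DD hL n)
  have h2 := Int.lt_floor_add_one (bas i * L n / DD hL n)
  rw [le_div_iff₀ hD] at h1
  rw [div_lt_iff₀ hD] at h2
  rw [abs_le]
  constructor <;> nlinarith

/-- additive integer approximations of `t L` -/
noncomputable def ell (hL : Tendsto L atTop atTop) (t : ℝ) (n : ℕ) : ℚ :=
  (bas.repr t).sum fun i a => a * be hL i n

lemma ell_add (hL : Tendsto L atTop atTop) (s t : ℝ) (n : ℕ) :
    ell hL (s + t) n = ell hL s n + ell hL t n := by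
  unfold ell
  rw [map_add, Finsupp.sum_add_index']
  · intro i; simp
  · intro i a b; ring

lemma ell_zero (hL : Tendsto L atTop atTop) (n : ℕ) : ell hL 0 n = 0 := by
  unfold ell; simp

lemma ell_int (hL : Tendsto L atTop atTop) (t : ℝ) :
    ∀ᶠ n in atTop, ((⌊ell hL t n⌋ : ℤ) : ℚ) = ell hL t n := by
  have h : ∀ i ∈ (bas.repr t).support, ∀ᶠ n in atTop,
      ((bas.repr t) i).den ∣ DD hL n := fun i _ => DD_dvd hL (Rat.den_pos _)
  have h' : ∀ᶠ n in atTop, ∀ i ∈ (bas.repr t).support, ((bas.repr t) i).den ∣ DD hL n := by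
    rw [← Finset.eventually_all] at h
    exact h
  filter_upwards [h'] with n hn
  have : ∃ m : ℤ, (m : ℚ) = ell hL t n := by
    unfold ell Finsupp.sum
    have h1 : ∀ i ∈ (bas.repr t).support, ∃ m : ℤ, (m : ℚ) = (bas.repr t) i * be hL i n := by
      intro i hi
      obtain ⟨k, hk⟩ := hn i hi
      refine ⟨((bas.repr t) i).num * k * ⌊bas i * L n / DD hL n⌋, ?_⟩
      unfold be
      push_cast
      rw [hk]
      have h2 : ((bas.repr t) i) * (((bas.repr t) i).den : ℚ) = ((bas.repr t) i).num :=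
        Rat.mul_den_eq_num _
      push_cast
      rw [← h2]
      ring
    choose! m hm using h1
    refine ⟨∑ i ∈ (bas.repr t).support, m i, ?_⟩
    push_cast
    exact Finset.sum_congr rfl hm
  obtain ⟨m, hm⟩ := this
  rw [← hm, Int.floor_intCast]

lemma ell_near (hL : Tendsto L atTop atTop) (t : ℝ) {ε : ℝ} (hε : 0 < ε) :
    ∀ᶠ n in atTop, |(ell hL t n : ℝ) - t * L n| ≤ ε * L n := by
  set A : ℝ := ∑ i ∈ (bas.repr t).support, |(((bas.repr t) i : ℚ) : ℝ)| with hA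
  have hA0 : 0 ≤ A := Finset.sum_nonneg fun i _ => abs_nonneg _
  filter_upwards [DD_small hL (show 0 < ε / (A + 1) by positivity), hL.eventually_ge_atTop 0]
    with n h1 h2
  have ht : t = ∑ i ∈ (bas.repr t).support, (((bas.repr t) i : ℚ) : ℝ) * bas i := by
    conv_lhs => rw [← bas.linearCombination_repr t]
    rw [Finsupp.linearCombination_apply, Finsupp.sum]
    apply Finset.sum_congr rfl
    intro i _
    rw [Rat.smul_def]
  have h3 : (ell hL t n : ℝ) - t * L n = ∑ i ∈ (bas.repr t).support,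
      (((bas.repr t) i : ℚ) : ℝ) * ((be hL i n : ℝ) - bas i * L n) := by
    have e2 : t * L n = ∑ i ∈ (bas.repr t).support, (((bas.repr t) i : ℚ) : ℝ) * bas i * L n := by
      conv_lhs => rw [ht]
      rw [Finset.sum_mul]
    rw [e2]
    unfold ell Finsupp.sum
    push_cast
    rw [← Finset.sum_sub_distrib]
    apply Finset.sum_congr rfl
    intro i _
    ring
  rw [h3]
  calc |∑ i ∈ (bas.repr t).support, (((bas.repr t) i : ℚ) : ℝ) * ((be hL i n : ℝ) - bas i * L n)|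
      ≤ ∑ i ∈ (bas.repr t).support, |(((bas.repr t) i : ℚ) : ℝ)| * DD hL n := by
        refine (Finset.abs_sum_le_sum_abs _ _).trans (Finset.sum_le_sum fun i _ => ?_)
        rw [abs_mul]
        exact mul_le_mul_of_nonneg_left (be_near hL i n) (abs_nonneg _)
    _ = A * DD hL n := by rw [hA, Finset.sum_mul]
    _ ≤ A * (ε / (A + 1) * L n) := by gcongr
    _ ≤ (A + 1) * (ε / (A + 1) * L n) := by gcongr; linarith
    _ = ε * L n := by field_simp

variable {p q : ℕ} {θ : ℝ}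

/-- the exponential map -/
noncomputable def chi (hL : Tendsto L atTop atTop) (hp : 2 ≤ p) (hq : 2 ≤ q) (θ : ℝ) :
    Multiplicative ℝ →* GG where
  toFun := fun t => gm fun n => (p : ℚ) ^ ⌊ell hL (Multiplicative.toAdd t) n⌋ *
    (q : ℚ) ^ (-⌊ell hL (θ * Multiplicative.toAdd t) n⌋)
  map_one' := by
    rw [← gm_one]
    congr 1
    funext n
    simp [ell_zero]
  map_mul' := by
    intro s t
    rw [gm_mul, gm_eq]
    have hp0 : (p : ℚ) ≠ 0 := by
      have : p ≠ 0 := by omega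
      exact_mod_cast this
    have hq0 : (q : ℚ) ≠ 0 := by
      have : q ≠ 0 := by omega
      exact_mod_cast this
    filter_upwards [ev_of_atTop (ell_int hL (Multiplicative.toAdd s)),
      ev_of_atTop (ell_int hL (Multiplicative.toAdd t)),
      ev_of_atTop (ell_int hL (θ * Multiplicative.toAdd s)),
      ev_of_atTop (ell_int hL (θ * Multiplicative.toAdd t))] with n h1 h2 h3 h4
    have e1 : ⌊ell hL (Multiplicative.toAdd (s * t)) n⌋ = ⌊ell hL (Multiplicative.toAdd s) n⌋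
        + ⌊ell hL (Multiplicative.toAdd t) n⌋ := by
      rw [toAdd_mul, ell_add, ← h1, ← h2]
      rw [← Int.cast_add, Int.floor_intCast, Int.floor_intCast, Int.floor_intCast]
    have e2 : ⌊ell hL (θ * Multiplicative.toAdd (s * t)) n⌋
        = ⌊ell hL (θ * Multiplicative.toAdd s) n⌋ + ⌊ell hL (θ * Multiplicative.toAdd t) n⌋ := by
      rw [toAdd_mul, mul_add, ell_add, ← h3, ← h4]
      rw [← Int.cast_add, Int.floor_intCast, Int.floor_intCast, Int.floor_intCast]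
    rw [e1, e2, neg_add, zpow_add₀ hp0, zpow_add₀ hq0]
    ring

lemma ch_chi (hL : Tendsto L atTop atTop) (hp : 2 ≤ p) (hq : 2 ≤ q) (θ t : ℝ) :
    ch (chi hL hp hq θ) t = gm fun n => (p : ℚ) ^ ⌊ell hL t n⌋ * (q : ℚ) ^ (-⌊ell hL (θ * t) n⌋) :=
  rfl

/-- the floor is near -/
lemma fl_near (hL : Tendsto L atTop atTop) (t : ℝ) {ε : ℝ} (hε : 0 < ε) :
    ∀ᶠ n in atTop, |((⌊ell hL t n⌋ : ℤ) : ℝ) - t * L n| ≤ ε * L n := by
  filter_upwards [ell_near hL t hε, ell_int hL t] with n h1 h2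
  have : ((⌊ell hL t n⌋ : ℤ) : ℝ) = (ell hL t n : ℝ) := by exact_mod_cast h2
  rw [this]; exact h1

lemma zpow_exp {b : ℕ} (hb : 2 ≤ b) (k : ℤ) : (b : ℝ) ^ k = Real.exp (k * Real.log b) := by
  have hpos : (0 : ℝ) < b := by
    have : 0 < b := by omega
    exact_mod_cast this
  rw [← Real.rpow_intCast, Real.rpow_def_of_pos hpos, mul_comm]

lemma chi_Sp (hL : Tendsto L atTop atTop) (hp : 2 ≤ p) (hq : 2 ≤ q)
    (hpq : IsCoprime (q : ℤ) (p : ℤ)) (θ t : ℝ) :
    ch (chi hL hp hq θ) t ∈ SS L (Rb p (cop p)) (Real.log p * t) := by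
  have hlp : 0 < Real.log p := Real.log_pos (by exact_mod_cast hp)
  rw [ch_chi, mem_SS]
  intro ε hε
  have hε' : 0 < ε / Real.log p := by positivity
  filter_upwards [ev_of_atTop (fl_near hL t hε'), L_nonneg hL] with n h1 h2
  have hq0 : (q : ℚ) ≠ 0 := by
    have : q ≠ 0 := by omega
    exact_mod_cast this
  set o := ⌊ell hL (θ * t) n⌋ with ho
  refine ⟨1, (q : ℤ) ^ o.toNat, (q : ℤ) ^ (-o).toNat, ⌊ell hL t n⌋, one_ne_zero, ?_,
    IsCoprime.pow_left hpq, ?_, ?_⟩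
  · simp only [Int.cast_one, abs_one]
    exact Real.one_le_exp (by positivity)
  · push_cast
    have e1 : (q : ℚ) ^ o.toNat * (q : ℚ) ^ (-o) = (q : ℚ) ^ (-o).toNat := by
      rw [← zpow_natCast, ← zpow_add₀ hq0, ← zpow_natCast]
      congr 1
      omega
    rw [one_mul]
    calc (q : ℚ) ^ o.toNat * ((p : ℚ) ^ ⌊ell hL t n⌋ * (q : ℚ) ^ (-o))
        = (p : ℚ) ^ ⌊ell hL t n⌋ * ((q : ℚ) ^ o.toNat * (q : ℚ) ^ (-o)) := by ring
      _ = _ := by rw [e1]
  · have h3 := (abs_le.1 h1).1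
    have h4 : (t * L n - ε / Real.log p * L n) * Real.log p ≤ ((⌊ell hL t n⌋ : ℤ) : ℝ) * Real.log p := by
      gcongr; linarith
    have h5 : (t * L n - ε / Real.log p * L n) * Real.log p = (Real.log p * t - ε) * L n := by
      field_simp
    linarith

lemma chi_Si (hL : Tendsto L atTop atTop) (hp : 2 ≤ p) (hq : 2 ≤ q) (θ t : ℝ) :
    ch (chi hL hp hq θ) t ∈ SS L Rinf ((θ * Real.log q - Real.log p) * t) := by
  have hlp : 0 < Real.log p := Real.log_pos (by exact_mod_cast hp)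
  have hlq : 0 < Real.log q := Real.log_pos (by exact_mod_cast hq)
  rw [ch_chi, mem_SS]
  intro ε hε
  have hε1 : 0 < ε / 2 / Real.log p := by positivity
  have hε2 : 0 < ε / 2 / Real.log q := by positivity
  filter_upwards [ev_of_atTop (fl_near hL t hε1), ev_of_atTop (fl_near hL (θ * t) hε2),
    L_nonneg hL] with n h1 h2 h3
  unfold Rinf
  push_cast
  rw [zpow_exp hp, zpow_exp hq, ← Real.exp_add, abs_of_pos (Real.exp_pos _)]
  apply Real.exp_le_exp.2
  have h4 := (abs_le.1 h1).2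
  have h5 := (abs_le.1 h2).1
  have h6 : ((⌊ell hL t n⌋ : ℤ) : ℝ) * Real.log p ≤ (t * L n + ε / 2 / Real.log p * L n) * Real.log p := by
    gcongr; linarith
  have h7 : (θ * t * L n - ε / 2 / Real.log q * L n) * Real.log q
      ≤ ((⌊ell hL (θ * t) n⌋ : ℤ) : ℝ) * Real.log q := by
    gcongr; linarith
  have h8 : (t * L n + ε / 2 / Real.log p * L n) * Real.log p = (t * Real.log p + ε / 2) * L n := by
    field_simp
  have h9 : (θ * t * L n - ε / 2 / Real.log q * L n) * Real.log q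
      = (θ * t * Real.log q - ε / 2) * L n := by field_simp
  push_cast
  nlinarith

lemma chi_Sq (hL : Tendsto L atTop atTop) (hp : 2 ≤ p) (hq : 2 ≤ q) (θ : ℝ) {t : ℝ} (ht : 0 ≤ t) :
    ch (chi hL hp hq θ) t ∈ SS L (Rb q ⊥) (-(θ * Real.log q * t)) := by
  have hlq : 0 < Real.log q := Real.log_pos (by exact_mod_cast hq)
  rcases ht.eq_or_lt with h0 | h0
  · rw [← h0, Gen.ch_zero, ← gm_one, mem_SS]
    intro ε hε
    filter_upwards [L_nonneg hL] with n h1
    refine ⟨1, 1, 1, 0, one_ne_zero, ?_, Submonoid.one_mem _, by simp, ?_⟩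
    · simp only [Int.cast_one, abs_one]
      exact Real.one_le_exp (by positivity)
    · simp only [Int.cast_zero, zero_mul]
      nlinarith
  rw [ch_chi, mem_SS]
  intro ε hε
  have hε2 : 0 < ε / Real.log q := by positivity
  filter_upwards [ev_of_atTop (fl_near hL t (half_pos h0)), ev_of_atTop (fl_near hL (θ * t) hε2),
    L_nonneg hL] with n h1 h2 h3
  have h4 : 0 ≤ ⌊ell hL t n⌋ := by
    have h5 := (abs_le.1 h1).1
    have : (0 : ℝ) ≤ ((⌊ell hL t n⌋ : ℤ) : ℝ) := by nlinarith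
    exact_mod_cast this
  refine ⟨1, 1, (p : ℤ) ^ (⌊ell hL t n⌋).toNat, -⌊ell hL (θ * t) n⌋, one_ne_zero, ?_,
    Submonoid.one_mem _, ?_, ?_⟩
  · simp only [Int.cast_one, abs_one]
    exact Real.one_le_exp (by positivity)
  · push_cast
    have : (p : ℚ) ^ ⌊ell hL t n⌋ = (p : ℚ) ^ (⌊ell hL t n⌋).toNat := by
      rw [← zpow_natCast, Int.toNat_of_nonneg h4]
    rw [this]; ring
  · have h5 := (abs_le.1 h2).2
    have h6 : ((⌊ell hL (θ * t) n⌋ : ℤ) : ℝ) * Real.log q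
        ≤ (θ * t * L n + ε / Real.log q * L n) * Real.log q := by gcongr; linarith
    have h7 : (θ * t * L n + ε / Real.log q * L n) * Real.log q
        = (θ * Real.log q * t + ε) * L n := by field_simp
    push_cast
    nlinarith

/-- powers with small exponents are constants -/
lemma pow_mem_KK (hL : Tendsto L atTop atTop) (hp : 2 ≤ p) (hq : 2 ≤ q) (a b : ℕ → ℤ)
    (ha : ∀ ε : ℝ, 0 < ε → ∀ᶠ n in (UU : Filter ℕ), |(a n : ℝ)| ≤ ε * L n)
    (hb : ∀ ε : ℝ, 0 < ε → ∀ᶠ n in (UU : Filter ℕ), |(b n : ℝ)| ≤ ε * L n) :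
    gm (fun n => (p : ℚ) ^ (a n) * (q : ℚ) ^ (b n)) ∈ KK L hL := by
  have key : ∀ {c : ℕ}, 2 ≤ c → ∀ a : ℕ → ℤ,
      (∀ ε : ℝ, 0 < ε → ∀ᶠ n in (UU : Filter ℕ), |(a n : ℝ)| ≤ ε * L n) →
      Negl L (fun n => (c : ℤ) ^ (a n).toNat) := by
    intro c hc a ha ε hε
    have hlc : 0 < Real.log c := Real.log_pos (by exact_mod_cast hc)
    filter_upwards [ha (ε / Real.log c) (by positivity), L_nonneg hL] with n h1 h2
    push_cast
    rw [abs_pow, Nat.abs_cast, ← zpow_natCast, zpow_exp hc]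
    apply Real.exp_le_exp.2
    have h3 : (((a n).toNat : ℤ) : ℝ) ≤ ε / Real.log c * L n := by
      rcases le_total 0 (a n) with h | h
      · rw [Int.toNat_of_nonneg h]; exact (le_abs_self _).trans h1
      · rw [Int.toNat_of_nonpos h]
        simp only [Nat.cast_zero, Int.cast_zero]; positivity
    calc (((a n).toNat : ℤ) : ℝ) * Real.log c ≤ ε / Real.log c * L n * Real.log c := by gcongr
      _ = ε * L n := by field_simp
  have hneg : ∀ a : ℕ → ℤ, (∀ ε : ℝ, 0 < ε → ∀ᶠ n in (UU : Filter ℕ), |(a n : ℝ)| ≤ ε * L n) →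
      (∀ ε : ℝ, 0 < ε → ∀ᶠ n in (UU : Filter ℕ), |((-a n : ℤ) : ℝ)| ≤ ε * L n) := by
    intro a ha ε hε
    filter_upwards [ha ε hε] with n h1
    push_cast
    rwa [abs_neg]
  refine ⟨fun n => (p : ℤ) ^ (a n).toNat * (q : ℤ) ^ (b n).toNat,
    fun n => (p : ℤ) ^ (-a n).toNat * (q : ℤ) ^ (-b n).toNat,
    (key hp a ha).mul (key hq b hb), (key hp _ (hneg a ha)).mul (key hq _ (hneg b hb)), ?_, ?_⟩
  · refine Eventually.of_forall fun n => ?_
    have : p ≠ 0 := by omega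
    have : q ≠ 0 := by omega
    positivity
  · congr 1
    funext n
    have hz : ∀ {c : ℕ}, 2 ≤ c → ∀ k : ℤ, (c : ℚ) ^ k = (c : ℚ) ^ k.toNat / (c : ℚ) ^ (-k).toNat := by
      intro c hc k
      have hc0 : (c : ℚ) ≠ 0 := by
        have : c ≠ 0 := by omega
        exact_mod_cast this
      rw [eq_div_iff (pow_ne_zero _ hc0), ← zpow_natCast, ← zpow_natCast, ← zpow_add₀ hc0]
      congr 1
      omega
    rw [hz hp, hz hq]
    push_cast
    rw [div_mul_div_comm]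

/-- powers with exponents close to `t L` and `θ t L` are constant multiples of `χ t` -/
lemma exists_const (hL : Tendsto L atTop atTop) (hp : 2 ≤ p) (hq : 2 ≤ q) (θ t : ℝ) (a b : ℕ → ℤ)
    (ha : ∀ ε : ℝ, 0 < ε → ∀ᶠ n in (UU : Filter ℕ), |(a n : ℝ) - t * L n| ≤ ε * L n)
    (hb : ∀ ε : ℝ, 0 < ε → ∀ᶠ n in (UU : Filter ℕ), |(b n : ℝ) - θ * t * L n| ≤ ε * L n) :
    ∃ κ : KK L hL, κ ≠ 0 ∧ gm (fun n => (p : ℚ) ^ (a n) / (q : ℚ) ^ (b n))
      = (κ : GG) * ch (chi hL hp hq θ) t := by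
  have hp0 : (p : ℚ) ≠ 0 := by
    have : p ≠ 0 := by omega
    exact_mod_cast this
  have hq0 : (q : ℚ) ≠ 0 := by
    have : q ≠ 0 := by omega
    exact_mod_cast this
  have hsub : ∀ (a : ℕ → ℤ) (s : ℝ), (∀ ε : ℝ, 0 < ε → ∀ᶠ n in (UU : Filter ℕ),
      |(a n : ℝ) - s * L n| ≤ ε * L n) → ∀ ε : ℝ, 0 < ε → ∀ᶠ n in (UU : Filter ℕ),
      |((a n - ⌊ell hL s n⌋ : ℤ) : ℝ)| ≤ ε * L n := by
    intro a s ha ε hε
    filter_upwards [ha (ε / 2) (by positivity), ev_of_atTop (fl_near hL s (half_pos hε))]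
      with n h1 h2
    push_cast
    have h3 : (a n : ℝ) - ((⌊ell hL s n⌋ : ℤ) : ℝ) = ((a n : ℝ) - s * L n)
      - (((⌊ell hL s n⌋ : ℤ) : ℝ) - s * L n) := by ring
    rw [h3]
    refine (abs_sub _ _).trans ?_
    linarith
  have hneg : ∀ a : ℕ → ℤ, (∀ ε : ℝ, 0 < ε → ∀ᶠ n in (UU : Filter ℕ), |(a n : ℝ)| ≤ ε * L n) →
      (∀ ε : ℝ, 0 < ε → ∀ᶠ n in (UU : Filter ℕ), |((-a n : ℤ) : ℝ)| ≤ ε * L n) := by
    intro a ha ε hε
    filter_upwards [ha ε hε] with n h1
    push_cast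
    rwa [abs_neg]
  have hmem := pow_mem_KK hL hp hq (fun n => a n - ⌊ell hL t n⌋)
    (fun n => -(b n - ⌊ell hL (θ * t) n⌋)) (hsub a t ha) (hneg _ (hsub b (θ * t) hb))
  refine ⟨⟨_, hmem⟩, ?_, ?_⟩
  · intro h
    have h1 : gm (fun n => (p : ℚ) ^ (a n - ⌊ell hL t n⌋) *
      (q : ℚ) ^ (-(b n - ⌊ell hL (θ * t) n⌋))) = 0 := congrArg Subtype.val h
    have h2 : gm (fun n => (p : ℚ) ^ (a n - ⌊ell hL t n⌋) *
      (q : ℚ) ^ (-(b n - ⌊ell hL (θ * t) n⌋))) ≠ 0 := by
      rw [gm_ne_zero]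
      refine Eventually.of_forall fun n => ?_
      exact mul_ne_zero (zpow_ne_zero _ hp0) (zpow_ne_zero _ hq0)
    exact h2 h1
  · rw [ch_chi, gm_mul]
    congr 1
    funext n
    have e1 : (p : ℚ) ^ (a n) = (p : ℚ) ^ (a n - ⌊ell hL t n⌋) * (p : ℚ) ^ ⌊ell hL t n⌋ := by
      rw [← zpow_add₀ hp0]; congr 1; ring
    have e2 : ((q : ℚ) ^ (b n))⁻¹ = (q : ℚ) ^ (-(b n - ⌊ell hL (θ * t) n⌋))
        * (q : ℚ) ^ (-⌊ell hL (θ * t) n⌋) := by
      rw [← zpow_add₀ hq0, ← zpow_neg]; congr 1; ring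
    rw [div_eq_mul_inv, e1, e2]
    ring

end Pool.Agent.TH932.Chi
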