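import Mathlib

set_option autoImplicit false

/-!
# Factors, special positions and types of an infinite word
-/

namespace Pool.Agent.TH932.Words

variable {α : Type*}

/-- the factors of length `l` at `i` and `j` are equal -/
def Eqv (w : ℕ → α) (l i j : ℕ) : Prop := ∀ k < l, w (i + k) = w (j + k)

/-- the factor of length `l` at `i` -/
def fac (w : ℕ → α) (l i : ℕ) : Fin l → α := fun k => w (i + k)

/-- the number of factors of length `l` -/
noncomputable def cx (w : ℕ → α) (l : ℕ) : ℕ := (Set.range (fac w l)).ncard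

/-- special positions -/
def Mk (w : ℕ → α) (l i : ℕ) : Prop := ∃ j, Eqv w l i j ∧ w (j + l) ≠ w (i + l)

variable {w : ℕ → α} {l : ℕ}

lemma Eqv.symm {i j : ℕ} (h : Eqv w l i j) : Eqv w l j i := fun k hk => (h k hk).symm
lemma Eqv.trans {i j k : ℕ} (h : Eqv w l i j) (h' : Eqv w l j k) : Eqv w l i k :=
  fun m hm => (h m hm).trans (h' m hm)
lemma Eqv.mono {i j l' : ℕ} (hl : l' ≤ l) (h : Eqv w l i j) : Eqv w l' i j :=
  fun k hk => h k (lt_of_lt_of_le hk hl)

lemma fac_eq {i j : ℕ} : fac w l i = fac w l j ↔ Eqv w l i j := by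
  constructor
  · intro h k hk
    exact congrFun h ⟨k, hk⟩
  · intro h
    funext k
    exact h k.1 k.2

lemma Mk_congr {i j : ℕ} (h : Eqv w l i j) (hi : Mk w l i) : Mk w l j := by
  obtain ⟨k, hk, hne⟩ := hi
  by_cases h1 : w (j + l) = w (k + l)
  · refine ⟨i, h.symm, ?_⟩
    rw [h1]; exact fun h2 => hne h2.symm
  · exact ⟨k, h.symm.trans hk, fun h2 => h1 h2.symm⟩

lemma step {i j : ℕ} (hi : ¬ Mk w l i) (h : Eqv w l i j) : Eqv w l (i + 1) (j + 1) := by
  intro k hk
  by_cases h1 : k + 1 < l
  · have := h (k + 1) h1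
    rw [add_assoc, add_comm 1 k, add_assoc, add_comm 1 k]; exact this
  · have h2 : k + 1 = l := by omega
    have h3 : w (j + l) = w (i + l) := by
      by_contra h4
      exact hi ⟨j, h, h4⟩
    rw [add_assoc, add_comm 1 k, h2, add_assoc, add_comm 1 k, h2]; exact h3.symm

lemma Eqv_succ {i j : ℕ} (h : Eqv w (l + 1) i j) : Eqv w l (i + 1) (j + 1) := by
  intro k hk
  have := h (k + 1) (by omega)
  rw [add_assoc, add_comm 1 k, add_assoc, add_comm 1 k]; exact this

lemma finite_range_fac [Finite α] (w : ℕ → α) (l : ℕ) : (Set.range (fac w l)).Finite :=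
  Set.toFinite _

/-- among `cx + 1` consecutive positions two have the same factor -/
lemma exists_rep [Finite α] (w : ℕ → α) (l i : ℕ) :
    ∃ a b, i ≤ a ∧ a < b ∧ b ≤ i + cx w l ∧ Eqv w l a b := by
  classical
  have hfin := finite_range_fac w l
  have hcard : (hfin.toFinset).card < (Finset.Icc i (i + cx w l)).card := by
    rw [← Set.ncard_eq_toFinset_card _ hfin]
    simp only [Nat.card_Icc]
    unfold cx
    omega
  obtain ⟨a, ha, b, hb, hab, heq⟩ := Finset.exists_ne_map_eq_of_card_lt_of_maps_to hcard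
    (f := fac w l) (fun x _ => by simp)
  rw [Finset.mem_Icc] at ha hb
  rcases lt_or_gt_of_ne hab with h | h
  · exact ⟨a, b, ha.1, h, hb.2, fac_eq.1 heq⟩
  · exact ⟨b, a, hb.1, h, ha.2, (fac_eq.1 heq).symm⟩

/-- without special positions the word is eventually periodic -/
lemma exists_mark [Finite α] (hap : ∀ a b, a < b → ∃ k, w (a + k) ≠ w (b + k)) (hl : 1 ≤ l)
    (i : ℕ) : ∃ m, i ≤ m ∧ m ≤ i + cx w l ∧ Mk w l m := by
  by_contra hcon
  push Not at hcon
  obtain ⟨a, b, hia, hab, hb, hE⟩ := exists_rep w l i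
  have key : ∀ k, Eqv w l (a + k) (b + k) ∧ ¬ Mk w l (a + k) := by
    intro k
    induction k using Nat.strong_induction_on with
    | _ k ih =>
      have h2 : ¬ Mk w l (a + k) := by
        by_cases hk : k < b - a
        · exact hcon (a + k) (by omega) (by omega)
        · obtain ⟨h3, h4⟩ := ih (k - (b - a)) (by omega)
          have e1 : b + (k - (b - a)) = a + k := by omega
          rw [e1] at h3
          intro h5
          exact h4 (Mk_congr h3.symm h5)
      refine ⟨?_, h2⟩
      rcases Nat.eq_zero_or_pos k with h0 | h0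
      · subst h0; exact hE
      · obtain ⟨h3, h4⟩ := ih (k - 1) (by omega)
        have := step h4 h3
        have e1 : a + (k - 1) + 1 = a + k := by omega
        have e2 : b + (k - 1) + 1 = b + k := by omega
        rwa [e1, e2] at this
  obtain ⟨k, hk⟩ := hap a b hab
  exact hk ((key k).1 0 (by omega))

/-- the next special position -/
noncomputable def nm (w : ℕ → α) (l i : ℕ) : ℕ := by
  classical
  exact if h : ∃ m, i < m ∧ Mk w l m then Nat.find h else i + 1

section
variable [Finite α] (hap : ∀ a b, a < b → ∃ k, w (a + k) ≠ w (b + k)) (hl : 1 ≤ l)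
include hap hl

lemma nm_spec (i : ℕ) : i < nm w l i ∧ Mk w l (nm w l i) ∧ nm w l i ≤ i + 1 + cx w l ∧
    ∀ m, i < m → m < nm w l i → ¬ Mk w l m := by
  classical
  obtain ⟨m0, h1, h2, h3⟩ := exists_mark hap hl (i + 1)
  have h : ∃ m, i < m ∧ Mk w l m := ⟨m0, by omega, h3⟩
  have e : nm w l i = Nat.find h := by unfold nm; rw [dif_pos h]
  rw [e]
  refine ⟨(Nat.find_spec h).1, (Nat.find_spec h).2, ?_, ?_⟩
  · exact (Nat.find_min' h ⟨by omega, h3⟩).trans h2
  · intro m hm hlt hM
    exact Nat.find_min h hlt ⟨hm, hM⟩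

lemma nm_unique {i m : ℕ} (h1 : i < m) (h2 : Mk w l m) (h3 : ∀ k, i < k → k < m → ¬ Mk w l k) :
    nm w l i = m := by
  obtain ⟨a1, a2, _, a4⟩ := nm_spec hap hl i
  rcases lt_trichotomy (nm w l i) m with h | h | h
  · exact absurd a2 (h3 _ a1 h)
  · exact h
  · exact absurd h2 (a4 m h1 h)

/-- positions of the same type are followed by the same block -/
lemma type_block {i j : ℕ} (h : Eqv w (l + 1) i j) :
    nm w l j = j + (nm w l i - i) ∧ Eqv w (nm w l i - i) i j := by
  obtain ⟨a1, a2, _, a4⟩ := nm_spec hap hl i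
  set d := nm w l i - i with hd
  have hdi : i + d = nm w l i := by omega
  have key : ∀ k, 1 ≤ k → k ≤ d → Eqv w l (i + k) (j + k) := by
    intro k hk
    induction k with
    | zero => omega
    | succ k ih =>
      intro hkd
      rcases Nat.eq_zero_or_pos k with h0 | h0
      · subst h0; exact Eqv_succ h
      · have h5 := ih h0 (by omega)
        exact step (a4 (i + k) (by omega) (by omega)) h5
  constructor
  · apply nm_unique hap hl
    · omega
    · exact Mk_congr (key d (by omega) le_rfl) (by rw [hdi]; exact a2)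
    · intro k hk1 hk2 hM
      have e1 : j + (k - j) = k := by omega
      have h5 := key (k - j) (by omega) (by omega)
      rw [e1] at h5
      exact a4 (i + (k - j)) (by omega) (by omega) (Mk_congr h5.symm hM)
  · intro k hk
    rcases Nat.eq_zero_or_pos k with h0 | h0
    · subst h0; exact h 0 (by omega)
    · have := key k h0 hk.le 0 (by omega)
      simpa using this

end

/-- the number of types is at most twice the increment of the complexity -/
lemma card_types [Finite α] (w : ℕ → α) (l : ℕ) :
    (fac w (l + 1) '' {i | Mk w l i}).ncard + 2 * cx w l ≤ 2 * cx w (l + 1) := by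
  classical
  set A := fac w (l + 1) '' {i | Mk w l i} with hA
  set B := fac w (l + 1) '' {i | ¬ Mk w l i} with hB
  set A' := fac w l '' {i | Mk w l i} with hA'
  set B' := fac w l '' {i | ¬ Mk w l i} with hB'
  have hAB : Set.range (fac w (l + 1)) = A ∪ B := by
    rw [hA, hB, ← Set.image_union]
    have : {i | Mk w l i} ∪ {i | ¬ Mk w l i} = Set.univ := by
      ext i; simp [em]
    rw [this, Set.image_univ]
  have hAB' : Set.range (fac w l) = A' ∪ B' := by
    rw [hA', hB', ← Set.image_union]
    have : {i | Mk w l i} ∪ {i | ¬ Mk w l i} = Set.univ := by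
      ext i; simp [em]
    rw [this, Set.image_univ]
  have hdisj : Disjoint A B := by
    rw [Set.disjoint_left]
    rintro _ ⟨i, hi, rfl⟩ ⟨j, hj, hij⟩
    have := (fac_eq.1 hij).mono (Nat.le_succ l)
    exact hj (Mk_congr this.symm hi)
  have hdisj' : Disjoint A' B' := by
    rw [Set.disjoint_left]
    rintro _ ⟨i, hi, rfl⟩ ⟨j, hj, hij⟩
    exact hj (Mk_congr (fac_eq.1 hij).symm hi)
  have hBB : B.ncard = B'.ncard := by
    -- the restriction map is a bijection
    have h1 : B' = (fun u : Fin (l + 1) → α => fun k : Fin l => u k.castSucc) '' B := by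
      rw [hB, hB', Set.image_image]
      rfl
    rw [h1]
    refine (Set.InjOn.ncard_image ?_).symm
    rintro _ ⟨i, hi, rfl⟩ _ ⟨j, hj, rfl⟩ heq
    rw [fac_eq]
    have h2 : Eqv w l i j := fun k hk => congrFun heq ⟨k, hk⟩
    intro k hk
    by_cases h3 : k < l
    · exact h2 k h3
    · have h4 : k = l := by omega
      subst h4
      by_contra h5
      exact hi ⟨j, h2, fun h6 => h5 h6.symm⟩
  have hAA : 2 * A'.ncard ≤ A.ncard := by
    have h1 : A' = (fun u : Fin (l + 1) → α => fun k : Fin l => u k.castSucc) '' A := by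
      rw [hA, hA', Set.image_image]
      rfl
    have hAf : A.Finite := (finite_range_fac w (l + 1)).subset (Set.image_subset_range _ _)
    have hAf' : A'.Finite := (finite_range_fac w l).subset (Set.image_subset_range _ _)
    rw [Set.ncard_eq_toFinset_card _ hAf, Set.ncard_eq_toFinset_card _ hAf']
    rw [mul_comm]
    rw [Finset.card_eq_sum_card_fiberwise (s := hAf.toFinset) (t := hAf'.toFinset)
      (f := fun u : Fin (l + 1) → α => fun k : Fin l => u k.castSucc)]
    · rw [← smul_eq_mul]
      apply Finset.card_nsmul_le_sum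
      intro v hv
      rw [Set.Finite.mem_toFinset] at hv
      obtain ⟨i, ⟨j, hj1, hj2⟩, rfl⟩ := hv
      have hMi : Mk w l i := ⟨j, hj1, hj2⟩
      have hMj : Mk w l j := Mk_congr hj1 hMi
      apply Finset.one_lt_card.2
      refine ⟨fac w (l + 1) i, ?_, fac w (l + 1) j, ?_, ?_⟩
      · rw [Finset.mem_filter, Set.Finite.mem_toFinset]
        exact ⟨⟨i, hMi, rfl⟩, rfl⟩
      · rw [Finset.mem_filter, Set.Finite.mem_toFinset]
        exact ⟨⟨j, hMj, rfl⟩, (fac_eq.2 hj1).symm⟩
      · intro h
        exact hj2 ((fac_eq.1 h) l (by omega)).symm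
    · intro u hu
      simp only [Set.Finite.coe_toFinset] at hu ⊢
      rw [h1]
      exact ⟨u, hu, rfl⟩
  have e1 : cx w (l + 1) = A.ncard + B.ncard := by
    unfold cx
    rw [hAB, Set.ncard_union_eq hdisj
      ((finite_range_fac w (l + 1)).subset (Set.image_subset_range _ _))
      ((finite_range_fac w (l + 1)).subset (Set.image_subset_range _ _))]
  have e2 : cx w l = A'.ncard + B'.ncard := by
    unfold cx
    rw [hAB', Set.ncard_union_eq hdisj'
      ((finite_range_fac w l).subset (Set.image_subset_range _ _))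
      ((finite_range_fac w l).subset (Set.image_subset_range _ _))]
  omega

/-- numbering of the types -/
lemma exists_ty [Finite α] (w : ℕ → α) (l : ℕ) {r : ℕ} (hr : 2 * cx w (l + 1) ≤ r + 2 * cx w l) :
    ∃ ty : ℕ → Fin (r + 1), ∀ i j, Mk w l i → Mk w l j → ty i = ty j → Eqv w (l + 1) i j := by
  classical
  set A := fac w (l + 1) '' {i | Mk w l i} with hA
  have hAf : A.Finite := (finite_range_fac w (l + 1)).subset (Set.image_subset_range _ _)
  have h1 : A.ncard ≤ r := by
    have := card_types w l
    rw [← hA] at this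
    omega
  have := hAf.fintype
  have h2 : Fintype.card A ≤ Fintype.card (Fin (r + 1)) := by
    rw [Fintype.card_fin, ← Nat.card_eq_fintype_card, Nat.card_coe_set_eq]
    omega
  obtain ⟨g⟩ := Function.Embedding.nonempty_of_card_le h2
  refine ⟨fun i => if h : Mk w l i then g ⟨fac w (l + 1) i, ⟨i, h, rfl⟩⟩ else 0, ?_⟩
  intro i j hi hj hij
  simp only [dif_pos hi, dif_pos hj] at hij
  have := g.injective hij
  exact fac_eq.1 (congrArg Subtype.val this)

end Pool.Agent.TH932.Words
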