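import Mathlib
import Pool.Agent.TH932.Words

set_option autoImplicit false

/-!
# Integer sequences driven by a word; shadow orbits
-/

namespace Pool.Agent.TH932.Orb

open Pool.Agent.TH932.Words

/-- an injective sequence of integers with `p y (k+1) = q ^ δ (w k) * y k + β (w k)` -/
structure Sys (α : Type*) where
  p : ℕ
  q : ℕ
  M : ℕ
  w : ℕ → α
  δ : α → ℕ
  β : α → ℤ
  y : ℕ → ℤ
  hp : 2 ≤ p
  hq : 2 ≤ q
  hpq : IsCoprime (q : ℤ) (p : ℤ)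
  hpM : p ≤ M
  hqM : ∀ a, q ^ δ a ≤ M
  hβM : ∀ a, |β a| ≤ M
  hrec : ∀ k, (p : ℤ) * y (k + 1) = (q : ℤ) ^ δ (w k) * y k + β (w k)
  hinj : Function.Injective y

variable {α : Type*} (Z : Sys α)

namespace Sys

lemma hM1 : 1 ≤ Z.M := by have := Z.hp; have := Z.hpM; omega

lemma p_ne : (Z.p : ℤ) ≠ 0 := by have := Z.hp; omega
lemma q_ne : (Z.q : ℤ) ≠ 0 := by have := Z.hq; omega

/-- cumulative exponents -/
def oo (k : ℕ) : ℕ := ∑ i ∈ Finset.range k, Z.δ (Z.w i)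

lemma oo_succ (k : ℕ) : Z.oo (k + 1) = Z.oo k + Z.δ (Z.w k) := by
  unfold oo; rw [Finset.sum_range_succ]

lemma oo_mono : Monotone Z.oo := monotone_nat_of_le_succ fun k => by rw [oo_succ]; omega

/-- the constant term of a segment -/
def Q (i j : ℕ) : ℤ := (Z.p : ℤ) ^ (j - i) * Z.y j - (Z.q : ℤ) ^ (Z.oo j - Z.oo i) * Z.y i

lemma Q_self (i : ℕ) : Z.Q i i = 0 := by unfold Q; simp

lemma Q_comp {i j k : ℕ} (hij : i ≤ j) (hjk : j ≤ k) :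
    Z.Q i k = (Z.q : ℤ) ^ (Z.oo k - Z.oo j) * Z.Q i j + (Z.p : ℤ) ^ (j - i) * Z.Q j k := by
  unfold Q
  have h1 := Z.oo_mono hij
  have h2 := Z.oo_mono hjk
  have e1 : (Z.p : ℤ) ^ (k - i) = (Z.p : ℤ) ^ (j - i) * (Z.p : ℤ) ^ (k - j) := by
    rw [← pow_add]; congr 1; omega
  have e2 : (Z.q : ℤ) ^ (Z.oo k - Z.oo i) = (Z.q : ℤ) ^ (Z.oo k - Z.oo j)
      * (Z.q : ℤ) ^ (Z.oo j - Z.oo i) := by
    rw [← pow_add]; congr 1; omega
  rw [e1, e2]; ring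

lemma Q_succ (i : ℕ) : Z.Q i (i + 1) = Z.β (Z.w i) := by
  unfold Q
  have h := Z.hrec i
  have e : Z.oo (i + 1) - Z.oo i = Z.δ (Z.w i) := by rw [oo_succ]; omega
  rw [e, show i + 1 - i = 1 by omega, pow_one]
  linarith

lemma word_dep {l i j : ℕ} (h : Eqv Z.w l i j) :
    Z.oo (i + l) - Z.oo i = Z.oo (j + l) - Z.oo j ∧ Z.Q i (i + l) = Z.Q j (j + l) := by
  induction l with
  | zero => simp [Q_self]
  | succ l ih =>
    obtain ⟨h1, h2⟩ := ih (h.mono (Nat.le_succ l))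
    have h3 := h l (Nat.lt_succ_self l)
    have m1 := Z.oo_mono (Nat.le_add_right i l)
    have m2 := Z.oo_mono (Nat.le_add_right j l)
    constructor
    · rw [← add_assoc, ← add_assoc, oo_succ, oo_succ, h3]
      omega
    · rw [← add_assoc, ← add_assoc, Z.Q_comp (Nat.le_add_right i l) (Nat.le_succ _),
        Z.Q_comp (Nat.le_add_right j l) (Nat.le_succ _), Q_succ, Q_succ, h3, h2,
        show i + l - i = j + l - j by omega]
      have e : Z.oo (i + l + 1) - Z.oo (i + l) = Z.oo (j + l + 1) - Z.oo (j + l) := by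
        rw [oo_succ, oo_succ, h3]; omega
      rw [e]

lemma q_bound {i j : ℕ} (hij : i ≤ j) : Z.q ^ (Z.oo j - Z.oo i) ≤ Z.M ^ (j - i) := by
  obtain ⟨k, rfl⟩ := Nat.exists_eq_add_of_le hij
  rw [Nat.add_sub_cancel_left]
  induction k with
  | zero => simp
  | succ k ih =>
    have m1 := Z.oo_mono (Nat.le_add_right i k)
    rw [← add_assoc, oo_succ, show Z.oo (i + k) + Z.δ (Z.w (i + k)) - Z.oo i
      = (Z.oo (i + k) - Z.oo i) + Z.δ (Z.w (i + k)) by omega, pow_add, pow_succ]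
    exact Nat.mul_le_mul (ih (by omega)) (Z.hqM _)

lemma p_bound (k : ℕ) : Z.p ^ k ≤ Z.M ^ k := Nat.pow_le_pow_left Z.hpM k

lemma Q_bound {i j : ℕ} (hij : i ≤ j) : |Z.Q i j| ≤ (2 * Z.M : ℤ) ^ (j - i) := by
  obtain ⟨k, rfl⟩ := Nat.exists_eq_add_of_le hij
  rw [Nat.add_sub_cancel_left]
  have hM := Z.hM1
  have hMz : (1 : ℤ) ≤ Z.M := by exact_mod_cast hM
  induction k with
  | zero => simp [Q_self]
  | succ k ih =>
    rw [← add_assoc, Z.Q_comp (Nat.le_add_right i k) (Nat.le_succ _), Q_succ,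
      Nat.add_sub_cancel_left]
    have e : Z.oo (i + k + 1) - Z.oo (i + k) = Z.δ (Z.w (i + k)) := by rw [oo_succ]; omega
    rw [e]
    have h1 : |((Z.q : ℤ)) ^ Z.δ (Z.w (i + k))| ≤ Z.M := by
      rw [abs_of_nonneg (by positivity)]
      exact_mod_cast Z.hqM _
    have h2 : |((Z.p : ℤ)) ^ k| ≤ (2 * Z.M : ℤ) ^ k := by
      rw [abs_of_nonneg (by positivity)]
      have h3 : ((Z.p : ℤ)) ^ k ≤ (Z.M : ℤ) ^ k := by exact_mod_cast Z.p_bound k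
      refine h3.trans ?_
      gcongr; linarith
    calc |(Z.q : ℤ) ^ Z.δ (Z.w (i + k)) * Z.Q i (i + k) + (Z.p : ℤ) ^ k * Z.β (Z.w (i + k))|
        ≤ |(Z.q : ℤ) ^ Z.δ (Z.w (i + k)) * Z.Q i (i + k)|
          + |(Z.p : ℤ) ^ k * Z.β (Z.w (i + k))| := abs_add_le _ _
      _ ≤ Z.M * (2 * Z.M : ℤ) ^ k + (2 * Z.M : ℤ) ^ k * Z.M := by
          rw [abs_mul, abs_mul]
          have := ih (by omega)
          have := Z.hβM (Z.w (i + k))
          gcongr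
      _ = (2 * Z.M : ℤ) ^ (k + 1) := by ring

lemma y_bound (k : ℕ) : |Z.y k| + 1 ≤ (2 * Z.M : ℤ) ^ k * (|Z.y 0| + 1) := by
  have hMz : (1 : ℤ) ≤ Z.M := by exact_mod_cast Z.hM1
  induction k with
  | zero => simp
  | succ k ih =>
    have h1 : |Z.y (k + 1)| ≤ |(Z.p : ℤ) * Z.y (k + 1)| := by
      rw [abs_mul]
      have : (1 : ℤ) ≤ |(Z.p : ℤ)| := Int.one_le_abs Z.p_ne
      nlinarith [abs_nonneg (Z.y (k + 1))]
    have h2 : |(Z.p : ℤ) * Z.y (k + 1)| ≤ Z.M * |Z.y k| + Z.M := by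
      rw [Z.hrec]
      refine (abs_add_le _ _).trans ?_
      rw [abs_mul]
      have h1 : |((Z.q : ℤ)) ^ Z.δ (Z.w k)| ≤ Z.M := by
        rw [abs_of_nonneg (by positivity)]
        exact_mod_cast Z.hqM _
      have := Z.hβM (Z.w k)
      gcongr
    have h3 : |Z.y (k + 1)| + 1 ≤ 2 * Z.M * (|Z.y k| + 1) := by
      nlinarith [abs_nonneg (Z.y k)]
    calc |Z.y (k + 1)| + 1 ≤ 2 * Z.M * (|Z.y k| + 1) := h3
      _ ≤ 2 * Z.M * ((2 * Z.M : ℤ) ^ k * (|Z.y 0| + 1)) := by gcongr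
      _ = (2 * Z.M : ℤ) ^ (k + 1) * (|Z.y 0| + 1) := by ring

lemma cop (a b : ℕ) : IsCoprime ((Z.p : ℤ) ^ a) ((Z.q : ℤ) ^ b) :=
  (Z.hpq.symm.pow_left).pow_right

lemma dvd_of_eqv {l s t : ℕ} (h : Eqv Z.w l s t) : (Z.p : ℤ) ^ l ∣ Z.y t - Z.y s := by
  obtain ⟨h1, h2⟩ := Z.word_dep h
  have e1 : Z.Q s (s + l) = (Z.p : ℤ) ^ l * Z.y (s + l)
    - (Z.q : ℤ) ^ (Z.oo (s + l) - Z.oo s) * Z.y s := by unfold Q; simp
  have e2 : Z.Q t (t + l) = (Z.p : ℤ) ^ l * Z.y (t + l)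
    - (Z.q : ℤ) ^ (Z.oo (t + l) - Z.oo t) * Z.y t := by unfold Q; simp
  have h3 : (Z.q : ℤ) ^ (Z.oo (s + l) - Z.oo s) * (Z.y t - Z.y s)
      = (Z.p : ℤ) ^ l * (Z.y (t + l) - Z.y (s + l)) := by
    rw [e1, e2, ← h1] at h2
    linear_combination h2
  exact (Z.cop l _).dvd_of_dvd_mul_left ⟨_, h3⟩

lemma aper (a b : ℕ) (hab : a < b) : ∃ k, Z.w (a + k) ≠ Z.w (b + k) := by
  by_contra hcon
  push Not at hcon
  have h1 : ∀ l, (Z.p : ℤ) ^ l ∣ Z.y b - Z.y a := fun l => Z.dvd_of_eqv fun k _ => hcon k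
  have h2 : Z.y b - Z.y a ≠ 0 := by
    rw [sub_ne_zero]
    intro h; have := Z.hinj h; omega
  have h3 : ∀ l : ℕ, l < 2 ^ l := fun l => Nat.lt_two_pow_self
  have h4 := Int.le_of_dvd (abs_pos.2 h2) ((dvd_abs _ _).2 (h1 (|Z.y b - Z.y a|).toNat))
  have h5 : ((2 : ℤ)) ^ (|Z.y b - Z.y a|).toNat ≤ (Z.p : ℤ) ^ (|Z.y b - Z.y a|).toNat := by
    have := Z.hp
    gcongr
    exact_mod_cast this
  have h6 : (((|Z.y b - Z.y a|).toNat : ℕ) : ℤ) < (2 : ℤ) ^ (|Z.y b - Z.y a|).toNat := by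
    exact_mod_cast h3 _
  rw [Int.toNat_of_nonneg (abs_nonneg _)] at h6
  linarith

/-- the size of shadows -/
def W (h : ℕ) : ℤ := 3 * (2 * Z.M : ℤ) ^ (2 * h)

lemma W_pos (h : ℕ) : 1 ≤ Z.W h := by
  have hMz : (1 : ℤ) ≤ Z.M := by exact_mod_cast Z.hM1
  unfold W
  have : (1 : ℤ) ≤ (2 * Z.M : ℤ) ^ (2 * h) := one_le_pow₀ (by linarith)
  linarith

/-- a near repetition gives a rational shadow of small height -/
lemma shadow {l h i s t : ℕ} (his : i ≤ s) (hst : s < t) (hth : t ≤ i + h)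
    (hE : Eqv Z.w l s t) : ∃ m d : ℤ, d ≠ 0 ∧ |m| ≤ Z.W h ∧ |d| ≤ Z.W h ∧
      (Z.p : ℤ) ^ l ∣ d * Z.y i - m ∧ d * Z.y i - m ≠ 0 := by
  have hMz : (1 : ℤ) ≤ Z.M := by exact_mod_cast Z.hM1
  set A : ℤ := (Z.q : ℤ) ^ (Z.oo t - Z.oo s) with hA
  set N : ℤ := (Z.p : ℤ) ^ (t - s) with hN
  set A' : ℤ := (Z.q : ℤ) ^ (Z.oo s - Z.oo i) with hA'
  set N' : ℤ := (Z.p : ℤ) ^ (s - i) with hN'
  have q1 : Z.Q s t = N * Z.y t - A * Z.y s := rfl
  have q2 : Z.Q i s = N' * Z.y s - A' * Z.y i := rfl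
  have hkey : (A - N) * A' * Z.y i - -((A - N) * Z.Q i s + N' * Z.Q s t)
      = N' * N * (Z.y t - Z.y s) := by
    rw [q1, q2]; ring
  have hne : Z.y t - Z.y s ≠ 0 := by
    rw [sub_ne_zero]
    intro h; have := Z.hinj h; omega
  have hN0 : N ≠ 0 := pow_ne_zero _ Z.p_ne
  have hN0' : N' ≠ 0 := pow_ne_zero _ Z.p_ne
  have hA0' : A' ≠ 0 := pow_ne_zero _ Z.q_ne
  have hAN : A - N ≠ 0 := by
    intro h0
    have h1 : A = N := by linarith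
    have h2 : IsCoprime N A := Z.cop _ _
    rw [h1] at h2
    have h3 : IsUnit N := isCoprime_self.1 h2
    have h4 : (1 : ℤ) < N := by
      rw [hN]
      apply one_lt_pow₀
      · have := Z.hp; exact_mod_cast (show 1 < Z.p by omega)
      · omega
    rcases Int.isUnit_iff.1 h3 with h5 | h5 <;> omega
  -- bounds
  have bA : |A| ≤ (Z.M : ℤ) ^ h := by
    rw [hA, abs_of_nonneg (by positivity)]
    have h1 : (Z.q ^ (Z.oo t - Z.oo s) : ℕ) ≤ Z.M ^ h :=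
      (Z.q_bound hst.le).trans (Nat.pow_le_pow_right Z.hM1 (by omega))
    exact_mod_cast h1
  have bA' : |A'| ≤ (Z.M : ℤ) ^ h := by
    rw [hA', abs_of_nonneg (by positivity)]
    have h1 : (Z.q ^ (Z.oo s - Z.oo i) : ℕ) ≤ Z.M ^ h :=
      (Z.q_bound his).trans (Nat.pow_le_pow_right Z.hM1 (by omega))
    exact_mod_cast h1
  have bN : |N| ≤ (Z.M : ℤ) ^ h := by
    rw [hN, abs_of_nonneg (by positivity)]
    have h1 : (Z.p ^ (t - s) : ℕ) ≤ Z.M ^ h :=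
      (Z.p_bound _).trans (Nat.pow_le_pow_right Z.hM1 (by omega))
    exact_mod_cast h1
  have bN' : |N'| ≤ (Z.M : ℤ) ^ h := by
    rw [hN', abs_of_nonneg (by positivity)]
    have h1 : (Z.p ^ (s - i) : ℕ) ≤ Z.M ^ h :=
      (Z.p_bound _).trans (Nat.pow_le_pow_right Z.hM1 (by omega))
    exact_mod_cast h1
  have bQ1 : |Z.Q s t| ≤ (2 * Z.M : ℤ) ^ h :=
    (Z.Q_bound hst.le).trans (pow_le_pow_right₀ (by linarith) (by omega))
  have bQ2 : |Z.Q i s| ≤ (2 * Z.M : ℤ) ^ h :=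
    (Z.Q_bound his).trans (pow_le_pow_right₀ (by linarith) (by omega))
  have bM : (Z.M : ℤ) ^ h ≤ (2 * Z.M : ℤ) ^ h := by gcongr; linarith
  have bsub : |A - N| ≤ 2 * (2 * Z.M : ℤ) ^ h := by
    refine (abs_sub _ _).trans ?_
    linarith
  have eW : Z.W h = 3 * ((2 * Z.M : ℤ) ^ h * (2 * Z.M : ℤ) ^ h) := by
    unfold W; rw [two_mul h, pow_add]
  refine ⟨-((A - N) * Z.Q i s + N' * Z.Q s t), (A - N) * A', mul_ne_zero hAN hA0', ?_, ?_, ?_, ?_⟩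
  · rw [abs_neg]
    calc |(A - N) * Z.Q i s + N' * Z.Q s t| ≤ |A - N| * |Z.Q i s| + |N'| * |Z.Q s t| := by
          refine (abs_add_le _ _).trans ?_
          rw [abs_mul, abs_mul]
      _ ≤ (2 * (2 * Z.M : ℤ) ^ h) * (2 * Z.M : ℤ) ^ h + (2 * Z.M : ℤ) ^ h * (2 * Z.M : ℤ) ^ h := by
          gcongr
          exact bN'.trans bM
      _ = Z.W h := by rw [eW]; ring
  · rw [abs_mul]
    calc |A - N| * |A'| ≤ (2 * (2 * Z.M : ℤ) ^ h) * (2 * Z.M : ℤ) ^ h := by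
          gcongr
          exact bA'.trans bM
      _ ≤ Z.W h := by
          rw [eW]
          have : (0 : ℤ) ≤ (2 * Z.M : ℤ) ^ h * (2 * Z.M : ℤ) ^ h := by positivity
          linarith
  · rw [hkey]
    exact Dvd.dvd.mul_left (Z.dvd_of_eqv hE) _
  · rw [hkey]
    exact mul_ne_zero (mul_ne_zero hN0' hN0) hne

/-- shadows are orbits -/
lemma shadow_step {l h i : ℕ} {m d m' d' : ℤ} (hm : |m| ≤ Z.W h) (hd : |d| ≤ Z.W h)
    (hm' : |m'| ≤ Z.W h) (hd' : |d'| ≤ Z.W h) (h1 : (Z.p : ℤ) ^ l ∣ d * Z.y i - m)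
    (h2 : (Z.p : ℤ) ^ l ∣ d' * Z.y (i + 1) - m') (hl : 3 * Z.M * (Z.W h) ^ 2 < (Z.p : ℤ) ^ l) :
    (Z.p : ℤ) * m' * d = ((Z.q : ℤ) ^ Z.δ (Z.w i) * m + Z.β (Z.w i) * d) * d' := by
  have hMz : (1 : ℤ) ≤ Z.M := by exact_mod_cast Z.hM1
  have hWp := Z.W_pos h
  have hdvd : (Z.p : ℤ) ^ l ∣ (Z.p : ℤ) * m' * d
      - ((Z.q : ℤ) ^ Z.δ (Z.w i) * m + Z.β (Z.w i) * d) * d' := by
    have e : (Z.p : ℤ) * m' * d - ((Z.q : ℤ) ^ Z.δ (Z.w i) * m + Z.β (Z.w i) * d) * d'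
        = (d * Z.y i - m) * ((Z.q : ℤ) ^ Z.δ (Z.w i) * d')
          - (d' * Z.y (i + 1) - m') * (Z.p * d) := by
      linear_combination (d * d') * Z.hrec i
    rw [e]
    exact dvd_sub (Dvd.dvd.mul_right h1 _) (Dvd.dvd.mul_right h2 _)
  have hp1 : |(Z.p : ℤ)| ≤ Z.M := by
    rw [abs_of_nonneg (by positivity)]; exact_mod_cast Z.hpM
  have hq1 : |((Z.q : ℤ)) ^ Z.δ (Z.w i)| ≤ Z.M := by
    rw [abs_of_nonneg (by positivity)]
    exact_mod_cast Z.hqM _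
  have hβ1 := Z.hβM (Z.w i)
  have hbd : |(Z.p : ℤ) * m' * d - ((Z.q : ℤ) ^ Z.δ (Z.w i) * m + Z.β (Z.w i) * d) * d'|
      ≤ 3 * Z.M * (Z.W h) ^ 2 := by
    calc _ ≤ |(Z.p : ℤ) * m' * d| + |((Z.q : ℤ) ^ Z.δ (Z.w i) * m + Z.β (Z.w i) * d) * d'| :=
          abs_sub _ _
      _ ≤ Z.M * Z.W h * Z.W h + (Z.M * Z.W h + Z.M * Z.W h) * Z.W h := by
          apply add_le_add
          · rw [abs_mul, abs_mul]; gcongr
          · rw [abs_mul]
            gcongr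
            refine (abs_add_le _ _).trans ?_
            rw [abs_mul, abs_mul]
            gcongr
      _ = 3 * Z.M * (Z.W h) ^ 2 := by ring
  by_contra hne
  have h3 := Int.le_of_dvd (abs_pos.2 (sub_ne_zero.2 hne)) ((dvd_abs _ _).2 hdvd)
  linarith

/-- shadows along an interval -/
lemma shadow_run {l h a b : ℕ} (hl : 3 * Z.M * (Z.W h) ^ 2 < (Z.p : ℤ) ^ l)
    (hrep : ∀ i, a ≤ i → i ≤ b → ∃ s t, i ≤ s ∧ s < t ∧ t ≤ i + h ∧ Eqv Z.w l s t) (hab : a ≤ b) :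
    ∃ m d m' d' : ℤ, d ≠ 0 ∧ d' ≠ 0 ∧ |m| ≤ Z.W h ∧ |d| ≤ Z.W h ∧ |m'| ≤ Z.W h ∧ |d'| ≤ Z.W h ∧
      (Z.p : ℤ) ^ (b - a) * m' * d
        = ((Z.q : ℤ) ^ (Z.oo b - Z.oo a) * m + Z.Q a b * d) * d' ∧
      (Z.p : ℤ) ^ (b - a) ≤ Z.W h * (Z.W h * (|Z.y a| + 1)) := by
  classical
  have h1 : ∀ i, ∃ m d : ℤ, a ≤ i → i ≤ b → (d ≠ 0 ∧ |m| ≤ Z.W h ∧ |d| ≤ Z.W h ∧
      (Z.p : ℤ) ^ l ∣ d * Z.y i - m ∧ d * Z.y i - m ≠ 0) := by
    intro i
    by_cases hi : a ≤ i ∧ i ≤ b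
    · obtain ⟨s, t, h1, h2, h3, h4⟩ := hrep i hi.1 hi.2
      obtain ⟨m, d, h5⟩ := Z.shadow h1 h2 h3 h4
      exact ⟨m, d, fun _ _ => h5⟩
    · exact ⟨0, 0, fun h1 h2 => absurd ⟨h1, h2⟩ hi⟩
  choose m d hmd using h1
  have key : ∀ k, a + k ≤ b → (Z.p : ℤ) ^ k * m (a + k) * d a
      = ((Z.q : ℤ) ^ (Z.oo (a + k) - Z.oo a) * m a + Z.Q a (a + k) * d a) * d (a + k) := by
    intro k
    induction k with
    | zero => intro _; simp [Q_self]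
    | succ k ih =>
      intro hk
      have h2 := ih (by omega)
      obtain ⟨c1, c2, c3, c4, _⟩ := hmd (a + k) (by omega) (by omega)
      obtain ⟨_, e2, e3, e4, _⟩ := hmd (a + k + 1) (by omega) (by omega)
      have h3 := Z.shadow_step c2 c3 e2 e3 c4 e4 hl
      have m1 := Z.oo_mono (Nat.le_add_right a k)
      have h4 : Z.Q a (a + k + 1) = (Z.q : ℤ) ^ Z.δ (Z.w (a + k)) * Z.Q a (a + k)
          + (Z.p : ℤ) ^ k * Z.β (Z.w (a + k)) := by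
        rw [Z.Q_comp (Nat.le_add_right a k) (Nat.le_succ _), Q_succ, Nat.add_sub_cancel_left]
        congr 3
        rw [oo_succ]; omega
      have h5 : (Z.q : ℤ) ^ (Z.oo (a + k + 1) - Z.oo a)
          = (Z.q : ℤ) ^ Z.δ (Z.w (a + k)) * (Z.q : ℤ) ^ (Z.oo (a + k) - Z.oo a) := by
        rw [← pow_add]; congr 1; rw [oo_succ]; omega
      rw [← add_assoc, h4, h5]
      apply mul_left_cancel₀ c1
      rw [pow_succ]
      linear_combination ((Z.p : ℤ) ^ k * d a) * h3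
        + ((Z.q : ℤ) ^ Z.δ (Z.w (a + k)) * d (a + k + 1)) * h2
  obtain ⟨a1, a2, a3, _, a5⟩ := hmd a le_rfl hab
  obtain ⟨b1, b2, b3, _, _⟩ := hmd b hab le_rfl
  obtain ⟨k, rfl⟩ := Nat.exists_eq_add_of_le hab
  have hk := key k le_rfl
  rw [Nat.add_sub_cancel_left]
  refine ⟨m a, d a, m (a + k), d (a + k), a1, b1, a2, a3, b2, b3, hk, ?_⟩
  have e1 : (Z.p : ℤ) ^ k * ((d (a + k) * Z.y (a + k) - m (a + k)) * d a)
      = (Z.q : ℤ) ^ (Z.oo (a + k) - Z.oo a) * ((d a * Z.y a - m a) * d (a + k)) := by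
    have e2 : Z.Q a (a + k) = (Z.p : ℤ) ^ k * Z.y (a + k)
        - (Z.q : ℤ) ^ (Z.oo (a + k) - Z.oo a) * Z.y a := by unfold Q; simp
    rw [e2] at hk
    linear_combination -hk
  have e3 : (Z.p : ℤ) ^ k ∣ (d a * Z.y a - m a) * d (a + k) :=
    (Z.cop k _).dvd_of_dvd_mul_left ⟨_, e1.symm⟩
  have e4 := Int.le_of_dvd (abs_pos.2 (mul_ne_zero a5 b1)) ((dvd_abs _ _).2 e3)
  refine e4.trans ?_
  have hWp := Z.W_pos h
  rw [abs_mul, mul_comm]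
  have e5 : |d a * Z.y a - m a| ≤ Z.W h * (|Z.y a| + 1) := by
    refine (abs_sub _ _).trans ?_
    rw [abs_mul]
    nlinarith [abs_nonneg (Z.y a)]
  gcongr

end Sys

/-- successive special positions of short types contain repetitions -/
lemma rep [Finite α] {w : ℕ → α} {l : ℕ} (hap : ∀ a b, a < b → ∃ k, w (a + k) ≠ w (b + k))
    (hl : 1 ≤ l) {r : ℕ} {ty : ℕ → Fin r}
    (hty : ∀ i j, Mk w l i → Mk w l j → ty i = ty j → Eqv w (l + 1) i j)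
    {g a B : ℕ} (ha : Mk w l a)
    (hsh : ∀ m, a ≤ m → m < B → Mk w l m → nm w l m ≤ m + g) {i : ℕ} (hai : a ≤ i)
    (hiB : i + (r + 1) * g < B) :
    ∃ s t, i ≤ s ∧ s < t ∧ t ≤ i + (r + 1) * g ∧ Eqv w l s t := by
  classical
  -- a special position close to `i`
  obtain ⟨m0, h1, h2, h3⟩ : ∃ m0, i ≤ m0 ∧ m0 ≤ i + g ∧ Mk w l m0 := by
    have hex : ∃ m, a ≤ m ∧ m ≤ i ∧ Mk w l m := ⟨a, le_rfl, hai, ha⟩
    -- the greatest special position up to `i`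
    obtain ⟨m', hm'1, hm'2, hm'3, hm'4⟩ : ∃ m', a ≤ m' ∧ m' ≤ i ∧ Mk w l m' ∧
        ∀ k, m' < k → k ≤ i → ¬ Mk w l k := by
      have hfin : ({m | a ≤ m ∧ m ≤ i ∧ Mk w l m} : Set ℕ).Finite :=
        (Set.finite_Iic i).subset fun m hm => hm.2.1
      obtain ⟨m', hm', hmax⟩ := hfin.exists_maximal ⟨a, le_rfl, hai, ha⟩
      refine ⟨m', hm'.1, hm'.2.1, hm'.2.2, fun k hk1 hk2 hM => ?_⟩
      have := hmax (y := k) ⟨by have := hm'.1; omega, hk2, hM⟩ hk1.le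
      omega
    rcases hm'2.eq_or_lt with h0 | h0
    · exact ⟨i, le_rfl, by omega, h0 ▸ hm'3⟩
    · obtain ⟨a1, a2, _, _⟩ := nm_spec hap hl m'
      refine ⟨nm w l m', ?_, ?_, a2⟩
      · by_contra hlt
        exact hm'4 _ a1 (by omega) a2
      · have := hsh m' hm'1 (by nlinarith) hm'3
        omega
  -- iterate
  have hit : ∀ k, k ≤ r → i ≤ (nm w l)^[k] m0 ∧ (nm w l)^[k] m0 ≤ i + (k + 1) * g ∧
      Mk w l ((nm w l)^[k] m0) := by
    intro k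
    induction k with
    | zero => intro _; exact ⟨h1, by simpa using h2, h3⟩
    | succ k ih =>
      intro hk
      obtain ⟨i1, i2, i3⟩ := ih (by omega)
      rw [Function.iterate_succ_apply']
      obtain ⟨a1, a2, _, _⟩ := nm_spec hap hl ((nm w l)^[k] m0)
      have hlt : (nm w l)^[k] m0 < B := by
        have : (k + 1) * g ≤ (r + 1) * g := by gcongr; omega
        omega
      have := hsh _ (by omega) hlt i3
      refine ⟨by omega, ?_, a2⟩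
      calc nm w l ((nm w l)^[k] m0) ≤ (nm w l)^[k] m0 + g := this
        _ ≤ i + (k + 1) * g + g := by omega
        _ = i + (k + 1 + 1) * g := by ring
  have hmono : StrictMono fun k => (nm w l)^[k] m0 := strictMono_nat_of_lt_succ fun k => by
    rw [Function.iterate_succ_apply']
    exact (nm_spec hap hl _).1
  obtain ⟨j, hj, k, hk, hjk, heq⟩ := Finset.exists_ne_map_eq_of_card_lt_of_maps_to
    (s := Finset.range (r + 1)) (t := (Finset.univ : Finset (Fin r)))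
    (f := fun k => ty ((nm w l)^[k] m0)) (by simp) (fun x _ => by simp)
  rw [Finset.mem_range] at hj hk
  have aux : ∀ j k, j < k → k ≤ r → ty ((nm w l)^[j] m0) = ty ((nm w l)^[k] m0) →
      ∃ s t, i ≤ s ∧ s < t ∧ t ≤ i + (r + 1) * g ∧ Eqv w l s t := by
    intro j k hjk hk heq
    obtain ⟨j1, _, j3⟩ := hit j (by omega)
    obtain ⟨_, k2, k3⟩ := hit k hk
    refine ⟨(nm w l)^[j] m0, (nm w l)^[k] m0, j1, hmono hjk, ?_,
      (hty _ _ j3 k3 heq).mono (Nat.le_succ l)⟩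
    have : (k + 1) * g ≤ (r + 1) * g := by gcongr
    omega
  rcases lt_or_gt_of_ne hjk with h | h
  · exact aux j k h (by omega) heq
  · exact aux k j h (by omega) heq.symm

end Pool.Agent.TH932.Orb
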