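import Mathlib
import Pool.Agent.TH932.Chi
import Pool.Agent.TH932.Orb

set_option autoImplicit false

/-!
# Positions at a scale, and the Liouville inequalities
-/

namespace Pool.Agent.TH932.Scale

open Filter Topology Pool.Agent.TH932.Abs Pool.Agent.TH932.Germs Pool.Agent.TH932.Chi
open Pool.Agent.TH932.Gen (ch A0 ev LoA Liou)
open MvPolynomial

variable {L : ℕ → ℝ}

/-- `a n` is close to `t L n` -/
def near (L : ℕ → ℝ) (a : ℕ → ℝ) (t : ℝ) : Prop :=
  ∀ ε : ℝ, 0 < ε → ∀ᶠ n in (UU : Filter ℕ), |a n - t * L n| ≤ ε * L n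

lemma near.add {a b : ℕ → ℝ} {s t : ℝ} (ha : near L a s) (hb : near L b t) :
    near L (fun n => a n + b n) (s + t) := by
  intro ε hε
  filter_upwards [ha (ε / 2) (half_pos hε), hb (ε / 2) (half_pos hε)] with n h1 h2
  have : a n + b n - (s + t) * L n = (a n - s * L n) + (b n - t * L n) := by ring
  rw [this]
  refine (abs_add_le _ _).trans ?_
  linarith

lemma near.sub {a b : ℕ → ℝ} {s t : ℝ} (ha : near L a s) (hb : near L b t) :
    near L (fun n => a n - b n) (s - t) := by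
  intro ε hε
  filter_upwards [ha (ε / 2) (half_pos hε), hb (ε / 2) (half_pos hε)] with n h1 h2
  have : a n - b n - (s - t) * L n = (a n - s * L n) - (b n - t * L n) := by ring
  rw [this]
  refine (abs_sub _ _).trans ?_
  linarith

lemma near.congr {a b : ℕ → ℝ} {t : ℝ} (ha : near L a t)
    (h : ∀ᶠ n in (UU : Filter ℕ), b n = a n) : near L b t := by
  intro ε hε
  filter_upwards [ha ε hε, h] with n h1 h2
  rw [h2]; exact h1

lemma near.const_mul (hL : Tendsto L atTop atTop) {a : ℕ → ℝ} {t : ℝ} (ha : near L a t) (c : ℝ) :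
    near L (fun n => c * a n) (c * t) := by
  intro ε hε
  filter_upwards [ha (ε / (|c| + 1)) (by positivity), L_nonneg hL] with n h1 h2
  have : c * a n - c * t * L n = c * (a n - t * L n) := by ring
  rw [this, abs_mul]
  calc |c| * |a n - t * L n| ≤ (|c| + 1) * (ε / (|c| + 1) * L n) := by
        gcongr; linarith
    _ = ε * L n := by field_simp

/-- sandwiched sequences -/
lemma near_zero_of_le {a b : ℕ → ℝ} (hb : near L b 0)
    (h : ∀ᶠ n in (UU : Filter ℕ), |a n| ≤ |b n|) : near L a 0 := by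
  intro ε hε
  filter_upwards [hb ε hε, h] with n h1 h2
  simp only [zero_mul, sub_zero] at *
  linarith

lemma near_unique (hL : Tendsto L atTop atTop) {a : ℕ → ℝ} {s t : ℝ} (hs : near L a s)
    (ht : near L a t) : s = t := by
  by_contra hne
  have hpos : 0 < |s - t| / 4 := by
    have : 0 < |s - t| := abs_pos.2 (sub_ne_zero.2 hne)
    positivity
  obtain ⟨n, h1, h2, h3⟩ := ((hs _ hpos).and ((ht _ hpos).and
    (ev_of_atTop (hL.eventually_ge_atTop 1)))).exists
  have h4 : |(s - t) * L n| ≤ |s - t| / 4 * L n + |s - t| / 4 * L n := by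
    have : (s - t) * L n = (a n - t * L n) - (a n - s * L n) := by ring
    rw [this]
    refine (abs_sub _ _).trans ?_
    linarith
  rw [abs_mul, abs_of_pos (by linarith : 0 < L n)] at h4
  have h5 : 0 < |s - t| := abs_pos.2 (sub_ne_zero.2 hne)
  nlinarith

lemma near_const (hL : Tendsto L atTop atTop) (c : ℝ) : near L (fun _ => c) 0 := by
  intro ε hε
  apply ev_of_atTop
  filter_upwards [hL.eventually_ge_atTop (|c| / ε)] with n hn
  rw [div_le_iff₀ hε] at hn
  simp only [zero_mul, sub_zero]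
  linarith

/-- standard parts exist -/
lemma exists_st (hL : Tendsto L atTop atTop) {a : ℕ → ℝ} {A : ℝ}
    (h : ∀ᶠ n in (UU : Filter ℕ), 0 ≤ a n ∧ a n ≤ A * L n) :
    ∃ t, 0 ≤ t ∧ t ≤ A ∧ near L a t := by
  have h1 : ∀ᶠ n in (UU : Filter ℕ), a n / L n ∈ Set.Icc 0 A := by
    filter_upwards [h, ev_of_atTop (hL.eventually_ge_atTop 1)] with n hn h2
    have : 0 < L n := by linarith
    refine ⟨div_nonneg hn.1 this.le, ?_⟩
    rw [div_le_iff₀ this]; exact hn.2
  obtain ⟨t, ht, hlim⟩ := (isCompact_Icc (a := (0 : ℝ)) (b := A)).ultrafilter_le_nhds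
    (Ultrafilter.map (fun n => a n / L n) UU) (by
      rw [le_principal_iff]
      exact h1)
  refine ⟨t, ht.1, ht.2, fun ε hε => ?_⟩
  have h2 : Tendsto (fun n => a n / L n) (UU : Filter ℕ) (𝓝 t) := hlim
  have h3 := (Metric.tendsto_nhds.1 h2) ε hε
  filter_upwards [h3, ev_of_atTop (hL.eventually_ge_atTop 1)] with n h4 h5
  have h6 : 0 < L n := by linarith
  rw [Real.dist_eq] at h4
  have : a n - t * L n = (a n / L n - t) * L n := by field_simp
  rw [this, abs_mul, abs_of_pos h6]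
  gcongr

/-- negligible integers from small exponents -/
lemma negl_of_le (hL : Tendsto L atTop atTop) {m : ℕ → ℤ} {M : ℝ} (hM : 1 ≤ M) {h : ℕ → ℝ}
    (hh : near L h 0) {c : ℝ} (hc : 0 < c)
    (hm : ∀ᶠ n in (UU : Filter ℕ), |(m n : ℝ)| ≤ c * Real.exp (Real.log M * h n)) :
    Negl L m := by
  intro ε hε
  have hlM : 0 ≤ Real.log M := Real.log_nonneg hM
  have h1 := (hh.const_mul hL (Real.log M)).add (near_const hL (Real.log c))
  filter_upwards [hm, h1 ε hε] with n h2 h3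
  refine h2.trans ?_
  have h4 := (abs_le.1 h3).2
  rw [← Real.exp_log hc, ← Real.exp_add]
  apply Real.exp_le_exp.2
  simp only [mul_zero, zero_add, zero_mul, sub_zero] at h4
  linarith

/-! ## Liouville inequalities -/

section
variable {p q : ℕ} {θ : ℝ} {r : ℕ}

/-- lower bounds at the `q`-place -/
lemma ev_low (hL : Tendsto L atTop atTop) (hp : 2 ≤ p) (hq : 2 ≤ q) (hΛ : 0 ≤ θ * Real.log q)
    {z : Fin r → GG} {cq : ℝ} (hcq : 0 ≤ cq)
    (hz : ∀ i, z i ∈ SS L (Rb q ⊥) (-cq)) {m : ℕ} {D : ℝ}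
    {P : MvPolynomial (Fin r) (A0 (KK L hL))} (h1 : ∀ ν ∈ P.support, ν.degree ≤ m)
    (h2 : ∀ ν g, (coeff ν P).coeff g ≠ 0 → 0 ≤ g ∧ g ≤ D) :
    ev (KK L hL) (chi hL hp hq θ) z P ∈ SS L (Rb q ⊥) (-(θ * Real.log q * D + cq * m)) := by
  have hS : Filt (KK L hL) (SS L (Rb q ⊥)) := (pre_b hq _).filt hL
  rw [← MvPolynomial.support_sum_monomial_coeff P, map_sum]
  refine Finset.sum_induction _ (fun g => g ∈ SS L (Rb q ⊥) (-(θ * Real.log q * D + cq * m)))
    (fun _ _ => hS.add_mem) (hS.zero_mem _) ?_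
  intro ν hν
  rw [Gen.ev_monomial]
  have h3 : Gen.ev0 (KK L hL) (chi hL hp hq θ) (coeff ν P)
      ∈ SS L (Rb q ⊥) (-(θ * Real.log q * D)) := by
    rw [Gen.sum_single (coeff ν P), map_sum]
    refine Finset.sum_induction _ (fun g => g ∈ SS L (Rb q ⊥) (-(θ * Real.log q * D)))
      (fun _ _ => hS.add_mem) (hS.zero_mem _) ?_
    intro g hg
    rw [Gen.ev0_single]
    obtain ⟨g1, g2⟩ := h2 ν g (Finsupp.mem_support_iff.1 hg)
    have h4 := hS.mul_mem (hS.alg_mem ((coeff ν P).coeff g)) (chi_Sq hL hp hq θ g1)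
    refine hS.anti ?_ h4
    have : θ * Real.log q * g ≤ θ * Real.log q * D := by gcongr
    linarith
  have h4 := hS.mul_mem h3 (Gen.prod_mem hS hz ν)
  refine hS.anti ?_ h4
  have h5 : (ν.degree : ℝ) ≤ m := by exact_mod_cast h1 ν hν
  nlinarith

lemma exists_exponent {K : Type*} [Field K] {P : MvPolynomial (Fin r) (A0 K)} (hP : P ≠ 0) :
    ∃ ν g, (coeff ν P).coeff g ≠ 0 := by
  by_contra hcon
  push Not at hcon
  apply hP
  apply MvPolynomial.ext
  intro ν
  apply AddMonoidAlgebra.coeff_injective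
  ext g
  rw [coeff_zero, hcon ν g]
  rfl

lemma liou_p (hL : Tendsto L atTop atTop) (hp : 2 ≤ p) (hq : 2 ≤ q)
    {wp wi : ℝ} (hwp : wp = Real.log p) (hwi : wi = θ * Real.log q - Real.log p) (hwi0 : 0 < wi)
    {z : Fin r → GG} {cq : ℝ} (hcq : 0 ≤ cq) (hzq : ∀ i, z i ∈ SS L (Rb q ⊥) (-cq))
    (hzi : ∀ i, z i ∈ SS L Rinf 0) :
    Liou (KK L hL) (chi hL hp hq θ) z (SS L (Rb p (cop p))) (wp + wi) := by
  have hlp : 0 < Real.log p := Real.log_pos (by exact_mod_cast hp)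
  have hSi : Filt (KK L hL) (SS L Rinf) := pre_inf.filt hL
  have hΛ : wp + wi = θ * Real.log q := by rw [hwp, hwi]; ring
  have hΛ0 : 0 ≤ θ * Real.log q := by rw [← hΛ, hwp]; linarith
  intro m
  refine ⟨cq * m, fun D P h1 h2 h3 t ht => ?_⟩
  have hP0 : P ≠ 0 := by rintro rfl; simp at h3
  obtain ⟨ν, g, hg⟩ := exists_exponent hP0
  have hD : 0 ≤ D := (h2 ν g hg).1.trans (h2 ν g hg).2
  have h4 := ev_low hL hp hq hΛ0 hcq hzq h1 h2
  have h5 := Gen.ev_ge hSi hwi0.le (fun g => by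
    have := chi_Si hL hp hq θ g
    rw [← hwi] at this; exact this) hzi (t := 0) (P := P) (fun ν g hg => (h2 ν g hg).1)
  rw [mul_zero] at h5
  have := product_formula hL hp hq h3 (by positivity) h4 ht h5
  rw [hΛ]; linarith

lemma liou_i (hL : Tendsto L atTop atTop) (hp : 2 ≤ p) (hq : 2 ≤ q)
    (hpq : IsCoprime (q : ℤ) (p : ℤ))
    {wp wi : ℝ} (hwp : wp = Real.log p) (hwi : wi = θ * Real.log q - Real.log p) (hwi0 : 0 < wi)
    {z : Fin r → GG} {cq : ℝ} (hcq : 0 ≤ cq) (hzq : ∀ i, z i ∈ SS L (Rb q ⊥) (-cq))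
    (hzp : ∀ i, z i ∈ SS L (Rb p (cop p)) 0) :
    Liou (KK L hL) (chi hL hp hq θ) z (SS L Rinf) (wp + wi) := by
  have hlp : 0 < Real.log p := Real.log_pos (by exact_mod_cast hp)
  have hSp : Filt (KK L hL) (SS L (Rb p (cop p))) := (pre_b hp _).filt hL
  have hΛ : wp + wi = θ * Real.log q := by rw [hwp, hwi]; ring
  have hΛ0 : 0 ≤ θ * Real.log q := by rw [← hΛ, hwp]; linarith
  intro m
  refine ⟨cq * m, fun D P h1 h2 h3 t ht => ?_⟩
  have hP0 : P ≠ 0 := by rintro rfl; simp at h3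
  obtain ⟨ν, g, hg⟩ := exists_exponent hP0
  have hD : 0 ≤ D := (h2 ν g hg).1.trans (h2 ν g hg).2
  have h4 := ev_low hL hp hq hΛ0 hcq hzq h1 h2
  have h5 := Gen.ev_ge hSp hlp.le (fun g => chi_Sp hL hp hq hpq θ g) hzp (t := 0) (P := P)
    (fun ν g hg => (h2 ν g hg).1)
  rw [mul_zero] at h5
  have := product_formula hL hp hq h3 (by positivity) h4 h5 ht
  rw [hΛ]; linarith

end

end Pool.Agent.TH932.Scale
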