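import Mathlib
import Pool.Agent.TH932.Scale

set_option autoImplicit false

/-!
# Assembly: low complexity at infinitely many scales is contradictory
-/

namespace Pool.Agent.TH932.Asm

open Filter Topology Pool.Agent.TH932.Abs Pool.Agent.TH932.Germs Pool.Agent.TH932.Chi
open Pool.Agent.TH932.Gen (ch A0 ev LoA Liou)
open Pool.Agent.TH932.Words Pool.Agent.TH932.Orb Pool.Agent.TH932.Scale
open MvPolynomial

/-- a family of scales of low complexity -/
structure Ctx (α : Type*) where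
  Z : Sys α
  θ : ℝ
  l : ℕ → ℕ
  R : ℕ
  C : ℝ
  hl : Tendsto l atTop atTop
  hl1 : ∀ n, 1 ≤ l n
  hcx : ∀ n, (cx Z.w (l n) : ℝ) ≤ C * l n
  hR : ∀ n, 2 * cx Z.w (l n + 1) ≤ R + 2 * cx Z.w (l n)
  hθ : Tendsto (fun k : ℕ => (Z.oo k : ℝ) / k) atTop (𝓝 θ)

namespace Ctx

variable {α : Type*} (X : Ctx α)

/-- the scale -/
noncomputable def L (n : ℕ) : ℝ := X.l n

lemma tL : Tendsto X.L atTop atTop := tendsto_natCast_atTop_atTop.comp X.hl

lemma hC : 0 ≤ X.C := by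
  have h1 := X.hcx 0
  have h2 : (1 : ℝ) ≤ X.l 0 := by exact_mod_cast X.hl1 0
  by_contra h
  push Not at h
  have h3 : (0 : ℝ) ≤ cx X.Z.w (X.l 0) := by positivity
  nlinarith

lemma freq {ε : ℝ} (hε : 0 < ε) : ∃ c0 : ℝ, ∀ k : ℕ, |(X.Z.oo k : ℝ) - X.θ * k| ≤ ε * k + c0 := by
  have h1 := (Metric.tendsto_nhds.1 X.hθ) ε hε
  obtain ⟨k0, hk0⟩ := eventually_atTop.1 h1
  refine ⟨∑ k ∈ Finset.range (k0 + 1), |(X.Z.oo k : ℝ) - X.θ * k|, fun k => ?_⟩
  by_cases hk : k < k0 + 1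
  · have h2 : |(X.Z.oo k : ℝ) - X.θ * k| ≤ ∑ k ∈ Finset.range (k0 + 1), |(X.Z.oo k : ℝ) - X.θ * k| :=
      Finset.single_le_sum (f := fun k : ℕ => |(X.Z.oo k : ℝ) - X.θ * k|)
        (fun i _ => abs_nonneg _) (Finset.mem_range.2 hk)
    have : 0 ≤ ε * (k : ℝ) := by positivity
    linarith
  · have h2 := hk0 k (by omega)
    have hk' : (0 : ℝ) < k := by
      have : 0 < k := by omega
      exact_mod_cast this
    rw [Real.dist_eq] at h2
    have h3 : (X.Z.oo k : ℝ) - X.θ * k = ((X.Z.oo k : ℝ) / k - X.θ) * k := by field_simp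
    have h4 : |(X.Z.oo k : ℝ) - X.θ * k| ≤ ε * k := by
      rw [h3, abs_mul, abs_of_pos hk']
      gcongr
    have h5 : 0 ≤ ∑ k ∈ Finset.range (k0 + 1), |(X.Z.oo k : ℝ) - X.θ * k| :=
      Finset.sum_nonneg fun i _ => abs_nonneg _
    linarith

lemma near_oo {a : ℕ → ℕ} {A : ℝ} (h : ∀ᶠ n in (UU : Filter ℕ), (a n : ℝ) ≤ A * X.L n) :
    near X.L (fun n => (X.Z.oo (a n) : ℝ) - X.θ * a n) 0 := by
  intro ε hε
  have hA : 0 < |A| + 1 := by positivity
  obtain ⟨c0, hc0⟩ := X.freq (show 0 < ε / 2 / (|A| + 1) by positivity)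
  filter_upwards [h, near_const X.tL c0 (ε / 2) (by positivity), L_nonneg X.tL] with n h1 h2 h3
  have h4 := hc0 (a n)
  have h5 := (abs_le.1 h2).2
  simp only [zero_mul, sub_zero] at h5 ⊢
  refine h4.trans ?_
  have h6 : (a n : ℝ) ≤ (|A| + 1) * X.L n := by
    refine h1.trans ?_
    have := le_abs_self A
    gcongr; linarith
  have h7 : ε / 2 / (|A| + 1) * (a n : ℝ) ≤ ε / 2 * X.L n := by
    calc ε / 2 / (|A| + 1) * (a n : ℝ) ≤ ε / 2 / (|A| + 1) * ((|A| + 1) * X.L n) := by gcongr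
      _ = ε / 2 * X.L n := by field_simp
  linarith

lemma near_seg {a b : ℕ → ℕ} {A t : ℝ} (hab : ∀ᶠ n in (UU : Filter ℕ), a n ≤ b n)
    (hb : ∀ᶠ n in (UU : Filter ℕ), (b n : ℝ) ≤ A * X.L n)
    (ht : near X.L (fun n => (b n : ℝ) - a n) t) :
    near X.L (fun n => ((X.Z.oo (b n) - X.Z.oo (a n) : ℕ) : ℝ)) (X.θ * t) := by
  have ha : ∀ᶠ n in (UU : Filter ℕ), (a n : ℝ) ≤ A * X.L n := by
    filter_upwards [hab, hb] with n h1 h2
    exact (by exact_mod_cast h1 : (a n : ℝ) ≤ b n).trans h2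
  have h1 := ((X.near_oo hb).sub (X.near_oo ha)).add (ht.const_mul X.tL X.θ)
  have h2 : near X.L (fun n => ((X.Z.oo (b n) - X.Z.oo (a n) : ℕ) : ℝ)) (0 - 0 + X.θ * t) := by
    refine h1.congr ?_
    filter_upwards [hab] with n hn
    rw [Nat.cast_sub (X.Z.oo_mono hn)]
    ring
  simpa using h2

/-- the character -/
noncomputable def χ : Multiplicative ℝ →* GG := chi X.tL X.Z.hp X.Z.hq X.θ

/-- the constant field -/
noncomputable abbrev K : Subfield GG := KK X.L X.tL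

/-- germ of a quotient of powers -/
noncomputable def NA (a b : ℕ → ℕ) : GG := gm fun n =>
  (X.Z.p : ℚ) ^ (b n - a n) / (X.Z.q : ℚ) ^ (X.Z.oo (b n) - X.Z.oo (a n))
/-- germ of a constant term -/
noncomputable def QA (a b : ℕ → ℕ) : GG := gm fun n =>
  (X.Z.Q (a n) (b n) : ℚ) / (X.Z.q : ℚ) ^ (X.Z.oo (b n) - X.Z.oo (a n))
/-- germ of a term -/
noncomputable def gY (a : ℕ → ℕ) : GG := gm fun n => (X.Z.y (a n) : ℚ)

lemma q0 : (X.Z.q : ℚ) ≠ 0 := by
  have := X.Z.hq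
  have : X.Z.q ≠ 0 := by omega
  exact_mod_cast this

lemma p0 : (X.Z.p : ℚ) ≠ 0 := by
  have := X.Z.hp
  have : X.Z.p ≠ 0 := by omega
  exact_mod_cast this

lemma rel (a b : ℕ → ℕ) : X.NA a b * X.gY b = X.gY a + X.QA a b := by
  unfold NA gY QA
  rw [gm_mul, gm_add]
  congr 1
  funext n
  have h1 := X.q0
  have h2 : (X.Z.Q (a n) (b n) : ℚ) = (X.Z.p : ℚ) ^ (b n - a n) * X.Z.y (b n)
      - (X.Z.q : ℚ) ^ (X.Z.oo (b n) - X.Z.oo (a n)) * X.Z.y (a n) := by
    unfold Sys.Q; push_cast; ring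
  rw [h2]
  field_simp
  ring

lemma comp {a b c : ℕ → ℕ} (hab : ∀ᶠ n in (UU : Filter ℕ), a n ≤ b n)
    (hbc : ∀ᶠ n in (UU : Filter ℕ), b n ≤ c n) :
    X.QA a c = X.QA a b + X.NA a b * X.QA b c := by
  unfold NA QA
  rw [gm_mul, gm_add, gm_eq]
  filter_upwards [hab, hbc] with n h1 h2
  rw [X.Z.Q_comp h1 h2]
  have m1 := X.Z.oo_mono h1
  have m2 := X.Z.oo_mono h2
  have e : (X.Z.q : ℚ) ^ (X.Z.oo (c n) - X.Z.oo (a n))
      = (X.Z.q : ℚ) ^ (X.Z.oo (c n) - X.Z.oo (b n)) * (X.Z.q : ℚ) ^ (X.Z.oo (b n) - X.Z.oo (a n)) := by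
    rw [← pow_add]; congr 1; omega
  have h3 := X.q0
  push_cast
  rw [e]
  field_simp

lemma NA_const {a b : ℕ → ℕ} {A t : ℝ} (hab : ∀ᶠ n in (UU : Filter ℕ), a n ≤ b n)
    (hb : ∀ᶠ n in (UU : Filter ℕ), (b n : ℝ) ≤ A * X.L n)
    (ht : near X.L (fun n => (b n : ℝ) - a n) t) :
    ∃ κ : X.K, κ ≠ 0 ∧ X.NA a b = (κ : GG) * ch X.χ t := by
  obtain ⟨κ, h0, h1⟩ := exists_const X.tL X.Z.hp X.Z.hq X.θ t
    (fun n => ((b n - a n : ℕ) : ℤ)) (fun n => ((X.Z.oo (b n) - X.Z.oo (a n) : ℕ) : ℤ)) (by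
      intro ε hε
      filter_upwards [ht ε hε, hab] with n h2 h3
      rw [Int.cast_natCast, Nat.cast_sub h3]; exact h2) (by
      intro ε hε
      filter_upwards [X.near_seg hab hb ht ε hε] with n h2
      rw [Int.cast_natCast]; exact h2)
  refine ⟨κ, h0, ?_⟩
  unfold NA χ
  rw [← h1]
  simp only [zpow_natCast]

/-- constant terms of negligible segments are constants -/
lemma QA_const {a b : ℕ → ℕ} (hab : ∀ᶠ n in (UU : Filter ℕ), a n ≤ b n)
    (ht : near X.L (fun n => (b n : ℝ) - a n) 0) : X.QA a b ∈ X.K := by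
  have hM := X.Z.hM1
  have hMr : (1 : ℝ) ≤ X.Z.M := by exact_mod_cast hM
  refine ⟨fun n => X.Z.Q (a n) (b n), fun n => (X.Z.q : ℤ) ^ (X.Z.oo (b n) - X.Z.oo (a n)),
    ?_, ?_, ?_, ?_⟩
  · apply negl_of_le X.tL (M := 2 * X.Z.M) (by linarith) ht one_pos
    filter_upwards [hab] with n hn
    have h1 : (|X.Z.Q (a n) (b n)| : ℝ) ≤ (2 * X.Z.M : ℝ) ^ (b n - a n) := by
      exact_mod_cast X.Z.Q_bound hn
    rw [one_mul]
    refine h1.trans (le_of_eq ?_)
    rw [← Real.rpow_natCast, Real.rpow_def_of_pos (by linarith), Nat.cast_sub hn]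
  · apply negl_of_le X.tL (M := X.Z.M) hMr ht one_pos
    filter_upwards [hab] with n hn
    have h1 : ((X.Z.q : ℝ)) ^ (X.Z.oo (b n) - X.Z.oo (a n)) ≤ (X.Z.M : ℝ) ^ (b n - a n) := by
      exact_mod_cast X.Z.q_bound hn
    rw [one_mul]
    push_cast
    rw [abs_of_nonneg (by positivity)]
    refine h1.trans (le_of_eq ?_)
    rw [← Real.rpow_natCast, Real.rpow_def_of_pos (by linarith), Nat.cast_sub hn]
  · refine Eventually.of_forall fun n => ?_
    have := X.Z.q_ne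
    positivity
  · unfold QA
    push_cast
    rfl

/-! ## types -/

variable [Finite α]

/-- the types -/
noncomputable def ty (n : ℕ) : ℕ → Fin (X.R + 1) := (exists_ty X.Z.w (X.l n) (X.hR n)).choose

lemma hty (n i j : ℕ) (hi : Mk X.Z.w (X.l n) i) (hj : Mk X.Z.w (X.l n) j)
    (h : X.ty n i = X.ty n j) : Eqv X.Z.w (X.l n + 1) i j :=
  (exists_ty X.Z.w (X.l n) (X.hR n)).choose_spec i j hi hj h

/-- special positions -/
def smk (n i : ℕ) : Prop := Mk X.Z.w (X.l n) i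
/-- the next special position -/
noncomputable def nx (n i : ℕ) : ℕ := nm X.Z.w (X.l n) i

lemma nx_spec (n i : ℕ) : i < X.nx n i ∧ X.smk n (X.nx n i) ∧
    X.nx n i ≤ i + 1 + cx X.Z.w (X.l n) ∧ ∀ m, i < m → m < X.nx n i → ¬ X.smk n m :=
  nm_spec X.Z.aper (X.hl1 n) i

/-- length of a type -/
noncomputable def len (n : ℕ) (s : Fin (X.R + 1)) : ℕ := by
  classical
  exact if h : ∃ i, X.smk n i ∧ X.ty n i = s then X.nx n h.choose - h.choose else 0
/-- constant term of a type -/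
noncomputable def Qs (n : ℕ) (s : Fin (X.R + 1)) : ℤ := by
  classical
  exact if h : ∃ i, X.smk n i ∧ X.ty n i = s then X.Z.Q h.choose (X.nx n h.choose) else 0
/-- exponent of a type -/
noncomputable def os (n : ℕ) (s : Fin (X.R + 1)) : ℕ := by
  classical
  exact if h : ∃ i, X.smk n i ∧ X.ty n i = s then X.Z.oo (X.nx n h.choose) - X.Z.oo h.choose else 0

lemma type_spec {n i : ℕ} (hi : X.smk n i) : X.nx n i = i + X.len n (X.ty n i) ∧
    X.Z.Q i (X.nx n i) = X.Qs n (X.ty n i) ∧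
    X.Z.oo (X.nx n i) - X.Z.oo i = X.os n (X.ty n i) := by
  classical
  have h : ∃ j, X.smk n j ∧ X.ty n j = X.ty n i := ⟨i, hi, rfl⟩
  have h1 := h.choose_spec
  have h2 := X.hty n _ i h1.1 hi h1.2
  obtain ⟨h3, h4⟩ := type_block X.Z.aper (X.hl1 n) h2
  obtain ⟨h5, _, _, _⟩ := X.nx_spec n h.choose
  obtain ⟨h6, h7⟩ := X.Z.word_dep h4
  have e1 : h.choose + (nm X.Z.w (X.l n) h.choose - h.choose) = X.nx n h.choose := by
    unfold nx at *; omega
  have e2 : i + (nm X.Z.w (X.l n) h.choose - h.choose) = X.nx n i := by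
    unfold nx; omega
  rw [e1, e2] at h6 h7
  refine ⟨?_, ?_, ?_⟩
  · unfold len; rw [dif_pos h, ← e2]; rfl
  · unfold Qs; rw [dif_pos h]; exact h7.symm
  · unfold os; rw [dif_pos h]; exact h6.symm

lemma len_le (n : ℕ) (s : Fin (X.R + 1)) : (X.len n s : ℝ) ≤ (X.C + 1) * X.L n := by
  classical
  have hC := X.hC
  unfold len
  split_ifs with h
  · obtain ⟨h1, _, h3, _⟩ := X.nx_spec n h.choose
    have h4 := X.hcx n
    have h5 : (1 : ℝ) ≤ X.l n := by exact_mod_cast X.hl1 n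
    have h6 : ((X.nx n h.choose - h.choose : ℕ) : ℝ) ≤ 1 + cx X.Z.w (X.l n) := by
      exact_mod_cast (by omega : X.nx n h.choose - h.choose ≤ 1 + cx X.Z.w (X.l n))
    unfold L
    nlinarith
  · unfold L
    simp only [Nat.cast_zero]
    positivity

lemma Qs_le (n : ℕ) (s : Fin (X.R + 1)) : |(X.Qs n s : ℝ)| ≤ (2 * X.Z.M : ℝ) ^ (X.len n s) := by
  classical
  unfold Qs len
  split_ifs with h
  · obtain ⟨h1, _, h3, _⟩ := X.nx_spec n h.choose
    exact_mod_cast X.Z.Q_bound h1.le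
  · simp

lemma os_le (n : ℕ) (s : Fin (X.R + 1)) :
    (X.Z.q : ℝ) ^ (X.os n s) ≤ (X.Z.M : ℝ) ^ (X.len n s) := by
  classical
  unfold os len
  split_ifs with h
  · obtain ⟨h1, _, h3, _⟩ := X.nx_spec n h.choose
    exact_mod_cast X.Z.q_bound h1.le
  · simp

lemma exists_c (s : Fin (X.R + 1)) : ∃ t, 0 ≤ t ∧ t ≤ X.C + 1 ∧
    near X.L (fun n => (X.len n s : ℝ)) t :=
  exists_st X.tL (Eventually.of_forall fun n => ⟨by positivity, X.len_le n s⟩)

/-- asymptotic length of a type -/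
noncomputable def c (s : Fin (X.R + 1)) : ℝ := (X.exists_c s).choose
lemma c_nonneg (s : Fin (X.R + 1)) : 0 ≤ X.c s := (X.exists_c s).choose_spec.1
lemma c_near (s : Fin (X.R + 1)) : near X.L (fun n => (X.len n s : ℝ)) (X.c s) :=
  (X.exists_c s).choose_spec.2.2

lemma exists_cmin : ∃ t : ℝ, 0 < t ∧ ∀ s, 0 < X.c s → t ≤ X.c s := by
  classical
  by_cases h : (Finset.univ.filter fun s => 0 < X.c s).Nonempty
  · obtain ⟨s, hs, hmin⟩ := Finset.exists_min_image _ X.c h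
    refine ⟨X.c s, (Finset.mem_filter.1 hs).2, fun s' hs' => hmin s' ?_⟩
    exact Finset.mem_filter.2 ⟨Finset.mem_univ _, hs'⟩
  · refine ⟨1, one_pos, fun s hs => ?_⟩
    exact absurd ⟨s, Finset.mem_filter.2 ⟨Finset.mem_univ _, hs⟩⟩ h

/-- least long length -/
noncomputable def cmin : ℝ := X.exists_cmin.choose
lemma cmin_pos : 0 < X.cmin := X.exists_cmin.choose_spec.1
lemma cmin_le (s : Fin (X.R + 1)) (hs : 0 < X.c s) : X.cmin ≤ X.c s :=
  X.exists_cmin.choose_spec.2 s hs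

/-- long special positions -/
def lm (n i : ℕ) : Prop := X.smk n i ∧ 0 < X.c (X.ty n i)

/-- the maximal length of a short type -/
noncomputable def gmax (n : ℕ) : ℕ := by
  classical
  exact ∑ s : Fin (X.R + 1), if 0 < X.c s then 0 else X.len n s

lemma gmax_near : near X.L (fun n => (X.gmax n : ℝ)) 0 := by
  classical
  have h1 : ∀ T : Finset (Fin (X.R + 1)), near X.L
      (fun n => ((∑ s ∈ T, if 0 < X.c s then 0 else X.len n s : ℕ) : ℝ)) 0 := by
    intro T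
    induction T using Finset.induction_on with
    | empty => simpa using near_const X.tL 0
    | insert a T ha ih =>
      have h2 : near X.L (fun n => ((if 0 < X.c a then 0 else X.len n a : ℕ) : ℝ)) 0 := by
        by_cases h : 0 < X.c a
        · simp only [if_pos h]; simpa using near_const X.tL 0
        · simp only [if_neg h]
          have h3 := X.c_near a
          have : X.c a = 0 := le_antisymm (not_lt.1 h) (X.c_nonneg a)
          rwa [this] at h3
      have h3 := h2.add ih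
      rw [add_zero] at h3
      refine h3.congr (Eventually.of_forall fun n => ?_)
      rw [Finset.sum_insert ha]
      push_cast
      rfl
  exact h1 Finset.univ

lemma short_le {n i : ℕ} (hi : X.smk n i) (hs : ¬ 0 < X.c (X.ty n i)) :
    X.nx n i ≤ i + X.gmax n := by
  classical
  rw [(X.type_spec hi).1]
  have : X.len n (X.ty n i) ≤ X.gmax n := by
    unfold gmax
    have h1 : (if 0 < X.c (X.ty n i) then 0 else X.len n (X.ty n i)) = X.len n (X.ty n i) := if_neg hs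
    rw [← h1]
    exact Finset.single_le_sum (f := fun s => if 0 < X.c s then 0 else X.len n s)
      (fun i _ => Nat.zero_le _) (Finset.mem_univ _)
  omega

/-- the window for repetitions -/
noncomputable def hh (n : ℕ) : ℕ := (X.R + 2) * X.gmax n

lemma hh_near : near X.L (fun n => (X.hh n : ℝ)) 0 := by
  have := X.gmax_near.const_mul X.tL (X.R + 2)
  rw [mul_zero] at this
  refine this.congr (Eventually.of_forall fun n => ?_)
  unfold hh; push_cast; ring

lemma reps {n a B : ℕ} (ha : X.smk n a) (hsh : ∀ m, a ≤ m → m < B → ¬ X.lm n m) {i : ℕ}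
    (hai : a ≤ i) (hiB : i + X.hh n < B) :
    ∃ s t, i ≤ s ∧ s < t ∧ t ≤ i + X.hh n ∧ Eqv X.Z.w (X.l n) s t := by
  refine rep X.Z.aper (X.hl1 n) (r := X.R + 1) (ty := X.ty n) (X.hty n) (g := X.gmax n)
    (a := a) (B := B) ha ?_ hai hiB
  intro m h1 h2 h3
  apply X.short_le h3
  intro h4
  exact hsh m h1 h2 ⟨h3, h4⟩

/-- the size condition for shadows -/
lemma size_ok : ∀ᶠ n in (UU : Filter ℕ),
    3 * X.Z.M * (X.Z.W (X.hh n)) ^ 2 < (X.Z.p : ℤ) ^ (X.l n) := by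
  have hM := X.Z.hM1
  have hMr : (1 : ℝ) ≤ X.Z.M := by exact_mod_cast hM
  have hlp : 0 < Real.log X.Z.p := Real.log_pos (by exact_mod_cast X.Z.hp)
  have h1 := (X.hh_near.const_mul X.tL (4 * Real.log (2 * X.Z.M))).add
    (near_const X.tL (Real.log (27 * X.Z.M)))
  filter_upwards [h1 (Real.log X.Z.p / 2) (by positivity),
    ev_of_atTop (X.tL.eventually_ge_atTop 1)] with n h2 h3
  have h4 := (abs_le.1 h2).2
  simp only [mul_zero, zero_add, zero_mul, sub_zero] at h4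
  have h5 : ((3 * X.Z.M * (X.Z.W (X.hh n)) ^ 2 : ℤ) : ℝ)
      = 27 * X.Z.M * (2 * X.Z.M : ℝ) ^ (4 * X.hh n) := by
    unfold Sys.W
    push_cast
    rw [show 4 * X.hh n = 2 * X.hh n * 2 by ring, pow_mul _ (2 * X.hh n) 2]
    generalize (2 * (X.Z.M : ℝ)) ^ (2 * X.hh n) = u
    ring
  have h6 : ((3 * X.Z.M * (X.Z.W (X.hh n)) ^ 2 : ℤ) : ℝ) < (((X.Z.p : ℤ) ^ (X.l n) : ℤ) : ℝ) := by
    rw [h5]
    push_cast
    have hp0 : (0 : ℝ) < X.Z.p := by
      have := X.Z.hp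
      exact_mod_cast (show 0 < X.Z.p by omega)
    have e1 : (27 * X.Z.M : ℝ) * (2 * X.Z.M : ℝ) ^ (4 * X.hh n)
        = Real.exp (Real.log (27 * X.Z.M) + Real.log (2 * X.Z.M) * ((4 * X.hh n : ℕ) : ℝ)) := by
      rw [Real.exp_add, Real.exp_log (by positivity), ← Real.rpow_natCast,
        Real.rpow_def_of_pos (by positivity)]
    rw [e1, ← Real.rpow_natCast, Real.rpow_def_of_pos hp0]
    apply Real.exp_lt_exp.2
    push_cast
    have : X.L n = X.l n := rfl
    rw [this] at h4 h3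
    nlinarith
  exact_mod_cast h6

end Ctx

end Pool.Agent.TH932.Asm
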