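import Mathlib
import Pool.Agent.TH932.Asm2

set_option autoImplicit false
set_option linter.unusedSectionVars false

/-!
# The macro step
-/

namespace Pool.Agent.TH932.Asm

open Filter Topology Pool.Agent.TH932.Abs Pool.Agent.TH932.Germs Pool.Agent.TH932.Chi
open Pool.Agent.TH932.Gen (ch A0 ev LoA LoB Liou)
open Pool.Agent.TH932.Words Pool.Agent.TH932.Orb Pool.Agent.TH932.Scale
open MvPolynomial

namespace Ctx

variable {α : Type*} [Finite α] (X : Ctx α)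

/-- the values of the types -/
noncomputable def rh (s : Fin (X.R + 1)) : GG :=
  gm fun n => (X.Qs n s : ℚ) / (X.Z.q : ℚ) ^ (X.os n s)

/-- the generators -/
noncomputable def zz (c : ℝ) : Fin (X.R + 1 + 1) → GG :=
  Fin.cons (ch X.χ c * X.gY (X.pos 0)) (fun s => ch X.χ c * X.rh s)

/-- the linear form of a macro step -/
noncomputable def Lam (c t1 : ℝ) (u f v : X.K) (s : Fin (X.R + 1)) :
    MvPolynomial (Fin (X.R + 1 + 1)) (A0 X.K) :=
  MvPolynomial.C (AddMonoidAlgebra.single (c + t1) u)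
    - MvPolynomial.C (AddMonoidAlgebra.single c f)
    + MvPolynomial.C (AddMonoidAlgebra.single t1 v) * MvPolynomial.X s.succ

lemma Lam_LoA {c t1 : ℝ} (hc : 0 ≤ c) (ht : 0 ≤ t1) (u f v : X.K) (s : Fin (X.R + 1)) :
    LoA 0 (X.Lam c t1 u f v s) := by
  rw [← Gen.LoB_io]
  unfold Lam
  rw [map_add, map_sub, map_mul, Gen.io_C, Gen.io_C, Gen.io_C, Gen.io_X, Gen.toL_single,
    Gen.toL_single, Gen.toL_single]
  have h1 := (Gen.LoB_C (r := X.R + 1 + 1) (LF.Lo_mon (c + t1) u)).anti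
    (show (0 : ℝ) ≤ c + t1 by linarith)
  have h2 := (Gen.LoB_C (r := X.R + 1 + 1) (LF.Lo_mon c f)).anti (show (0 : ℝ) ≤ c by linarith)
  have h3 := ((Gen.LoB_C (r := X.R + 1 + 1) (LF.Lo_mon t1 v)).anti
    (show (0 : ℝ) ≤ t1 by linarith)).mul
    (Gen.LoB_monomial (K := X.K) (Finsupp.single s.succ 1))
  rw [add_zero] at h3
  exact (h1.sub h2).add h3

lemma Lam_deg (c t1 : ℝ) (u f v : X.K) (s : Fin (X.R + 1)) :
    ∀ ν ∈ (X.Lam c t1 u f v s).support, ν.degree ≤ 1 := by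
  classical
  unfold Lam
  rw [sub_eq_add_neg, ← map_neg]
  have hC : ∀ w : A0 X.K, ∀ ν ∈ (MvPolynomial.C w : MvPolynomial (Fin (X.R + 1 + 1)) (A0 X.K)).support,
      ν ∈ {ν : Fin (X.R + 1 + 1) →₀ ℕ | ν.degree ≤ 1} := by
    intro w ν hν
    rw [← mul_one (MvPolynomial.C w)] at hν
    refine Std.supp_C_mul (S := {ν : Fin (X.R + 1 + 1) →₀ ℕ | ν.degree ≤ 1}) w ?_ ν hν
    intro μ hμ
    have h1 : μ = 0 := by
      by_contra h
      rw [mem_support_iff, coeff_one, if_neg (Ne.symm h)] at hμ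
      exact hμ rfl
    rw [h1]; simp
  have hX : ∀ ν ∈ (MvPolynomial.X s.succ : MvPolynomial (Fin (X.R + 1 + 1)) (A0 X.K)).support,
      ν ∈ {ν : Fin (X.R + 1 + 1) →₀ ℕ | ν.degree ≤ 1} := by
    intro ν hν
    rw [MvPolynomial.support_X, Finset.mem_singleton] at hν
    rw [hν]; simp
  exact Std.supp_add (Std.supp_add (hC _) (hC _)) (Std.supp_C_mul _ hX)

lemma Lam_ev (c t1 : ℝ) (u f v : X.K) (s : Fin (X.R + 1)) :
    ev X.K X.χ (X.zz c) (X.Lam c t1 u f v s) = (u : GG) * ch X.χ (c + t1) - f * ch X.χ c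
      + v * ch X.χ t1 * (ch X.χ c * X.rh s) := by
  unfold Lam
  rw [map_add, map_sub, map_mul, Gen.ev_C, Gen.ev_C, Gen.ev_C, Gen.ev_X, Gen.ev0_single,
    Gen.ev0_single, Gen.ev0_single]
  have : X.zz c s.succ = ch X.χ c * X.rh s := by unfold zz; rw [Fin.cons_succ]
  rw [this]
  rfl

/-- **The macro step.** -/
lemma macro_step {c : ℝ} (hc : 0 ≤ c) (e : ℕ) : ∃ (κ : X.K) (t : ℝ)
    (Λ : MvPolynomial (Fin (X.R + 1 + 1)) (A0 X.K)), κ ≠ 0 ∧ X.cmin ≤ t ∧ LoA 0 Λ ∧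
    (∀ ν ∈ Λ.support, ν.degree ≤ 1) ∧
    near X.L (fun n => (X.pos (e + 1) n : ℝ) - X.pos e n) t ∧
    (κ : GG) * ch X.χ t * (ch X.χ c * X.gY (X.pos (e + 1)))
      = ch X.χ c * X.gY (X.pos e) + ev X.K X.χ (X.zz c) Λ := by
  classical
  obtain ⟨A, hA, hst⟩ := X.mstep e
  set a := X.pos e with ha
  set a' := X.pos (e + 1) with ha'
  set m : ℕ → ℕ := fun n => X.Mn n (a n) with hm
  have hlm : ∀ᶠ n in (UU : Filter ℕ), X.lm n (m n) := hst.mono fun n h => h.2.1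
  have ham : ∀ᶠ n in (UU : Filter ℕ), a n ≤ m n := hst.mono fun n h => h.2.2.1
  have hsh : ∀ᶠ n in (UU : Filter ℕ), ∀ m', a n ≤ m' → m' < m n → ¬ X.lm n m' :=
    hst.mono fun n h => h.2.2.2.1
  have hma : ∀ᶠ n in (UU : Filter ℕ), m n ≤ a' n := hst.mono fun n h => h.2.2.2.2.1
  have haA : ∀ᶠ n in (UU : Filter ℕ), (a' n : ℝ) ≤ A * X.L n := hst.mono fun n h => h.2.2.2.2.2
  have hnx : ∀ n, a' n = X.nx n (m n) := fun n => rfl
  have hmA : ∀ᶠ n in (UU : Filter ℕ), (m n : ℝ) ≤ A * X.L n := by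
    filter_upwards [hma, haA] with n h1 h2
    exact (by exact_mod_cast h1 : (m n : ℝ) ≤ a' n).trans h2
  have haa : ∀ᶠ n in (UU : Filter ℕ), a n ≤ a' n := by
    filter_upwards [ham, hma] with n h1 h2 using h1.trans h2
  -- the type
  obtain ⟨s, hs⟩ : ∃ s, ∀ᶠ n in (UU : Filter ℕ), X.ty n (m n) = s := by
    have h1 : (⋃ s ∈ (Set.univ : Set (Fin (X.R + 1))), {n | X.ty n (m n) = s}) ∈ UU := by
      have : (⋃ s ∈ (Set.univ : Set (Fin (X.R + 1))), {n | X.ty n (m n) = s}) = Set.univ := by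
        ext n; simp
      rw [this]; exact Filter.univ_mem
    obtain ⟨s, _, hs⟩ := (Ultrafilter.finite_biUnion_mem_iff Set.finite_univ).1 h1
    exact ⟨s, hs⟩
  have hcs : 0 < X.c s := by
    obtain ⟨n, h1, h2⟩ := (hlm.and hs).exists
    rw [← h2]; exact h1.2
  -- shadows
  obtain ⟨b, hab, hbm, hbn, f, f', hf⟩ := X.shadow_part (a := a) (m := m) (X.pos_smk e) ham hsh
  have hbA : ∀ᶠ n in (UU : Filter ℕ), (b n : ℝ) ≤ A * X.L n := by
    filter_upwards [hbm, hmA] with n h1 h2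
    exact (by exact_mod_cast h1 : (b n : ℝ) ≤ m n).trans h2
  -- lengths
  obtain ⟨t, ht0, _, ht⟩ := exists_st (L := X.L) X.tL (a := fun n => (a' n : ℝ) - a n) (A := A) (by
    filter_upwards [haa, haA] with n h1 h2
    have h3 : (a n : ℝ) ≤ a' n := by exact_mod_cast h1
    have h4 : (0 : ℝ) ≤ a n := by positivity
    constructor <;> linarith)
  obtain ⟨t1, ht10, _, ht1⟩ := exists_st (L := X.L) X.tL (a := fun n => (b n : ℝ) - a n) (A := A)
    (by
      filter_upwards [hab, hbA] with n h1 h2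
      have h3 : (a n : ℝ) ≤ b n := by exact_mod_cast h1
      have h4 : (0 : ℝ) ≤ a n := by positivity
      constructor <;> linarith)
  have hct : X.c s ≤ t := by
    refine near_le X.tL (X.c_near s) ht ?_
    filter_upwards [hlm, hs, ham] with n h1 h2 h3
    have h4 := (X.type_spec h1.1).1
    rw [h2, ← hnx] at h4
    have h5 : (a' n : ℝ) = m n + X.len n s := by exact_mod_cast h4
    have h6 : (a n : ℝ) ≤ m n := by exact_mod_cast h3
    linarith
  obtain ⟨κ, hκ0, hκ⟩ := X.NA_const haa haA ht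
  obtain ⟨κ1, _, hκ1⟩ := X.NA_const hab hbA ht1
  obtain ⟨κ2, _, hκ2⟩ := X.NA_const hbm hmA hbn
  rw [Gen.ch_zero, mul_one] at hκ2
  have hk2 := X.QA_const hbm hbn
  have hρ : X.QA m a' = X.rh s := by
    unfold QA rh
    rw [gm_eq]
    filter_upwards [hlm, hs] with n h1 h2
    obtain ⟨_, h4, h5⟩ := X.type_spec h1.1
    rw [h2, ← hnx] at h4 h5
    rw [h4, h5]
  have hQ : X.QA a a' = X.NA a b * f' - f + X.NA a b * (X.QA b m + X.NA b m * X.rh s) := by
    have hba : ∀ᶠ n in (UU : Filter ℕ), b n ≤ a' n := by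
      filter_upwards [hbm, hma] with n h1 h2 using h1.trans h2
    rw [X.comp hab hba, X.comp hbm hma, hf, hρ]
  refine ⟨κ, t, X.Lam c t1 (κ1 * (f' + ⟨_, hk2⟩)) f (κ1 * κ2) s, hκ0,
    (X.cmin_le s hcs).trans hct, X.Lam_LoA hc ht10 _ _ _ _, X.Lam_deg _ _ _ _ _ _, ht, ?_⟩
  rw [Lam_ev]
  have h1 := X.rel a a'
  rw [hκ, hQ, hκ1, hκ2] at h1
  rw [Gen.ch_add]
  push_cast
  linear_combination (ch X.χ c) * h1

end Ctx

end Pool.Agent.TH932.Asm
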