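import Mathlib
import Pool.Agent.TH932.Orb

set_option autoImplicit false

/-!
# Growth of the terms, and the subexponential case
-/

namespace Pool.Agent.TH932.Orb

open Filter Topology Pool.Agent.TH932.Words

variable {α : Type*} (Z : Sys α)

namespace Sys

lemma y_large (N : ℝ) : ∀ᶠ k in atTop, N < |(Z.y k : ℝ)| := by
  have h1 : Tendsto Z.y cofinite cofinite := Z.hinj.tendsto_cofinite
  rw [Nat.cofinite_eq_atTop] at h1
  have h2 : ({z : ℤ | |z| ≤ ⌈N⌉} : Set ℤ).Finite := by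
    apply (Set.finite_Icc (-⌈N⌉) ⌈N⌉).subset
    intro z hz
    exact abs_le.1 hz
  have h3 := h1 h2.compl_mem_cofinite
  filter_upwards [h3] with k hk
  have h4 : ¬ |Z.y k| ≤ ⌈N⌉ := hk
  push Not at h4
  have h5 : (⌈N⌉ : ℝ) < |(Z.y k : ℝ)| := by exact_mod_cast h4
  exact (Int.le_ceil N).trans_lt h5

lemma log_step : Tendsto (fun k => Real.log |(Z.y (k + 1) : ℝ)| - Real.log |(Z.y k : ℝ)|
    - Z.δ (Z.w k) * Real.log Z.q + Real.log Z.p) atTop (𝓝 0) := by
  have hp0 : (Z.p : ℝ) ≠ 0 := by have := Z.hp; positivity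
  have hq0 : (Z.q : ℝ) ≠ 0 := by have := Z.hq; positivity
  set u : ℕ → ℝ := fun k => (Z.β (Z.w k) : ℝ) / ((Z.q : ℝ) ^ Z.δ (Z.w k) * Z.y k) with hu
  have hu0 : Tendsto u atTop (𝓝 0) := by
    rw [Metric.tendsto_nhds]
    intro ε hε
    filter_upwards [Z.y_large (Z.M / ε), Z.y_large 0] with k h1 h2
    rw [Real.dist_eq, sub_zero, hu, abs_div, abs_mul]
    have h3 : (|Z.β (Z.w k)| : ℝ) ≤ Z.M := by exact_mod_cast Z.hβM _
    have h4 : (1 : ℝ) ≤ |(Z.q : ℝ) ^ Z.δ (Z.w k)| := by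
      rw [abs_of_nonneg (by positivity)]
      have : (1 : ℝ) ≤ Z.q := by
        have := Z.hq
        exact_mod_cast (by omega : 1 ≤ Z.q)
      exact one_le_pow₀ this
    rw [div_lt_iff₀ (by positivity)]
    rw [div_lt_iff₀ hε] at h1
    calc |(Z.β (Z.w k) : ℝ)| ≤ Z.M := h3
      _ < |(Z.y k : ℝ)| * ε := h1
      _ ≤ ε * (|(Z.q : ℝ) ^ Z.δ (Z.w k)| * |(Z.y k : ℝ)|) := by
          rw [mul_comm]
          gcongr
          nlinarith [abs_nonneg (Z.y k : ℝ)]
  have h1 : Tendsto (fun k => Real.log |1 + u k|) atTop (𝓝 0) := by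
    have h2 : Tendsto (fun k => |1 + u k|) atTop (𝓝 1) := by
      have := (hu0.const_add 1).abs
      simpa using this
    have h3 := (Real.continuousAt_log (x := 1) one_ne_zero).tendsto.comp h2
    rw [Real.log_one] at h3
    exact h3
  refine h1.congr' ?_
  filter_upwards [Z.y_large 0, (tendsto_add_atTop_nat 1).eventually (Z.y_large 0)] with k h2 h3
  have h2' : (Z.y k : ℝ) ≠ 0 := abs_pos.1 h2
  have h3' : (Z.y (k + 1) : ℝ) ≠ 0 := abs_pos.1 h3
  have hqd : ((Z.q : ℝ)) ^ Z.δ (Z.w k) ≠ 0 := pow_ne_zero _ hq0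
  have h4 : (Z.p : ℝ) * Z.y (k + 1) = (Z.q : ℝ) ^ Z.δ (Z.w k) * Z.y k + Z.β (Z.w k) := by
    exact_mod_cast Z.hrec k
  have h5 : (Z.p : ℝ) * Z.y (k + 1) = (Z.q : ℝ) ^ Z.δ (Z.w k) * Z.y k * (1 + u k) := by
    rw [h4, hu]
    field_simp
  have h6 : 1 + u k ≠ 0 := by
    intro h
    rw [h, mul_zero] at h5
    exact mul_ne_zero hp0 h3' h5
  have h7 := congrArg (fun x => Real.log |x|) h5
  simp only [Real.log_abs] at h7 ⊢
  rw [Real.log_mul hp0 h3', Real.log_mul (mul_ne_zero hqd h2') h6, Real.log_mul hqd h2',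
    Real.log_pow] at h7
  linarith

lemma log_growth {θ : ℝ} (hθ : Tendsto (fun k : ℕ => (Z.oo k : ℝ) / k) atTop (𝓝 θ)) :
    Tendsto (fun k : ℕ => Real.log |(Z.y k : ℝ)| / k) atTop
      (𝓝 (θ * Real.log Z.q - Real.log Z.p)) := by
  have h1 := Z.log_step.cesaro
  have hsum : ∀ n : ℕ, ∑ k ∈ Finset.range n, (Real.log |(Z.y (k + 1) : ℝ)|
      - Real.log |(Z.y k : ℝ)| - Z.δ (Z.w k) * Real.log Z.q + Real.log Z.p)
      = Real.log |(Z.y n : ℝ)| - Real.log |(Z.y 0 : ℝ)| - Z.oo n * Real.log Z.q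
        + n * Real.log Z.p := by
    intro n
    induction n with
    | zero => simp [oo]
    | succ n ih =>
      rw [Finset.sum_range_succ, ih, oo_succ]
      push_cast
      ring
  simp only [hsum] at h1
  have h2 : Tendsto (fun k : ℕ => Real.log |(Z.y 0 : ℝ)| / (k : ℝ)) atTop (𝓝 0) :=
    tendsto_const_div_atTop_nhds_zero_nat _
  have h3 := ((h1.add h2).add (hθ.mul_const (Real.log Z.q))).sub_const (Real.log Z.p)
  rw [zero_add, zero_add] at h3
  refine h3.congr' ?_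
  filter_upwards [eventually_gt_atTop 0] with n hn
  have : (n : ℝ) ≠ 0 := by positivity
  field_simp
  ring

/-- exponential growth -/
lemma exp_le {θ : ℝ} (hθ : Tendsto (fun k : ℕ => (Z.oo k : ℝ) / k) atTop (𝓝 θ)) {a : ℝ}
    (ha : a < θ * Real.log Z.q - Real.log Z.p) :
    ∀ᶠ k : ℕ in atTop, Real.exp (a * k) ≤ |(Z.y k : ℝ)| := by
  filter_upwards [(Z.log_growth hθ).eventually_const_lt ha, Z.y_large 0, eventually_gt_atTop 0]
    with k h1 h2 h3
  have hk : (0 : ℝ) < k := by exact_mod_cast h3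
  rw [lt_div_iff₀ hk] at h1
  rw [← Real.exp_log h2]
  exact Real.exp_le_exp.2 h1.le

lemma le_exp {θ : ℝ} (hθ : Tendsto (fun k : ℕ => (Z.oo k : ℝ) / k) atTop (𝓝 θ)) {a : ℝ}
    (ha : θ * Real.log Z.q - Real.log Z.p < a) :
    ∀ᶠ k : ℕ in atTop, |(Z.y k : ℝ)| ≤ Real.exp (a * k) := by
  filter_upwards [(Z.log_growth hθ).eventually_lt_const ha, Z.y_large 0, eventually_gt_atTop 0]
    with k h1 h2 h3
  have hk : (0 : ℝ) < k := by exact_mod_cast h3
  rw [div_lt_iff₀ hk] at h1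
  rw [← Real.exp_log h2]
  exact Real.exp_le_exp.2 h1.le

/-- if the terms are subexponential then the complexity is superlinear -/
lemma superlinear_sub [Finite α]
    (hsub : ∀ ε : ℝ, 0 < ε → ∀ᶠ k : ℕ in atTop, |(Z.y k : ℝ)| ≤ Real.exp (ε * k)) :
    Tendsto (fun n : ℕ => (cx Z.w n : ℝ) / n) atTop atTop := by
  classical
  rw [tendsto_atTop]
  intro A'
  set A : ℝ := |A'| + 1 with hA
  have hA1 : 1 ≤ A := by have := abs_nonneg A'; linarith
  have hlp : 0 < Real.log Z.p := Real.log_pos (by exact_mod_cast Z.hp)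
  set ε : ℝ := Real.log Z.p / (4 * A) with hε
  have hε0 : 0 < ε := by positivity
  obtain ⟨k0, hk0⟩ := eventually_atTop.1 (hsub ε hε0)
  -- a bound for all terms
  obtain ⟨c0, hc0, hbd⟩ : ∃ c0 : ℝ, 0 ≤ c0 ∧ ∀ k : ℕ, |(Z.y k : ℝ)| ≤ Real.exp (ε * k + c0) := by
    refine ⟨∑ k ∈ Finset.range (k0 + 1), |(Z.y k : ℝ)|, Finset.sum_nonneg fun _ _ => abs_nonneg _,
      fun k => ?_⟩
    by_cases hk : k < k0 + 1
    · have h1 : |(Z.y k : ℝ)| ≤ ∑ k ∈ Finset.range (k0 + 1), |(Z.y k : ℝ)| :=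
        Finset.single_le_sum (f := fun k : ℕ => |(Z.y k : ℝ)|)
          (fun i _ => abs_nonneg _) (Finset.mem_range.2 hk)
      have h2 := Real.add_one_le_exp (∑ k ∈ Finset.range (k0 + 1), |(Z.y k : ℝ)|)
      have h3 : Real.exp (∑ k ∈ Finset.range (k0 + 1), |(Z.y k : ℝ)|) ≤
        Real.exp (ε * k + ∑ k ∈ Finset.range (k0 + 1), |(Z.y k : ℝ)|) := by
        apply Real.exp_le_exp.2
        have : 0 ≤ ε * k := by positivity
        linarith
      linarith
    · refine (hk0 k (by omega)).trans ?_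
      apply Real.exp_le_exp.2
      have : 0 ≤ ∑ k ∈ Finset.range (k0 + 1), |(Z.y k : ℝ)| :=
        Finset.sum_nonneg fun _ _ => abs_nonneg _
      linarith
  obtain ⟨N0, hN0⟩ := exists_nat_gt (2 * (c0 + 1) / Real.log Z.p)
  filter_upwards [eventually_ge_atTop (N0 + 1)] with l hl
  have hl0 : (0 : ℝ) < l := by
    have : 0 < l := by omega
    exact_mod_cast this
  have hll : 2 * (c0 + 1) < Real.log Z.p * l := by
    rw [div_lt_iff₀ hlp] at hN0
    have : (N0 : ℝ) ≤ l := by exact_mod_cast (by omega : N0 ≤ l)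
    nlinarith
  -- distinct factors
  have hinj : Set.InjOn (fac Z.w l) (Finset.range (⌊A * l⌋₊ + 1) : Finset ℕ) := by
    intro i hi j hj hij
    have key : ∀ i j : ℕ, i ≤ ⌊A * l⌋₊ → j ≤ ⌊A * l⌋₊ → Eqv Z.w l i j → i = j := by
      intro i j hi hj hE
      by_contra hne
      have h1 := Z.dvd_of_eqv hE
      have h2 : Z.y j - Z.y i ≠ 0 := by
        rw [sub_ne_zero]; intro h; exact hne (Z.hinj h).symm
      have h3 := Int.le_of_dvd (abs_pos.2 h2) ((dvd_abs _ _).2 h1)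
      have h4 : ((Z.p : ℝ)) ^ l ≤ |(Z.y j : ℝ) - Z.y i| := by exact_mod_cast h3
      have hb : ∀ i : ℕ, i ≤ ⌊A * l⌋₊ → |(Z.y i : ℝ)| ≤ Real.exp (Real.log Z.p / 4 * l + c0) := by
        intro i hi
        refine (hbd i).trans ?_
        apply Real.exp_le_exp.2
        have h5 : (i : ℝ) ≤ A * l :=
          (by exact_mod_cast hi : (i : ℝ) ≤ ⌊A * l⌋₊).trans (Nat.floor_le (by positivity))
        have h6 : ε * i ≤ ε * (A * l) := by gcongr
        have h7 : ε * (A * l) = Real.log Z.p / 4 * l := by rw [hε]; field_simp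
        linarith
      have h5 := hb i hi
      have h6 := hb j hj
      have h7 : |(Z.y j : ℝ) - Z.y i| ≤ 2 * Real.exp (Real.log Z.p / 4 * l + c0) := by
        refine (abs_sub _ _).trans ?_
        linarith
      have h8 : 2 * Real.exp (Real.log Z.p / 4 * l + c0) ≤ Real.exp (1 + (Real.log Z.p / 4 * l + c0)) := by
        rw [Real.exp_add 1 (Real.log Z.p / 4 * l + c0)]
        have := Real.add_one_le_exp (1 : ℝ)
        have := Real.exp_pos (Real.log Z.p / 4 * l + c0)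
        nlinarith
      have h9 : ((Z.p : ℝ)) ^ l = Real.exp (Real.log Z.p * l) := by
        have hp0 : (0 : ℝ) < Z.p := by
          have := Z.hp
          exact_mod_cast (show 0 < Z.p by omega)
        rw [← Real.rpow_natCast, Real.rpow_def_of_pos hp0]
      have h10 := Real.exp_le_exp.1 ((h9 ▸ h4).trans (h7.trans h8))
      nlinarith
    rw [Finset.mem_coe, Finset.mem_range] at hi hj
    exact key i j (by omega) (by omega) (fac_eq.1 hij)
  have hcard : ⌊A * l⌋₊ + 1 ≤ cx Z.w l := by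
    unfold cx
    rw [← Finset.card_range (⌊A * l⌋₊ + 1), ← Finset.card_image_of_injOn hinj,
      ← Set.ncard_coe_finset]
    apply Set.ncard_le_ncard _ (finite_range_fac _ _)
    intro v hv
    rw [Finset.mem_coe, Finset.mem_image] at hv
    obtain ⟨i, _, rfl⟩ := hv
    exact ⟨i, rfl⟩
  rw [le_div_iff₀ hl0]
  have h1 : A' * l ≤ A * l := by
    have := le_abs_self A'
    gcongr; linarith
  have h2 := Nat.lt_floor_add_one (A * (l : ℝ))
  have h3 : ((⌊A * l⌋₊ + 1 : ℕ) : ℝ) ≤ cx Z.w l := by exact_mod_cast hcard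
  push_cast at h3
  linarith

end Sys

end Pool.Agent.TH932.Orb
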