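import Mathlib
import Pool.Agent.TH932.Asm3
import Pool.Agent.TH932.Chain
import Pool.Agent.TH932.Growth

set_option autoImplicit false
set_option linter.unusedSectionVars false

/-!
# Superlinear complexity
-/

namespace Pool.Agent.TH932.Asm

open Filter Topology Pool.Agent.TH932.Abs Pool.Agent.TH932.Germs Pool.Agent.TH932.Chi
open Pool.Agent.TH932.Gen (ch A0 ev LoA LoB Liou)
open Pool.Agent.TH932.Words Pool.Agent.TH932.Orb Pool.Agent.TH932.Scale

namespace Ctx

variable {α : Type*} [Finite α] (X : Ctx α)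

lemma gY_int (a : ℕ → ℕ) (b : ℕ) (M : Submonoid ℤ) : X.gY a ∈ SS X.L (Rb b M) 0 := by
  unfold gY
  rw [mem_SS]
  intro ε hε
  filter_upwards [L_nonneg X.tL] with n h1
  refine ⟨1, 1, X.Z.y (a n), 0, one_ne_zero, ?_, M.one_mem, by simp, ?_⟩
  · rw [Int.cast_one, abs_one]
    exact Real.one_le_exp (by positivity)
  · have : 0 ≤ ε * X.L n := by positivity
    push_cast
    linarith

lemma rh_p (s : Fin (X.R + 1)) : X.rh s ∈ SS X.L (Rb X.Z.p (cop X.Z.p)) 0 := by
  unfold rh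
  rw [mem_SS]
  intro ε hε
  filter_upwards [L_nonneg X.tL] with n h1
  have hq := X.q0
  refine ⟨1, (X.Z.q : ℤ) ^ (X.os n s), X.Qs n s, 0, one_ne_zero, ?_, ?_, ?_, ?_⟩
  · rw [Int.cast_one, abs_one]
    exact Real.one_le_exp (by positivity)
  · exact X.Z.hpq.pow_left
  · push_cast
    field_simp
  · have : 0 ≤ ε * X.L n := by positivity
    push_cast
    linarith

/-- the size parameter -/
noncomputable def B : ℝ := (X.C + 1) * Real.log (2 * X.Z.M)

lemma B_pos : 0 < X.B := by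
  have := X.hC
  have := X.log2M
  unfold B; positivity

lemma rh_q (s : Fin (X.R + 1)) : X.rh s ∈ SS X.L (Rb X.Z.q ⊥) (-X.B) := by
  have hMr : (1 : ℝ) ≤ X.Z.M := by exact_mod_cast X.Z.hM1
  have hlM : Real.log X.Z.M ≤ Real.log (2 * X.Z.M) := Real.log_le_log (by linarith) (by linarith)
  have hlM0 := X.log2M
  unfold rh
  rw [mem_SS]
  intro ε hε
  filter_upwards [L_nonneg X.tL] with n h1
  have hq := X.q0
  refine ⟨1, 1, X.Qs n s, -(X.os n s : ℤ), one_ne_zero, ?_, Submonoid.one_mem _, ?_, ?_⟩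
  · rw [Int.cast_one, abs_one]
    exact Real.one_le_exp (by positivity)
  · rw [zpow_neg, zpow_natCast]
    push_cast
    field_simp
  · have h2 := X.os_le n s
    have h3 := X.len_le n s
    have hq1 : (0 : ℝ) < X.Z.q := by have := X.Z.hq; positivity
    have h4 : (X.os n s : ℝ) * Real.log X.Z.q ≤ X.len n s * Real.log X.Z.M := by
      have := Real.log_le_log (by positivity) h2
      rwa [Real.log_pow, Real.log_pow] at this
    have h5 : (X.len n s : ℝ) * Real.log X.Z.M ≤ (X.C + 1) * X.L n * Real.log (2 * X.Z.M) := by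
      have := Real.log_nonneg hMr
      have := X.hC
      gcongr
    have h6 : 0 ≤ ε * X.L n := by positivity
    push_cast
    unfold B
    linarith

lemma rh_i (s : Fin (X.R + 1)) : X.rh s ∈ SS X.L Rinf (-X.B) := by
  have hMr : (1 : ℝ) ≤ X.Z.M := by exact_mod_cast X.Z.hM1
  have hlM0 := X.log2M
  unfold rh
  rw [mem_SS]
  intro ε hε
  filter_upwards [L_nonneg X.tL] with n h1
  have h2 := X.Qs_le n s
  have h3 := X.len_le n s
  unfold Rinf
  push_cast
  have hq1 : (1 : ℝ) ≤ (X.Z.q : ℝ) ^ (X.os n s) := by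
    have := X.Z.hq
    have : (1 : ℝ) ≤ X.Z.q := by exact_mod_cast (by omega : 1 ≤ X.Z.q)
    exact one_le_pow₀ this
  rw [abs_div, abs_of_nonneg (by linarith : (0 : ℝ) ≤ (X.Z.q : ℝ) ^ (X.os n s))]
  calc |(X.Qs n s : ℝ)| / (X.Z.q : ℝ) ^ (X.os n s) ≤ |(X.Qs n s : ℝ)| := div_le_self (abs_nonneg _) hq1
    _ ≤ (2 * X.Z.M : ℝ) ^ (X.len n s) := h2
    _ = Real.exp (Real.log (2 * X.Z.M) * X.len n s) := by
        rw [← Real.rpow_natCast, Real.rpow_def_of_pos (by linarith)]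
    _ ≤ Real.exp (-(-X.B - ε) * X.L n) := by
        apply Real.exp_le_exp.2
        have h5 : Real.log (2 * X.Z.M) * (X.len n s : ℝ)
            ≤ Real.log (2 * X.Z.M) * ((X.C + 1) * X.L n) := by gcongr
        have h6 : 0 ≤ ε * X.L n := by positivity
        unfold B
        linarith

lemma gY_i : X.gY (X.pos 0) ∈ SS X.L Rinf (-X.B) := by
  have hlM0 := X.log2M
  unfold gY
  rw [mem_SS]
  intro ε hε
  have h0 := near_const X.tL (Real.log (|(X.Z.y 0 : ℝ)| + 1)) ε hε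
  filter_upwards [L_nonneg X.tL, h0] with n h1 h2
  have h3 := X.nx_le n 0
  have h4 := X.y_exp (X.pos 0 n)
  have h5 := (abs_le.1 h2).2
  simp only [zero_mul, sub_zero, Nat.cast_zero, zero_add] at h3 h5
  unfold Rinf
  push_cast
  have h6 : |(X.Z.y (X.pos 0 n) : ℝ)| ≤ Real.exp (Real.log (|(X.Z.y 0 : ℝ)| + 1)
      + Real.log (2 * X.Z.M) * X.pos 0 n) := by
    rw [Real.exp_add, Real.exp_log (by positivity)]
    linarith
  refine h6.trans (Real.exp_le_exp.2 ?_)
  have h7 : Real.log (2 * X.Z.M) * (X.pos 0 n : ℝ) ≤ Real.log (2 * X.Z.M) * ((X.C + 1) * X.L n) := by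
    have : (X.pos 0 n : ℝ) = X.nx n 0 := rfl
    rw [this]
    gcongr
  unfold B
  linarith

/-- the terms of the chain are bounded -/
lemma chain_bound (hw : 0 < X.θ * Real.log X.Z.q - Real.log X.Z.p)
    (hirr : Irrational (Real.log X.Z.p / (X.θ * Real.log X.Z.q))) :
    (∀ e, X.gY (X.pos e) ∈ SS X.L Rinf (-X.B)) ∧
    ∀ e : ℕ, ∃ T : ℝ, e * X.cmin ≤ T ∧
      near X.L (fun n => (X.pos e n : ℝ) - X.pos 0 n) T := by
  set wi := X.θ * Real.log X.Z.q - Real.log X.Z.p with hwi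
  have hlp := X.logp
  have hB := X.B_pos
  set c := X.B / wi with hc
  have hc0 : 0 ≤ c := by positivity
  have hcm := X.cmin_pos
  choose κ t Λ hκ ht hΛ hΛd hnear hrec using fun e => X.macro_step hc0 e
  have hSp : Filt X.K (SS X.L (Rb X.Z.p (cop X.Z.p))) := (pre_b X.Z.hp _).filt X.tL
  have hSq : Filt X.K (SS X.L (Rb X.Z.q ⊥)) := (pre_b X.Z.hq _).filt X.tL
  have hSi : Filt X.K (SS X.L Rinf) := pre_inf.filt X.tL
  have hχp : ∀ g : ℝ, ch X.χ g ∈ SS X.L (Rb X.Z.p (cop X.Z.p)) (Real.log X.Z.p * g) := fun g =>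
    chi_Sp X.tL X.Z.hp X.Z.hq X.Z.hpq X.θ g
  have hχi : ∀ g : ℝ, ch X.χ g ∈ SS X.L Rinf (wi * g) := fun g =>
    chi_Si X.tL X.Z.hp X.Z.hq X.θ g
  have hΛ0 : 0 ≤ X.θ * Real.log X.Z.q := by linarith
  have hwc : wi * c = X.B := by rw [hc]; field_simp
  have hzp : ∀ i, X.zz c i ∈ SS X.L (Rb X.Z.p (cop X.Z.p)) 0 := by
    intro i
    have h0 : (0 : ℝ) ≤ Real.log X.Z.p * c + 0 := by positivity
    refine Fin.cases ?_ (fun s => ?_) i
    · exact hSp.anti h0 (hSp.mul_mem (hχp c) (X.gY_int _ _ _))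
    · exact hSp.anti h0 (hSp.mul_mem (hχp c) (X.rh_p s))
  have hzi : ∀ i, X.zz c i ∈ SS X.L Rinf 0 := by
    intro i
    have h0 : (0 : ℝ) ≤ wi * c + -X.B := by rw [hwc]; linarith
    refine Fin.cases ?_ (fun s => ?_) i
    · exact hSi.anti h0 (hSi.mul_mem (hχi c) X.gY_i)
    · exact hSi.anti h0 (hSi.mul_mem (hχi c) (X.rh_i s))
  set cq : ℝ := X.θ * Real.log X.Z.q * c + X.B with hcq
  have hcq0 : 0 ≤ cq := by positivity
  have hzq : ∀ i, X.zz c i ∈ SS X.L (Rb X.Z.q ⊥) (-cq) := by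
    intro i
    refine Fin.cases ?_ (fun s => ?_) i
    · refine hSq.anti ?_ (hSq.mul_mem (chi_Sq X.tL X.Z.hp X.Z.hq X.θ hc0) (X.gY_int _ _ _))
      rw [hcq]; linarith
    · refine hSq.anti ?_ (hSq.mul_mem (chi_Sq X.tL X.Z.hp X.Z.hq X.θ hc0) (X.rh_q s))
      rw [hcq]; linarith
  have hLp := liou_p X.tL X.Z.hp X.Z.hq (θ := X.θ) (wp := Real.log X.Z.p) (wi := wi) rfl rfl hw
    hcq0 hzq hzi
  have hLi := liou_i X.tL X.Z.hp X.Z.hq X.Z.hpq (θ := X.θ) (wp := Real.log X.Z.p) (wi := wi) rfl rfl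
    hw hcq0 hzq hzp
  have hsum : ∀ e : ℕ, (e : ℝ) * X.cmin ≤ ∑ i ∈ Finset.range e, t i := by
    intro e
    have := Finset.card_nsmul_le_sum (Finset.range e) t X.cmin (fun i _ => ht i)
    rwa [Finset.card_range, nsmul_eq_mul] at this
  constructor
  · have h1 := Gen.chain hSp hSi hlp hw hχp hχi hzp hzi (inv_inf X.tL) hLp hLi
      (by
        have : Real.log X.Z.p + wi = X.θ * Real.log X.Z.q := by rw [hwi]; ring
        rw [this]; exact hirr)
      (fun e => X.gY (X.pos e)) κ t Λ 0 hc0 hκ (fun e => hcm.le.trans (ht e))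
      (tendsto_atTop_mono hsum (tendsto_natCast_atTop_atTop.atTop_mul_const hcm)) hΛ hΛd
      (by unfold zz; rw [Fin.cons_zero]) (fun e => X.gY_int _ _ _) hrec
    intro e
    have h2 := h1 e
    rwa [hwc] at h2
  · intro e
    refine ⟨∑ i ∈ Finset.range e, t i, hsum e, ?_⟩
    induction e with
    | zero =>
      have := near_const X.tL 0
      simpa using this
    | succ e ih =>
      rw [Finset.sum_range_succ]
      refine (ih.add (hnear e)).congr (Eventually.of_forall fun n => ?_)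
      ring

/-- low complexity at infinitely many scales is contradictory -/
theorem absurd_of (hw : 0 < X.θ * Real.log X.Z.q - Real.log X.Z.p)
    (hirr : Irrational (Real.log X.Z.p / (X.θ * Real.log X.Z.q))) : False := by
  obtain ⟨h1, h2⟩ := X.chain_bound hw hirr
  set wi := X.θ * Real.log X.Z.q - Real.log X.Z.p with hwi
  have hB := X.B_pos
  have hcm := X.cmin_pos
  obtain ⟨e, he⟩ := exists_nat_gt ((2 * (X.B + 1) / wi + 1) / X.cmin)
  rw [div_lt_iff₀ hcm] at he
  obtain ⟨T, hT, hnear⟩ := h2 e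
  have h3 := h1 e
  unfold gY at h3
  rw [mem_SS] at h3
  obtain ⟨k0, hk0⟩ := eventually_atTop.1 (X.Z.exp_le X.hθ (a := wi / 2) (by linarith))
  obtain ⟨n, g1, g2, g3⟩ := ((h3 1 one_pos).and ((hnear 1 one_pos).and
    (ev_of_atTop (X.tL.eventually_ge_atTop ((k0 + 1) / (2 * (X.B + 1) / wi)))))).exists
  have hpos2 : 0 < 2 * (X.B + 1) / wi := by positivity
  rw [div_le_iff₀ hpos2] at g3
  have hL0 : 0 < X.L n := by
    have : 0 ≤ (k0 : ℝ) := by positivity
    by_contra h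
    push Not at h
    nlinarith
  have g4 := (abs_le.1 g2).1
  have g5 : 2 * (X.B + 1) / wi * X.L n < X.pos e n := by
    have : (0 : ℝ) ≤ X.pos 0 n := by positivity
    nlinarith
  have g6 : k0 ≤ X.pos e n := by
    have : (k0 : ℝ) < X.pos e n := by linarith
    exact_mod_cast this.le
  have g7 := hk0 _ g6
  unfold Rinf at g1
  push_cast at g1
  have g8 := Real.exp_le_exp.1 (g7.trans g1)
  have g9 : wi / 2 * (2 * (X.B + 1) / wi * X.L n) < wi / 2 * X.pos e n := by gcongr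
  have g10 : wi / 2 * (2 * (X.B + 1) / wi * X.L n) = (X.B + 1) * X.L n := by field_simp
  linarith

end Ctx

lemma cx_mono {α : Type*} [Finite α] (w : ℕ → α) : Monotone (cx w) := by
  apply monotone_nat_of_le_succ
  intro l
  unfold cx
  have h1 : Set.range (fac w l) = (fun u : Fin (l + 1) → α => fun k : Fin l => u k.castSucc) ''
      Set.range (fac w (l + 1)) := by
    rw [← Set.range_comp]
    rfl
  rw [h1]
  exact Set.ncard_image_le (finite_range_fac _ _)

/-- scales of low complexity -/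
lemma exists_scale {α : Type*} [Finite α] (w : ℕ → α) {C : ℝ} (hC : 0 ≤ C) {N : ℕ} (hN : 2 ≤ N)
    (h : (cx w N : ℝ) ≤ C * N) : ∃ l, N ≤ 2 * l ∧ (cx w l : ℝ) ≤ 2 * C * l ∧
      (cx w (l + 1) : ℝ) ≤ 3 * C + cx w l := by
  by_contra hcon
  push Not at hcon
  have key : ∀ k : ℕ, N - N / 2 + k ≤ N → (cx w (N - N / 2) : ℝ) + 3 * C * k
      ≤ cx w (N - N / 2 + k) := by
    intro k
    induction k with
    | zero => intro _; simp
    | succ k ih =>
      intro hk
      have h1 := ih (by omega)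
      have h2 : (cx w (N - N / 2 + k) : ℝ) ≤ 2 * C * ((N - N / 2 + k : ℕ) : ℝ) := by
        have h3 : (cx w (N - N / 2 + k) : ℝ) ≤ cx w N := by
          exact_mod_cast cx_mono w (by omega : N - N / 2 + k ≤ N)
        refine h3.trans (h.trans ?_)
        have h4 : (N : ℝ) ≤ 2 * ((N - N / 2 + k : ℕ) : ℝ) := by
          exact_mod_cast (by omega : N ≤ 2 * (N - N / 2 + k))
        nlinarith
      have h3 := hcon (N - N / 2 + k) (by omega) h2
      rw [← add_assoc]
      push_cast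
      linarith
  have h1 := key (N / 2) (by omega)
  rw [show N - N / 2 + N / 2 = N by omega] at h1
  have h2 : (N : ℝ) ≤ 3 * ((N / 2 : ℕ) : ℝ) := by
    exact_mod_cast (by omega : N ≤ 3 * (N / 2))
  have h3 : (1 : ℝ) ≤ cx w (N - N / 2) := by
    have : 0 < cx w (N - N / 2) := by
      unfold cx
      rw [Set.ncard_pos (finite_range_fac _ _)]
      exact Set.range_nonempty _
    exact_mod_cast this
  nlinarith

/-- **Superlinear complexity.** -/
theorem superlinear {α : Type*} [Finite α] (Z : Sys α) {θ : ℝ}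
    (hθ : Tendsto (fun k : ℕ => (Z.oo k : ℝ) / k) atTop (𝓝 θ))
    (h : θ * Real.log Z.q ≤ Real.log Z.p ∨ Irrational (Real.log Z.p / (θ * Real.log Z.q))) :
    Tendsto (fun n : ℕ => (cx Z.w n : ℝ) / n) atTop atTop := by
  classical
  by_cases hw : θ * Real.log Z.q ≤ Real.log Z.p
  · apply Z.superlinear_sub
    intro ε hε
    exact Z.le_exp hθ (by linarith)
  push Not at hw
  have hirr := h.resolve_left (not_le.2 hw)
  by_contra hcon
  rw [tendsto_atTop] at hcon
  push Not at hcon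
  obtain ⟨C0, hC0⟩ := hcon
  set C : ℝ := |C0| with hCd
  have hC : 0 ≤ C := abs_nonneg _
  have hfr : ∀ k : ℕ, ∃ N, k ≤ N ∧ (cx Z.w N : ℝ) ≤ C * N := by
    intro k
    have h1 := (Filter.not_eventually.1 hC0).and_eventually (eventually_ge_atTop (k + 1))
    obtain ⟨N, h2, h3⟩ := h1.exists
    refine ⟨N, by omega, ?_⟩
    push Not at h2
    have hN : (0 : ℝ) < N := by
      have : 0 < N := by omega
      exact_mod_cast this
    rw [div_lt_iff₀ hN] at h2
    have := le_abs_self C0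
    nlinarith
  have hsc : ∀ k : ℕ, ∃ l, k + 1 ≤ l ∧ (cx Z.w l : ℝ) ≤ 2 * C * l ∧
      (cx Z.w (l + 1) : ℝ) ≤ 3 * C + cx Z.w l := by
    intro k
    obtain ⟨N, hN1, hN2⟩ := hfr (2 * (k + 1) + 2)
    obtain ⟨l, h1, h2, h3⟩ := exists_scale Z.w hC (by omega) hN2
    exact ⟨l, by omega, h2, h3⟩
  choose l hl1 hl2 hl3 using hsc
  refine Ctx.absurd_of (α := α) ⟨Z, θ, l, ⌈6 * C⌉₊, 2 * C, ?_, fun n => by have := hl1 n; omega,
    hl2, ?_, hθ⟩ (by simpa using hw) hirr
  · exact tendsto_atTop_mono (fun n => (Nat.le_succ n).trans (hl1 n)) tendsto_id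
  · intro n
    have h1 := hl3 n
    have h2 : 6 * C ≤ (⌈6 * C⌉₊ : ℝ) := Nat.le_ceil _
    have h3 : ((2 * cx Z.w (l n + 1) : ℕ) : ℝ) ≤ ((⌈6 * C⌉₊ + 2 * cx Z.w (l n) : ℕ) : ℝ) := by
      push_cast
      linarith
    exact_mod_cast h3

end Pool.Agent.TH932.Asm
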