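import Mathlib
import Pool.Agent.TH932.Asm4

set_option autoImplicit false

/-!
# The complexity theorem in a form ready for applications
-/

namespace Pool.Agent.TH932.App

open Filter Topology Pool.Agent.TH932.Words Pool.Agent.TH932.Orb Pool.Agent.TH932.Asm

/-- if the factor of `w` at `i` is determined by the factor of `u` at `φ i`, then `w` has at most
as many factors as `u` -/
lemma cx_le_of_dep {α β : Type*} [Finite β] {w : ℕ → α} {u : ℕ → β} {n m : ℕ} (φ : ℕ → ℕ)
    (h : ∀ i j, Eqv u m (φ i) (φ j) → Eqv w n i j) : cx w n ≤ cx u m := by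
  classical
  have hfin := finite_range_fac u m
  set F : (Fin m → β) → (Fin n → α) := fun v =>
    if hv : ∃ i, fac u m (φ i) = v then fac w n hv.choose else fac w n 0 with hF
  have hsub : Set.range (fac w n) ⊆ F '' Set.range (fac u m) := by
    rintro _ ⟨i, rfl⟩
    refine ⟨fac u m (φ i), ⟨φ i, rfl⟩, ?_⟩
    have hv : ∃ j, fac u m (φ j) = fac u m (φ i) := ⟨i, rfl⟩
    simp only [hF]
    rw [dif_pos hv]
    exact fac_eq.2 (h _ _ (fac_eq.1 hv.choose_spec))
  unfold cx
  exact (Set.ncard_le_ncard hsub (hfin.image _)).trans (Set.ncard_image_le hfin)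

/-- comparison of superlinear growth -/
lemma tendsto_of_le {f g : ℕ → ℕ} {a : ℕ} (ha : 0 < a) (hg : Monotone g)
    (hfg : ∀ n, f n ≤ g (a * n)) (hf : Tendsto (fun n : ℕ => (f n : ℝ) / n) atTop atTop) :
    Tendsto (fun n : ℕ => (g n : ℝ) / n) atTop atTop := by
  rw [tendsto_atTop] at hf ⊢
  intro A
  obtain ⟨n0, hn0⟩ := eventually_atTop.1 (hf (2 * a * |A|))
  filter_upwards [eventually_ge_atTop (a * (n0 + 1))] with N hN
  set n := N / a with hn
  have h1 : n0 + 1 ≤ n := by
    rw [hn, Nat.le_div_iff_mul_le ha, mul_comm]; exact hN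
  have h2 : a * n ≤ N := Nat.mul_div_le N a
  have h3 : N < a * (n + 1) := by
    rw [hn]; exact Nat.lt_mul_div_succ N ha
  have h4 := hn0 n (by omega)
  have hnpos : (0 : ℝ) < n := by
    have : 0 < n := by omega
    exact_mod_cast this
  have hNpos : (0 : ℝ) < N := by
    have : 0 < N := by
      have : 0 < a * n := Nat.mul_pos ha (by omega)
      omega
    exact_mod_cast this
  rw [le_div_iff₀ hnpos] at h4
  rw [le_div_iff₀ hNpos]
  have h5 : (f n : ℝ) ≤ g N := by
    exact_mod_cast (hfg n).trans (hg h2)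
  have h6 : (N : ℝ) ≤ 2 * a * n := by
    have : N ≤ 2 * a * n := by nlinarith
    exact_mod_cast this
  have h7 : A * N ≤ |A| * (2 * a * n) := by
    have := le_abs_self A
    have := abs_nonneg A
    calc A * N ≤ |A| * N := by gcongr
      _ ≤ |A| * (2 * a * n) := by gcongr
  nlinarith

/-- **Superlinear complexity, ready for applications.** -/
theorem superlinear_of {α : Type*} [Finite α] {p q : ℕ} (hp : 2 ≤ p) (hq : 2 ≤ q)
    (hpq : IsCoprime (q : ℤ) (p : ℤ)) (δ : α → ℕ) (β : α → ℤ) (w : ℕ → α) (y : ℕ → ℤ)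
    (hrec : ∀ k, (p : ℤ) * y (k + 1) = (q : ℤ) ^ δ (w k) * y k + β (w k))
    (hinj : Function.Injective y) {θ : ℝ}
    (hθ : Tendsto (fun k : ℕ => ((∑ i ∈ Finset.range k, δ (w i) : ℕ) : ℝ) / k) atTop (𝓝 θ))
    (h : θ * Real.log q ≤ Real.log p ∨ Irrational (Real.log p / (θ * Real.log q))) :
    Tendsto (fun n : ℕ => (cx w n : ℝ) / n) atTop atTop := by
  classical
  have := Fintype.ofFinite α
  set M : ℕ := p + ∑ a : α, (q ^ δ a + (β a).natAbs) with hM
  have h1 : ∀ a, q ^ δ a + (β a).natAbs ≤ M := by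
    intro a
    have := Finset.single_le_sum (f := fun a => q ^ δ a + (β a).natAbs)
      (fun i _ => Nat.zero_le _) (Finset.mem_univ a)
    omega
  let Z : Sys α :=
    { p := p, q := q, M := M, w := w, δ := δ, β := β, y := y, hp := hp, hq := hq, hpq := hpq
      hpM := by omega
      hqM := fun a => by have := h1 a; omega
      hβM := fun a => by
        have h2 := h1 a
        have h3 : |β a| = ((β a).natAbs : ℤ) := Int.abs_eq_natAbs _
        rw [h3]
        exact_mod_cast (by omega : (β a).natAbs ≤ M)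
      hrec := hrec, hinj := hinj }
  exact superlinear Z hθ h

end Pool.Agent.TH932.App
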