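import Mathlib
import Pool.Agent.TH932.App

set_option autoImplicit false

/-!
# The case of a single multiplier
-/

namespace Pool.Agent.TH932.App

open Filter Topology Pool.Agent.TH932.Words

lemma irr_log {p q : ℕ} (hp : 2 ≤ p) (hq : 2 ≤ q) (h : IsCoprime (q : ℤ) (p : ℤ)) :
    Irrational (Real.log p / Real.log q) := by
  have hlp : 0 < Real.log p := Real.log_pos (by exact_mod_cast hp)
  have hlq : 0 < Real.log q := Real.log_pos (by exact_mod_cast hq)
  rintro ⟨r, hr⟩
  have hr0 : (0 : ℝ) < (r : ℝ) := by rw [hr]; positivity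
  have hr1 : 0 < r := by exact_mod_cast hr0
  have hnum : 0 < r.num := Rat.num_pos.2 hr1
  obtain ⟨a, ha⟩ : ∃ a : ℕ, r.num = a := ⟨r.num.toNat, (Int.toNat_of_nonneg hnum.le).symm⟩
  have hden : 0 < r.den := r.den_pos
  have h1 : (r : ℝ) = (a : ℝ) / r.den := by
    rw [Rat.cast_def, ha, Int.cast_natCast]
  rw [h1] at hr
  have h2 : (r.den : ℝ) * Real.log p = a * Real.log q := by
    have : (r.den : ℝ) ≠ 0 := by positivity
    field_simp at hr
    linarith
  have h3 : Real.log ((p : ℝ) ^ r.den) = Real.log ((q : ℝ) ^ a) := by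
    rw [Real.log_pow, Real.log_pow]; exact h2
  have hp0 : (0 : ℝ) < p := by positivity
  have hq0 : (0 : ℝ) < q := by positivity
  have h4 : (p : ℝ) ^ r.den = (q : ℝ) ^ a :=
    Real.log_injOn_pos (Set.mem_Ioi.2 (by positivity)) (Set.mem_Ioi.2 (by positivity)) h3
  have h5 : ((p : ℤ)) ^ r.den = (q : ℤ) ^ a := by exact_mod_cast h4
  have h6 : IsCoprime ((q : ℤ) ^ a) ((p : ℤ) ^ r.den) := (h.pow_left).pow_right
  rw [h5] at h6
  have h7 : IsUnit ((q : ℤ) ^ a) := isCoprime_self.1 h6
  have ha0 : a ≠ 0 := by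
    rintro rfl
    rw [ha] at hnum
    simp at hnum
  have h8 : (1 : ℤ) < (q : ℤ) ^ a := one_lt_pow₀ (by exact_mod_cast (by omega : 1 < q)) ha0
  rcases Int.isUnit_iff.1 h7 with h9 | h9 <;> omega

lemma cx_tail {α : Type*} [Finite α] (w : ℕ → α) (n0 n : ℕ) :
    cx (fun k => w (n0 + k)) n ≤ cx w n :=
  cx_le_of_dep (fun i => n0 + i) fun i j h k hk => by
    have := h k hk
    rw [add_assoc, add_assoc] at this
    exact this

/-- **Superlinear complexity for a single multiplier.** -/
theorem superlinear_affine {α : Type*} [Finite α] {p q : ℕ} (hp : 2 ≤ p) (hq : 2 ≤ q)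
    (hpq : IsCoprime (q : ℤ) (p : ℤ)) (β : α → ℤ) (w : ℕ → α) (y : ℕ → ℤ)
    (hrec : ∀ k, (p : ℤ) * y (k + 1) = (q : ℤ) * y k + β (w k)) (n0 : ℕ)
    (hinj : Function.Injective fun k => y (n0 + k)) :
    Tendsto (fun n : ℕ => (cx w n : ℝ) / n) atTop atTop := by
  have hmain := superlinear_of hp hq hpq (fun _ : α => 1) β (fun k => w (n0 + k))
    (fun k => y (n0 + k)) (by
      intro k
      rw [← add_assoc, pow_one]
      exact hrec _) hinj (θ := 1) (by
      refine tendsto_const_nhds.congr' ?_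
      filter_upwards [eventually_gt_atTop 0] with k hk
      have : (k : ℝ) ≠ 0 := by positivity
      simp [this]) (by
      right
      rw [one_mul]
      exact irr_log hp hq hpq)
  refine tendsto_atTop_mono (fun n => ?_) hmain
  have := cx_tail w n0 n
  gcongr

end Pool.Agent.TH932.App
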