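import Mathlib
import Pool.Agent.TH932.Germs

set_option autoImplicit false

/-!
# The linear form attached to a sequence of affine recursions
-/

namespace Pool.Agent.TH932.Core

open MvPolynomial Pool.Agent.TH932.Abs
open scoped Polynomial PowerSeries

variable {K G : Type*} [Field K] [Field G] [Algebra K G] {r : ℕ}

/-- lower bounds for the order of values -/
lemma ev_low {S : ℝ → Set G} (hS : Filt K S) {α : G} {z : Fin r → G} {Λ c : ℝ} (hΛ : 0 ≤ Λ)
    (hc : 0 ≤ c) (hα : α ∈ S (-Λ)) (hz : ∀ i, z i ∈ S (-c)) {m D : ℕ}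
    {P : MvPolynomial (Fin r) K[X]} (h1 : ∀ ν ∈ P.support, ν.degree ≤ m)
    (h2 : ∀ ν, (coeff ν P).natDegree ≤ D) : ev K α z P ∈ S (-(Λ * D + c * m)) := by
  classical
  have haev : ∀ f : K[X], f.natDegree ≤ D → Polynomial.aeval α f ∈ S (-(Λ * D)) := by
    intro f hf
    rw [Polynomial.aeval_eq_sum_range]
    refine Finset.sum_induction _ (fun g => g ∈ S (-(Λ * D))) (fun _ _ => hS.add_mem)
      (hS.zero_mem _) ?_
    intro i hi
    rw [Algebra.smul_def]
    have := hS.mul_mem (hS.alg_mem (f.coeff i)) (hS.pow_mem hα i)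
    refine hS.anti ?_ this
    have : (i : ℝ) ≤ D := by
      have := Finset.mem_range.1 hi
      exact_mod_cast (show i ≤ D by omega)
    nlinarith
  have hprod : ∀ (ν : Fin r →₀ ℕ) (s : Finset (Fin r)),
      ∏ i ∈ s, z i ^ ν i ∈ S (-(c * (∑ i ∈ s, ν i : ℕ))) := by
    intro ν s
    induction s using Finset.induction_on with
    | empty => simpa using hS.alg_mem 1
    | insert a s ha ih =>
      rw [Finset.prod_insert ha, Finset.sum_insert ha]
      have := hS.mul_mem (hS.pow_mem (hz a) (ν a)) ih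
      refine hS.anti (le_of_eq ?_) this
      push_cast; ring
  rw [← MvPolynomial.support_sum_monomial_coeff P, map_sum]
  refine Finset.sum_induction _ (fun g => g ∈ S (-(Λ * D + c * m))) (fun _ _ => hS.add_mem)
      (hS.zero_mem _) ?_
  intro ν hν
  have h3 : ev K α z (MvPolynomial.monomial ν (coeff ν P))
      = Polynomial.aeval α (coeff ν P) * ∏ i, z i ^ ν i := by
    rw [ev, eval₂Hom_monomial, Finsupp.prod_fintype _ _ (by simp)]
    rfl
  rw [h3]
  have h4 := hS.mul_mem (haev _ (h2 ν)) (hprod ν Finset.univ)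
  refine hS.anti ?_ h4
  have h5 : ((∑ i, ν i : ℕ) : ℝ) ≤ m := by
    have := h1 ν hν
    rw [Finsupp.degree_eq_sum] at this
    exact_mod_cast this
  nlinarith

/-- data of affine recursions -/
structure Dat (K : Type*) {G : Type*} [Field K] [Field G] [Algebra K G] (r : ℕ) where
  N : G
  A : Fin r → G
  Q : Fin r → G
  Y : ℕ → G
  s : ℕ → Fin r
  i0 : Fin r
  u : Fin r → K
  c : ℕ
  hN : N ≠ 0
  hA : ∀ i, A i ≠ 0
  hrec : ∀ j, N * Y (j + 1) = A (s j) * Y j + Q (s j)
  hu : ∀ i, algebraMap K G (u i) = A i0 / A i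

namespace Dat

variable (d : Dat K (G := G) r)

/-- the small element -/
noncomputable def al : G := d.N / d.A d.i0

/-- the values of the linear variables -/
noncomputable def zz (i : Fin r) : G := d.al ^ d.c * ((d.Q i + d.Y 0 * (d.A i - d.N)) / d.A i)

/-- coefficients -/
noncomputable def cc (j : ℕ) : K := ∏ i ∈ Finset.range j, d.u (d.s i)

lemma al_ne : d.al ≠ 0 := div_ne_zero d.hN (d.hA _)

lemma cc_ne (j : ℕ) : algebraMap K G (d.cc j) ≠ 0 := by
  unfold cc
  rw [map_prod]
  apply Finset.prod_ne_zero_iff.2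
  intro i _
  rw [d.hu]
  exact div_ne_zero (d.hA _) (d.hA _)

lemma tele (E : ℕ) : ∑ j ∈ Finset.range E, algebraMap K G (d.cc j) * d.al ^ j * d.zz (d.s j)
    = d.al ^ d.c * (algebraMap K G (d.cc E) * d.al ^ E * (d.Y E - d.Y 0)) := by
  induction E with
  | zero => simp
  | succ E ih =>
    rw [Finset.sum_range_succ, ih]
    have h1 : algebraMap K G (d.cc (E + 1)) = algebraMap K G (d.cc E) * (d.A d.i0 / d.A (d.s E)) := by
      unfold cc
      rw [Finset.prod_range_succ, map_mul, d.hu]
    rw [h1, pow_succ]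
    have h2 : d.A (d.s E) ≠ 0 := d.hA _
    have h3 : d.A d.i0 ≠ 0 := d.hA _
    have h4 : d.al * (d.A d.i0 / d.A (d.s E)) * (d.Y (E + 1) - d.Y 0)
        = (d.Y E - d.Y 0) + (d.Q (d.s E) + d.Y 0 * (d.A (d.s E) - d.N)) / d.A (d.s E) := by
      unfold al
      field_simp
      linear_combination d.hrec E
    unfold zz
    linear_combination (-(d.al ^ d.c * algebraMap K G (d.cc E) * d.al ^ E)) * h4

/-- the coefficient series -/
noncomputable def F (i : Fin r) : K⟦X⟧ := PowerSeries.mk fun j => if d.s j = i then d.cc j else 0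

/-- the linear form -/
noncomputable def l : MvPolynomial (Fin r) K⟦X⟧ := ∑ i, C (d.F i) * X i

lemma l_deg : ∀ ν ∈ d.l.support, ν.degree ≤ 1 := by
  classical
  refine Std.supp_sum (S := {ν | ν.degree ≤ 1}) _ _ ?_
  intro i _
  apply Std.supp_C_mul
  intro ν hν
  rw [MvPolynomial.support_X, Finset.mem_singleton] at hν
  rw [hν]
  simp

lemma l_trunc (E : ℕ) : ∃ (P : MvPolynomial (Fin r) K[X]) (H : MvPolynomial (Fin r) K⟦X⟧),
    d.l = io K r P + C (PowerSeries.X ^ E) * H ∧ ev K d.al d.zz P
      = d.al ^ d.c * (algebraMap K G (d.cc E) * d.al ^ E * (d.Y E - d.Y 0)) := by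
  classical
  have h : ∀ i, ∃ g : K⟦X⟧, d.F i - (PowerSeries.trunc E (d.F i) : K⟦X⟧) = PowerSeries.X ^ E * g := by
    intro i
    have : PowerSeries.X ^ E ∣ d.F i - (PowerSeries.trunc E (d.F i) : K⟦X⟧) := by
      rw [PowerSeries.X_pow_dvd_iff]
      intro m hm
      rw [map_sub, Polynomial.coeff_coe, PowerSeries.coeff_trunc, if_pos hm, sub_self]
    exact this
  choose g hg using h
  refine ⟨∑ i, C (PowerSeries.trunc E (d.F i)) * X i, ∑ i, C (g i) * X i, ?_, ?_⟩
  · rw [map_sum, Finset.mul_sum, ← Finset.sum_add_distrib]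
    unfold l
    apply Finset.sum_congr rfl
    intro i _
    rw [map_mul, io_C, io_X, ← mul_assoc, ← C_mul, ← hg, ← add_mul, ← C_add]
    congr 2
    ring
  · rw [← d.tele, map_sum]
    have h1 : ∀ i, ev K d.al d.zz (C (PowerSeries.trunc E (d.F i)) * X i) =
        ∑ j ∈ Finset.range E, if d.s j = i then
          algebraMap K G (d.cc j) * d.al ^ j * d.zz i else 0 := by
      intro i
      have htr : PowerSeries.trunc E (d.F i)
          = ∑ j ∈ Finset.range E, Polynomial.monomial j (PowerSeries.coeff j (d.F i)) := by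
        ext k
        simp [Polynomial.finsetSum_coeff, Polynomial.coeff_monomial, PowerSeries.coeff_trunc]
      rw [map_mul, ev_C, ev_X, htr, map_sum, Finset.sum_mul]
      apply Finset.sum_congr rfl
      intro j _
      rw [Polynomial.aeval_monomial]
      unfold F
      rw [PowerSeries.coeff_mk]
      split_ifs
      · rfl
      · simp
    simp only [h1]
    rw [Finset.sum_comm]
    apply Finset.sum_congr rfl
    intro j _
    rw [Finset.sum_ite_eq]
    simp

end Dat

end Pool.Agent.TH932.Core
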