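import Mathlib
import Pool.Agent.TH932.Core

set_option autoImplicit false

/-!
# Sequences of integers generated by few affine maps of comparable size
-/

namespace Pool.Agent.TH932.AT

open Filter Pool.Agent.TH932.Abs Pool.Agent.TH932.Germs Pool.Agent.TH932.Core

variable {L : ℕ → ℝ}

lemma mem_Rb (hL : Tendsto L atTop atTop) {b : ℕ} {M : Submonoid ℤ} {t : ℝ} {a : ℕ → ℚ}
    (h : ∀ ε : ℝ, 0 < ε → ∀ᶠ n in (UU : Filter ℕ), ∃ e m k : ℤ, e ∈ M ∧ (e : ℚ) * a n = (b : ℚ) ^ k * m ∧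
      (t - ε) * L n ≤ k * Real.log b) : gm a ∈ SS L (Rb b M) t := by
  rw [mem_SS]
  intro ε hε
  filter_upwards [h ε hε, L_nonneg hL] with n ⟨e, m, k, he, h1, h2⟩ h3
  refine ⟨1, e, m, k, one_ne_zero, ?_, he, ?_, h2⟩
  · simp only [Int.cast_one, abs_one]
    exact Real.one_le_exp (by positivity)
  · simpa using h1

lemma int_mem_Rb (hL : Tendsto L atTop atTop) {b : ℕ} {M : Submonoid ℤ} (m : ℕ → ℤ) :
    gm (fun n => (m n : ℚ)) ∈ SS L (Rb b M) 0 := by
  apply mem_Rb hL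
  intro ε hε
  filter_upwards [L_nonneg hL] with n h3
  refine ⟨1, m n, 0, M.one_mem, by simp, ?_⟩
  simp only [Int.cast_zero, zero_mul]
  nlinarith

/-- a value taken along the ultrafilter -/
lemma exists_val {r : ℕ} (f : ℕ → Fin r) : ∃ i, ∀ᶠ n in (UU : Filter ℕ), f n = i := by
  by_contra hcon
  push Not at hcon
  have h1 : ∀ᶠ n in (UU : Filter ℕ), ∀ i, f n ≠ i := by
    rw [eventually_all]
    intro i
    exact hcon i
  obtain ⟨n, hn⟩ := h1.exists
  exact hn (f n) rfl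

/-- a family of counterexamples -/
structure Fam (p q r : ℕ) (θ B : ℝ) where
  L : ℕ → ℕ
  o : ℕ → Fin r → ℕ
  Q : ℕ → Fin r → ℤ
  s : ℕ → ℕ → Fin r
  y : ℕ → ℕ → ℤ
  hL : ∀ n : ℕ, 1 ≤ 1 / ((n : ℝ) + 1) * L n
  ho : ∀ n i, |(o n i : ℝ) - θ * L n| ≤ 1 / ((n : ℝ) + 1) * L n
  hQ : ∀ n i, |(Q n i : ℝ)| ≤ Real.exp (B * L n)
  hy : ∀ n, |(y n 0 : ℝ)| ≤ Real.exp (B * L n)
  hrec : ∀ n, ∀ j < n, (p : ℤ) ^ L n * y n (j + 1) = (q : ℤ) ^ (o n (s n j)) * y n j + Q n (s n j)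
  hne : ∀ n i j, i < j → j ≤ n → y n i ≠ y n j

namespace Fam

variable {p q r : ℕ} {θ B : ℝ} (F : Fam p q r θ B)

/-- the scale -/
noncomputable def Lr (n : ℕ) : ℝ := F.L n

lemma tL : Tendsto F.Lr atTop atTop := by
  refine tendsto_atTop_mono (f := fun n : ℕ => (n : ℝ) + 1) ?_ ?_
  · intro n
    have := F.hL n
    have h1 : (0 : ℝ) < (n : ℝ) + 1 := by positivity
    rw [div_mul_eq_mul_div, le_div_iff₀ h1] at this
    unfold Lr
    linarith
  · exact tendsto_atTop_add_const_right _ _ tendsto_natCast_atTop_atTop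

lemma small_ev {ε : ℝ} (hε : 0 < ε) : ∀ᶠ n : ℕ in (UU : Filter ℕ), 1 / ((n : ℝ) + 1) ≤ ε := by
  apply ev_of_atTop
  obtain ⟨N, hN⟩ := exists_nat_gt (1 / ε)
  filter_upwards [eventually_ge_atTop N] with n hn
  have h1 : (0 : ℝ) < (n : ℝ) + 1 := by positivity
  rw [div_le_iff₀ h1]
  rw [div_lt_iff₀ hε] at hN
  have : (N : ℝ) ≤ n := by exact_mod_cast hn
  nlinarith

/-- the limit word -/
noncomputable def sl (j : ℕ) : Fin r := (exists_val fun n => F.s n j).choose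

lemma sl_spec (j : ℕ) : ∀ᶠ n in (UU : Filter ℕ), F.s n j = F.sl j :=
  (exists_val fun n => F.s n j).choose_spec

/-- germs of the data -/
noncomputable def gN : GG := gm fun n => (p : ℚ) ^ F.L n
/-- germs of the data -/
noncomputable def gA (i : Fin r) : GG := gm fun n => (q : ℚ) ^ F.o n i
/-- germs of the data -/
noncomputable def gQ (i : Fin r) : GG := gm fun n => (F.Q n i : ℚ)
/-- germs of the data -/
noncomputable def gY (j : ℕ) : GG := gm fun n => (F.y n j : ℚ)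

lemma gN_ne (hp : 2 ≤ p) : F.gN ≠ 0 := by
  unfold gN
  rw [gm_ne_zero]
  refine Eventually.of_forall fun n => ?_
  have : p ≠ 0 := by omega
  positivity

lemma gA_ne (hq : 2 ≤ q) (i : Fin r) : F.gA i ≠ 0 := by
  unfold gA
  rw [gm_ne_zero]
  refine Eventually.of_forall fun n => ?_
  have : q ≠ 0 := by omega
  positivity

lemma g_rec (j : ℕ) : F.gN * F.gY (j + 1) = F.gA (F.sl j) * F.gY j + F.gQ (F.sl j) := by
  unfold gN gY gA gQ
  rw [gm_mul, gm_mul, gm_add, gm_eq]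
  filter_upwards [F.sl_spec j, ev_of_atTop (eventually_gt_atTop j)] with n h1 h2
  have := F.hrec n j h2
  rw [h1] at this
  exact_mod_cast this

lemma pow_eq_exp {b : ℕ} (hb : 2 ≤ b) (k : ℕ) : (b : ℝ) ^ k = Real.exp (k * Real.log b) := by
  have hpos : (0 : ℝ) < b := by
    have : 0 < b := by omega
    exact_mod_cast this
  rw [← Real.rpow_natCast, Real.rpow_def_of_pos hpos, mul_comm]

lemma o_ev {ε : ℝ} (hε : 0 < ε) (i : Fin r) : ∀ᶠ n in (UU : Filter ℕ),
    |(F.o n i : ℝ) - θ * F.Lr n| ≤ ε * F.Lr n := by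
  filter_upwards [small_ev hε, L_nonneg F.tL] with n h1 h2
  refine (F.ho n i).trans ?_
  unfold Lr at *
  gcongr

lemma A_div_mem (hq : 2 ≤ q) (i i0 : Fin r) : F.gA i0 / F.gA i ∈ KK F.Lr F.tL := by
  have hlq : 0 < Real.log q := Real.log_pos (by exact_mod_cast hq)
  have key : ∀ i i0 : Fin r, Negl F.Lr (fun n => (q : ℤ) ^ (F.o n i0 - F.o n i)) := by
    intro i i0 ε hε
    have hε' : 0 < ε / (2 * Real.log q) := by positivity
    filter_upwards [F.o_ev hε' i, F.o_ev hε' i0, L_nonneg F.tL] with n h1 h2 h3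
    push_cast
    rw [abs_pow, Nat.abs_cast, pow_eq_exp hq]
    apply Real.exp_le_exp.2
    have h4 : ((F.o n i0 - F.o n i : ℕ) : ℝ) ≤ 2 * (ε / (2 * Real.log q)) * F.Lr n := by
      rcases le_total (F.o n i0) (F.o n i) with h | h
      · rw [Nat.sub_eq_zero_of_le h]
        simp only [Nat.cast_zero]
        positivity
      · rw [Nat.cast_sub h]
        have := abs_le.1 h1
        have := abs_le.1 h2
        linarith
    calc ((F.o n i0 - F.o n i : ℕ) : ℝ) * Real.log q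
        ≤ (2 * (ε / (2 * Real.log q)) * F.Lr n) * Real.log q := by gcongr
      _ = ε * F.Lr n := by field_simp
  refine ⟨_, _, key i i0, key i0 i, ?_, ?_⟩
  · refine Eventually.of_forall fun n => ?_
    have : q ≠ 0 := by omega
    positivity
  · unfold gA
    rw [gm_div]
    congr 1
    funext n
    have hq0 : (q : ℚ) ≠ 0 := by
      have : q ≠ 0 := by omega
      exact_mod_cast this
    push_cast
    rw [div_eq_div_iff (pow_ne_zero _ hq0) (pow_ne_zero _ hq0), ← pow_add, ← pow_add]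
    congr 1
    omega

/-- the data in the field of germs -/
noncomputable def dat (hp : 2 ≤ p) (hq : 2 ≤ q) (c : ℕ) : Dat (KK F.Lr F.tL) (G := GG) r where
  N := F.gN
  A := F.gA
  Q := F.gQ
  Y := F.gY
  s := F.sl
  i0 := F.sl 0
  u := fun i => ⟨F.gA (F.sl 0) / F.gA i, F.A_div_mem hq i (F.sl 0)⟩
  c := c
  hN := F.gN_ne hp
  hA := F.gA_ne hq
  hrec := F.g_rec
  hu := fun i => rfl

/-! memberships -/

/-- the `p`-place -/
abbrev Sp (t : ℝ) : Set GG := SS F.Lr (Rb p (cop p)) t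
/-- the `q`-place -/
abbrev Sq (t : ℝ) : Set GG := SS F.Lr (Rb q ⊥) t
/-- the real place -/
abbrev Si (t : ℝ) : Set GG := SS F.Lr Rinf t

lemma fSp (hp : 2 ≤ p) : Filt (KK F.Lr F.tL) F.Sp := (pre_b hp _).filt F.tL
lemma fSq (hq : 2 ≤ q) : Filt (KK F.Lr F.tL) F.Sq := (pre_b hq _).filt F.tL
lemma fSi : Filt (KK F.Lr F.tL) F.Si := pre_inf.filt F.tL

lemma N_Sp : F.gN ∈ F.Sp (Real.log p) := by
  apply mem_Rb F.tL
  intro ε hε
  filter_upwards [L_nonneg F.tL] with n h3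
  refine ⟨1, 1, F.L n, Submonoid.one_mem _, by simp, ?_⟩
  unfold Lr at *
  push_cast
  nlinarith

lemma N_Sp0 : F.gN ∈ F.Sp 0 := by
  have := int_mem_Rb F.tL (b := p) (M := cop p) (fun n => (p : ℤ) ^ F.L n)
  push_cast at this
  exact this

lemma N_Sq : F.gN ∈ F.Sq 0 := by
  have := int_mem_Rb F.tL (b := q) (M := ⊥) (fun n => (p : ℤ) ^ F.L n)
  push_cast at this
  exact this

lemma A_Sp (i : Fin r) : F.gA i ∈ F.Sp 0 := by
  have := int_mem_Rb F.tL (b := p) (M := cop p) (fun n => (q : ℤ) ^ F.o n i)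
  push_cast at this
  exact this

lemma A_Sq (i : Fin r) : F.gA i ∈ F.Sq 0 := by
  have := int_mem_Rb F.tL (b := q) (M := ⊥) (fun n => (q : ℤ) ^ F.o n i)
  push_cast at this
  exact this

lemma Q_Sp (i : Fin r) : F.gQ i ∈ F.Sp 0 := int_mem_Rb F.tL fun n => F.Q n i
lemma Q_Sq (i : Fin r) : F.gQ i ∈ F.Sq 0 := int_mem_Rb F.tL fun n => F.Q n i
lemma Y_Sp (j : ℕ) : F.gY j ∈ F.Sp 0 := int_mem_Rb F.tL fun n => F.y n j
lemma Y_Sq (j : ℕ) : F.gY j ∈ F.Sq 0 := int_mem_Rb F.tL fun n => F.y n j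

lemma Ainv_Sp (hq : 2 ≤ q) (hpq : IsCoprime (q : ℤ) (p : ℤ)) (i : Fin r) :
    (F.gA i)⁻¹ ∈ F.Sp 0 := by
  unfold gA
  rw [gm_inv]
  apply mem_Rb F.tL
  intro ε hε
  filter_upwards [L_nonneg F.tL] with n h3
  have hq0 : (q : ℚ) ≠ 0 := by
    have : q ≠ 0 := by omega
    exact_mod_cast this
  refine ⟨(q : ℤ) ^ F.o n i, 1, 0, IsCoprime.pow_left hpq, ?_, ?_⟩
  · push_cast
    rw [mul_inv_cancel₀ (pow_ne_zero _ hq0)]; simp
  · simp only [Int.cast_zero, zero_mul]
    nlinarith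

lemma Ninv_Sp (hp : 2 ≤ p) : (F.gN)⁻¹ ∈ F.Sp (-Real.log p) := by
  unfold gN
  rw [gm_inv]
  apply mem_Rb F.tL
  intro ε hε
  filter_upwards [L_nonneg F.tL] with n h3
  refine ⟨1, 1, -(F.L n : ℤ), Submonoid.one_mem _, by simp, ?_⟩
  unfold Lr at *
  push_cast
  nlinarith

lemma Ainv_Sq (hq : 2 ≤ q) (i : Fin r) : (F.gA i)⁻¹ ∈ F.Sq (-(θ * Real.log q)) := by
  have hlq : 0 < Real.log q := Real.log_pos (by exact_mod_cast hq)
  unfold gA
  rw [gm_inv]
  apply mem_Rb F.tL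
  intro ε hε
  filter_upwards [F.o_ev (show 0 < ε / Real.log q by positivity) i] with n h3
  refine ⟨1, 1, -(F.o n i : ℤ), Submonoid.one_mem _, by simp, ?_⟩
  have h4 := (abs_le.1 h3).2
  have h5 : (F.o n i : ℝ) ≤ θ * F.Lr n + ε / Real.log q * F.Lr n := by linarith
  push_cast
  have h6 : (F.o n i : ℝ) * Real.log q ≤ (θ * F.Lr n + ε / Real.log q * F.Lr n) * Real.log q := by
    gcongr
  have h7 : (θ * F.Lr n + ε / Real.log q * F.Lr n) * Real.log q
      = (θ * Real.log q + ε) * F.Lr n := by field_simp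
  linarith

lemma Q_Si (i : Fin r) : F.gQ i ∈ F.Si (-B) := by
  unfold gQ
  rw [mem_SS]
  intro ε hε
  filter_upwards [L_nonneg F.tL] with n h3
  unfold Rinf
  push_cast
  refine (F.hQ n i).trans (Real.exp_le_exp.2 ?_)
  unfold Lr at *
  nlinarith

lemma Y0_Si : F.gY 0 ∈ F.Si (-B) := by
  unfold gY
  rw [mem_SS]
  intro ε hε
  filter_upwards [L_nonneg F.tL] with n h3
  unfold Rinf
  push_cast
  refine (F.hy n).trans (Real.exp_le_exp.2 ?_)
  unfold Lr at *
  nlinarith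

lemma Ninv_Si (hp : 2 ≤ p) : (F.gN)⁻¹ ∈ F.Si 0 := by
  unfold gN
  rw [gm_inv, mem_SS]
  intro ε hε
  filter_upwards [L_nonneg F.tL] with n h3
  unfold Rinf
  push_cast
  have h1 : (1 : ℝ) ≤ (p : ℝ) ^ F.L n := by
    apply one_le_pow₀
    exact_mod_cast (show 1 ≤ p by omega)
  rw [abs_inv, abs_of_nonneg (by positivity)]
  calc ((p : ℝ) ^ F.L n)⁻¹ ≤ 1 := inv_le_one_of_one_le₀ h1
    _ ≤ _ := Real.one_le_exp (by nlinarith)

lemma Ainv_Si (hq : 2 ≤ q) (i : Fin r) : (F.gA i)⁻¹ ∈ F.Si 0 := by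
  unfold gA
  rw [gm_inv, mem_SS]
  intro ε hε
  filter_upwards [L_nonneg F.tL] with n h3
  unfold Rinf
  push_cast
  have h1 : (1 : ℝ) ≤ (q : ℝ) ^ F.o n i := by
    apply one_le_pow₀
    exact_mod_cast (show 1 ≤ q by omega)
  rw [abs_inv, abs_of_nonneg (by positivity)]
  calc ((q : ℝ) ^ F.o n i)⁻¹ ≤ 1 := inv_le_one_of_one_le₀ h1
    _ ≤ _ := Real.one_le_exp (by nlinarith)

lemma NA_Si (hp : 2 ≤ p) (hq : 2 ≤ q) (i : Fin r) :
    F.gN * (F.gA i)⁻¹ ∈ F.Si (θ * Real.log q - Real.log p) := by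
  have hlq : 0 < Real.log q := Real.log_pos (by exact_mod_cast hq)
  unfold gA gN
  rw [gm_inv, gm_mul, mem_SS]
  intro ε hε
  filter_upwards [F.o_ev (show 0 < ε / Real.log q by positivity) i] with n h3
  unfold Rinf
  push_cast
  rw [abs_of_nonneg (by positivity), pow_eq_exp hp, pow_eq_exp hq, ← Real.exp_neg, ← Real.exp_add]
  apply Real.exp_le_exp.2
  have h4 := (abs_le.1 h3).1
  have h5 : θ * F.Lr n - ε / Real.log q * F.Lr n ≤ (F.o n i : ℝ) := by linarith
  have h6 : (θ * F.Lr n - ε / Real.log q * F.Lr n) * Real.log q ≤ (F.o n i : ℝ) * Real.log q := by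
    gcongr
  have h7 : (θ * F.Lr n - ε / Real.log q * F.Lr n) * Real.log q
      = (θ * Real.log q - ε) * F.Lr n := by field_simp
  unfold Lr at *
  nlinarith

lemma AN_Si (hp : 2 ≤ p) (hq : 2 ≤ q) (i : Fin r) :
    F.gA i * (F.gN)⁻¹ ∈ F.Si (Real.log p - θ * Real.log q) := by
  have hlq : 0 < Real.log q := Real.log_pos (by exact_mod_cast hq)
  unfold gA gN
  rw [gm_inv, gm_mul, mem_SS]
  intro ε hε
  filter_upwards [F.o_ev (show 0 < ε / Real.log q by positivity) i] with n h3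
  unfold Rinf
  push_cast
  rw [abs_of_nonneg (by positivity), pow_eq_exp hp, pow_eq_exp hq, ← Real.exp_neg, ← Real.exp_add]
  apply Real.exp_le_exp.2
  have h4 := (abs_le.1 h3).2
  have h5 : (F.o n i : ℝ) ≤ θ * F.Lr n + ε / Real.log q * F.Lr n := by linarith
  have h6 : (F.o n i : ℝ) * Real.log q ≤ (θ * F.Lr n + ε / Real.log q * F.Lr n) * Real.log q := by
    gcongr
  have h7 : (θ * F.Lr n + ε / Real.log q * F.Lr n) * Real.log q
      = (θ * Real.log q + ε) * F.Lr n := by field_simp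
  unfold Lr at *
  nlinarith

/-- a bound for all terms is contradictory -/
lemma false_of_bounded (hp : 2 ≤ p) (hq : 2 ≤ q) (hpq : IsCoprime (q : ℤ) (p : ℤ)) {B' : ℝ}
    (h : ∀ j, F.gY j ∈ F.Si (-B')) : False := by
  have hlp : 0 < Real.log p := Real.log_pos (by exact_mod_cast hp)
  have hSp := F.fSp hp
  have hSi := F.fSi
  obtain ⟨K, hK⟩ := exists_nat_gt (B' / Real.log p)
  rw [div_lt_iff₀ hlp] at hK
  obtain ⟨i, j, hij, heq⟩ : ∃ i j, i < j ∧ ∀ t : ℕ, t < K → F.sl (i + t) = F.sl (j + t) := by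
    obtain ⟨i, j, hij, h1⟩ := Finite.exists_ne_map_eq_of_infinite
      (fun i : ℕ => fun t : Fin K => F.sl (i + t))
    rcases lt_or_gt_of_ne hij with h2 | h2
    · exact ⟨i, j, h2, fun t ht => congrFun h1 ⟨t, ht⟩⟩
    · exact ⟨j, i, h2, fun t ht => (congrFun h1 ⟨t, ht⟩).symm⟩
  have hit : ∀ k, k ≤ K → F.gN ^ k * (F.gY (i + k) - F.gY (j + k))
      = (∏ t ∈ Finset.range k, F.gA (F.sl (i + t))) * (F.gY i - F.gY j) := by
    intro k
    induction k with
    | zero => intro _; simp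
    | succ k ih =>
      intro hk
      have h1 := ih (by omega)
      have h2 := F.g_rec (i + k)
      have h3 := F.g_rec (j + k)
      rw [← heq k (by omega)] at h3
      rw [Finset.prod_range_succ, pow_succ, ← add_assoc, ← add_assoc]
      linear_combination (F.gA (F.sl (i + k))) * h1 + F.gN ^ k * h2 - F.gN ^ k * h3
  have hprod : (∏ t ∈ Finset.range K, F.gA (F.sl (i + t))) ≠ 0 :=
    Finset.prod_ne_zero_iff.2 fun t _ => F.gA_ne hq _
  have hprodS : (∏ t ∈ Finset.range K, F.gA (F.sl (i + t)))⁻¹ ∈ F.Sp 0 := by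
    rw [← Finset.prod_inv_distrib]
    refine Finset.prod_induction _ (fun g => g ∈ F.Sp 0) ?_ ?_ ?_
    · intro a b ha hb
      simpa using hSp.mul_mem ha hb
    · simpa using hSp.alg_mem 1
    · intro t _; exact F.Ainv_Sp hq hpq _
  have hsub : ∀ {S : ℝ → Set GG}, Filt (KK F.Lr F.tL) S → ∀ {t : ℝ} {a b : GG}, a ∈ S t → b ∈ S t →
      a - b ∈ S t := by
    intro S hS t a b ha hb
    have h1 : -b ∈ S t := by
      have := hS.mul_mem (hS.alg_mem (-1)) hb
      simpa using this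
    rw [sub_eq_add_neg]
    exact hS.add_mem ha h1
  have hg : F.gY i - F.gY j = F.gN ^ K * (F.gY (i + K) - F.gY (j + K)) *
      (∏ t ∈ Finset.range K, F.gA (F.sl (i + t)))⁻¹ := by
    rw [hit K le_rfl, mul_comm (∏ t ∈ Finset.range K, F.gA (F.sl (i + t))), mul_assoc,
      mul_inv_cancel₀ hprod, mul_one]
  have h1 : F.gY i - F.gY j ∈ F.Sp (Real.log p * K) := by
    rw [hg]
    have := hSp.mul_mem (hSp.mul_mem (hSp.pow_mem F.N_Sp K) (hsub hSp (F.Y_Sp (i + K))
      (F.Y_Sp (j + K)))) hprodS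
    simpa using this
  have h2 : F.gY i - F.gY j ∈ F.Sq (-0) := by
    rw [neg_zero]; exact hsub (F.fSq hq) (F.Y_Sq i) (F.Y_Sq j)
  have h3 : F.gY i - F.gY j ∈ F.Si (-B') := hsub hSi (h i) (h j)
  have h0 : F.gY i - F.gY j = 0 := by
    by_contra h0
    have := product_formula F.tL hp hq h0 le_rfl h2 h1 h3
    linarith
  rw [sub_eq_zero] at h0
  unfold gY at h0
  rw [gm_eq] at h0
  obtain ⟨n, h4, h5⟩ := (h0.and (ev_of_atTop (eventually_gt_atTop j))).exists
  exact F.hne n i j hij h5.le (by exact_mod_cast h4)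

include F in
theorem contra (hp : 2 ≤ p) (hq : 2 ≤ q) (hpq : IsCoprime (q : ℤ) (p : ℤ))
    (hθ : θ * Real.log q ≤ Real.log p ∨ Irrational (θ * Real.log q / Real.log p)) (hB : 0 ≤ B) :
    False := by
  have hlp : 0 < Real.log p := Real.log_pos (by exact_mod_cast hp)
  have hlq : 0 < Real.log q := Real.log_pos (by exact_mod_cast hq)
  have hSp := F.fSp hp
  have hSq := F.fSq hq
  have hSi := F.fSi
  by_cases hc : θ * Real.log q ≤ Real.log p
  · -- contracting case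
    apply F.false_of_bounded hp hq hpq (B' := B)
    intro j
    induction j with
    | zero => exact F.Y0_Si
    | succ j ih =>
      have h1 : F.gY (j + 1) = F.gA (F.sl j) * (F.gN)⁻¹ * F.gY j + F.gQ (F.sl j) * (F.gN)⁻¹ := by
        have h2 := F.g_rec j
        have h3 := F.gN_ne hp
        field_simp
        linear_combination h2
      rw [h1]
      apply hSi.add_mem
      · have := hSi.mul_mem (hSi.anti (by linarith) (F.AN_Si hp hq (F.sl j)) :
          F.gA (F.sl j) * (F.gN)⁻¹ ∈ F.Si 0) ih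
        simpa using this
      · simpa using hSi.mul_mem (F.Q_Si (F.sl j)) (F.Ninv_Si hp)
  · have hirr := hθ.resolve_left hc
    push Not at hc
    set wp : ℝ := Real.log p with hwp
    set wi : ℝ := θ * Real.log q - Real.log p with hwi
    have hwi0 : 0 < wi := by rw [hwi]; linarith
    obtain ⟨c, hcB⟩ := exists_nat_ge (B / wi)
    rw [div_le_iff₀ hwi0] at hcB
    set d := F.dat hp hq c with hd
    have hal : d.al = F.gN * (F.gA (F.sl 0))⁻¹ := by
      rw [Dat.al, div_eq_mul_inv]; rfl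
    have hal' : d.al⁻¹ = F.gA (F.sl 0) * (F.gN)⁻¹ := by
      rw [hal, mul_inv, inv_inv, mul_comm]
    have hαp : d.al ∈ F.Sp wp := by
      rw [hal]; simpa using hSp.mul_mem F.N_Sp (F.Ainv_Sp hq hpq (F.sl 0))
    have hαi : d.al ∈ F.Si wi := by
      rw [hal]; exact F.NA_Si hp hq (F.sl 0)
    have hαq : d.al ∈ F.Sq (-(wp + wi)) := by
      rw [hal]
      have := hSq.mul_mem F.N_Sq (F.Ainv_Sq hq (F.sl 0))
      refine hSq.anti (le_of_eq ?_) this
      rw [hwi]; ring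
    have hαp' : d.al⁻¹ ∈ F.Sp (-wp) := by
      rw [hal']; simpa using hSp.mul_mem (F.A_Sp (F.sl 0)) (F.Ninv_Sp hp)
    have hαi' : d.al⁻¹ ∈ F.Si (-wi) := by
      rw [hal']
      refine hSi.anti (le_of_eq ?_) (F.AN_Si hp hq (F.sl 0))
      rw [hwi]; ring
    have hz : ∀ i, d.zz i = d.al ^ c * (F.gQ i + F.gY 0 * (F.gA i - F.gN)) * (F.gA i)⁻¹ := by
      intro i
      rw [Dat.zz, div_eq_mul_inv, ← mul_assoc]
      rfl
    have hneg : ∀ {S : ℝ → Set GG}, Filt (KK F.Lr F.tL) S → ∀ {t : ℝ} {b : GG}, b ∈ S t →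
        -b ∈ S t := by
      intro S hS t b hb
      have := hS.mul_mem (hS.alg_mem (-1)) hb
      simpa using this
    have hzp : ∀ i, d.zz i ∈ F.Sp 0 := by
      intro i
      rw [hz]
      have h1 : F.gA i - F.gN ∈ F.Sp 0 := by
        rw [sub_eq_add_neg]; exact hSp.add_mem (F.A_Sp i) (hneg hSp F.N_Sp0)
      have h2 : F.gQ i + F.gY 0 * (F.gA i - F.gN) ∈ F.Sp 0 := by
        apply hSp.add_mem (F.Q_Sp i)
        simpa using hSp.mul_mem (F.Y_Sp 0) h1
      have := hSp.mul_mem (hSp.mul_mem (hSp.pow_mem hαp c) h2) (F.Ainv_Sp hq hpq i)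
      refine hSp.anti ?_ this
      have : 0 ≤ wp * c := by positivity
      linarith
    have hzi : ∀ i, d.zz i ∈ F.Si 0 := by
      intro i
      rw [hz]
      have hA := F.gA_ne hq i
      have h0 : d.al ^ c * (F.gQ i + F.gY 0 * (F.gA i - F.gN)) * (F.gA i)⁻¹
          = d.al ^ c * (F.gQ i * (F.gA i)⁻¹ + F.gY 0 * (1 - F.gN * (F.gA i)⁻¹)) := by
        field_simp
      rw [h0]
      have h1 : 1 - F.gN * (F.gA i)⁻¹ ∈ F.Si 0 := by
        rw [sub_eq_add_neg]
        apply hSi.add_mem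
        · simpa using hSi.alg_mem 1
        · exact hneg hSi (hSi.anti hwi0.le (F.NA_Si hp hq i))
      have h2 : F.gQ i * (F.gA i)⁻¹ + F.gY 0 * (1 - F.gN * (F.gA i)⁻¹) ∈ F.Si (-B) := by
        apply hSi.add_mem
        · simpa using hSi.mul_mem (F.Q_Si i) (F.Ainv_Si hq i)
        · simpa using hSi.mul_mem F.Y0_Si h1
      have := hSi.mul_mem (hSi.pow_mem hαi c) h2
      refine hSi.anti ?_ this
      linarith
    have hΛ0 : 0 ≤ wp + wi := by linarith
    set cq : ℝ := (wp + wi) * c + (wp + wi) with hcq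
    have hcq0 : 0 ≤ cq := by positivity
    have hzq : ∀ i, d.zz i ∈ F.Sq (-cq) := by
      intro i
      rw [hz]
      have h1 : F.gA i - F.gN ∈ F.Sq 0 := by
        rw [sub_eq_add_neg]; exact hSq.add_mem (F.A_Sq i) (hneg hSq F.N_Sq)
      have h2 : F.gQ i + F.gY 0 * (F.gA i - F.gN) ∈ F.Sq 0 := by
        apply hSq.add_mem (F.Q_Sq i)
        simpa using hSq.mul_mem (F.Y_Sq 0) h1
      have := hSq.mul_mem (hSq.mul_mem (hSq.pow_mem hαq c) h2) (F.Ainv_Sq hq i)
      refine hSq.anti (le_of_eq ?_) this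
      rw [hcq, hwi]; ring
    -- Liouville inequalities
    have hLp : Liou (KK F.Lr F.tL) d.al d.zz F.Sp (wp + wi) := by
      intro m
      refine ⟨cq * m, fun D P h1 h2 h3 t ht => ?_⟩
      have h4 := ev_low hSq hΛ0 hcq0 hαq hzq h1 h2
      have h5 := ev_mem hSi hwi0.le hαi hzi P
      have := product_formula F.tL hp hq h3 (by positivity) h4 ht h5
      linarith
    have hLi : Liou (KK F.Lr F.tL) d.al d.zz F.Si (wp + wi) := by
      intro m
      refine ⟨cq * m, fun D P h1 h2 h3 t ht => ?_⟩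
      have h4 := ev_low hSq hΛ0 hcq0 hαq hzq h1 h2
      have h5 := ev_mem hSp hlp.le hαp hzp P
      have := product_formula F.tL hp hq h3 (by positivity) h4 h5 ht
      linarith
    have hYY : ∀ E, d.Y E - d.Y 0 ∈ F.Sp 0 := by
      intro E
      rw [sub_eq_add_neg]
      exact hSp.add_mem (F.Y_Sp E) (hneg hSp (F.Y_Sp 0))
    have hlp' : d.l ∈ JJ hSp hlp.le hαp hzp := by
      intro E
      obtain ⟨P, H, h1, h2⟩ := d.l_trunc E
      refine ⟨P, H, h1, ?_⟩
      rw [h2]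
      have := hSp.mul_mem (hSp.pow_mem hαp d.c) (hSp.mul_mem (hSp.mul_mem
        (hSp.alg_mem (d.cc E)) (hSp.pow_mem hαp E)) (hYY E))
      refine hSp.anti ?_ this
      have : 0 ≤ wp * d.c := by positivity
      linarith
    have hli : d.l ∈ JJ hSi hwi0.le hαi hzi := by
      by_contra hli
      obtain ⟨x, hx⟩ := rational_ratio hSp hSi hlp hwi0 hαp hαi hαp' hαi' d.al_ne hzp hzi
        (inv_inf F.tL) hLp hLi hlp' hli d.l_deg
      apply hirr
      refine ⟨x⁻¹, ?_⟩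
      push_cast
      rw [← hx, hwi]
      rw [inv_div]
      congr 1
      ring
    apply F.false_of_bounded hp hq hpq (B' := wi * c + B)
    intro E
    obtain ⟨P, H, h1, h2⟩ := d.l_trunc E
    have h3 : ev (KK F.Lr F.tL) d.al d.zz P ∈ F.Si (wi * E) := by
      refine mem_JJ_ev hSi hwi0.le hαi hzi hli (H := -H) ?_
      rw [h1]; ring
    have h4 : F.gY E - F.gY 0 = (d.al⁻¹) ^ c * ((algebraMap (KK F.Lr F.tL) GG (d.cc E)⁻¹) *
        (d.al⁻¹) ^ E * ev (KK F.Lr F.tL) d.al d.zz P) := by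
      have e0 := d.al_ne
      have e1 := d.cc_ne E
      rw [h2, map_inv₀]
      have : d.Y E - d.Y 0 = F.gY E - F.gY 0 := rfl
      rw [this]
      have : d.c = c := rfl
      rw [this, inv_pow, inv_pow]
      field_simp
    have h5 : F.gY E - F.gY 0 ∈ F.Si (-(wi * c)) := by
      rw [h4]
      have := hSi.mul_mem (hSi.pow_mem hαi' c) (hSi.mul_mem (hSi.mul_mem
        (hSi.alg_mem (d.cc E)⁻¹) (hSi.pow_mem hαi' E)) h3)
      refine hSi.anti (le_of_eq ?_) this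
      ring
    have h6 : F.gY E = (F.gY E - F.gY 0) + F.gY 0 := by ring
    rw [h6]
    have hwc : 0 ≤ wi * c := by positivity
    apply hSi.add_mem
    · exact hSi.anti (by linarith) h5
    · exact hSi.anti (by linarith) F.Y0_Si

end Fam

/-- **Main theorem.** Let `p, q ≥ 2` be coprime and let `θ` be real with `θ log q / log p` either
irrational or at most `1`. For all `r` and `B` there are `E` and `ε > 0` such that: if integers
`y 0, ..., y E` are linked by affine relations `p^L y (j+1) = q^(o i) y j + Q i` with `i = s j`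
among `r` possible ones, where `|o i - θ L| ≤ ε L`, `|Q i| ≤ e^(B L)`, `|y 0| ≤ e^(B L)` and
`ε L ≥ 1`, then two of the integers `y 0, ..., y E` are equal. -/
theorem affine_blocks {p q : ℕ} (hp : 2 ≤ p) (hq : 2 ≤ q) (hpq : IsCoprime (q : ℤ) (p : ℤ))
    (r : ℕ) {θ : ℝ}
    (hθ : θ * Real.log q ≤ Real.log p ∨ Irrational (θ * Real.log q / Real.log p)) {B : ℝ}
    (hB : 0 ≤ B) :
    ∃ E : ℕ, ∃ ε : ℝ, 0 < ε ∧ ∀ (L : ℕ) (o : Fin r → ℕ) (Q : Fin r → ℤ) (s : ℕ → Fin r)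
      (y : ℕ → ℤ), 1 ≤ ε * L → (∀ i, |(o i : ℝ) - θ * L| ≤ ε * L) →
      (∀ i, |(Q i : ℝ)| ≤ Real.exp (B * L)) → |(y 0 : ℝ)| ≤ Real.exp (B * L) →
      (∀ j < E, (p : ℤ) ^ L * y (j + 1) = (q : ℤ) ^ (o (s j)) * y j + Q (s j)) →
      ∃ i j, i < j ∧ j ≤ E ∧ y i = y j := by
  by_contra hcon
  push Not at hcon
  have h := fun n : ℕ => hcon n (1 / ((n : ℝ) + 1)) (by positivity)
  choose L o Q s y h1 h2 h3 h4 h5 h6 using h
  exact Fam.contra ⟨L, o, Q, s, y, h1, h2, h3, h4, h5, h6⟩ hp hq hpq hθ hB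

end Pool.Agent.TH932.AT
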